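import Pool.Agent.N496.LT.Stm


/-!
# Project LT, proposition P1 (helper499): growth of the number of top cycles from a doubled cycle
-/

set_option autoImplicit false

noncomputable section

namespace Pool.Agent.N496.LT

open Module Pool.Agent.W907.SG Pool.Agent.W461.SGN

namespace P1aux

/-! ### Linear algebra -/

section lin

variable {F M : Type} [Field F] [AddCommGroup M] [Module F M] [FiniteDimensional F M]

theorem ker_mul_le (A B : Module.End F M) : finrank F (LinearMap.ker (A * B)) ≤
    finrank F (LinearMap.ker A) + finrank F (LinearMap.ker B) := by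
  have h1 := LinearMap.finrank_range_add_finrank_ker
    (B.comp (LinearMap.ker (A * B)).subtype)
  have h2 : finrank F (LinearMap.range (B.comp (LinearMap.ker (A * B)).subtype)) ≤
      finrank F (LinearMap.ker A) := by
    apply Submodule.finrank_mono
    rintro _ ⟨x, rfl⟩
    exact x.2
  have h3 : finrank F (LinearMap.ker (B.comp (LinearMap.ker (A * B)).subtype)) ≤
      finrank F (LinearMap.ker B) := by
    let f : LinearMap.ker (B.comp (LinearMap.ker (A * B)).subtype) →ₗ[F] LinearMap.ker B :=
      LinearMap.codRestrict _ ((LinearMap.ker (A * B)).subtype.comp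
        (LinearMap.ker (B.comp (LinearMap.ker (A * B)).subtype)).subtype) (fun x => x.2)
    refine LinearMap.finrank_le_finrank_of_injective (f := f) ?_
    intro x y hxy
    have h4 := congrArg Subtype.val hxy
    apply Subtype.ext
    apply Subtype.ext
    exact h4
  omega

theorem ker_prod_le (l : List (Module.End F M)) : finrank F (LinearMap.ker l.prod) ≤
    (l.map fun A => finrank F (LinearMap.ker A)).sum := by
  induction l with
  | nil =>
    rw [List.prod_nil, List.map_nil, List.sum_nil]
    have : LinearMap.ker (1 : Module.End F M) = ⊥ := by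
      rw [LinearMap.ker_eq_bot]
      exact fun x y h => h
    rw [this, finrank_bot]
  | cons A l ih =>
    rw [List.prod_cons, List.map_cons, List.sum_cons]
    exact (ker_mul_le A l.prod).trans (by omega)

end lin

/-! ### Invariant functions -/

section inv

variable {F Y : Type} [Field F] [Fintype Y]

theorem inv_dim (τ : Y → Y) (K : ℕ)
    (h : ∀ y, ∀ i j, i < K → j < K → τ^[i] y = τ^[j] y → i = j) :
    K * finrank F (LinearMap.ker (LinearMap.funLeft F F τ - 1 : Module.End F (Y → F))) ≤
      Fintype.card Y := by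
  classical
  obtain ⟨Q, hQ, q, hq1, hq2⟩ : ∃ (Q : Type) (_ : Fintype Q) (q : Y → Q),
      Function.Surjective q ∧ (∀ y, q (τ y) = q y) ∧
        ∀ f : Y → F, (∀ y, f (τ y) = f y) → ∃ g : Q → F, ∀ y, g (q y) = f y := by
    have : Finite (Quot fun x y : Y => y = τ x) :=
      Finite.of_surjective (Quot.mk _) Quot.mk_surjective
    refine ⟨Quot fun x y : Y => y = τ x, Fintype.ofFinite _, Quot.mk _, Quot.mk_surjective,
      fun y => (Quot.sound (r := fun x y : Y => y = τ x) rfl).symm, fun f hf => ⟨Quot.lift f ?_, fun y => rfl⟩⟩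
    intro x y hxy
    rw [hxy, hf]
  obtain ⟨hq2, hq3⟩ := hq2
  have h1 : finrank F (LinearMap.ker (LinearMap.funLeft F F τ - 1 : Module.End F (Y → F))) ≤
      Fintype.card Q := by
    have h2 : LinearMap.ker (LinearMap.funLeft F F τ - 1 : Module.End F (Y → F)) ≤
        LinearMap.range (LinearMap.funLeft F F q) := by
      intro f hf
      have hf' : ∀ y, f (τ y) = f y := by
        intro y
        have h3 := congrFun (LinearMap.mem_ker.1 hf) y
        have h4 : f (τ y) - f y = 0 := h3
        exact sub_eq_zero.1 h4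
      obtain ⟨g, hg⟩ := hq3 f hf'
      exact ⟨g, funext hg⟩
    refine (Submodule.finrank_mono h2).trans ?_
    refine (LinearMap.finrank_range_le _).trans ?_
    rw [Module.finrank_fintype_fun_eq_card]
  have h2 : K * Fintype.card Q ≤ Fintype.card Y := by
    have hqi : ∀ i y, q (τ^[i] y) = q y := by
      intro i
      induction i with
      | zero => intro y; rfl
      | succ i ih => intro y; rw [Function.iterate_succ_apply', hq2, ih]
    obtain ⟨s, hs⟩ := hq1.hasRightInverse
    have hinj : Function.Injective fun x : Fin K × Q => τ^[x.1] (s x.2) := by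
      rintro ⟨i, c⟩ ⟨i', c'⟩ hh
      simp only at hh
      have h3 : c = c' := by
        have h4 := congrArg q hh
        rw [hqi, hqi, hs, hs] at h4
        exact h4
      subst h3
      have h5 := h _ _ _ i.2 i'.2 hh
      rw [Fin.ext h5]
    have h3 := Fintype.card_le_of_injective _ hinj
    rwa [Fintype.card_prod, Fintype.card_fin] at h3
  exact (Nat.mul_le_mul_left K h1).trans h2

end inv

/-! ### The dihedral operators -/

section dihedral

variable {F M : Type} [Field F] [AddCommGroup M] [Module F M] [FiniteDimensional F M]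

theorem ker_dihedral (S T : Module.End F M) (hS : S * S = 1) (hT : T * T = 1) (h2 : (2 : F) ≠ 0) :
    finrank F (LinearMap.ker ((2 : F)⁻¹ • (1 - S) + (2 : F)⁻¹ • (1 - T))) ≤
      2 * finrank F (LinearMap.ker (S * T - 1)) := by
  have h1 : LinearMap.ker ((2 : F)⁻¹ • (1 - S) + (2 : F)⁻¹ • (1 - T)) ≤
      LinearMap.ker ((S * T - 1) * (S * T - 1)) := by
    intro m hm
    have e1 : (2 : F)⁻¹ • (m - S m) + (2 : F)⁻¹ • (m - T m) = 0 := LinearMap.mem_ker.1 hm
    have e2 : S m + T m = m + m := by
      have e3 : (2 : F) • ((2 : F)⁻¹ • (m - S m) + (2 : F)⁻¹ • (m - T m)) = 0 := by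
        rw [e1, smul_zero]
      rw [smul_add, smul_smul, smul_smul, mul_inv_cancel₀ h2, one_smul, one_smul] at e3
      have e4 : (m + m) - (S m + T m) = 0 := by
        rw [← e3]; abel
      exact (sub_eq_zero.1 e4).symm
    have hSS : ∀ x, S (S x) = x := fun x => by
      have := congrArg (fun f : Module.End F M => f x) hS
      exact this
    have hTT : ∀ x, T (T x) = x := fun x => by
      have := congrArg (fun f : Module.End F M => f x) hT
      exact this
    have e5 : m + S (T m) = S m + S m := by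
      have := congrArg S e2
      rw [map_add, hSS, map_add] at this
      exact this
    have e6 : T (S m) + m = T m + T m := by
      have := congrArg T e2
      rw [map_add, hTT, map_add] at this
      exact this
    have e7 : S (T m) + T (S m) = m + m := by
      have e8 : (S (T m) + T (S m)) + (m + m) = (m + m) + (m + m) := by
        calc (S (T m) + T (S m)) + (m + m) = (m + S (T m)) + (T (S m) + m) := by abel
          _ = (S m + T m) + (S m + T m) := by rw [e5, e6]; abel
          _ = _ := by rw [e2]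
      exact add_right_cancel e8
    have e9 : S (T (S (T m))) + m = S (T m) + S (T m) := by
      have := congrArg (fun x => S (T x)) e7
      simp only [map_add] at this
      rw [hTT, hSS] at this
      exact this
    rw [LinearMap.mem_ker]
    show S (T (S (T m) - m)) - (S (T m) - m) = 0
    rw [map_sub, map_sub]
    have : S (T (S (T m))) - S (T m) - (S (T m) - m) =
        (S (T (S (T m))) + m) - (S (T m) + S (T m)) := by abel
    rw [this, e9, sub_self]
  refine (Submodule.finrank_mono h1).trans ?_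
  have := ker_mul_le (S * T - 1) (S * T - 1)
  omega

end dihedral

/-! ### Products of commuting generators -/

section HU

variable {V : Type} (G : SimpleGraph V)

open Classical in
/-- the products of the sublists -/
def HU : List V → Finset (W G)
  | [] => {1}
  | u :: l => HU l ∪ (HU l).image fun h => (cox G).simple u * h

theorem mem_HU_cons {u : V} {l : List V} {h : W G} : h ∈ HU G (u :: l) ↔
    h ∈ HU G l ∨ ∃ h' ∈ HU G l, (cox G).simple u * h' = h := by
  classical
  simp only [HU, Finset.mem_union, Finset.mem_image]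

theorem HU_card (l : List V) : (HU G l).card ≤ 2 ^ l.length := by
  classical
  induction l with
  | nil => simp [HU]
  | cons u l ih =>
    unfold HU
    refine (Finset.card_union_le _ _).trans ?_
    have := Finset.card_image_le (s := HU G l) (f := fun h => (cox G).simple u * h)
    rw [List.length_cons, pow_succ]
    omega

theorem one_mem_HU (l : List V) : (1 : W G) ∈ HU G l := by
  induction l with
  | nil => simp [HU]
  | cons u l ih => exact (mem_HU_cons G).2 (Or.inl ih)

theorem comm_HU {u : V} {l : List V} (h : ∀ x ∈ l, Commute ((cox G).simple u) ((cox G).simple x)) :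
    ∀ g ∈ HU G l, Commute ((cox G).simple u) g := by
  induction l with
  | nil =>
    intro g hg
    simp only [HU, Finset.mem_singleton] at hg
    rw [hg]
    exact Commute.one_right _
  | cons x l ih =>
    intro g hg
    have ih' := ih (fun y hy => h y (List.mem_cons_of_mem _ hy))
    rcases (mem_HU_cons G).1 hg with h1 | ⟨g', h1, rfl⟩
    · exact ih' g h1
    · exact (h x List.mem_cons_self).mul_right (ih' g' h1)

theorem HU_simple {l : List V} (h : l.Pairwise fun x y => Commute ((cox G).simple x) ((cox G).simple y)) :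
    ∀ g ∈ HU G l, ∀ x ∈ l, g * (cox G).simple x ∈ HU G l := by
  induction l with
  | nil => intro g _ x hx; simp at hx
  | cons u l ih =>
    rw [List.pairwise_cons] at h
    intro g hg x hx
    rcases List.mem_cons.1 hx with rfl | hx
    · rcases (mem_HU_cons G).1 hg with h1 | ⟨g', h1, rfl⟩
      · rw [← (comm_HU G h.1 g h1).eq]
        exact (mem_HU_cons G).2 (Or.inr ⟨g, h1, rfl⟩)
      · rw [(comm_HU G h.1 g' h1).eq, mul_assoc, simple_mul_self, mul_one]
        exact (mem_HU_cons G).2 (Or.inl h1)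
    · rcases (mem_HU_cons G).1 hg with h1 | ⟨g', h1, rfl⟩
      · exact (mem_HU_cons G).2 (Or.inl (ih h.2 g h1 x hx))
      · rw [mul_assoc]
        exact (mem_HU_cons G).2 (Or.inr ⟨_, ih h.2 g' h1 x hx, rfl⟩)

theorem HU_sq {l : List V} (h : l.Pairwise fun x y => Commute ((cox G).simple x) ((cox G).simple y)) :
    ∀ g ∈ HU G l, g * g = 1 := by
  induction l with
  | nil =>
    intro g hg
    simp only [HU, Finset.mem_singleton] at hg
    rw [hg, mul_one]
  | cons u l ih =>
    rw [List.pairwise_cons] at h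
    intro g hg
    rcases (mem_HU_cons G).1 hg with h1 | ⟨g', h1, rfl⟩
    · exact ih h.2 g h1
    · have hc := comm_HU G h.1 g' h1
      calc (cox G).simple u * g' * ((cox G).simple u * g')
          = g' * ((cox G).simple u * (cox G).simple u) * g' := by
            nth_rewrite 1 [hc.eq]
            simp only [mul_assoc]
        _ = 1 := by rw [simple_mul_self, mul_one, ih h.2 g' h1]

theorem HU_mul {l : List V} (h : l.Pairwise fun x y => Commute ((cox G).simple x) ((cox G).simple y)) :
    ∀ g ∈ HU G l, ∀ g' ∈ HU G l, g * g' ∈ HU G l := by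
  induction l with
  | nil =>
    intro g hg g' hg'
    simp only [HU, Finset.mem_singleton] at hg hg' ⊢
    rw [hg, hg', mul_one]
  | cons u l ih =>
    rw [List.pairwise_cons] at h
    intro g hg g' hg'
    rcases (mem_HU_cons G).1 hg with h1 | ⟨k, h1, rfl⟩ <;>
      rcases (mem_HU_cons G).1 hg' with h2 | ⟨k', h2, rfl⟩
    · exact (mem_HU_cons G).2 (Or.inl (ih h.2 _ h1 _ h2))
    · refine (mem_HU_cons G).2 (Or.inr ⟨_, ih h.2 _ h1 _ h2, ?_⟩)
      rw [← mul_assoc, (comm_HU G h.1 g h1).eq, mul_assoc]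
    · refine (mem_HU_cons G).2 (Or.inr ⟨_, ih h.2 _ h1 _ h2, ?_⟩)
      rw [mul_assoc]
    · refine (mem_HU_cons G).2 (Or.inl ?_)
      have e : (cox G).simple u * k * ((cox G).simple u * k') = k * k' := by
        rw [(comm_HU G h.1 k h1).eq, mul_assoc, ← mul_assoc _ _ k', simple_mul_self, one_mul]
      rw [e]
      exact ih h.2 _ h1 _ h2

/-- the sign -/
def sgn : W G →* ℤˣ :=
  (cox G).toCoxeterSystem.lift ⟨fun _ => -1, liftable G _ (by intro v; simp)
    (by intro u v _; exact mul_comm _ _)⟩

theorem sgn_simple (v : V) : sgn G ((cox G).simple v) = -1 :=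
  CoxeterSystem.lift_apply_simple _ _ v

/-- the product of two generators which do not commute has infinite order -/
theorem pow_ne {s t : V} (hne : s ≠ t) (hadj : ¬ G.Adj s t) (k : ℕ) (hk : k ≠ 0) :
    ((cox G).simple s * (cox G).simple t) ^ k ≠ 1 := by
  classical
  intro h
  obtain ⟨φ, hφ⟩ : ∃ φ : W G →* DihedralGroup 0, ∀ v, φ ((cox G).simple v) =
      if v = s then DihedralGroup.sr 0 else if v = t then DihedralGroup.sr 1 else 1 := by
    refine ⟨(cox G).toCoxeterSystem.lift ⟨fun v => if v = s then DihedralGroup.sr 0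
      else if v = t then DihedralGroup.sr 1 else 1, liftable G _ ?_ ?_⟩,
      fun v => CoxeterSystem.lift_apply_simple _ _ v⟩
    · intro v
      split_ifs
      · exact DihedralGroup.sr_mul_self 0
      · exact DihedralGroup.sr_mul_self 1
      · exact one_mul 1
    · intro u v huv
      by_cases h1 : u = s
      · by_cases h2 : v = s
        · exact absurd (h1.trans h2.symm) huv.ne
        · by_cases h3 : v = t
          · rw [h1, h3] at huv
            exact absurd huv hadj
          · simp [h2, h3]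
      · by_cases h2 : u = t
        · by_cases h3 : v = s
          · rw [h2, h3] at huv
            exact absurd huv.symm hadj
          · by_cases h4 : v = t
            · exact absurd (h2.trans h4.symm) huv.ne
            · simp [h3, h4]
        · simp [h1, h2]
  have h1 := congrArg φ h
  rw [map_pow, map_mul, map_one, hφ, hφ, if_pos rfl, if_neg hne.symm, if_pos rfl,
    DihedralGroup.sr_mul_sr, sub_zero, DihedralGroup.r_one_pow] at h1
  have h2 : (k : ZMod 0) = 0 := by
    have : (DihedralGroup.r (k : ZMod 0)) = DihedralGroup.r 0 := h1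
    exact DihedralGroup.r.inj this
  have h3 : (k : ℤ) = 0 := h2
  exact hk (by exact_mod_cast h3)

end HU

/-! ### Finite sets with an action -/

/-- common eigenspace for the eigenvalue `-1` -/
def Neg {V F M : Type} [Field F] [AddCommGroup M] [Module F M] (ρ : V → M →ₗ[F] M) (B : Set V) :
    Submodule F M where
  carrier := {m | ∀ u ∈ B, ρ u m = -m}
  add_mem' := by
    intro m m' h h' u hu
    rw [map_add, h u hu, h' u hu, neg_add]
  zero_mem' := by
    intro u _
    rw [map_zero, neg_zero]
  smul_mem' := by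
    intro c m h u hu
    rw [map_smul, h u hu, smul_neg]

theorem mem_Neg {V F M : Type} [Field F] [AddCommGroup M] [Module F M] {ρ : V → M →ₗ[F] M}
    {B : Set V} {m : M} : m ∈ Neg ρ B ↔ ∀ u ∈ B, ρ u m = -m := Iff.rfl

section fset

variable {V : Type} {G : SimpleGraph V} {E : Finset (W G)} {Y : Type} [Fintype Y] {F : Type}
  [Field F]

theorem dim_neg (P : FSet G E Y) (l : List V)
    (hc : l.Pairwise fun x y => Commute ((cox G).simple x) ((cox G).simple y))
    (hE : ∀ g ∈ HU G l, g ≠ 1 → g ∈ E) :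
    Fintype.card Y ≤ 2 ^ l.length * finrank F (Neg (pull F P.a) {x | x ∈ l}) := by
  classical
  obtain ⟨r, hr0⟩ : ∃ r : Setoid Y, ∀ x y, r x y ↔ ∃ h ∈ HU G l, P.ev x h = y :=
    ⟨⟨fun x y => ∃ h ∈ HU G l, P.ev x h = y,
      ⟨fun x => ⟨1, one_mem_HU G l, P.ev_one x⟩,
      fun {x y} ⟨h, hh, e⟩ => ⟨h, hh, by rw [← e, ← P.ev_mul, HU_sq G hc h hh, P.ev_one]⟩,
      fun {x y z} ⟨h, hh, e⟩ ⟨h', hh', e'⟩ =>
        ⟨h * h', HU_mul G hc h hh h' hh', by rw [P.ev_mul, e, e']⟩⟩⟩, fun x y => Iff.rfl⟩
  have hr : ∀ y : Y, ∃ h ∈ HU G l, P.ev (Quotient.out (Quotient.mk r y)) h = y :=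
    fun y => (hr0 _ _).1 (Quotient.mk_out y)
  choose h hh he using hr
  have huniq : ∀ x, ∀ g ∈ HU G l, ∀ g' ∈ HU G l, P.ev x g = P.ev x g' → g = g' := by
    intro x g hg g' hg' e
    by_contra hne
    have e1 : P.ev x (g * g') = x := by
      rw [P.ev_mul, e, ← P.ev_mul, HU_sq G hc g' hg', P.ev_one]
    have h2 : g * g' ≠ 1 := fun h3 => hne (by
      calc g = g * (g' * g') := by rw [HU_sq G hc g' hg', mul_one]
        _ = g' := by rw [← mul_assoc, h3, one_mul])
    exact P.free _ (hE _ (HU_mul G hc g hg g' hg') h2) x e1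
  have hfin : Finite (Quotient r) := Finite.of_surjective (Quotient.mk r) Quotient.mk_surjective
  obtain ⟨hfin'⟩ : Nonempty (Fintype (Quotient r)) := ⟨Fintype.ofFinite _⟩
  have hsm : ∀ u ∈ l, (cox G).simple u ∈ HU G l := fun u hu => by
    have := HU_simple G hc 1 (one_mem_HU G l) u hu
    rwa [one_mul] at this
  have hcl : ∀ u ∈ l, ∀ y, Quotient.mk r (P.a u y) = Quotient.mk r y := by
    intro u hu y
    apply Quotient.sound
    exact (hr0 _ _).2 ⟨_, hsm u hu, by rw [P.ev_simple, P.inv]⟩
  have hhu : ∀ u ∈ l, ∀ y, h (P.a u y) = h y * (cox G).simple u := by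
    intro u hu y
    apply huniq (Quotient.out (Quotient.mk r y)) _ _ _ (HU_simple G hc _ (hh y) u hu)
    · rw [P.ev_mul, he y, P.ev_simple]
      have := he (P.a u y)
      rwa [hcl u hu y] at this
    · exact hh _
  obtain ⟨χ, hχ⟩ : ∃ χ : Y → F, ∀ y, χ y = (((sgn G (h y) : ℤˣ) : ℤ) : F) := ⟨_, fun _ => rfl⟩
  have hχ0 : ∀ y, χ y ≠ 0 := by
    intro y
    rw [hχ]
    rcases Int.units_eq_one_or (sgn G (h y)) with e | e <;> rw [e] <;> simp
  have hχu : ∀ u ∈ l, ∀ y, χ (P.a u y) = - χ y := by
    intro u hu y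
    rw [hχ, hχ, hhu u hu y, map_mul, sgn_simple]
    push_cast
    ring
  have h1 : Fintype.card (Quotient r) ≤ finrank F (Neg (pull F P.a) {x | x ∈ l}) := by
    let Φ : (Quotient r → F) →ₗ[F] (Neg (pull F P.a) {x | x ∈ l}) :=
      { toFun := fun g => ⟨fun y => χ y * g (Quotient.mk r y), by
          intro u hu
          funext y
          show χ (P.a u y) * g (Quotient.mk r (P.a u y)) = -(χ y * g (Quotient.mk r y))
          rw [hχu u hu y, hcl u hu y, neg_mul]⟩
        map_add' := by
          intro g g'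
          apply Subtype.ext
          funext y
          exact mul_add _ _ _
        map_smul' := by
          intro c g
          apply Subtype.ext
          funext y
          show χ y * (c * g (Quotient.mk r y)) = c * (χ y * g (Quotient.mk r y))
          ring }
    have hinj : Function.Injective Φ := by
      intro g g' hgg
      funext c
      obtain ⟨y, rfl⟩ := Quotient.mk_surjective c
      have e1 := congrFun (congrArg Subtype.val hgg) y
      exact mul_left_cancel₀ (hχ0 y) e1
    have := LinearMap.finrank_le_finrank_of_injective hinj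
    rwa [Module.finrank_fintype_fun_eq_card] at this
  have h2 : Fintype.card Y ≤ (HU G l).card * Fintype.card (Quotient r) := by
    have hinj : Function.Injective fun y : Y => ((⟨h y, hh y⟩ : HU G l), Quotient.mk r y) := by
      intro y y' hyy
      simp only [Prod.mk.injEq, Subtype.mk.injEq] at hyy
      rw [← he y, ← he y', hyy.1, hyy.2]
    have := Fintype.card_le_of_injective _ hinj
    rwa [Fintype.card_prod, Fintype.card_coe] at this
  refine h2.trans (Nat.mul_le_mul (HU_card G l) h1)

theorem ev_iter (P : FSet G E Y) (g : W G) (i : ℕ) (y : Y) :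
    (fun y => P.ev y g)^[i] y = P.ev y (g ^ i) := by
  induction i with
  | zero => rw [pow_zero, P.ev_one]; rfl
  | succ i ih => rw [Function.iterate_succ_apply', ih, pow_succ, P.ev_mul]

theorem pull_sq (P : FSet G E Y) (v : V) :
    (pull F P.a v : Module.End F (Y → F)) * pull F P.a v = 1 := by
  ext1 f
  funext y
  show f (P.a v (P.a v y)) = f y
  rw [P.inv]

theorem pull_comm (P : FSet G E Y) {u v : V} (h : G.Adj u v) :
    Commute (pull F P.a u : Module.End F (Y → F)) (pull F P.a v) := by
  show _ * _ = _ * _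
  ext1 f
  funext y
  show f (P.a v (P.a u y)) = f (P.a u (P.a v y))
  rw [P.comm u v h]

theorem dim_pair (P : FSet G E Y) (s t : V) (K : ℕ) (h2 : (2 : F) ≠ 0)
    (hE : ∀ k, k ≠ 0 → k < K → ((cox G).simple s * (cox G).simple t) ^ k ∈ E) :
    K * finrank F (LinearMap.ker ((2 : F)⁻¹ • (1 - pull F P.a s) + (2 : F)⁻¹ • (1 - pull F P.a t) :
      Module.End F (Y → F))) ≤ 2 * Fintype.card Y := by
  have h1 := ker_dihedral (pull F P.a s : Module.End F (Y → F)) (pull F P.a t) (pull_sq P s)
    (pull_sq P t) h2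
  have e1 : (pull F P.a s : Module.End F (Y → F)) * pull F P.a t =
      LinearMap.funLeft F F fun y => P.ev y ((cox G).simple s * (cox G).simple t) := by
    ext1 f
    funext y
    show f (P.a t (P.a s y)) = f (P.ev y ((cox G).simple s * (cox G).simple t))
    rw [P.ev_mul, P.ev_simple, P.ev_simple]
  rw [e1] at h1
  have h3 := inv_dim (F := F) (fun y => P.ev y ((cox G).simple s * (cox G).simple t)) K (by
    have key : ∀ y, ∀ i j, i ≤ j → j < K →
        (fun y => P.ev y ((cox G).simple s * (cox G).simple t))^[i] y =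
          (fun y => P.ev y ((cox G).simple s * (cox G).simple t))^[j] y → i = j := by
      intro y i j hij hj e
      rw [ev_iter, ev_iter] at e
      by_contra hne
      obtain ⟨k, rfl⟩ := Nat.exists_eq_add_of_le hij
      rw [pow_add, P.ev_mul] at e
      exact P.free _ (hE k (by omega) (by omega)) _ e.symm
    intro y i j hi hj e
    rcases le_total i j with h | h
    · exact key y i j h hj e
    · exact (key y j i h hi e.symm).symm)
  calc K * _ ≤ K * (2 * _) := Nat.mul_le_mul_left K h1
    _ = 2 * (K * _) := by ring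
    _ ≤ 2 * Fintype.card Y := Nat.mul_le_mul_left 2 h3

end fset

/-! ### Sorted products -/

section sp

variable {n : ℕ} {A : Type} [Monoid A]

/-- sorted product -/
def sp (f : Fin n → A) (σ : Finset (Fin n)) : A := ((σ.sort (· ≤ ·)).map f).prod

theorem sp_empty (f : Fin n → A) : sp f ∅ = 1 := by
  unfold sp
  simp

theorem sp_insert {f : Fin n → A} {σ : Finset (Fin n)} {v : Fin n} (hv : v ∉ σ)
    (hc : ∀ x ∈ insert v σ, ∀ y ∈ insert v σ, Commute (f x) (f y)) :
    sp f (insert v σ) = sp f σ * f v := by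
  have hp : ((insert v σ).sort (· ≤ ·)).Perm ((σ.sort (· ≤ ·)) ++ [v]) := by
    apply List.perm_of_nodup_nodup_toFinset_eq (Finset.sort_nodup _ _)
    · rw [List.nodup_append]
      refine ⟨Finset.sort_nodup _ _, List.nodup_singleton v, ?_⟩
      intro a ha b hb
      rw [List.mem_singleton] at hb
      rw [Finset.mem_sort] at ha
      rintro rfl
      rw [hb] at ha
      exact hv ha
    · ext x
      simp [or_comm]
  unfold sp
  have h := (hp.map f).prod_eq' (by
    rw [List.pairwise_map]
    apply List.pairwise_of_forall_mem_list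
    intro x hx y hy
    rw [Finset.mem_sort] at hx hy
    exact hc x hx y hy)
  rw [List.map_append, List.prod_append, List.map_singleton, List.prod_singleton] at h
  exact h

theorem sp_congr {f g : Fin n → A} {σ : Finset (Fin n)} (h : ∀ x ∈ σ, f x = g x) :
    sp f σ = sp g σ := by
  unfold sp
  congr 1
  apply List.map_congr_left
  intro x hx
  rw [Finset.mem_sort] at hx
  exact h x hx

theorem sp_commute {f : Fin n → A} {σ : Finset (Fin n)} {a : A} (h : ∀ x ∈ σ, Commute a (f x)) :
    Commute a (sp f σ) := by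
  unfold sp
  apply Commute.list_prod_right
  intro y hy
  obtain ⟨x, hx, rfl⟩ := List.mem_map.1 hy
  rw [Finset.mem_sort] at hx
  exact h x hx

end sp

/-! ### The signs -/

section signs

variable {n : ℕ} {V : Type} [LinearOrder V]

/-- number of inversions -/
def iv (f : Fin n → V) (σ : Finset (Fin n)) : ℕ :=
  ∑ v ∈ σ, ∑ w ∈ σ, if v < w ∧ f w < f v then 1 else 0

theorem iv_congr {f g : Fin n → V} {σ : Finset (Fin n)} (h : ∀ x ∈ σ, f x = g x) :
    iv f σ = iv g σ := by
  unfold iv
  refine Finset.sum_congr rfl fun v hv => Finset.sum_congr rfl fun w hw => ?_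
  rw [h v hv, h w hw]

theorem iv_insert (f : Fin n → V) {τ : Finset (Fin n)} {v : Fin n} (hv : v ∉ τ) :
    iv f (insert v τ) = iv f τ + ∑ w ∈ τ, ((if v < w ∧ f w < f v then 1 else 0) +
      (if w < v ∧ f v < f w then 1 else 0)) := by
  unfold iv
  rw [Finset.sum_insert hv, Finset.sum_insert hv]
  have h1 : ∀ x ∈ τ, ∑ w ∈ insert v τ, (if x < w ∧ f w < f x then 1 else 0) =
      (if x < v ∧ f v < f x then 1 else 0) + ∑ w ∈ τ, (if x < w ∧ f w < f x then 1 else 0) :=
    fun x _ => Finset.sum_insert hv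
  rw [Finset.sum_congr rfl h1, Finset.sum_add_distrib, Finset.sum_add_distrib]
  simp only [lt_irrefl, false_and, if_false]
  ring

theorem sg_prod {W : Type} [LinearOrder W] (v : W) (T : Finset W) :
    sg v T = ∏ w ∈ T, if w < v then (-1 : ℤ) else 1 := by
  unfold sg
  rw [Finset.prod_ite, Finset.prod_const, Finset.prod_const_one, mul_one]

theorem sign_insert (f : Fin n → V) (hf : Function.Injective f) {τ : Finset (Fin n)} {v : Fin n}
    (hv : v ∉ τ) : (-1 : ℤ) ^ (iv f (insert v τ)) * sg (f v) (τ.image f) =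
      (-1) ^ (iv f τ) * sg v τ := by
  rw [iv_insert f hv, pow_add, sg_prod, sg_prod, Finset.prod_image (fun x _ y _ h => hf h),
    ← Finset.prod_pow_eq_pow_sum, mul_assoc, ← Finset.prod_mul_distrib]
  congr 1
  refine Finset.prod_congr rfl fun w hw => ?_
  have hne : w ≠ v := fun h => hv (h ▸ hw)
  rcases lt_or_gt_of_ne hne with h | h
  · have h1 : ¬ (v < w ∧ f w < f v) := fun h2 => absurd h2.1 (not_lt.2 h.le)
    rw [if_neg h1, if_pos h]
    rcases lt_or_gt_of_ne (fun e => hne (hf e) : f w ≠ f v) with h3 | h3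
    · rw [if_pos h3, if_neg (fun h4 => absurd h4.2 (not_lt.2 h3.le))]
      norm_num
    · rw [if_neg (not_lt.2 h3.le), if_pos ⟨h, h3⟩]
      norm_num
  · have h1 : ¬ (w < v ∧ f v < f w) := fun h2 => absurd h2.1 (not_lt.2 h.le)
    rw [if_neg h1, if_neg (not_lt.2 h.le)]
    by_cases h3 : f w < f v
    · rw [if_pos h3, if_pos ⟨h, h3⟩]
      norm_num
    · rw [if_neg h3, if_neg (fun h4 => h3 h4.2)]
      norm_num

end signs

/-! ### The operators -/

section ops

variable {V F M : Type} [Field F] [AddCommGroup M] [Module F M] {G : SimpleGraph V} {d : ℕ}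
  (X : Dbl F G d) (ρ : V → Module.End F M)

/-- all the lifts of the set are adjacent -/
def Gd (σ : Finset (Fin X.n)) : Prop :=
  ∀ v ∈ σ, ∀ w ∈ σ, v ≠ w → ∀ a b, G.Adj (X.j v a) (X.j w b)

/-- the projection to an eigenspace -/
def Ew (v : Fin X.n) (b : Bool) : Module.End F M :=
  if v ∈ X.U then 1 else (2 : F)⁻¹ • (1 - ρ (X.j v b))

/-- the sum of the two projections -/
def Lw (v : Fin X.n) : Module.End F M := if v ∈ X.U then 1 else Ew X ρ v true + Ew X ρ v false

/-- the projection to a common eigenspace -/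
def EE (σ : Finset (Fin X.n)) (e : Fin X.n → Bool) : Module.End F M :=
  sp (fun v => Ew X ρ v (e v)) σ

/-- the product of the sums -/
def LL (σ : Finset (Fin X.n)) : Module.End F M := sp (fun v => Lw X ρ v) σ

/-- the common eigenspace for the vertices with one lift -/
def NN (σ : Finset (Fin X.n)) : Submodule F M := Neg ρ {x | ∃ u ∈ σ, u ∈ X.U ∧ x = X.j u true}

variable {X ρ}

theorem Ew_congr {v : Fin X.n} {a b : Bool} (h : X.j v a = X.j v b) : Ew X ρ v a = Ew X ρ v b := by
  unfold Ew
  rw [h]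

theorem EE_congr {σ : Finset (Fin X.n)} {e e' : Fin X.n → Bool}
    (h : ∀ v ∈ σ, X.j v (e v) = X.j v (e' v)) : EE X ρ σ e = EE X ρ σ e' :=
  sp_congr fun v hv => Ew_congr (h v hv)

theorem rho_Ew (hcomm : ∀ x y, G.Adj x y → Commute (ρ x) (ρ y)) {x : V} {v : Fin X.n} {b : Bool}
    (h : v ∉ X.U → G.Adj x (X.j v b)) : Commute (ρ x) (Ew X ρ v b) := by
  unfold Ew
  split_ifs with hU
  · exact Commute.one_right _
  · exact ((Commute.one_right _).sub_right (hcomm _ _ (h hU))).smul_right _

theorem rho_Lw (hcomm : ∀ x y, G.Adj x y → Commute (ρ x) (ρ y)) {x : V} {v : Fin X.n}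
    (h : v ∉ X.U → ∀ b, G.Adj x (X.j v b)) : Commute (ρ x) (Lw X ρ v) := by
  unfold Lw
  split_ifs with hU
  · exact Commute.one_right _
  · exact (rho_Ew hcomm fun _ => h hU true).add_right (rho_Ew hcomm fun _ => h hU false)

theorem Ew_comm (hcomm : ∀ x y, G.Adj x y → Commute (ρ x) (ρ y)) {σ : Finset (Fin X.n)}
    (hσ : Gd X σ) {v w : Fin X.n} (hv : v ∈ σ) (hw : w ∈ σ) (hne : v ≠ w) (a b : Bool) :
    Commute (Ew X ρ v a) (Ew X ρ w b) := by
  have h1 : Ew X ρ v a = if v ∈ X.U then 1 else (2 : F)⁻¹ • (1 - ρ (X.j v a)) := rfl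
  rw [h1]
  split_ifs
  · exact Commute.one_left _
  · exact ((Commute.one_left _).sub_left
      (rho_Ew hcomm fun _ => hσ v hv w hw hne a b)).smul_left _

theorem Ew_comm' (hcomm : ∀ x y, G.Adj x y → Commute (ρ x) (ρ y)) {σ : Finset (Fin X.n)}
    (hσ : Gd X σ) (e : Fin X.n → Bool) : ∀ v ∈ σ, ∀ w ∈ σ,
      Commute (Ew X ρ v (e v)) (Ew X ρ w (e w)) := by
  intro v hv w hw
  by_cases hne : v = w
  · rw [hne]
  · exact Ew_comm hcomm hσ hv hw hne _ _

theorem Lw_comm (hcomm : ∀ x y, G.Adj x y → Commute (ρ x) (ρ y)) {σ : Finset (Fin X.n)}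
    (hσ : Gd X σ) : ∀ v ∈ σ, ∀ w ∈ σ, Commute (Lw X ρ v) (Lw X ρ w) := by
  intro v hv w hw
  by_cases hne : v = w
  · rw [hne]
  · unfold Lw
    split_ifs
    · exact Commute.one_left _
    · exact Commute.one_left _
    · exact Commute.one_right _
    · exact ((Ew_comm hcomm hσ hv hw hne _ _).add_right (Ew_comm hcomm hσ hv hw hne _ _)).add_left
        ((Ew_comm hcomm hσ hv hw hne _ _).add_right (Ew_comm hcomm hσ hv hw hne _ _))

theorem EE_insert (hcomm : ∀ x y, G.Adj x y → Commute (ρ x) (ρ y)) {σ : Finset (Fin X.n)}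
    {v : Fin X.n} (hv : v ∉ σ) (hσ : Gd X (insert v σ)) (e : Fin X.n → Bool) :
    EE X ρ (insert v σ) e = EE X ρ σ e * Ew X ρ v (e v) :=
  sp_insert hv (Ew_comm' hcomm hσ e)

theorem LL_insert (hcomm : ∀ x y, G.Adj x y → Commute (ρ x) (ρ y)) {σ : Finset (Fin X.n)}
    {v : Fin X.n} (hv : v ∉ σ) (hσ : Gd X (insert v σ)) :
    LL X ρ (insert v σ) = LL X ρ σ * Lw X ρ v :=
  sp_insert hv (Lw_comm hcomm hσ)

theorem Gd.mono {σ τ : Finset (Fin X.n)} (h : Gd X σ) (hs : τ ⊆ σ) : Gd X τ :=
  fun v hv w hw => h v (hs hv) w (hs hw)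

/-- the expansion of the product -/
theorem LL_zero (hcomm : ∀ x y, G.Adj x y → Commute (ρ x) (ρ y)) {σ : Finset (Fin X.n)}
    (hσ : Gd X σ) (m : M) (h : ∀ e, EE X ρ σ e m = 0) : LL X ρ σ m = 0 := by
  induction σ using Finset.induction_on generalizing m with
  | empty =>
    have h1 := h fun _ => true
    unfold EE at h1
    unfold LL
    rw [sp_empty] at h1 ⊢
    exact h1
  | insert v σ hv ih =>
    rw [LL_insert hcomm hv hσ]
    show LL X ρ σ (Lw X ρ v m) = 0
    refine ih (hσ.mono (Finset.subset_insert _ _)) _ fun e => ?_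
    have h1 : ∀ b, EE X ρ σ e (Ew X ρ v b m) = 0 := by
      intro b
      have h2 := h (Function.update e v b)
      rw [EE_insert hcomm hv hσ, Function.update_self] at h2
      have h3 : EE X ρ σ (Function.update e v b) = EE X ρ σ e := EE_congr fun w hw => by
        have hwv : w ≠ v := fun h4 => hv (h4 ▸ hw)
        rw [Function.update_of_ne hwv]
      rw [h3] at h2
      exact h2
    by_cases hU : v ∈ X.U
    · have h4 : Lw X ρ v = Ew X ρ v true := by unfold Lw Ew; rw [if_pos hU, if_pos hU]
      rw [h4]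
      exact h1 true
    · have h4 : Lw X ρ v = Ew X ρ v true + Ew X ρ v false := by unfold Lw; rw [if_neg hU]
      rw [h4, LinearMap.add_apply, map_add, h1, h1, add_zero]

/-- the image of the projection -/
theorem EE_eig (hsq : ∀ x, ρ x * ρ x = 1) (hcomm : ∀ x y, G.Adj x y → Commute (ρ x) (ρ y))
    {σ : Finset (Fin X.n)} (hσ : Gd X σ) (e : Fin X.n → Bool) {m : M} (hm : m ∈ NN X ρ σ)
    {v : Fin X.n} (hv : v ∈ σ) : ρ (X.j v (e v)) (EE X ρ σ e m) = -(EE X ρ σ e m) := by
  by_cases hU : v ∈ X.U
  · have h1 : X.j v (e v) = X.j v true := by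
      cases e v
      · exact (X.j_U v hU).symm
      · rfl
    have h2 : Commute (ρ (X.j v true)) (EE X ρ σ e) := by
      apply sp_commute
      intro w hw
      apply rho_Ew hcomm
      intro hwU
      exact hσ v hv w hw (fun h => hwU (h ▸ hU)) _ _
    rw [h1]
    have h3 : ρ (X.j v true) (EE X ρ σ e m) = EE X ρ σ e (ρ (X.j v true) m) :=
      congrArg (fun f : Module.End F M => f m) h2.eq
    rw [h3, hm _ ⟨v, hv, hU, rfl⟩, map_neg]
  · have h1 : σ = insert v (σ.erase v) := (Finset.insert_erase hv).symm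
    have h2 : EE X ρ σ e = Ew X ρ v (e v) * EE X ρ (σ.erase v) e := by
      conv_lhs => rw [h1]
      rw [EE_insert hcomm (Finset.notMem_erase _ _) (by rw [← h1]; exact hσ)]
      refine (sp_commute fun w hw => ?_).eq.symm
      exact Ew_comm hcomm hσ hv (Finset.mem_of_mem_erase hw) (Finset.ne_of_mem_erase hw).symm _ _
    have h3 : ρ (X.j v (e v)) * Ew X ρ v (e v) = - Ew X ρ v (e v) := by
      unfold Ew
      rw [if_neg hU, mul_smul_comm, mul_sub, mul_one, hsq, ← smul_neg, neg_sub]
    rw [h2]
    have h4 : ρ (X.j v (e v)) * (Ew X ρ v (e v) * EE X ρ (σ.erase v) e) =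
        -(Ew X ρ v (e v) * EE X ρ (σ.erase v) e) := by
      rw [← mul_assoc, h3, neg_mul]
    exact congrArg (fun f : Module.End F M => f m) h4

theorem LL_mem (hcomm : ∀ x y, G.Adj x y → Commute (ρ x) (ρ y))
    {σ : Finset (Fin X.n)} (hσ : Gd X σ) {m : M} (hm : m ∈ NN X ρ σ) :
    LL X ρ σ m ∈ NN X ρ σ := by
  rintro x ⟨u, hu, hU, rfl⟩
  have h2 : Commute (ρ (X.j u true)) (LL X ρ σ) := by
    apply sp_commute
    intro w hw
    apply rho_Lw hcomm
    intro hwU b
    exact hσ u hu w hw (fun h => hwU (h ▸ hU)) _ _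
  have h3 : ρ (X.j u true) (LL X ρ σ m) = LL X ρ σ (ρ (X.j u true) m) :=
    congrArg (fun f : Module.End F M => f m) h2.eq
  rw [h3, hm _ ⟨u, hu, hU, rfl⟩, map_neg]

theorem NN_mono {σ τ : Finset (Fin X.n)} (h : τ ⊆ σ) : NN X ρ σ ≤ NN X ρ τ := by
  rintro m hm x ⟨u, hu, hU, rfl⟩
  exact hm _ ⟨u, h hu, hU, rfl⟩

end ops

/-! ### The chains -/

section chains

variable {V F M : Type} [Fintype V] [LinearOrder V] [Field F] [AddCommGroup M] [Module F M]
  {G : SimpleGraph V} {d : ℕ} (X : Dbl F G d) (ρ : V → Module.End F M)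

/-- the lift of a set -/
def TT (e : Fin X.n → Bool) (σ : Finset (Fin X.n)) : Finset V := σ.image fun v => X.j v (e v)

/-- the set below -/
def sT (T : Finset V) : Finset (Fin X.n) := Finset.univ.filter fun v => ∃ b, X.j v b ∈ T

/-- the choice of the lift -/
def eT (T : Finset V) (v : Fin X.n) : Bool := decide (X.j v true ∈ T)

theorem j_inj (e : Fin X.n → Bool) : Function.Injective fun v => X.j v (e v) := by
  intro v w h
  by_contra hne
  exact X.j_ne v w hne _ _ h

variable {X}

theorem mem_TT {e : Fin X.n → Bool} {σ : Finset (Fin X.n)} {v : Fin X.n} {b : Bool} :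
    X.j v b ∈ TT X e σ ↔ v ∈ σ ∧ X.j v b = X.j v (e v) := by
  unfold TT
  rw [Finset.mem_image]
  constructor
  · rintro ⟨w, hw, h⟩
    have hwv : w = v := by
      by_contra hne
      exact X.j_ne w v hne _ _ h
    subst hwv
    exact ⟨hw, h.symm⟩
  · rintro ⟨h1, h2⟩
    exact ⟨v, h1, h2.symm⟩

theorem sT_TT (e : Fin X.n → Bool) (σ : Finset (Fin X.n)) : sT X (TT X e σ) = σ := by
  ext v
  unfold sT
  rw [Finset.mem_filter]
  constructor
  · rintro ⟨-, b, hb⟩
    exact (mem_TT.1 hb).1
  · intro hv
    exact ⟨Finset.mem_univ _, e v, mem_TT.2 ⟨hv, rfl⟩⟩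

theorem eT_TT (e : Fin X.n → Bool) (σ : Finset (Fin X.n)) {v : Fin X.n} (hv : v ∈ σ) :
    X.j v (eT X (TT X e σ) v) = X.j v (e v) := by
  by_cases h : X.j v true ∈ TT X e σ
  · have h1 : eT X (TT X e σ) v = true := decide_eq_true h
    rw [h1]
    exact (mem_TT.1 h).2
  · have h1 : eT X (TT X e σ) v = false := decide_eq_false h
    rw [h1]
    have h2 : e v = false := by
      by_contra h3
      rw [Bool.not_eq_false] at h3
      exact h (mem_TT.2 ⟨hv, by rw [h3]⟩)
    rw [h2]

theorem TT_congr {e e' : Fin X.n → Bool} {σ : Finset (Fin X.n)}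
    (h : ∀ v ∈ σ, X.j v (e v) = X.j v (e' v)) : TT X e σ = TT X e' σ :=
  Finset.image_congr fun v hv => h v hv

theorem TT_insert (e : Fin X.n → Bool) {σ : Finset (Fin X.n)} {v : Fin X.n} (hv : v ∉ σ)
    (b : Bool) : TT X (Function.update e v b) (insert v σ) = insert (X.j v b) (TT X e σ) := by
  unfold TT
  rw [Finset.image_insert, Function.update_self]
  congr 1
  apply Finset.image_congr
  intro w hw
  have hwv : w ≠ v := fun h4 => hv (h4 ▸ hw)
  show X.j w (Function.update e v b w) = X.j w (e w)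
  rw [Function.update_of_ne hwv]

theorem TT_card (e : Fin X.n → Bool) (σ : Finset (Fin X.n)) : (TT X e σ).card = σ.card :=
  Finset.card_image_of_injective _ (j_inj X e)

variable (X)

open Classical in
/-- the chain of a family of vectors -/
def CC : (Finset (Fin X.n) → M) →ₗ[F] (Finset V → M) where
  toFun g T := if TT X (eT X T) (sT X T) = T then
    (-1 : ℤ) ^ (iv (fun v => X.j v (eT X T v)) (sT X T)) • X.z (sT X T) •
      EE X ρ (sT X T) (eT X T) (g (sT X T)) else 0
  map_add' g g' := by
    funext T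
    simp only [Pi.add_apply]
    split_ifs
    · rw [map_add, smul_add, smul_add]
    · rw [add_zero]
  map_smul' c g := by
    funext T
    simp only [Pi.smul_apply, RingHom.id_apply]
    split_ifs
    · rw [map_smul, smul_comm (X.z _) c, smul_comm _ c]
    · rw [smul_zero]

theorem CC_apply (g : Finset (Fin X.n) → M) (T : Finset V) : CC X ρ g T =
    open Classical in if TT X (eT X T) (sT X T) = T then
    (-1 : ℤ) ^ (iv (fun v => X.j v (eT X T v)) (sT X T)) • X.z (sT X T) •
      EE X ρ (sT X T) (eT X T) (g (sT X T)) else 0 := rfl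

theorem CC_TT (g : Finset (Fin X.n) → M) (e : Fin X.n → Bool) (σ : Finset (Fin X.n)) :
    CC X ρ g (TT X e σ) = (-1 : ℤ) ^ (iv (fun v => X.j v (e v)) σ) • X.z σ • EE X ρ σ e (g σ) := by
  rw [CC_apply, sT_TT]
  have h1 : ∀ v ∈ σ, X.j v (eT X (TT X e σ) v) = X.j v (e v) := fun v hv => eT_TT e σ hv
  rw [if_pos (TT_congr h1), iv_congr h1, EE_congr h1]

theorem CC_not (g : Finset (Fin X.n) → M) (T : Finset V) (h : ∀ e σ, T ≠ TT X e σ) :
    CC X ρ g T = 0 := by
  rw [CC_apply, if_neg fun h1 => h _ _ h1.symm]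

/-- the boundary of a family of vectors -/
def hl : (Finset (Fin X.n) → M) →ₗ[F] (Finset (Fin X.n) → M) where
  toFun g τ := ∑ v ∈ τᶜ, sg v τ • X.z (insert v τ) • Lw X ρ v (g (insert v τ))
  map_add' g g' := by
    funext τ
    simp only [Pi.add_apply, map_add, smul_add, Finset.sum_add_distrib]
  map_smul' c g := by
    funext τ
    simp only [Pi.smul_apply, RingHom.id_apply, map_smul, Finset.smul_sum]
    refine Finset.sum_congr rfl fun v _ => ?_
    rw [smul_comm (X.z _) c, smul_comm _ c]

theorem hl_apply (g : Finset (Fin X.n) → M) (τ : Finset (Fin X.n)) :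
    hl X ρ g τ = ∑ v ∈ τᶜ, sg v τ • X.z (insert v τ) • Lw X ρ v (g (insert v τ)) := rfl

variable {ρ}

/-- the boundary of the chain -/
theorem bd_CC (hcomm : ∀ x y, G.Adj x y → Commute (ρ x) (ρ y)) (g : Finset (Fin X.n) → M)
    (hg : hl X ρ g = 0) : bd F (CC X ρ g) = 0 := by
  classical
  funext T'
  rw [bd_apply]
  by_cases hT : ∃ e τ, T' = TT X e τ
  · obtain ⟨e, τ, rfl⟩ := hT
    -- one term
    have hterm : ∀ v ∉ τ, ∀ b, sg (X.j v b) (TT X e τ) • CC X ρ g (insert (X.j v b) (TT X e τ)) =
        (-1 : ℤ) ^ (iv (fun v => X.j v (e v)) τ) • EE X ρ τ e (sg v τ • X.z (insert v τ) •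
          Ew X ρ v b (g (insert v τ))) := by
      intro v hv b
      obtain ⟨e', he'⟩ : ∃ e' : Fin X.n → Bool, e' = Function.update e v b := ⟨_, rfl⟩
      have he1 : e' v = b := by rw [he', Function.update_self]
      have he2 : ∀ w ∈ τ, e' w = e w := by
        intro w hw
        have hwv : w ≠ v := fun h4 => hv (h4 ▸ hw)
        rw [he', Function.update_of_ne hwv]
      have h3 : insert (X.j v b) (TT X e τ) = TT X e' (insert v τ) := by
        rw [he']; exact (TT_insert e hv b).symm
      rw [h3, CC_TT]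
      by_cases hz : X.z (insert v τ) = 0
      · rw [hz]
        simp
      · have hGd : Gd X (insert v τ) := X.clique _ hz
        rw [EE_insert hcomm hv hGd]
        have h4 : EE X ρ τ e' = EE X ρ τ e := EE_congr fun w hw => by rw [he2 w hw]
        have h5 := sign_insert (fun v => X.j v (e' v)) (j_inj X e') hv
        have h6 : τ.image (fun v => X.j v (e' v)) = TT X e τ := by
          unfold TT
          apply Finset.image_congr
          intro w hw
          show X.j w (e' w) = X.j w (e w)
          rw [he2 w hw]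
        have h7 : iv (fun v => X.j v (e' v)) τ = iv (fun v => X.j v (e v)) τ :=
          iv_congr fun w hw => by rw [he2 w hw]
        rw [h6, h7] at h5
        simp only [he1] at h5
        rw [h4, he1, smul_smul, mul_comm, h5, map_zsmul, map_smul, smul_smul]
        rfl
    -- the sum over the lifts
    have hsum : ∑ x ∈ (TT X e τ)ᶜ, sg x (TT X e τ) • CC X ρ g (insert x (TT X e τ)) =
        ∑ v ∈ τᶜ, ∑ x ∈ ({X.j v true, X.j v false} : Finset V),
          sg x (TT X e τ) • CC X ρ g (insert x (TT X e τ)) := by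
      have hsub : τᶜ.biUnion (fun v => ({X.j v true, X.j v false} : Finset V)) ⊆
          (TT X e τ)ᶜ := by
        intro x hx
        rw [Finset.mem_biUnion] at hx
        obtain ⟨v, hv, hx⟩ := hx
        rw [Finset.mem_compl] at hv ⊢
        rw [Finset.mem_insert, Finset.mem_singleton] at hx
        rcases hx with rfl | rfl
        · exact fun h => hv (mem_TT.1 h).1
        · exact fun h => hv (mem_TT.1 h).1
      rw [← Finset.sum_subset hsub, Finset.sum_biUnion]
      · intro v _ w _ hvw
        show Disjoint ({X.j v true, X.j v false} : Finset V) {X.j w true, X.j w false}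
        rw [Finset.disjoint_left]
        intro x hx hx'
        rw [Finset.mem_insert, Finset.mem_singleton] at hx hx'
        rcases hx with rfl | rfl <;> rcases hx' with h | h <;>
          exact X.j_ne v w hvw _ _ h
      · intro x hx hx'
        rw [CC_not, smul_zero]
        intro e' σ h
        apply hx'
        have h1 : x ∈ TT X e' σ := by rw [← h]; exact Finset.mem_insert_self _ _
        unfold TT at h1
        rw [Finset.mem_image] at h1
        obtain ⟨v, hv, rfl⟩ := h1
        rw [Finset.mem_biUnion]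
        refine ⟨v, ?_, ?_⟩
        · rw [Finset.mem_compl] at hx ⊢
          intro hvτ
          -- the other lift of `v` is in `TT e τ`
          have h2 : X.j v (e v) ∈ TT X e' σ := by
            rw [← h]; exact Finset.mem_insert_of_mem (mem_TT.2 ⟨hvτ, rfl⟩)
          have h3 := (mem_TT.1 h2).2
          exact hx (mem_TT.2 ⟨hvτ, h3.symm⟩)
        · rw [Finset.mem_insert, Finset.mem_singleton]
          cases e' v
          · exact Or.inr rfl
          · exact Or.inl rfl
    rw [hsum]
    have hin : ∀ v ∈ τᶜ, ∑ x ∈ ({X.j v true, X.j v false} : Finset V),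
          sg x (TT X e τ) • CC X ρ g (insert x (TT X e τ)) =
        (-1 : ℤ) ^ (iv (fun v => X.j v (e v)) τ) • EE X ρ τ e (sg v τ • X.z (insert v τ) •
          Lw X ρ v (g (insert v τ))) := by
      intro v hv
      rw [Finset.mem_compl] at hv
      by_cases hU : v ∈ X.U
      · have h1 : ({X.j v true, X.j v false} : Finset V) = {X.j v true} := by
          rw [← X.j_U v hU]
          simp
        have h4 : Lw X ρ v = Ew X ρ v true := by unfold Lw Ew; rw [if_pos hU, if_pos hU]
        rw [h1, Finset.sum_singleton, hterm v hv, h4]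
      · have h4 : Lw X ρ v = Ew X ρ v true + Ew X ρ v false := by unfold Lw; rw [if_neg hU]
        rw [Finset.sum_pair (X.j_adj v hU).1, hterm v hv, hterm v hv, h4, LinearMap.add_apply,
          smul_add, smul_add, map_add, smul_add]
    rw [Finset.sum_congr rfl hin, ← Finset.smul_sum, ← map_sum]
    have h5 := congrFun hg τ
    rw [hl_apply] at h5
    rw [h5]
    simp
  · push Not at hT
    refine Finset.sum_eq_zero fun x hx => ?_
    rw [CC_not, smul_zero]
    intro e σ h
    have h1 : x ∈ TT X e σ := by rw [← h]; exact Finset.mem_insert_self _ _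
    unfold TT at h1
    rw [Finset.mem_image] at h1
    obtain ⟨v, hv, rfl⟩ := h1
    apply hT e (σ.erase v)
    rw [Finset.mem_compl] at hx
    have h2 : T' = (TT X e σ).erase (X.j v (e v)) := by
      rw [← h, Finset.erase_insert hx]
    rw [h2]
    have h3 : TT X e σ = insert (X.j v (e v)) (TT X e (σ.erase v)) := by
      have h4 := TT_insert e (Finset.notMem_erase v σ) (e v)
      rw [Function.update_eq_self, Finset.insert_erase hv] at h4
      exact h4
    rw [h3, Finset.erase_insert]
    intro h4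
    exact Finset.notMem_erase v σ (mem_TT.1 h4).1

/-- the chains of the right kind -/
theorem CC_mem (hsq : ∀ x, ρ x * ρ x = 1) (hcomm : ∀ x y, G.Adj x y → Commute (ρ x) (ρ y))
    (A : Set V) (hA : ∀ v b, X.j v b ∈ A) (g : Finset (Fin X.n) → M)
    (hg : ∀ σ, X.z σ ≠ 0 → g σ ∈ NN X ρ σ) : CC X ρ g ∈ KK G ρ A ∅ (d + 1) := by
  classical
  rw [mem_KK]
  constructor
  · intro T hT
    by_cases hf : ∃ e σ, T = TT X e σ
    · obtain ⟨e, σ, rfl⟩ := hf
      rw [CC_TT]
      by_cases hz : X.z σ = 0
      · rw [hz]; simp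
      · exfalso
        apply hT
        refine ⟨?_, ?_, ?_⟩
        · intro x hx y hy hxy
          rw [Finset.mem_coe] at hx hy
          unfold TT at hx hy
          rw [Finset.mem_image] at hx hy
          obtain ⟨v, hv, rfl⟩ := hx
          obtain ⟨w, hw, rfl⟩ := hy
          exact X.clique σ hz v hv w hw (fun h => hxy (by rw [h])) _ _
        · intro x hx
          rw [Finset.mem_coe] at hx
          unfold TT at hx
          rw [Finset.mem_image] at hx
          obtain ⟨v, hv, rfl⟩ := hx
          exact hA _ _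
        · rw [TT_card, X.z_card σ hz]
    · push Not at hf
      exact CC_not X ρ g T hf
  · intro T t ht
    have ht' : t ∈ T := by
      rcases ht with h | h
      · exact h
      · exact absurd h (Set.notMem_empty _)
    by_cases hf : ∃ e σ, T = TT X e σ
    · obtain ⟨e, σ, rfl⟩ := hf
      rw [CC_TT]
      by_cases hz : X.z σ = 0
      · rw [hz]; simp
      · unfold TT at ht'
        rw [Finset.mem_image] at ht'
        obtain ⟨v, hv, rfl⟩ := ht'
        rw [map_zsmul, map_smul, EE_eig hsq hcomm (X.clique σ hz) e (hg σ hz) hv, smul_neg,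
          smul_neg]
    · push Not at hf
      rw [CC_not X ρ g T hf, map_zero, neg_zero]

/-- the boundary is in the kernel -/
theorem LL_hl (hcomm : ∀ x y, G.Adj x y → Commute (ρ x) (ρ y)) (g : Finset (Fin X.n) → M) (w : M)
    (hg : ∀ σ, X.z σ ≠ 0 → LL X ρ σ (g σ) = w) (τ : Finset (Fin X.n)) :
    LL X ρ τ (hl X ρ g τ) = 0 := by
  rw [hl_apply, map_sum]
  have h1 : ∀ v ∈ τᶜ, LL X ρ τ (sg v τ • X.z (insert v τ) • Lw X ρ v (g (insert v τ))) =
      (sg v τ • X.z (insert v τ)) • w := by
    intro v hv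
    rw [Finset.mem_compl] at hv
    rw [map_zsmul, map_smul]
    by_cases hz : X.z (insert v τ) = 0
    · rw [hz]; simp
    · have h2 : LL X ρ τ (Lw X ρ v (g (insert v τ))) = w := by
        rw [← hg _ hz, LL_insert hcomm hv (X.clique _ hz)]
        rfl
      rw [h2, smul_assoc]
  rw [Finset.sum_congr rfl h1, ← Finset.sum_smul, X.z_cyc, zero_smul]

/-- the kernel of the chain map -/
theorem CC_ker (hcomm : ∀ x y, G.Adj x y → Commute (ρ x) (ρ y)) (g : Finset (Fin X.n) → M)
    (hg : CC X ρ g = 0) (σ : Finset (Fin X.n)) (hz : X.z σ ≠ 0) : LL X ρ σ (g σ) = 0 := by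
  apply LL_zero hcomm (X.clique σ hz)
  intro e
  have h1 := congrFun hg (TT X e σ)
  rw [CC_TT] at h1
  have h2 : X.z σ • EE X ρ σ e (g σ) = 0 := by
    rcases neg_one_pow_eq_or ℤ (iv (fun v => X.j v (e v)) σ) with h | h
    · rw [h, one_smul] at h1
      exact h1
    · rw [h, neg_smul, one_smul, Pi.zero_apply, neg_eq_zero] at h1
      exact h1
  rcases smul_eq_zero.1 h2 with h | h
  · exact absurd h hz
  · exact h

end chains

/-! ### The dimension count -/

section count

variable {V F M : Type} [Fintype V] [LinearOrder V] [Field F] [AddCommGroup M] [Module F M]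
  [FiniteDimensional F M] {G : SimpleGraph V} {d : ℕ} (X : Dbl F G d) {ρ : V → Module.End F M}

theorem dim_count (hsq : ∀ x, ρ x * ρ x = 1) (hcomm : ∀ x y, G.Adj x y → Commute (ρ x) (ρ y))
    (A : Set V) (hA : ∀ v b, X.j v b ∈ A) (B : ℕ)
    (hB : ∀ σ, finrank F (LinearMap.ker (LL X ρ σ)) ≤ B) :
    finrank F (NN X ρ Finset.univ) ≤ finrank F (ZZ G ρ A ∅ (d + 1)) + 2 * (2 ^ X.n * B) := by
  classical
  let I := {σ : Finset (Fin X.n) // X.z σ ≠ 0}
  let Θ : ((NN X ρ Finset.univ) × (∀ σ : I, NN X ρ σ.1)) →ₗ[F] (∀ σ : I, NN X ρ σ.1) :=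
    { toFun := fun x σ => ⟨LL X ρ σ.1 (x.2 σ).1 - x.1.1,
        Submodule.sub_mem _ (LL_mem hcomm (X.clique _ σ.2) (x.2 σ).2)
          (NN_mono (Finset.subset_univ _) x.1.2)⟩
      map_add' := by
        intro x y
        funext σ
        apply Subtype.ext
        show LL X ρ σ.1 ((x.2 σ).1 + (y.2 σ).1) - (x.1.1 + y.1.1) =
          (LL X ρ σ.1 (x.2 σ).1 - x.1.1) + (LL X ρ σ.1 (y.2 σ).1 - y.1.1)
        rw [map_add]
        abel
      map_smul' := by
        intro c x
        funext σ
        apply Subtype.ext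
        show LL X ρ σ.1 (c • (x.2 σ).1) - c • x.1.1 = c • (LL X ρ σ.1 (x.2 σ).1 - x.1.1)
        rw [map_smul, smul_sub] }
  have hΘ : ∀ x, Θ x = 0 → ∀ σ : I, LL X ρ σ.1 (x.2 σ).1 = x.1.1 := by
    intro x hx σ
    have h1 := congrArg Subtype.val (congrFun hx σ)
    exact sub_eq_zero.1 h1
  have hd0 : finrank F (NN X ρ Finset.univ) ≤ finrank F (LinearMap.ker Θ) := by
    have h1 := LinearMap.finrank_range_add_finrank_ker Θ
    have h2 := Submodule.finrank_le (LinearMap.range Θ)
    rw [Module.finrank_prod] at h1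
    omega
  -- the family of vectors
  let gl : ((NN X ρ Finset.univ) × (∀ σ : I, NN X ρ σ.1)) →ₗ[F] (Finset (Fin X.n) → M) :=
    { toFun := fun x σ => if h : X.z σ ≠ 0 then (x.2 ⟨σ, h⟩).1 else 0
      map_add' := by
        intro x y
        funext σ
        by_cases h : X.z σ ≠ 0
        · simp only [dif_pos h, Pi.add_apply]
          rfl
        · simp only [dif_neg h, Pi.add_apply, add_zero]
      map_smul' := by
        intro c x
        funext σ
        by_cases h : X.z σ ≠ 0
        · simp only [dif_pos h, Pi.smul_apply]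
          rfl
        · simp only [dif_neg h, Pi.smul_apply, smul_zero] }
  have hgl : ∀ x, ∀ σ : I, gl x σ.1 = (x.2 σ).1 := fun x σ => dif_pos σ.2
  have hLw : ∀ x, Θ x = 0 → ∀ σ, X.z σ ≠ 0 → LL X ρ σ (gl x σ) = x.1.1 := by
    intro x hx σ hσ
    rw [hgl x ⟨σ, hσ⟩]
    exact hΘ x hx ⟨σ, hσ⟩
  let ψ : LinearMap.ker Θ →ₗ[F] (∀ τ : Finset (Fin X.n), LinearMap.ker (LL X ρ τ)) :=
    { toFun := fun x τ => ⟨hl X ρ (gl x.1) τ, LL_hl X hcomm (gl x.1) x.1.1.1 (hLw x.1 x.2) τ⟩
      map_add' := by
        intro x y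
        funext τ
        apply Subtype.ext
        show hl X ρ (gl (x.1 + y.1)) τ = hl X ρ (gl x.1) τ + hl X ρ (gl y.1) τ
        rw [map_add, map_add]
        rfl
      map_smul' := by
        intro c x
        funext τ
        apply Subtype.ext
        show hl X ρ (gl (c • x.1)) τ = c • hl X ρ (gl x.1) τ
        rw [map_smul, map_smul]
        rfl }
  have hψ : ∀ x, ψ x = 0 → hl X ρ (gl x.1) = 0 := by
    intro x hx
    funext τ
    exact congrArg Subtype.val (congrFun hx τ)
  have hd1 : finrank F (LinearMap.ker Θ) ≤ finrank F (LinearMap.ker ψ) + 2 ^ X.n * B := by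
    have h1 := LinearMap.finrank_range_add_finrank_ker ψ
    have h2 := Submodule.finrank_le (LinearMap.range ψ)
    rw [Module.finrank_pi_fintype] at h2
    have h3 : ∑ τ : Finset (Fin X.n), finrank F (LinearMap.ker (LL X ρ τ)) ≤ 2 ^ X.n * B := by
      refine (Finset.sum_le_card_nsmul _ _ B fun τ _ => hB τ).trans ?_
      rw [Finset.card_univ, Fintype.card_finset, Fintype.card_fin, smul_eq_mul]
    omega
  let ψ' : ((NN X ρ Finset.univ) × (∀ σ : I, NN X ρ σ.1)) →ₗ[F] (Finset (Fin X.n) → M) :=
    (hl X ρ) ∘ₗ gl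
  obtain ⟨K1, hK1⟩ : ∃ K1 : Submodule F ((NN X ρ Finset.univ) × (∀ σ : I, NN X ρ σ.1)),
      K1 = LinearMap.ker Θ ⊓ LinearMap.ker ψ' := ⟨_, rfl⟩
  have hK1a : ∀ x ∈ K1, Θ x = 0 := fun x hx => by
    rw [hK1] at hx
    exact hx.1
  have hK1b : ∀ x ∈ K1, hl X ρ (gl x) = 0 := fun x hx => by
    rw [hK1] at hx
    exact hx.2
  have hd1' : finrank F (LinearMap.ker ψ) ≤ finrank F K1 := by
    let φ : LinearMap.ker ψ →ₗ[F] K1 :=
      { toFun := fun x => ⟨x.1.1, by rw [hK1]; exact ⟨x.1.2, hψ x.1 x.2⟩⟩
        map_add' := by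
          intro x y
          rfl
        map_smul' := by
          intro c x
          rfl }
    have hφ : Function.Injective φ := by
      intro x y hxy
      apply Subtype.ext
      apply Subtype.ext
      have e0 : (φ x).1 = (φ y).1 := congrArg Subtype.val hxy
      exact e0
    exact LinearMap.finrank_le_finrank_of_injective hφ
  let ω : K1 →ₗ[F] (Finset V → M) := (CC X ρ) ∘ₗ gl ∘ₗ K1.subtype
  have hωr : LinearMap.range ω ≤ ZZ G ρ A ∅ (d + 1) := by
    rintro _ ⟨x, rfl⟩
    exact ⟨CC_mem X hsq hcomm A hA _ (fun σ hσ => by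
          show gl x.1 σ ∈ NN X ρ σ
          rw [hgl x.1 ⟨σ, hσ⟩]
          exact (x.1.2 ⟨σ, hσ⟩).2), bd_CC X hcomm _ (hK1b x.1 x.2)⟩
  have hω : ∀ x, ω x = 0 → CC X ρ (gl x.1) = 0 := fun x hx => hx
  have hd2 : finrank F K1 ≤ finrank F (ZZ G ρ A ∅ (d + 1)) + 2 ^ X.n * B := by
    have h1 := LinearMap.finrank_range_add_finrank_ker ω
    have h2 := Submodule.finrank_mono hωr
    let θ : LinearMap.ker ω →ₗ[F] (∀ σ : I, LinearMap.ker (LL X ρ σ.1)) :=
      { toFun := fun x σ => ⟨(x.1.1.2 σ).1, by
          have h3 := CC_ker X hcomm (gl x.1.1) (hω x.1 x.2) σ.1 σ.2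
          rw [hgl] at h3
          exact h3⟩
        map_add' := by
          intro x y
          rfl
        map_smul' := by
          intro c x
          rfl }
    have hinj : Function.Injective θ := by
      intro x y hxy
      have e1 : ∀ σ : I, (x.1.1.2 σ).1 = (y.1.1.2 σ).1 := fun σ => by
        have e0 : (θ x σ).1 = (θ y σ).1 := congrArg Subtype.val (congrFun hxy σ)
        exact e0
      obtain ⟨σ₀, hσ₀⟩ : ∃ σ, X.z σ ≠ 0 := by
        by_contra hcon
        push Not at hcon
        exact X.z_ne (funext hcon)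
      have e2 : x.1.1.1.1 = y.1.1.1.1 := by
        rw [← hΘ x.1.1 (hK1a _ x.1.2) ⟨σ₀, hσ₀⟩, ← hΘ y.1.1 (hK1a _ y.1.2) ⟨σ₀, hσ₀⟩, e1]
      apply Subtype.ext
      apply Subtype.ext
      apply Prod.ext
      · exact Subtype.ext e2
      · funext σ
        exact Subtype.ext (e1 σ)
    have h3 := LinearMap.finrank_le_finrank_of_injective hinj
    rw [Module.finrank_pi_fintype] at h3
    have h4 : ∑ σ : I, finrank F (LinearMap.ker (LL X ρ σ.1)) ≤ 2 ^ X.n * B := by
      refine (Finset.sum_le_card_nsmul _ _ B fun τ _ => hB τ.1).trans ?_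
      rw [Finset.card_univ, smul_eq_mul]
      apply Nat.mul_le_mul_right
      refine (Fintype.card_subtype_le _).trans ?_
      rw [Fintype.card_finset, Fintype.card_fin]
    omega
  omega

theorem LL_dim (κ : ℕ) (hκ : ∀ v, v ∉ X.U → finrank F (LinearMap.ker (Lw X ρ v)) ≤ κ)
    (σ : Finset (Fin X.n)) : finrank F (LinearMap.ker (LL X ρ σ)) ≤ X.n * κ := by
  have h1 := ker_prod_le ((σ.sort (· ≤ ·)).map fun v => Lw X ρ v)
  have h2 : finrank F (LinearMap.ker (LL X ρ σ)) =
      finrank F (LinearMap.ker ((σ.sort (· ≤ ·)).map fun v => Lw X ρ v).prod) := rfl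
  rw [h2]
  refine h1.trans ?_
  refine (List.sum_le_card_nsmul _ κ ?_).trans ?_
  · intro x hx
    rw [List.mem_map] at hx
    obtain ⟨A, hA, rfl⟩ := hx
    rw [List.mem_map] at hA
    obtain ⟨v, -, rfl⟩ := hA
    by_cases hU : v ∈ X.U
    · have h3 : Lw X ρ v = 1 := by unfold Lw; rw [if_pos hU]
      have h4 : LinearMap.ker (1 : Module.End F M) = ⊥ := by
        rw [LinearMap.ker_eq_bot]
        exact fun x y h => h
      rw [h3, h4, finrank_bot]
      exact Nat.zero_le _
    · exact hκ v hU
  · rw [List.length_map, List.length_map, Finset.length_sort, smul_eq_mul]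
    apply Nat.mul_le_mul_right
    calc σ.card ≤ (Finset.univ : Finset (Fin X.n)).card := Finset.card_le_card (Finset.subset_univ _)
      _ = X.n := by rw [Finset.card_univ, Fintype.card_fin]

end count

end P1aux

open P1aux in
/-- **Proposition P1.** -/
theorem p1 : P1 := by
  intro V F _ _ _ G d X ε h2 hε
  classical
  obtain ⟨K, hK⟩ := exists_nat_gt (4 * (2 ^ X.n * X.n) / ε)
  have hKε : 4 * (2 ^ X.n * X.n) / (K : ℝ) ≤ ε := by
    have hK0 : (0 : ℝ) < K := lt_of_le_of_lt (by positivity) hK
    rw [div_lt_iff₀ hε] at hK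
    rw [div_le_iff₀ hK0]
    linarith
  have hK0 : 0 < K := by
    have : (0 : ℝ) < K := lt_of_le_of_lt (by positivity) hK
    exact_mod_cast this
  obtain ⟨l, hl⟩ : ∃ l : List V, l = X.U.toList.map fun u => X.j u true := ⟨_, rfl⟩
  have hml : ∀ x, x ∈ l ↔ ∃ u ∈ X.U, X.j u true = x := by
    intro x
    rw [hl, List.mem_map]
    simp only [Finset.mem_toList]
  obtain ⟨E2, hE2⟩ : ∃ E2 : Finset (W G), E2 =
      (((Finset.univ : Finset (Fin X.n)) ×ˢ Finset.range K).filter
        (fun p => p.1 ∉ X.U ∧ p.2 ≠ 0)).image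
        (fun p => ((cox G).simple (X.j p.1 true) * (cox G).simple (X.j p.1 false)) ^ p.2) :=
    ⟨_, rfl⟩
  refine ⟨(HU G l).erase 1 ∪ E2, ?_, ?_⟩
  · rw [Finset.mem_union, not_or]
    refine ⟨Finset.notMem_erase _ _, ?_⟩
    rw [hE2, Finset.mem_image]
    rintro ⟨p, hp, h1⟩
    rw [Finset.mem_filter] at hp
    exact pow_ne G (X.j_adj p.1 hp.2.1).1 (X.j_adj p.1 hp.2.1).2 p.2 hp.2.2 h1
  · intro Y _ P A hA
    have hcl : l.Pairwise fun x y => Commute ((cox G).simple x) ((cox G).simple y) := by
      apply List.pairwise_of_forall_mem_list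
      intro x hx y hy
      obtain ⟨u, hu, rfl⟩ := (hml x).1 hx
      obtain ⟨w, hw, rfl⟩ := (hml y).1 hy
      by_cases huw : u = w
      · rw [huw]
      · exact simple_comm G _ _ (X.cliqueU u hu w hw huw)
    have hdim := dim_neg (F := F) P l hcl (fun g hg hg1 =>
      Finset.mem_union_left _ (Finset.mem_erase.2 ⟨hg1, hg⟩))
    have hNN : Neg (pull F P.a) {x | x ∈ l} = P1aux.NN X (pull F P.a) Finset.univ := by
      have hset : {x | x ∈ l} = {x | ∃ u ∈ (Finset.univ : Finset (Fin X.n)), u ∈ X.U ∧
          x = X.j u true} := by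
        ext x
        rw [Set.mem_ofPred_eq, Set.mem_ofPred_eq, hml]
        constructor
        · rintro ⟨u, hu, h⟩
          exact ⟨u, Finset.mem_univ _, hu, h.symm⟩
        · rintro ⟨u, -, hu, h⟩
          exact ⟨u, hu, h.symm⟩
      unfold P1aux.NN
      rw [hset]
    rw [hNN] at hdim
    have hlen : l.length = X.U.card := by rw [hl, List.length_map, Finset.length_toList]
    rw [hlen] at hdim
    obtain ⟨κ, hκ⟩ : ∃ κ : ℕ, κ = 2 * Fintype.card Y / K := ⟨_, rfl⟩
    have hκ1 : ∀ v, v ∉ X.U → finrank F (LinearMap.ker (Lw X (pull F P.a) v)) ≤ κ := by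
      intro v hv
      have h3 : Lw X (pull F P.a) v = (2 : F)⁻¹ • (1 - pull F P.a (X.j v true)) +
          (2 : F)⁻¹ • (1 - pull F P.a (X.j v false)) := by
        unfold Lw Ew
        rw [if_neg hv, if_neg hv, if_neg hv]
      rw [h3, hκ, Nat.le_div_iff_mul_le hK0, mul_comm]
      apply dim_pair P _ _ K h2
      intro k hk0 hkK
      apply Finset.mem_union_right
      rw [hE2, Finset.mem_image]
      refine ⟨(v, k), ?_, rfl⟩
      rw [Finset.mem_filter, Finset.mem_product]
      exact ⟨⟨Finset.mem_univ _, Finset.mem_range.2 hkK⟩, hv, hk0⟩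
    have hcount := dim_count X (ρ := pull F P.a) (pull_sq P) (fun x y h => pull_comm P h) A hA
      (X.n * κ) (LL_dim X κ hκ1)
    -- real numbers
    have hY0 : (0 : ℝ) ≤ Fintype.card Y := Nat.cast_nonneg _
    have hKr : (0 : ℝ) < K := by exact_mod_cast hK0
    have r1 : (Fintype.card Y : ℝ) ≤ 2 ^ X.U.card * finrank F (P1aux.NN X (pull F P.a) Finset.univ) := by
      exact_mod_cast hdim
    have r2 : (finrank F (P1aux.NN X (pull F P.a) Finset.univ) : ℝ) ≤
        finrank F (ZZ G (pull F P.a) A ∅ (d + 1)) + 2 * (2 ^ X.n * (X.n * κ)) := by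
      exact_mod_cast hcount
    have r3 : (κ : ℝ) ≤ 2 * Fintype.card Y / K := by
      rw [hκ]
      have := Nat.cast_div_le (α := ℝ) (m := 2 * Fintype.card Y) (n := K)
      push_cast at this
      exact this
    have r4 : (2 : ℝ) * (2 ^ X.n * (X.n * κ)) ≤ ε * Fintype.card Y := by
      calc (2 : ℝ) * (2 ^ X.n * (X.n * κ)) ≤
            2 * (2 ^ X.n * (X.n * (2 * Fintype.card Y / K))) := by gcongr
        _ = 4 * (2 ^ X.n * X.n) / (K : ℝ) * Fintype.card Y := by ring
        _ ≤ ε * Fintype.card Y := mul_le_mul_of_nonneg_right hKε hY0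
    have r5 : (1 / 2 : ℝ) ^ X.U.card * Fintype.card Y ≤
        finrank F (P1aux.NN X (pull F P.a) Finset.univ) := by
      rw [one_div, inv_pow, inv_mul_le_iff₀ (by positivity)]
      exact r1
    rw [sub_mul]
    linarith

end Pool.Agent.N496.LT
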