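import Pool.Agent.N496.LT.Stm
import Pool.Agent.R781.VS.VDel
import Pool.Agent.W215.SG.Susp

/-!
# Project LT (helper496): the midpoints of the subdivided edges do not contribute (helper163)
-/

set_option autoImplicit false
set_option linter.unusedSectionVars false

noncomputable section

namespace Pool.Agent.N496.LT

namespace P2aux

open Module Pool.Agent.W907.SG Pool.Agent.W461.SGN Pool.Agent.R782.Bal

/-! ### infinite order -/

/-- a homomorphism to the infinite dihedral group -/
def dih {V : Type} (G : SimpleGraph V) (s t : V) (hna : ¬ G.Adj s t) : W G →* DihedralGroup 0 := by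
  classical
  exact (cox G).toCoxeterSystem.lift ⟨fun v => if v = s then DihedralGroup.sr 0 else
    if v = t then DihedralGroup.sr 1 else 1, liftable G _ (by
      intro v
      by_cases h : v = s
      · simp [h]
      · by_cases h' : v = t
        · simp [h']
          split_ifs <;> simp
        · simp [h, h']) (by
      intro u v huv
      by_cases h1 : u = s
      · by_cases h2 : v = s
        · exact absurd (h1.trans h2.symm) huv.ne
        · by_cases h3 : v = t
          · rw [h1, h3] at huv
            exact absurd huv hna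
          · simp [h2, h3]
      · by_cases h2 : u = t
        · by_cases h3 : v = s
          · rw [h2, h3] at huv
            exact absurd huv.symm hna
          · by_cases h4 : v = t
            · exact absurd (h2.trans h4.symm) huv.ne
            · simp [h3, h4]
        · simp [h1, h2])⟩

theorem pow_ne {V : Type} (G : SimpleGraph V) (s t : V) (hst : s ≠ t) (hna : ¬ G.Adj s t) (k : ℕ)
    (hk : 0 < k) : ((cox G).simple s * (cox G).simple t) ^ k ≠ 1 := by
  classical
  intro h
  have h1 : dih G s t hna ((cox G).simple s) = DihedralGroup.sr 0 := by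
    refine (CoxeterSystem.lift_apply_simple _ _ s).trans ?_
    simp
  have h2 : dih G s t hna ((cox G).simple t) = DihedralGroup.sr 1 := by
    refine (CoxeterSystem.lift_apply_simple _ _ t).trans ?_
    simp [Ne.symm hst]
  have h3 := congrArg (dih G s t hna) h
  rw [map_pow, map_mul, h1, h2, map_one, DihedralGroup.sr_mul_sr, DihedralGroup.r_pow,
    DihedralGroup.one_def] at h3
  have h4 := DihedralGroup.r.inj h3
  have h5 : (1 : ℤ) * (k : ℤ) = 0 := by
    have h6 : ((1 - 0 : ZMod 0)) * (k : ZMod 0) = 0 := h4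
    simpa using h6
  omega

/-! ### cycles -/

/-- the fixed functions -/
def Fix (F : Type) {Y : Type} [Field F] (e : Y → Y) : Submodule F (Y → F) where
  carrier := {f | ∀ y, f (e y) = f y}
  add_mem' := by
    intro f g hf hg y
    rw [Pi.add_apply, Pi.add_apply, hf, hg]
  zero_mem' := fun y => rfl
  smul_mem' := by
    intro c f hf y
    rw [Pi.smul_apply, Pi.smul_apply, hf]

theorem fix_le {F Y : Type} [Field F] [Fintype Y] (e : Equiv.Perm Y) (K : ℕ)
    (hK : ∀ k, 0 < k → k < K → ∀ y, (e ^ k) y ≠ y) : K * finrank F (Fix F e) ≤ Fintype.card Y := by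
  classical
  let st : Setoid Y := Equiv.Perm.SameCycle.setoid e
  have hst : ∀ x y : Y, st x y ↔ e.SameCycle x y := fun x y => Iff.rfl
  let Q := Quotient st
  have h1 : finrank F (Fix F e) ≤ Fintype.card Q := by
    have hf : ∀ f ∈ Fix F e, ∀ x y, e.SameCycle x y → f x = f y := by
      intro f hf x y hxy
      obtain ⟨n, rfl⟩ := hxy
      have hp : ∀ (m : ℕ) (x : Y), f ((e ^ m) x) = f x := by
        intro m
        induction m with
        | zero => intro x; rfl
        | succ m ih =>
          intro x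
          rw [pow_succ, Equiv.Perm.mul_apply, ih, hf]
      obtain ⟨m, rfl | rfl⟩ := n.eq_nat_or_neg
      · rw [zpow_natCast, hp]
      · have h := hp m ((e ^ (-(m : ℤ))) x)
        rw [← h, ← zpow_natCast, ← Equiv.Perm.mul_apply, ← zpow_add]
        simp
    let L : Fix F e →ₗ[F] (Q → F) :=
      { toFun := fun f q => Quotient.lift f.1 (hf f.1 f.2) q
        map_add' := by
          intro f g
          funext q
          induction q using Quotient.inductionOn with
          | h y => rfl
        map_smul' := by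
          intro c f
          funext q
          induction q using Quotient.inductionOn with
          | h y => rfl }
    have hL : Function.Injective L := by
      intro f g hfg
      apply Subtype.ext
      funext y
      exact congrFun hfg (Quotient.mk st y)
    have h3 := LinearMap.finrank_le_finrank_of_injective hL
    rwa [Module.finrank_fintype_fun_eq_card] at h3
  have h2 : Fintype.card (Fin K × Q) ≤ Fintype.card Y := by
    refine Fintype.card_le_of_injective (fun x : Fin K × Q => (e ^ (x.1 : ℕ)) x.2.out) ?_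
    have key : ∀ (k l : ℕ) (y : Y), k < K → l < K → k ≤ l → (e ^ k) y = (e ^ l) y → k = l := by
      intro k l y hk hl hkl h
      by_contra hne
      obtain ⟨m, rfl⟩ := Nat.exists_eq_add_of_le hkl
      refine hK m (by omega) (by omega) y ?_
      rw [pow_add, Equiv.Perm.mul_apply] at h
      exact ((e ^ k).injective h).symm
    rintro ⟨k, q⟩ ⟨l, q'⟩ h
    have h : (e ^ (k : ℕ)) q.out = (e ^ (l : ℕ)) q'.out := h
    have hq : q = q' := by
      rw [← q.out_eq, ← q'.out_eq]
      refine Quotient.sound ?_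
      have h3 : e.SameCycle q.out q'.out := by
        have h4 : e.SameCycle q.out ((e ^ (k : ℕ)) q.out) := ⟨k, by simp⟩
        have h5 : e.SameCycle q'.out ((e ^ (l : ℕ)) q'.out) := ⟨l, by simp⟩
        rw [h] at h4
        exact h4.trans h5.symm
      exact h3
    subst hq
    have hkl : (k : ℕ) = l := by
      rcases le_total (k : ℕ) l with h3 | h3
      · exact key k l _ k.2 l.2 h3 h
      · exact (key l k _ l.2 k.2 h3 h.symm).symm
    rw [Fin.ext hkl]
  rw [Fintype.card_prod, Fintype.card_fin] at h2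
  exact (Nat.mul_le_mul_left K h1).trans h2

/-! ### the suspension estimate -/

theorem susp_le {V F Y : Type} [Fintype V] [LinearOrder V] [Field F] [Fintype Y] (h2 : (2 : F) ≠ 0)
    (G : SimpleGraph V) (a : V → Y → Y) (hinv0 : ∀ v x, a v (a v x) = x)
    (hcomm0 : ∀ u v, G.Adj u v → ∀ x, a u (a v x) = a v (a u x)) (s t : V) (hst : s ≠ t)
    (hnadj : ¬ G.Adj s t) (hadj : ∀ u, u ≠ s → u ≠ t → G.Adj u s ∧ G.Adj u t) (K : ℕ)
    (hK : ∀ k, 0 < k → k < K → ∀ y, (fun z => a t (a s z))^[k] y ≠ y) (i : ℕ) :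
    K * beta G (pull F a) Set.univ ∅ i ≤ 2 ^ (Fintype.card V + 1) * Fintype.card Y := by
  set ρ : V → (Y → F) →ₗ[F] (Y → F) := pull F a with hρ
  have hρa : ∀ v m x, ρ v m x = m (a v x) := fun _ _ _ => rfl
  have hinv : ∀ v m, ρ v (ρ v m) = m := by
    intro v m
    funext x
    rw [hρa, hρa, hinv0]
  have hcomm : ∀ u v, G.Adj u v → ∀ m, ρ u (ρ v m) = ρ v (ρ u m) := by
    intro u v huv m
    funext x
    rw [hρa, hρa, hρa, hρa, hcomm0 u v huv]
  have hsu : ∀ u, u ≠ s → u ≠ t → ∀ m, ρ u (ρ s m) = ρ s (ρ u m) ∧ ρ u (ρ t m) = ρ t (ρ u m) :=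
    fun u h1 h3 m => ⟨hcomm u s (hadj u h1 h3).1 m, hcomm u t (hadj u h1 h3).2 m⟩
  -- the rotation
  let e : Equiv.Perm Y := ⟨fun z => a t (a s z), fun z => a s (a t z), fun z => by
    show a s (a t (a t (a s z))) = z
    rw [hinv0, hinv0], fun z => by
    show a t (a s (a s (a t z))) = z
    rw [hinv0, hinv0]⟩
  have he : ∀ z, e z = a t (a s z) := fun _ => rfl
  have hfix : K * finrank F (Fix F e) ≤ Fintype.card Y := by
    refine fix_le e K fun k h0 h1 y => ?_
    rw [← Equiv.Perm.iterate_eq_pow]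
    exact hK k h0 h1 y
  -- the submodule `N0`
  let N0 : Submodule F (Y → F) :=
    LinearMap.ker (ρ s + LinearMap.id) ⊔ LinearMap.ker (ρ t + LinearMap.id)
  have hker : ∀ v m, m ∈ LinearMap.ker (ρ v + LinearMap.id) ↔ ρ v m = -m := by
    intro v m
    rw [LinearMap.mem_ker, LinearMap.add_apply, LinearMap.id_apply]
    exact ⟨fun h => eq_neg_of_add_eq_zero_left h, fun h => by rw [h, neg_add_cancel]⟩
  have hN0 : ∀ m, m ∈ N0 ↔ ∃ x y, m = x + y ∧ ρ s x = -x ∧ ρ t y = -y := by
    intro m
    rw [Submodule.mem_sup]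
    constructor
    · rintro ⟨x, hx, y, hy, rfl⟩
      exact ⟨x, y, rfl, (hker s x).mp hx, (hker t y).mp hy⟩
    · rintro ⟨x, y, rfl, hx, hy⟩
      exact ⟨x, (hker s x).mpr hx, y, (hker t y).mpr hy, rfl⟩
  have hN0inv : ∀ v, ∀ m ∈ N0, ρ v m ∈ N0 := by
    intro v m hm
    obtain ⟨x, y, rfl, hx, hy⟩ := (hN0 m).mp hm
    by_cases h1 : v = s
    · rw [h1]
      rw [hN0]
      refine ⟨-x - (y - ρ s y), y, ?_, ?_, hy⟩
      · rw [map_add, hx]
        abel
      · rw [map_sub, map_neg, map_sub, hinv, hx]
        abel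
    · by_cases h3 : v = t
      · rw [h3, hN0]
        refine ⟨x, -y - (x - ρ t x), ?_, hx, ?_⟩
        · rw [map_add, hy]
          abel
        · rw [map_sub, map_neg, map_sub, hinv, hy]
          abel
      · rw [hN0]
        refine ⟨ρ v x, ρ v y, map_add _ _ _, ?_, ?_⟩
        · rw [← (hsu v h1 h3 x).1, hx, map_neg]
        · rw [← (hsu v h1 h3 y).2, hy, map_neg]
  -- first sequence
  have B1 := Pool.Agent.W215.SG.sub_quot Pool.Agent.W907.SG.sub G ρ h2 hinv hcomm N0 hN0inv i
  -- second sequence
  set σ : V → N0 →ₗ[F] N0 := fun v => (ρ v).restrict (hN0inv v) with hσ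
  have hσv : ∀ v (m : N0), ((σ v m : N0) : Y → F) = ρ v m := fun _ _ => rfl
  have hσinv : ∀ v m, σ v (σ v m) = m := fun v m => Subtype.ext (by rw [hσv, hσv, hinv])
  have hσcomm : ∀ u v, G.Adj u v → ∀ m, σ u (σ v m) = σ v (σ u m) := fun u v huv m =>
    Subtype.ext (by rw [hσv, hσv, hσv, hσv, hcomm u v huv])
  let E : Submodule F N0 :=
    LinearMap.ker (σ s + LinearMap.id) ⊓ LinearMap.ker (σ t + LinearMap.id)
  have hkerσ : ∀ v m, m ∈ LinearMap.ker (σ v + LinearMap.id) ↔ σ v m = -m := by
    intro v m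
    rw [LinearMap.mem_ker, LinearMap.add_apply, LinearMap.id_apply]
    exact ⟨fun h => eq_neg_of_add_eq_zero_left h, fun h => by rw [h, neg_add_cancel]⟩
  have hE : ∀ m, m ∈ E ↔ σ s m = -m ∧ σ t m = -m := by
    intro m
    rw [Submodule.mem_inf, hkerσ, hkerσ]
  have hEinv : ∀ v, ∀ m ∈ E, σ v m ∈ E := by
    intro v m hm
    obtain ⟨h3, h4⟩ := (hE m).mp hm
    by_cases h1 : v = s
    · rw [h1, h3]
      exact E.neg_mem hm
    · by_cases h5 : v = t
      · rw [h5, h4]
        exact E.neg_mem hm
      · rw [hE]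
        have c1 := hσcomm v s (hadj v h1 h5).1 m
        have c2 := hσcomm v t (hadj v h1 h5).2 m
        exact ⟨by rw [← c1, h3, map_neg], by rw [← c2, h4, map_neg]⟩
  have B2 := Pool.Agent.W215.SG.sub_quot Pool.Agent.W907.SG.sub G σ h2 hσinv hσcomm E hEinv i
  -- the quotient is acyclic
  have B3 : beta G (fun v => E.mapQ E (σ v) (hEinv v)) Set.univ ∅ i = 0 := by
    apply Pool.Agent.W907.SG.acyc V F (N0 ⧸ E) G (fun v => E.mapQ E (σ v) (hEinv v)) s t hst hnadj
      hadj
    · intro u v huv m
      obtain ⟨m, rfl⟩ := Submodule.mkQ_surjective E m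
      simp only [Submodule.mkQ_apply, Submodule.mapQ_apply]
      rw [hσcomm u v huv]
    · intro m
      obtain ⟨m, rfl⟩ := Submodule.mkQ_surjective E m
      obtain ⟨x, y, hxy, hx, hy⟩ := (hN0 m).mp m.2
      have hx0 : x ∈ N0 := (hN0 x).mpr ⟨x, 0, by simp, hx, by simp⟩
      have hy0 : y ∈ N0 := (hN0 y).mpr ⟨0, y, by simp, by simp, hy⟩
      refine ⟨E.mkQ ⟨x, hx0⟩, E.mkQ ⟨y, hy0⟩, ?_, ?_, ?_⟩
      · rw [← map_add]
        congr 1
        exact Subtype.ext hxy
      · simp only [Submodule.mkQ_apply, Submodule.mapQ_apply]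
        rw [← Submodule.Quotient.mk_neg]
        congr 1
        exact Subtype.ext hx
      · simp only [Submodule.mkQ_apply, Submodule.mapQ_apply]
        rw [← Submodule.Quotient.mk_neg]
        congr 1
        exact Subtype.ext hy
    · intro m
      obtain ⟨m, rfl⟩ := Submodule.mkQ_surjective E m
      simp only [Submodule.mkQ_apply, Submodule.mapQ_apply]
      intro h3 h4
      have key : ∀ v, (v = s ∨ v = t) →
          (Submodule.Quotient.mk (σ v m) : N0 ⧸ E) = -Submodule.Quotient.mk m → σ v m = -m := by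
        intro v hv h5
        have h6 : σ v m + m ∈ E := by
          rw [← Submodule.Quotient.mk_eq_zero, Submodule.Quotient.mk_add, h5, neg_add_cancel]
        have h7 : σ v (σ v m + m) = -(σ v m + m) := by
          rcases hv with rfl | rfl
          · exact ((hE _).mp h6).1
          · exact ((hE _).mp h6).2
        have h8 : σ v (σ v m + m) = σ v m + m := by
          rw [map_add, hσinv]
          abel
        have h9 : (2 : F) • (σ v m + m) = 0 := by
          rw [two_smul]
          nth_rewrite 1 [← h8]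
          rw [h7, neg_add_cancel]
        have h10 := (smul_eq_zero.mp h9).resolve_left h2
        exact eq_neg_of_add_eq_zero_left h10
      rw [Submodule.Quotient.mk_eq_zero, hE]
      exact ⟨key s (Or.inl rfl) h3, key t (Or.inr rfl) h4⟩
  -- dimensions
  have D1 : finrank F E ≤ finrank F (Fix F e) := by
    let R : E →ₗ[F] Fix F e :=
      { toFun := fun m => ⟨((m : N0) : Y → F), fun y => by
          obtain ⟨h3, h4⟩ := (hE (m : N0)).mp m.2
          have h3' : ∀ z, ((m : N0) : Y → F) (a s z) =
              -((m : N0) : Y → F) z := fun z => congrFun (congrArg Subtype.val h3) z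
          have h4' : ∀ z, ((m : N0) : Y → F) (a t z) =
              -((m : N0) : Y → F) z := fun z => congrFun (congrArg Subtype.val h4) z
          rw [he, h4', h3', neg_neg]⟩
        map_add' := fun _ _ => rfl
        map_smul' := fun _ _ => rfl }
    have hR : Function.Injective R := by
      intro m m' h
      apply Subtype.ext
      apply Subtype.ext
      have h1 : (R m).1 = (R m').1 := congrArg Subtype.val h
      exact h1
    exact LinearMap.finrank_le_finrank_of_injective hR
  have D2 : finrank F ((Y → F) ⧸ N0) ≤ finrank F (Fix F e) := by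
    let R : (Y → F) →ₗ[F] (Y → F) := LinearMap.id - (ρ s).comp (ρ t)
    have hR : ∀ m, R m = m - ρ s (ρ t m) := fun _ => rfl
    have h3 : LinearMap.range R ≤ N0 := by
      rintro _ ⟨m, rfl⟩
      rw [hR, hN0]
      refine ⟨ρ t m - ρ s (ρ t m), m - ρ t m, by abel, ?_, ?_⟩
      · rw [map_sub, hinv]
        abel
      · rw [map_sub, hinv]
        abel
    have h4 : LinearMap.ker R ≤ Fix F e := by
      intro m hm
      rw [LinearMap.mem_ker, hR, sub_eq_zero] at hm
      intro y
      rw [he]
      have := congrFun hm y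
      rw [hρa, hρa] at this
      exact this.symm
    have h5 := LinearMap.finrank_range_add_finrank_ker R
    have h6 := Submodule.finrank_quotient_add_finrank N0
    have h7 := Submodule.finrank_mono h3
    have h8 := Submodule.finrank_mono h4
    omega
  have B4 := Pool.Agent.W907.SG.dim V F E G (fun v => (σ v).restrict (hEinv v)) Set.univ ∅ i
  have B5 := Pool.Agent.W907.SG.dim V F ((Y → F) ⧸ N0) G (fun v => N0.mapQ N0 (ρ v) (hN0inv v))
    Set.univ ∅ i
  have hb : beta G ρ Set.univ ∅ i ≤ 2 ^ (Fintype.card V + 1) * finrank F (Fix F e) := by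
    have h3 : 2 ^ Fintype.card V * finrank F E ≤
        2 ^ Fintype.card V * finrank F (Fix F e) := Nat.mul_le_mul_left _ D1
    have h4 : 2 ^ Fintype.card V * finrank F ((Y → F) ⧸ N0) ≤
        2 ^ Fintype.card V * finrank F (Fix F e) := Nat.mul_le_mul_left _ D2
    have h5 : 2 ^ (Fintype.card V + 1) * finrank F (Fix F e) =
        2 ^ Fintype.card V * finrank F (Fix F e) + 2 ^ Fintype.card V * finrank F (Fix F e) := by
      rw [pow_succ]
      ring
    omega
  calc K * beta G ρ Set.univ ∅ i ≤ K * (2 ^ (Fintype.card V + 1) * finrank F (Fix F e)) :=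
        Nat.mul_le_mul_left _ hb
    _ = 2 ^ (Fintype.card V + 1) * (K * finrank F (Fix F e)) := by ring
    _ ≤ _ := Nat.mul_le_mul_left _ hfix

/-! ### links -/

theorem link_le {V F Y : Type} [Fintype V] [LinearOrder V] [Field F] [Fintype Y] (h2 : (2 : F) ≠ 0)
    (G : SimpleGraph V) (a : V → Y → Y) (hinv0 : ∀ v x, a v (a v x) = x)
    (hcomm0 : ∀ u v, G.Adj u v → ∀ x, a u (a v x) = a v (a u x)) (L : Set V) (m s t : V)
    (hm : ∀ u ∈ L, G.Adj u m) (hs : s ∈ L) (ht : t ∈ L) (hst : s ≠ t)
    (hnadj : ¬ G.Adj s t) (hadj : ∀ u ∈ L, u ≠ s → u ≠ t → G.Adj u s ∧ G.Adj u t) (K : ℕ)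
    (hK : ∀ k, 0 < k → k < K → ∀ y, (fun z => a t (a s z))^[k] y ≠ y) (i : ℕ) :
    K * beta G (pull F a) L (insert m ∅) i ≤ 2 ^ (Fintype.card V + 1) * Fintype.card Y := by
  classical
  have h1 := Pool.Agent.W907.SG.eig V F (Y → F) G (pull F a) L ∅ m h2
    (fun f => by
      funext x
      rw [pull_apply, pull_apply, hinv0])
    (fun u hu f => by
      have hu' : G.Adj u m := by
        rcases hu with hu | hu
        · exact hm u hu
        · exact absurd hu (by simp)
      funext x
      rw [pull_apply, pull_apply, pull_apply, pull_apply, hcomm0 u m hu']) i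
  have h3 := Pool.Agent.W907.SG.tr ↥L V F (Y → F) G (G.induce L) (pull F a) (fun u => (u : V))
      (Subtype.strictMono_coe _) (fun u u' => Iff.rfl) i
  rw [Subtype.range_coe] at h3
  have h4 := susp_le h2 (G.induce L) (fun u : ↥L => a u.1) (fun v x => hinv0 v.1 x)
    (fun u v huv x => hcomm0 u.1 v.1 huv x) ⟨s, hs⟩ ⟨t, ht⟩ (fun h => hst (congrArg Subtype.val h))
    (fun h => hnadj h) (fun u hus hut => hadj u.1 u.2 (fun h => hus (Subtype.ext h))
      (fun h => hut (Subtype.ext h))) K hK i
  have h5 : beta (G.induce L) (pull F (fun u : ↥L => a u.1)) Set.univ ∅ i =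
      beta G (pull F a) L ∅ i := h3.symm
  rw [h5] at h4
  have h6 : Fintype.card ↥L ≤ Fintype.card V := set_fintype_card_le_univ L
  calc K * beta G (pull F a) L (insert m ∅) i ≤ K * beta G (pull F a) L ∅ i :=
        Nat.mul_le_mul_left _ h1
    _ ≤ 2 ^ (Fintype.card ↥L + 1) * Fintype.card Y := h4
    _ ≤ _ := Nat.mul_le_mul_right _ (Nat.pow_le_pow_right (by norm_num) (by omega))

/-- one vertex -/
theorem step_le {V F Y : Type} [Fintype V] [LinearOrder V] [Field F] [Fintype Y] (h2 : (2 : F) ≠ 0)
    (G : SimpleGraph V) (a : V → Y → Y) (hinv0 : ∀ v x, a v (a v x) = x)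
    (hcomm0 : ∀ u v, G.Adj u v → ∀ x, a u (a v x) = a v (a u x)) (A : Set V) (m s t : V)
    (hmA : m ∉ A) (hs : s ∈ A) (ht : t ∈ A) (hsm : G.Adj m s) (htm : G.Adj m t) (hst : s ≠ t)
    (hnadj : ¬ G.Adj s t) (hadj : ∀ u ∈ A, G.Adj m u → u ≠ s → u ≠ t → G.Adj u s ∧ G.Adj u t)
    (K : ℕ) (hK : ∀ k, 0 < k → k < K → ∀ y, (fun z => a t (a s z))^[k] y ≠ y) (i : ℕ) :
    K * beta G (pull F a) (insert m A) ∅ i ≤ K * beta G (pull F a) A ∅ i +
      2 ^ (Fintype.card V + 1) * Fintype.card Y ∧
    K * beta G (pull F a) A ∅ i ≤ K * beta G (pull F a) (insert m A) ∅ i +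
      2 ^ (Fintype.card V + 1) * Fintype.card Y := by
  have hl := fun j => link_le h2 G a hinv0 hcomm0 (A ∩ G.neighborSet m) m s t
    (fun u hu => (G.mem_neighborSet m u).1 hu.2 |>.symm) ⟨hs, hsm⟩ ⟨ht, htm⟩ hst hnadj
    (fun u hu h3 h4 => hadj u hu.1 hu.2 h3 h4) K hK j
  constructor
  · have hv := Pool.Agent.W907.SG.vert V F (Y → F) G (pull F a) A ∅ m hmA (by simp)
    cases i with
    | zero => exact (Nat.mul_le_mul_left K hv.1).trans (Nat.le_add_right _ _)
    | succ j =>
      refine (Nat.mul_le_mul_left K (hv.2 j)).trans ?_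
      rw [Nat.mul_add]
      exact Nat.add_le_add_left (hl j) _
  · refine (Nat.mul_le_mul_left K (Pool.Agent.R781.VS.vdel G (pull F a) A ∅ m hmA i)).trans ?_
    rw [Nat.mul_add]
    exact Nat.add_le_add_left (hl i) _

/-! ### combinatorics of the midpoints -/

section Cs

variable {N k : ℕ} {X : Finset (Finset (Fin N))} {col : Fin N → Fin k}

theorem mid_data (hX : ∀ σ ∈ X, ∀ τ : Finset (Fin N), τ ⊆ σ → τ ∈ X)
    (hc : ∀ σ ∈ X, (∀ v ∈ σ, ∀ w ∈ σ, col v = col w) → σ.card ≤ 2) (m : MF X col)
    (hm : m.1.card = 2) : ∃ s t : MF X col, s.1.card = 1 ∧ t.1.card = 1 ∧ s ≠ t ∧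
      (cs X col).Adj m s ∧ (cs X col).Adj m t ∧ ¬ (cs X col).Adj s t ∧
      ∀ u, (cs X col).Adj m u → u ≠ s → u ≠ t → (cs X col).Adj u s ∧ (cs X col).Adj u t := by
  classical
  obtain ⟨x, y, hxy, hxy'⟩ := Finset.card_eq_two.1 hm
  have hx : x ∈ m.1 := by rw [hxy']; simp
  have hy : y ∈ m.1 := by rw [hxy']; simp
  have hone : ∀ z, z ∈ m.1 → ({z} : Finset (Fin N)) ∈ X := fun z hz =>
    hX _ m.2.1 _ (Finset.singleton_subset_iff.2 hz)
  have hmk : ∀ z, z ∈ m.1 → ∃ s : MF X col, s.1 = {z} := fun z hz =>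
    ⟨⟨{z}, hone z hz, Finset.singleton_nonempty z, by simp⟩, rfl⟩
  obtain ⟨s, hs⟩ := hmk x hx
  obtain ⟨t, ht⟩ := hmk y hy
  have hadjm : ∀ z, z ∈ m.1 → ∀ s : MF X col, s.1 = {z} → (cs X col).Adj m s := by
    intro z hz s hs
    refine ⟨?_, ?_, fun _ => Or.inr ?_⟩
    · rintro rfl
      rw [hs] at hm
      simp at hm
    · rw [hs, Finset.union_eq_left.2 (Finset.singleton_subset_iff.2 hz)]
      exact m.2.1
    · rw [hs]
      exact Finset.singleton_subset_iff.2 hz
  refine ⟨s, t, by rw [hs]; simp, by rw [ht]; simp, ?_, hadjm x hx s hs, hadjm y hy t ht, ?_, ?_⟩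
  · rintro rfl
    rw [hs] at ht
    exact hxy (Finset.singleton_injective ht)
  · rintro ⟨_, _, h⟩
    rw [hs, ht] at h
    have h1 := h (by
      intro v hv w hw
      rw [Finset.mem_singleton] at hv hw
      rw [hv, hw]
      exact m.2.2.2 x hx y hy)
    rcases h1 with h1 | h1
    · exact hxy (by simpa using h1)
    · exact hxy (Finset.mem_singleton.1 (Finset.singleton_subset_iff.1 h1)).symm
  · intro u hu hus hut
    have hcol : ∀ v ∈ m.1, ∀ w ∈ u.1, col v ≠ col w := by
      intro v hv w hw hvw
      have h1 : ∀ v' ∈ m.1, ∀ w' ∈ u.1, col v' = col w' := by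
        intro v' hv' w' hw'
        rw [m.2.2.2 v' hv' v hv, hvw]
        exact u.2.2.2 w hw w' hw'
      rcases hu.2.2 h1 with h3 | h3
      · have h4 := hc u.1 u.2.1 u.2.2.2
        exact hu.1 (Subtype.ext (Finset.eq_of_subset_of_card_le h3 (by omega)))
      · have h4 : u.1 ⊆ {x, y} := hxy' ▸ h3
        have h5 : 0 < u.1.card := Finset.card_pos.2 u.2.2.1
        have h6 : u.1.card ≤ 1 := by
          by_contra h6
          exact hu.1 (Subtype.ext (Finset.eq_of_subset_of_card_le h3 (by omega))).symm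
        obtain ⟨z, hz⟩ := Finset.card_eq_one.1 (le_antisymm h6 h5)
        have h7 : z = x ∨ z = y := by
          have : z ∈ u.1 := by rw [hz]; simp
          simpa using h4 this
        rcases h7 with h7 | h7
        · exact hus (Subtype.ext (by rw [hz, hs, h7]))
        · exact hut (Subtype.ext (by rw [hz, ht, h7]))
    have key : ∀ z, z ∈ m.1 → ∀ s : MF X col, s.1 = {z} → u ≠ s → (cs X col).Adj u s := by
      intro z hz s hs hus
      refine ⟨hus, ?_, ?_⟩
      · refine hX _ hu.2.1 _ ?_
        rw [hs]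
        intro w hw
        rw [Finset.mem_union, Finset.mem_singleton] at hw
        rw [Finset.mem_union]
        rcases hw with hw | hw
        · exact Or.inr hw
        · exact Or.inl (hw ▸ hz)
      · intro h
        obtain ⟨w, hw⟩ := u.2.2.1
        have hz' : z ∈ s.1 := by rw [hs]; simp
        exact absurd (h w hw z hz').symm (hcol z hz w hw)
    exact ⟨key x hx s hs hus, key y hy t ht hut⟩

end Cs

end P2aux

open P2aux Module Pool.Agent.W907.SG Pool.Agent.W461.SGN Pool.Agent.R782.Bal in
/-- **P2.** -/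
theorem p2 : P2 := by
  intro N k F _ X col hX hcard _ _ ε h2 hε
  classical
  obtain ⟨K, hK⟩ := exists_nat_gt
    ((Fintype.card (MF X col) : ℝ) * 2 ^ (Fintype.card (MF X col) + 1) / ε)
  have hK0 : (0 : ℝ) < K := lt_of_le_of_lt (by positivity) hK
  refine ⟨((Finset.univ ×ˢ Finset.univ ×ˢ Finset.range K).filter
    (fun x : MF X col × MF X col × ℕ => x.1 ≠ x.2.1 ∧ ¬ (cs X col).Adj x.1 x.2.1 ∧ 0 < x.2.2)).image
    (fun x => ((cox (cs X col)).simple x.1 * (cox (cs X col)).simple x.2.1) ^ x.2.2), ?_, ?_⟩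
  · intro h
    obtain ⟨⟨s, t, j⟩, hx, h1⟩ := Finset.mem_image.1 h
    obtain ⟨-, h3, h4, h5⟩ := Finset.mem_filter.1 hx
    exact pow_ne (cs X col) s t h3 h4 j h5 h1
  · intro Y _ P i
    have hfree : ∀ s t : MF X col, s ≠ t → ¬ (cs X col).Adj s t → ∀ j, 0 < j → j < K → ∀ y,
        (fun z => P.a t (P.a s z))^[j] y ≠ y := by
      intro s t hst hna j hj0 hj y h
      have h1 : ∀ (j : ℕ) (y : Y), P.ev y (((cox (cs X col)).simple s *
          (cox (cs X col)).simple t) ^ j) = (fun z => P.a t (P.a s z))^[j] y := by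
        intro j
        induction j with
        | zero =>
          intro y
          rw [pow_zero, P.ev_one]
          rfl
        | succ j ih =>
          intro y
          rw [pow_succ', P.ev_mul, P.ev_mul, P.ev_simple, P.ev_simple, ih,
            Function.iterate_succ_apply]
      refine P.free _ (Finset.mem_image.2 ⟨(s, t, j), Finset.mem_filter.2 ⟨?_, ?_⟩, rfl⟩) y
        ((h1 j y).trans h)
      · simp [hj]
      · exact ⟨hst, hna, hj0⟩
    set C := 2 ^ (Fintype.card (MF X col) + 1) * Fintype.card Y with hC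
    set A0 : Set (MF X col) := {σ | σ.1.card = 1} with hA0
    have hind : ∀ B : Finset (MF X col), (∀ m ∈ B, m.1.card = 2) →
        K * beta (cs X col) (pull F P.a) (A0 ∪ ↑B) ∅ i ≤
          K * beta (cs X col) (pull F P.a) A0 ∅ i + B.card * C ∧
        K * beta (cs X col) (pull F P.a) A0 ∅ i ≤
          K * beta (cs X col) (pull F P.a) (A0 ∪ ↑B) ∅ i + B.card * C := by
      intro B
      induction B using Finset.induction_on with
      | empty =>
        intro _
        simp
      | insert m B hmB ih =>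
        intro hB
        obtain ⟨ih1, ih2⟩ := ih fun m' hm' => hB m' (Finset.mem_insert_of_mem hm')
        have hm2 := hB m (Finset.mem_insert_self m B)
        obtain ⟨s, t, hs, ht, hst, hms, hmt, hna, hadj⟩ := mid_data hX hcard m hm2
        have hmA : m ∉ A0 ∪ ↑B := by
          rintro (h | h)
          · have h : m.1.card = 1 := h
            omega
          · exact hmB h
        obtain ⟨h3, h4⟩ := step_le h2 (cs X col) P.a P.inv P.comm (A0 ∪ ↑B) m s t hmA
          (Or.inl hs) (Or.inl ht) hms hmt hst hna (fun u _ hu h5 h6 => hadj u hu h5 h6) K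
          (hfree s t hst hna) i
        have h5 : A0 ∪ ↑(insert m B) = insert m (A0 ∪ ↑B) := by
          rw [Finset.coe_insert, Set.union_insert]
        rw [h5, Finset.card_insert_of_notMem hmB, Nat.add_mul, Nat.one_mul]
        constructor
        · omega
        · omega
    obtain ⟨h3, h4⟩ := hind (Finset.univ.filter fun σ => σ.1.card = 2) (by simp)
    have h5 : A0 ∪ ↑(Finset.univ.filter fun σ : MF X col => σ.1.card = 2) = Set.univ := by
      ext σ
      simp only [Set.mem_union, Finset.mem_coe, Finset.mem_filter, Finset.mem_univ, true_and,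
        Set.mem_univ, iff_true]
      have h6 := hcard σ.1 σ.2.1 σ.2.2.2
      have h7 : 0 < σ.1.card := Finset.card_pos.2 σ.2.2.1
      rcases (by omega : σ.1.card = 1 ∨ σ.1.card = 2) with h | h
      · exact Or.inl h
      · exact Or.inr h
    rw [h5] at h3 h4
    have h6 : (Finset.univ.filter fun σ : MF X col => σ.1.card = 2).card ≤
        Fintype.card (MF X col) := Finset.card_le_univ _
    have h7 := Nat.mul_le_mul_right C h6
    have h8 : K * beta (cs X col) (pull F P.a) Set.univ ∅ i ≤
        K * beta (cs X col) (pull F P.a) A0 ∅ i + Fintype.card (MF X col) * C := by omega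
    have h9 : K * beta (cs X col) (pull F P.a) A0 ∅ i ≤
        K * beta (cs X col) (pull F P.a) Set.univ ∅ i + Fintype.card (MF X col) * C := by omega
    have h8' : (K : ℝ) * beta (cs X col) (pull F P.a) Set.univ ∅ i ≤
        K * beta (cs X col) (pull F P.a) A0 ∅ i + Fintype.card (MF X col) * C := by
      exact_mod_cast h8
    have h9' : (K : ℝ) * beta (cs X col) (pull F P.a) A0 ∅ i ≤
        K * beta (cs X col) (pull F P.a) Set.univ ∅ i + Fintype.card (MF X col) * C := by
      exact_mod_cast h9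
    have hC' : (Fintype.card (MF X col) : ℝ) * C ≤ K * (ε * Fintype.card Y) := by
      rw [div_lt_iff₀ hε] at hK
      rw [hC]
      push_cast
      have hY : (0 : ℝ) ≤ Fintype.card Y := Nat.cast_nonneg _
      nlinarith [mul_le_mul_of_nonneg_right hK.le hY]
    rw [abs_le]
    constructor
    · refine le_of_mul_le_mul_left ?_ hK0
      linarith
    · refine le_of_mul_le_mul_left ?_ hK0
      linarith

end Pool.Agent.N496.LT
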