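import Pool.Agent.N496.LT.Stm

/-!
# Project LT, part P3A (helper572): ranks over the reals and modulo p
-/

set_option autoImplicit false
open scoped Matrix
open Module Pool.Agent.N496.LT

namespace Pool.Agent.N572.LT

/-- some rows are a basis of the row space -/
theorem exists_rows {F m n : Type} [Field F] [Fintype m] [Fintype n] (A : Matrix m n F) (r : ℕ)
    (hr : A.rank = r) : ∃ f : Fin r → m, LinearIndependent F (A.submatrix f id).row := by
  rw [Matrix.rank_eq_finrank_span_row] at hr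
  subst hr
  obtain ⟨f, hf, _, hli⟩ := Submodule.exists_fun_fin_finrank_span_eq F (Set.range A.row)
  choose g hg using hf
  refine ⟨g, ?_⟩
  have : (A.submatrix g id).row = f := by
    funext i
    rw [← hg i]
    rfl
  rw [this]
  exact hli

/-- a nonzero minor of maximal size -/
theorem exists_minor {F m n : Type} [Field F] [Fintype m] [Fintype n] (A : Matrix m n F) (r : ℕ)
    (hr : A.rank = r) : ∃ (f : Fin r → m) (g : Fin r → n), (A.submatrix f g).det ≠ 0 := by
  obtain ⟨f, hf⟩ := exists_rows A r hr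
  have h1 : (A.submatrix f id)ᵀ.rank = r := by
    rw [Matrix.rank_transpose, hf.rank_matrix, Fintype.card_fin]
  obtain ⟨g, hg⟩ := exists_rows (A.submatrix f id)ᵀ r h1
  refine ⟨f, g, ?_⟩
  have h2 := Matrix.linearIndependent_rows_iff_isUnit.1 hg
  rw [Matrix.isUnit_iff_isUnit_det] at h2
  have h3 : (A.submatrix f g).det = ((A.submatrix f id)ᵀ.submatrix g id).det := by
    rw [← Matrix.det_transpose]
    rfl
  rw [h3]
  exact h2.ne_zero

/-- the rank modulo `p` is at most the rank -/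
theorem rank_mod_le {m n : Type} [Fintype m] [Fintype n] (A : Matrix m n ℤ) (p : ℕ)
    [Fact p.Prime] : (A.map (Int.cast : ℤ → ZMod p)).rank ≤ (A.map (Int.cast : ℤ → ℝ)).rank := by
  classical
  obtain ⟨r, hr⟩ : ∃ r, (A.map (Int.cast : ℤ → ZMod p)).rank = r := ⟨_, rfl⟩
  obtain ⟨f, g, h⟩ := exists_minor (A.map (Int.cast : ℤ → ZMod p)) r hr
  have h1 : (A.submatrix f g).det ≠ 0 := by
    intro h0
    apply h
    have h2 := (Int.castRingHom (ZMod p)).map_det (A.submatrix f g)
    rw [h0, map_zero] at h2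
    exact h2.symm
  have h3 : ((A.map (Int.cast : ℤ → ℝ)).submatrix f g).det ≠ 0 := by
    have h2 := (Int.castRingHom ℝ).map_det (A.submatrix f g)
    intro h0
    apply h1
    have h4 : ((Int.castRingHom ℝ).mapMatrix (A.submatrix f g)) =
        (A.map (Int.cast : ℤ → ℝ)).submatrix f g := rfl
    rw [h4, h0, eq_intCast] at h2
    exact_mod_cast h2
  have h4 := Matrix.rank_of_det_ne_zero h3
  rw [Fintype.card_fin] at h4
  rw [hr, ← h4]
  exact Matrix.rank_submatrix_le _ _ _

/-- multiplicativity of the matrices over a finite group -/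
theorem coeff_mul_fintype {Q : Type} [Group Q] [Fintype Q] (x y : MonoidAlgebra ℤ Q) (g : Q) :
    (x * y).coeff g = ∑ h, x.coeff h * y.coeff (h⁻¹ * g) := by
  rw [MonoidAlgebra.coeff_mul_apply_left]
  exact Finsupp.sum_fintype _ _ (fun _ => zero_mul _)

/-- the matrix of a product is the product of the matrices -/
theorem mat_sq {Q : Type} [Group Q] [Fintype Q] (C : GCx Q) (F : Type) [Field F] :
    C.mat F * C.mat F = 0 := by
  classical
  ext1 x y
  rw [Matrix.mul_apply, Matrix.zero_apply, Fintype.sum_prod_type]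
  have h0 : (∑ z, C.D x.1 z * C.D z y.1) = 0 := by
    have := congrFun (congrFun C.D_sq x.1) y.1
    rwa [Matrix.mul_apply, Matrix.zero_apply] at this
  have h1 : ∀ z, ∑ h, C.mat F x (z, h) * C.mat F (z, h) y =
      (((C.D x.1 z * C.D z y.1).coeff (x.2⁻¹ * y.2) : ℤ) : F) := by
    intro z
    rw [coeff_mul_fintype, Int.cast_sum]
    refine Eq.trans ?_ (Equiv.sum_comp (Equiv.mulLeft x.2⁻¹) (fun g =>
      (((C.D x.1 z).coeff g * (C.D z y.1).coeff (g⁻¹ * (x.2⁻¹ * y.2)) : ℤ) : F)))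
    refine Finset.sum_congr rfl fun h _ => ?_
    have h2 : (x.2⁻¹ * h)⁻¹ * (x.2⁻¹ * y.2) = h⁻¹ * y.2 := by group
    rw [Int.cast_mul, Equiv.coe_mulLeft, h2]
    rfl
  rw [Finset.sum_congr rfl fun z _ => h1 z, ← Int.cast_sum, ← Finsupp.finsetSum_apply,
    ← MonoidAlgebra.coeff_sum, h0]
  simp

/-- the complex property bounds the ranks -/
theorem betti_nonneg {Q : Type} [Group Q] [Fintype Q] (C : GCx Q) (F : Type) [Field F] (n : ℕ) :
    0 ≤ C.betti F n := by
  classical
  set A : Matrix {x : C.ι × Q // C.deg x.1 = n + 1} {x : C.ι × Q // C.deg x.1 = n} F :=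
    (C.mat F).submatrix (fun x => x.1) (fun x => x.1) with hA
  set B : Matrix {x : C.ι × Q // C.deg x.1 = n} (C.ι × Q) F :=
    (C.mat F).submatrix (fun x => x.1) id with hB
  set M : Matrix {x : C.ι × Q // C.deg x.1 = n + 1} (C.ι × Q) F :=
    (C.mat F).submatrix (fun x => x.1) id with hM
  have hzero : ∀ x y : C.ι × Q, C.deg x.1 ≠ C.deg y.1 + 1 → C.mat F x y = 0 := by
    intro x y h
    have h1 : C.D x.1 y.1 = 0 := by
      by_contra h1
      exact h (C.D_deg _ _ h1)
    show (((C.D x.1 y.1).coeff (x.2⁻¹ * y.2) : ℤ) : F) = 0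
    rw [h1]
    simp
  have hsum : ∀ (x : C.ι × Q) (hx : C.deg x.1 = n + 1) (f : C.ι × Q → F),
      ∑ z : {x : C.ι × Q // C.deg x.1 = n}, C.mat F x z.1 * f z.1 =
        ∑ z, C.mat F x z * f z := by
    intro x hx f
    rw [← Finset.sum_subtype (Finset.univ.filter fun z : C.ι × Q => C.deg z.1 = n) (by simp)
      (fun z => C.mat F x z * f z), Finset.sum_filter]
    refine Finset.sum_congr rfl fun z _ => ?_
    split_ifs with hz
    · rfl
    · rw [hzero x z (by omega), zero_mul]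
  have hAB : A * B = 0 := by
    ext1 x y
    have h1 := congrFun (congrFun (mat_sq C F) x.1) y
    rw [Matrix.mul_apply, Matrix.zero_apply] at h1
    rw [Matrix.mul_apply, Matrix.zero_apply, ← h1]
    exact hsum x.1 x.2 (fun z => C.mat F z y)
  have hMA : M = A * (1 : Matrix (C.ι × Q) (C.ι × Q) F).submatrix
      (fun x : {x : C.ι × Q // C.deg x.1 = n} => x.1) id := by
    ext1 x y
    rw [Matrix.mul_apply]
    have h1 := hsum x.1 x.2 (fun z => (1 : Matrix (C.ι × Q) (C.ι × Q) F) z y)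
    refine Eq.trans ?_ h1.symm
    rw [← Matrix.mul_apply, mul_one]
    rfl
  have h1 : M.rank ≤ A.rank := by
    rw [hMA]
    exact Matrix.rank_mul_le_left _ _
  have h2 := Matrix.rank_add_rank_le_card_of_mul_eq_zero hAB
  have h3 : Fintype.card {x : C.ι × Q // C.deg x.1 = n} =
      Fintype.card {i : C.ι // C.deg i = n} * Fintype.card Q := by
    rw [← Fintype.card_prod]
    exact Fintype.card_congr
      ⟨fun x => (⟨x.1.1, x.2⟩, x.1.2), fun x => ⟨(x.1.1, x.2), x.1.2⟩, fun _ => rfl, fun _ => rfl⟩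
  have h4 : C.rk F (n + 1) = M.rank := rfl
  have h5 : C.rk F n = B.rank := rfl
  unfold GCx.betti
  rw [h4, h5]
  have h6 : M.rank + B.rank ≤ Fintype.card {i : C.ι // C.deg i = n} * Fintype.card Q := by
    rw [← h3]
    omega
  have h7 : ((M.rank + B.rank : ℕ) : ℤ) ≤
      ((Fintype.card {i : C.ι // C.deg i = n} * Fintype.card Q : ℕ) : ℤ) := by exact_mod_cast h6
  push_cast at h7
  linarith

/-- the rank modulo `p` is at most the rank -/
theorem rk_mod_le {Q : Type} [Group Q] [Fintype Q] (C : GCx Q) (p : ℕ) [Fact p.Prime] (n : ℕ) :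
    C.rk (ZMod p) n ≤ C.rk ℝ n := by
  classical
  have h := rank_mod_le (Matrix.of fun (x : {x : C.ι × Q // C.deg x.1 = n}) (y : C.ι × Q) =>
    (C.D x.1.1 y.1).coeff (x.1.2⁻¹ * y.2)) p
  exact h

theorem p3A' (Q : Type) [Group Q] [Fintype Q] (C : GCx Q) (p : ℕ) [Fact p.Prime] (n : ℕ) :
    C.rk (ZMod p) n ≤ C.rk ℝ n ∧ (0 ≤ C.betti ℝ n) ∧
    (C.betti (ZMod p) (n + 1) - C.betti ℝ (n + 1) - C.betti (ZMod p) (n + 2) ≤ C.tp p n) := by
  refine ⟨rk_mod_le C p n, betti_nonneg C ℝ n, ?_⟩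
  have h1 := betti_nonneg C ℝ (n + 2)
  have h2 := rk_mod_le C p (n + 1)
  have h3 := rk_mod_le C p (n + 1 + 1)
  have h4 := rk_mod_le C p (n + 2 + 1)
  unfold GCx.tp
  unfold GCx.betti at h1 ⊢
  push_cast [h2]
  have h3' : ((C.rk (ZMod p) (n + 1 + 1) : ℕ) : ℤ) ≤ (C.rk ℝ (n + 1 + 1) : ℕ) := by
    exact_mod_cast h3
  have h4' : ((C.rk (ZMod p) (n + 2 + 1) : ℕ) : ℤ) ≤ (C.rk ℝ (n + 2 + 1) : ℕ) := by
    exact_mod_cast h4
  have e1 : n + 1 + 1 = n + 2 := rfl
  rw [e1] at h3' ⊢
  linarith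

end Pool.Agent.N572.LT

namespace Pool.Agent.N496.LT

/-- P3A (helper572) -/
theorem p3A : P3A := Pool.Agent.N572.LT.p3A'

end Pool.Agent.N496.LT
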