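import Pool.Agent.N426.LT.Elm

/-!
# Project LT: torsion of squares and cubes (helper426)
-/

set_option autoImplicit false

namespace Pool.Agent.N496.LT

/-- torsion of a square -/
theorem p3S : P3S := Pool.Agent.N426.LT.p3S

/-- torsion of a triple product -/
theorem p3T : P3T := Pool.Agent.N426.LT.p3T

end Pool.Agent.N496.LT
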