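import Pool.Agent.N496.LT.Stm

/-!
# Project LT: the Davis complex is det-`L²`-acyclic if its reduced `ℓ²`-homology vanishes
-/

set_option autoImplicit false

open scoped Matrix InnerProductSpace

noncomputable section

namespace Pool.Agent.N75.LT

open Pool.Agent.N496.LT Pool.Agent.W907.SG Pool.Agent.TH630.Tor Pool.Agent.W461.SGN
  Pool.Agent.Helper993.FK Pool.Agent.Helper993.Delta

/-! ### functionals on the group ring -/

section ring
variable {Γ : Type} [Group Γ]

/-- `∑_h a(h) f(g h⁻¹)` -/
def ph (f : Γ → ℂ) (g : Γ) : MonoidAlgebra ℤ Γ →+ ℂ where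
  toFun a := a.coeff.sum fun h n => (n : ℂ) * f (g * h⁻¹)
  map_zero' := by simp
  map_add' a b := by
    rw [MonoidAlgebra.coeff_add, Finsupp.sum_add_index'] <;> simp [add_mul]

/-- `∑_h a(h) f(g h)` -/
def ph' (f : Γ → ℂ) (g : Γ) : MonoidAlgebra ℤ Γ →+ ℂ where
  toFun a := a.coeff.sum fun h n => (n : ℂ) * f (g * h)
  map_zero' := by simp
  map_add' a b := by
    rw [MonoidAlgebra.coeff_add, Finsupp.sum_add_index'] <;> simp [add_mul]

theorem ph_single (f : Γ → ℂ) (g h : Γ) (n : ℤ) :
    ph f g (MonoidAlgebra.single h n) = n * f (g * h⁻¹) := by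
  show (MonoidAlgebra.single h n).coeff.sum (fun h n => (n : ℂ) * f (g * h⁻¹)) = _
  rw [MonoidAlgebra.coeff_single, Finsupp.sum_single_index]
  simp

theorem ph'_single (f : Γ → ℂ) (g h : Γ) (n : ℤ) :
    ph' f g (MonoidAlgebra.single h n) = n * f (g * h) := by
  show (MonoidAlgebra.single h n).coeff.sum (fun h n => (n : ℂ) * f (g * h)) = _
  rw [MonoidAlgebra.coeff_single, Finsupp.sum_single_index]
  simp

theorem ph_one (f : Γ → ℂ) (g : Γ) : ph f g 1 = f g := by
  rw [MonoidAlgebra.one_def, ph_single]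
  simp

theorem ph'_one (f : Γ → ℂ) (g : Γ) : ph' f g 1 = f g := by
  rw [MonoidAlgebra.one_def, ph'_single]
  simp

theorem ph_intCast_mul (f : Γ → ℂ) (g : Γ) (n : ℤ) (a : MonoidAlgebra ℤ Γ) :
    ph f g ((n : MonoidAlgebra ℤ Γ) * a) = n * ph f g a := by
  rw [← zsmul_eq_mul, map_zsmul, zsmul_eq_mul]

theorem ph'_intCast_mul (f : Γ → ℂ) (g : Γ) (n : ℤ) (a : MonoidAlgebra ℤ Γ) :
    ph' f g ((n : MonoidAlgebra ℤ Γ) * a) = n * ph' f g a := by
  rw [← zsmul_eq_mul, map_zsmul, zsmul_eq_mul]

theorem ph_zero_fun (g : Γ) (a : MonoidAlgebra ℤ Γ) : ph (fun _ => 0) g a = 0 := by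
  show a.coeff.sum (fun _ n => (n : ℂ) * 0) = 0
  simp

theorem ph'_zero_fun (g : Γ) (a : MonoidAlgebra ℤ Γ) : ph' (fun _ => 0) g a = 0 := by
  show a.coeff.sum (fun _ n => (n : ℂ) * 0) = 0
  simp

theorem coord_sc {r s : ℕ} (i : Fin r) (j l : Fin s) (a : MonoidAlgebra ℤ Γ) (x : L2Pow Γ r)
    (g : Γ) : coord (sc i j (MonoidAlgebra.mapRingHom Γ (Int.castRingHom ℚ) a) x) l g =
      if l = j then ph (coord x i) g a else 0 := by
  induction a using MonoidAlgebra.induction_linear with
  | zero =>
    rw [map_zero, sc_zero, map_zero, ite_self]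
    rfl
  | add a b h1 h2 =>
    rw [map_add, sc_add, map_add, add_apply, coord_add, h1, h2]
    split_ifs <;> simp
  | single h n =>
    rw [MonoidAlgebra.mapRingHom_single, sc_single, smul_apply, coord_smul,
      coord_shift, ph_single]
    split_ifs <;> simp

theorem coord_sc' {r s : ℕ} (i l : Fin r) (j : Fin s) (a : MonoidAlgebra ℤ Γ) (x : L2Pow Γ s)
    (g : Γ) : coord (sc j i (invol (MonoidAlgebra.mapRingHom Γ (Int.castRingHom ℚ) a)) x) l g =
      if l = i then ph' (coord x j) g a else 0 := by
  induction a using MonoidAlgebra.induction_linear with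
  | zero =>
    rw [map_zero, invol, MonoidAlgebra.mapDomain_zero, sc_zero, map_zero, ite_self]
    rfl
  | add a b h1 h2 =>
    rw [map_add, invol, MonoidAlgebra.mapDomain_add, sc_add, map_add,
      add_apply, coord_add]
    rw [invol] at h1 h2
    rw [h1, h2]
    split_ifs <;> simp
  | single h n =>
    rw [MonoidAlgebra.mapRingHom_single, invol, MonoidAlgebra.mapDomain_single, sc_single,
      smul_apply, coord_smul, coord_shift, ph'_single, inv_inv]
    split_ifs <;> simp

theorem coord_rMul {r s : ℕ} (A : Matrix (Fin r) (Fin s) (MonoidAlgebra ℤ Γ)) (x : L2Pow Γ r)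
    (j : Fin s) (g : Γ) :
    coord (rMul (A.map (MonoidAlgebra.mapRingHom Γ (Int.castRingHom ℚ))) x) j g =
      ∑ i, ph (coord x i) g (A i j) := by
  rw [rMul_eq_sc, sum_apply, coord_sum]
  refine Finset.sum_congr rfl fun i _ => ?_
  rw [sum_apply, coord_sum, Finset.sum_eq_single j]
  · rw [Matrix.map_apply, coord_sc, if_pos rfl]
  · intro j' _ hj'
    rw [Matrix.map_apply, coord_sc, if_neg hj'.symm]
  · simp

theorem coord_adj {r s : ℕ} (A : Matrix (Fin r) (Fin s) (MonoidAlgebra ℤ Γ)) (x : L2Pow Γ s)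
    (i : Fin r) (g : Γ) :
    coord ((rMul (A.map (MonoidAlgebra.mapRingHom Γ (Int.castRingHom ℚ)))).adjoint x) i g =
      ∑ j, ph' (coord x j) g (A i j) := by
  rw [adjoint_rMul, rMul_eq_sc, sum_apply, coord_sum]
  refine Finset.sum_congr rfl fun j _ => ?_
  rw [sum_apply, coord_sum, Finset.sum_eq_single i]
  · show coord (sc j i (invol (MonoidAlgebra.mapRingHom Γ (Int.castRingHom ℚ) (A i j))) x) i g = _
    rw [coord_sc', if_pos rfl]
  · intro i' _ hi'
    show coord (sc j i' (invol (MonoidAlgebra.mapRingHom Γ (Int.castRingHom ℚ) (A i' j))) x) i g = _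
    rw [coord_sc', if_neg hi'.symm]
  · simp

end ring

/-! ### complexes -/

section cx
variable {Γ : Type} [Group Γ] (C : GCx Γ)

/-- The coefficients of a square summable chain. -/
def XX (n : ℕ) (x : L2Pow Γ (C.toFree.rank n)) (c : C.ι) (g : Γ) : ℂ :=
  if h : C.deg c = n then coord x (Fintype.equivFin {i : C.ι // C.deg i = n} ⟨c, h⟩) g else 0

theorem XX_ne (n : ℕ) (x : L2Pow Γ (C.toFree.rank n)) (c : C.ι) (h : C.deg c ≠ n) :
    XX C n x c = fun _ => 0 := by
  funext g
  rw [XX, dif_neg h]

theorem XX_symm (n : ℕ) (x : L2Pow Γ (C.toFree.rank n))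
    (a : Fin (Fintype.card {i : C.ι // C.deg i = n})) :
    XX C n x ((Fintype.equivFin {i : C.ι // C.deg i = n}).symm a).1 = coord x a := by
  funext g
  rw [XX, dif_pos ((Fintype.equivFin {i : C.ι // C.deg i = n}).symm a).2]
  congr 1
  exact Equiv.apply_symm_apply _ a

theorem XX_cyc (n : ℕ) (x : L2Pow Γ (C.toFree.rank (n + 1))) (hx : C.toFree.l2d n x = 0)
    (c' : C.ι) (g : Γ) : ∑ c, ph (XX C (n + 1) x c) g (C.D c c') = 0 := by
  by_cases hc' : C.deg c' = n
  · rw [← sum_deg C.deg (n + 1) (fun c => ph (XX C (n + 1) x c) g (C.D c c')) (fun c hc => by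
      rw [XX_ne C (n + 1) x c hc, ph_zero_fun]),
      ← (Fintype.equivFin {i : C.ι // C.deg i = n + 1}).symm.sum_comp]
    have h1 : coord (C.toFree.l2d n x) (Fintype.equivFin {i : C.ι // C.deg i = n} ⟨c', hc'⟩) g =
        0 := by
      rw [hx]
      rfl
    have h2 := coord_rMul (C.toFree.d n) x
      (Fintype.equivFin {i : C.ι // C.deg i = n} ⟨c', hc'⟩) g
    refine Eq.trans ?_ (h2.symm.trans h1)
    refine Finset.sum_congr rfl fun a _ => ?_
    rw [XX_symm]
    show _ = ph (coord x a) g (C.D ((Fintype.equivFin {i : C.ι // C.deg i = n + 1}).symm a).1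
      ((Fintype.equivFin {i : C.ι // C.deg i = n}).symm
        (Fintype.equivFin {i : C.ι // C.deg i = n} ⟨c', hc'⟩)).1)
    rw [Equiv.symm_apply_apply]
  · refine Finset.sum_eq_zero fun c _ => ?_
    by_cases hc : C.deg c = n + 1
    · have : C.D c c' = 0 := by
        by_contra h0
        have := C.D_deg _ _ h0
        omega
      rw [this, map_zero]
    · rw [XX_ne C (n + 1) x c hc, ph_zero_fun]

theorem XX_cyc0 (x : L2Pow Γ (C.toFree.rank 0)) (c' : C.ι) (g : Γ) :
    ∑ c, ph (XX C 0 x c) g (C.D c c') = 0 := by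
  refine Finset.sum_eq_zero fun c _ => ?_
  by_cases hc : C.deg c = 0
  · have : C.D c c' = 0 := by
      by_contra h0
      have := C.D_deg _ _ h0
      omega
    rw [this, map_zero]
  · rw [XX_ne C 0 x c hc, ph_zero_fun]

theorem XX_cocyc (n : ℕ) (x : L2Pow Γ (C.toFree.rank n))
    (hx : (C.toFree.l2d n).adjoint x = 0)
    (c : C.ι) (g : Γ) : ∑ c', ph' (XX C n x c') g (C.D c c') = 0 := by
  by_cases hc : C.deg c = n + 1
  · rw [← sum_deg C.deg n (fun c' => ph' (XX C n x c') g (C.D c c')) (fun c' hc' => by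
      rw [XX_ne C n x c' hc', ph'_zero_fun]),
      ← (Fintype.equivFin {i : C.ι // C.deg i = n}).symm.sum_comp]
    have h1 : coord ((C.toFree.l2d n).adjoint x)
        (Fintype.equivFin {i : C.ι // C.deg i = n + 1} ⟨c, hc⟩) g = 0 := by
      rw [hx]
      rfl
    have h2 := coord_adj (C.toFree.d n) x
      (Fintype.equivFin {i : C.ι // C.deg i = n + 1} ⟨c, hc⟩) g
    refine Eq.trans ?_ (h2.symm.trans h1)
    refine Finset.sum_congr rfl fun a _ => ?_
    rw [XX_symm]
    show _ = ph' (coord x a) g (C.D ((Fintype.equivFin {i : C.ι // C.deg i = n + 1}).symm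
        (Fintype.equivFin {i : C.ι // C.deg i = n + 1} ⟨c, hc⟩)).1
        ((Fintype.equivFin {i : C.ι // C.deg i = n}).symm a).1)
    rw [Equiv.symm_apply_apply]
  · refine Finset.sum_eq_zero fun c' _ => ?_
    by_cases hc' : C.deg c' = n
    · have : C.D c c' = 0 := by
        by_contra h0
        have := C.D_deg _ _ h0
        omega
      rw [this, map_zero]
    · rw [XX_ne C n x c' hc', ph'_zero_fun]

theorem XX_summable (n : ℕ) (x : L2Pow Γ (C.toFree.rank n)) (c : C.ι) :
    Summable fun g => ‖XX C n x c g‖ ^ 2 := by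
  by_cases hc : C.deg c = n
  · have h1 : Function.Injective (fun g : Γ =>
        ((Fintype.equivFin {i : C.ι // C.deg i = n} ⟨c, hc⟩, g) :
          Fin (Fintype.card {i : C.ι // C.deg i = n}) × Γ)) := by
      intro a b hab
      simpa using hab
    have h2 := (coord_summable x).comp_injective h1
    refine h2.congr fun g => ?_
    rw [XX, dif_pos hc]
    show ‖coord x (Fintype.equivFin {i : C.ι // C.deg i = n} ⟨c, hc⟩) g‖ ^ ((2 : ENNReal).toReal) = _
    rw [ENNReal.toReal_ofNat, Real.rpow_ofNat]
  · rw [XX_ne C n x c hc]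
    simp

theorem XX_zero (n : ℕ) (x : L2Pow Γ (C.toFree.rank n)) (h : ∀ c g, XX C n x c g = 0) : x = 0 := by
  apply coord_ext
  intro j g
  have h1 := h ((Fintype.equivFin {i : C.ι // C.deg i = n}).symm j).1 g
  exact (congrFun (XX_symm C n x j) g).symm.trans h1

/-- Injectivity of the Laplacians gives acyclicity over a residually finite group. -/
theorem acyclic_of_inj (C : FreeCx Γ) (hG : ResFin Γ)
    (h : ∀ n v, C.laplacian n v = 0 → v = 0) : C.DetL2Acyclic := by
  obtain ⟨N, hN, hf, hanti, hinf⟩ := hG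
  have hfin : ∀ i, Finite (Γ ⧸ N i) := fun i => by
    have := hf i
    exact Subgroup.finite_quotient_of_finiteIndex
  intro n
  constructor
  · exact FreeCx.dimKer_of_inj _ (h n)
  · by_cases hn : C.rank n = 0
    · exact fkDet_pos_of_eq_zero hn _
    · have : NeZero (C.rank n) := ⟨hn⟩
      have hinj := h n
      rw [C.laplacian_eq] at hinj ⊢
      exact fkDet_pos N hanti hinf _ hinj

end cx

/-! ### the group -/

section grp
variable {V : Type} [Fintype V] [LinearOrder V] (G : SimpleGraph V)

theorem mem_par (w : W G) (v : V) : v ∈ par G w ↔ th G w v = -1 := by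
  simp [par]

theorem th_neg_iff (w : W G) (v : V) : - th G w v = -1 ↔ ¬ th G w v = -1 := by
  rcases Int.units_eq_one_or (th G w v) with h | h <;> rw [h] <;> decide

theorem par_mul_simple_self (w : W G) (t : V) :
    t ∈ par G (w * (cox G).simple t) ↔ t ∉ par G w := by
  rw [mem_par, mem_par, th_self, th_neg_iff]

theorem par_mul_simple_other (w : W G) {t v : V} (h : v ≠ t) :
    v ∈ par G (w * (cox G).simple t) ↔ v ∈ par G w := by
  rw [mem_par, mem_par, th_other G w v t h]

theorem par_mul_simple_of_mem (w : W G) {t : V} (h : t ∈ par G w) :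
    par G (w * (cox G).simple t) = (par G w).erase t := by
  ext v
  rw [Finset.mem_erase]
  by_cases hv : v = t
  · subst hv
    rw [par_mul_simple_self]
    simp [h]
  · rw [par_mul_simple_other G w hv]
    simp [hv]

theorem par_mul_simple_of_notMem (w : W G) {t : V} (h : t ∉ par G w) :
    par G (w * (cox G).simple t) = insert t (par G w) := by
  ext v
  rw [Finset.mem_insert]
  by_cases hv : v = t
  · subst hv
    rw [par_mul_simple_self]
    simp [h]
  · rw [par_mul_simple_other G w hv]
    simp [hv]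

theorem par_ker_mul (γ : (th G).ker) (w : W G) : par G (γ * w) = par G w := by
  ext v
  have h : th G (γ : W G) = 1 := γ.2
  rw [mem_par, mem_par, map_mul, h, one_mul]

theorem par_rep (A : Finset V) : par G (rep G A) = A := by
  ext v
  rw [mem_par, th_rep]
  by_cases h : v ∈ A
  · simp [h]
  · simp only [h, if_false, iff_false]
    decide

theorem rep_empty : rep G ∅ = 1 := by
  simp [rep]

theorem rep_insert {T S : Finset V} (hT : G.IsClique (T : Set V)) (hS : S ⊆ T) {u : V}
    (hu : u ∈ T) (huS : u ∉ S) : rep G (insert u S) = (cox G).simple u * rep G S := by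
  unfold rep
  have h1 : ((insert u S).sort (· ≤ ·)).Perm (u :: S.sort (· ≤ ·)) := by
    rw [← Multiset.coe_eq_coe, Finset.sort_eq, ← Multiset.cons_coe, Finset.sort_eq,
      Finset.insert_val_of_notMem huS]
  have h2 := h1.map (cox G).simple
  rw [List.Perm.prod_eq' h2, List.map_cons, List.prod_cons]
  rw [List.pairwise_map]
  refine List.Pairwise.imp_of_mem ?_ (List.pairwise_of_forall (l := (insert u S).sort (· ≤ ·))
    (R := fun _ _ => True) (fun _ _ => trivial))
  intro a b ha hb _
  rw [Finset.mem_sort] at ha hb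
  have haT : a ∈ T := by
    rcases Finset.mem_insert.1 ha with rfl | h
    · exact hu
    · exact hS h
  have hbT : b ∈ T := by
    rcases Finset.mem_insert.1 hb with rfl | h
    · exact hu
    · exact hS h
  by_cases hab : a = b
  · subst hab
    exact Commute.refl _
  · exact simple_comm G a b (hT haT hbT hab)

theorem rep_erase {T S : Finset V} (hT : G.IsClique (T : Set V)) (hS : S ⊆ T) {u : V}
    (hu : u ∈ S) : (cox G).simple u * rep G (S.erase u) = rep G S := by
  rw [← rep_insert G hT ((Finset.erase_subset u S).trans hS) (hS hu) (Finset.notMem_erase u S),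
    Finset.insert_erase hu]

theorem gm_mul_rep (w : W G) : (gm G w : W G) * rep G (par G w) = w := by
  show w * (rep G (par G w))⁻¹ * rep G (par G w) = w
  group

theorem gm_ker_mul (γ : (th G).ker) (w : W G) : gm G (γ * w) = γ * gm G w := by
  apply Subtype.ext
  show (γ : W G) * w * (rep G (par G (γ * w)))⁻¹ = (γ : W G) * (w * (rep G (par G w))⁻¹)
  rw [par_ker_mul, mul_assoc]

theorem gm_rep (A : Finset V) : gm G (rep G A) = 1 := by
  apply Subtype.ext
  show rep G A * (rep G (par G (rep G A)))⁻¹ = 1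
  rw [par_rep, mul_inv_cancel]

theorem simple_inv (t : V) : ((cox G).simple t)⁻¹ = (cox G).simple t :=
  inv_eq_of_mul_eq_one_left (simple_mul_self G t)

/-- reduction to the case of a corner with disjoint parity -/
theorem reduce {T : Finset V} {P : W G → Prop} (h0 : ∀ w, Disjoint (par G w) T → P w)
    (h1 : ∀ w, ∀ u ∈ T, P (w * (cox G).simple u) → P w) : ∀ w, P w := by
  have key : ∀ n w, (par G w ∩ T).card = n → P w := by
    intro n
    induction n with
    | zero =>
      intro w hw
      rw [Finset.card_eq_zero] at hw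
      exact h0 w (Finset.disjoint_iff_inter_eq_empty.2 hw)
    | succ n ih =>
      intro w hw
      obtain ⟨u, hu⟩ : (par G w ∩ T).Nonempty := by
        rw [← Finset.card_pos]
        omega
      rw [Finset.mem_inter] at hu
      refine h1 w u hu.2 (ih _ ?_)
      rw [par_mul_simple_of_mem G w hu.1, Finset.erase_inter,
        Finset.card_erase_of_mem (Finset.mem_inter.2 hu), hw]
      rfl
  exact fun w => key _ w rfl

end grp

/-! ### chains of the Davis complex -/

section chains
variable {V : Type} [Fintype V] [LinearOrder V] (G : SimpleGraph V)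
  (Z : Finset V → Finset V → (th G).ker → ℂ)

/-- The chain on the cubes `w W_T`. -/
def cc (w : W G) (T : Finset V) : ℂ :=
  (-1) ^ (par G w ∩ T).card * Z T (par G w \ T) (gm G (w * rep G (par G w ∩ T)))

/-- supported on the cells -/
def Supp : Prop := ∀ (T A : Finset V) (γ : (th G).ker), ¬ (G.IsClique (T : Set V) ∧ Disjoint T A) → Z T A γ = 0

variable {Z}

theorem cc_of_not (hZ : Supp G Z) (w : W G) (T : Finset V) (hT : ¬ G.IsClique (T : Set V)) :
    cc G Z w T = 0 := by
  rw [cc, hZ _ _ _ fun h => hT h.1, mul_zero]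

theorem cc_anti (hZ : Supp G Z) (w : W G) (T : Finset V) (u : V) (hu : u ∈ T) :
    cc G Z (w * (cox G).simple u) T = - cc G Z w T := by
  by_cases hT : G.IsClique (T : Set V)
  · unfold cc
    by_cases h : u ∈ par G w
    · have huT : u ∈ par G w ∩ T := Finset.mem_inter.2 ⟨h, hu⟩
      rw [par_mul_simple_of_mem G w h, Finset.erase_inter]
      have e1 : (par G w).erase u \ T = par G w \ T := by
        ext v
        simp only [Finset.mem_sdiff, Finset.mem_erase]
        constructor
        · rintro ⟨⟨_, h1⟩, h2⟩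
          exact ⟨h1, h2⟩
        · rintro ⟨h1, h2⟩
          exact ⟨⟨fun h3 => h2 (h3 ▸ hu), h1⟩, h2⟩
      rw [e1, mul_assoc, rep_erase G hT Finset.inter_subset_right huT,
        Finset.card_erase_of_mem huT]
      obtain ⟨m, hm⟩ : ∃ m, (par G w ∩ T).card = m + 1 :=
        ⟨(par G w ∩ T).card - 1, by have := Finset.card_pos.2 ⟨u, huT⟩; omega⟩
      rw [hm, Nat.add_sub_cancel, pow_succ]
      ring
    · have huT : u ∉ par G w ∩ T := fun h1 => h (Finset.mem_inter.1 h1).1
      rw [par_mul_simple_of_notMem G w h, Finset.insert_inter_of_mem hu]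
      have e1 : insert u (par G w) \ T = par G w \ T := Finset.insert_sdiff_of_mem _ hu
      rw [e1, rep_insert G hT Finset.inter_subset_right hu huT,
        Finset.card_insert_of_notMem huT, pow_succ, mul_assoc w, ← mul_assoc ((cox G).simple u),
        simple_mul_self, one_mul]
      ring
  · rw [cc_of_not G hZ _ _ hT, cc_of_not G hZ _ _ hT, neg_zero]

theorem cc_disj (w : W G) (T : Finset V) (h : Disjoint (par G w) T) :
    cc G Z w T = Z T (par G w) (gm G w) := by
  unfold cc
  rw [Finset.disjoint_iff_inter_eq_empty.1 h, rep_empty, Finset.card_empty, pow_zero, one_mul,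
    mul_one, Finset.sdiff_eq_self_of_disjoint h]

theorem sum_cells (F : Finset V → Finset V → ℂ)
    (hF : ∀ T A : Finset V, ¬ (G.IsClique (T : Set V) ∧ Disjoint T A) → F T A = 0) :
    ∑ c : (davis G).ι, F c.1.1 c.1.2 = ∑ T, ∑ A, F T A := by
  classical
  rw [← Fintype.sum_prod_type' F]
  have h1 : ∑ c : (davis G).ι, F c.1.1 c.1.2 =
      ∑ p ∈ Finset.univ.filter (fun p : Finset V × Finset V =>
        G.IsClique (p.1 : Set V) ∧ Disjoint p.1 p.2), F p.1 p.2 :=
    (Finset.sum_subtype _ (by simp) (fun p : Finset V × Finset V => F p.1 p.2)).symm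
  rw [h1, Finset.sum_filter]
  refine Finset.sum_congr rfl fun p _ => ?_
  split_ifs with h
  · rfl
  · exact (hF _ _ h).symm

theorem sum_erase (T' : Finset V) (H : V → Finset V → ℂ) :
    ∑ T : Finset V, ∑ t ∈ T, (if T' = T.erase t then H t T else 0) =
      ∑ t ∈ T'ᶜ, H t (insert t T') := by
  have h1 : ∀ T : Finset V, ∑ t ∈ T, (if T' = T.erase t then H t T else 0) =
      ∑ t, if (t ∉ T' ∧ T = insert t T') then H t T else 0 := by
    intro T
    rw [← Finset.sum_subset (Finset.subset_univ T)]
    · refine Finset.sum_congr rfl fun t ht => ?_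
      have : T' = T.erase t ↔ (t ∉ T' ∧ T = insert t T') := by
        constructor
        · rintro rfl
          exact ⟨Finset.notMem_erase t T, (Finset.insert_erase ht).symm⟩
        · rintro ⟨h1, h2⟩
          rw [h2, Finset.erase_insert h1]
      simp only [this]
    · intro t _ ht
      rw [if_neg]
      rintro ⟨_, h2⟩
      exact ht (h2 ▸ Finset.mem_insert_self t T')
  rw [Finset.sum_congr rfl fun T _ => h1 T, Finset.sum_comm,
    ← Finset.sum_subset (Finset.subset_univ T'ᶜ)]
  · refine Finset.sum_congr rfl fun t ht => ?_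
    rw [Finset.mem_compl] at ht
    simp [ht]
  · intro t _ ht
    rw [Finset.mem_compl, not_not] at ht
    refine Finset.sum_eq_zero fun T _ => ?_
    rw [if_neg fun h => h.1 ht]

/-- the cycle condition on the cells -/
theorem cyc_formula (hZ : Supp G Z) {X : (davis G).ι → (th G).ker → ℂ}
    (hX : ∀ c, X c = Z c.1.1 c.1.2)
    (h : ∀ c' g, ∑ c, ph (X c) g ((davis G).D c c') = 0) (T' A' : Finset V)
    (hc : G.IsClique (T' : Set V) ∧ Disjoint T' A') (γ : (th G).ker) :
    ∑ t ∈ T'ᶜ, (sg t T' : ℂ) * (if t ∈ A' then - Z (insert t T') (A'.erase t)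
        (γ * (gm G (rep G (A'.erase t) * (cox G).simple t))⁻¹) else Z (insert t T') A' γ) = 0 := by
  classical
  rw [← h ⟨(T', A'), hc⟩ γ]
  symm
  have e1 : ∀ c : (davis G).ι, ph (X c) γ ((davis G).D c ⟨(T', A'), hc⟩) =
      ∑ t ∈ c.1.1, if T' = c.1.1.erase t then (sg t (c.1.1.erase t) : ℂ) *
        ((if A' = c.1.2 then Z c.1.1 c.1.2 γ else 0) - (if A' = insert t c.1.2 then
          Z c.1.1 c.1.2 (γ * (gm G (rep G c.1.2 * (cox G).simple t))⁻¹) else 0)) else 0 := by
    intro c
    rw [hX]
    show ph (Z c.1.1 c.1.2) γ (∑ t ∈ c.1.1, if T' = c.1.1.erase t then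
      ((sg t (c.1.1.erase t) : ℤ) : MonoidAlgebra ℤ (th G).ker) *
      ((if A' = c.1.2 then 1 else 0) - (if A' = insert t c.1.2 then
        MonoidAlgebra.single (gm G (rep G c.1.2 * (cox G).simple t)) 1 else 0)) else 0) = _
    rw [map_sum]
    refine Finset.sum_congr rfl fun t _ => ?_
    by_cases h1 : T' = c.1.1.erase t
    · rw [if_pos h1, if_pos h1, ph_intCast_mul, map_sub]
      congr 2
      · by_cases h2 : A' = c.1.2
        · rw [if_pos h2, if_pos h2, ph_one]
        · rw [if_neg h2, if_neg h2, map_zero]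
      · by_cases h2 : A' = insert t c.1.2
        · rw [if_pos h2, if_pos h2, ph_single, Int.cast_one, one_mul]
        · rw [if_neg h2, if_neg h2, map_zero]
    · rw [if_neg h1, if_neg h1, map_zero]
  rw [Finset.sum_congr rfl fun c _ => e1 c,
    sum_cells G (fun T A => ∑ t ∈ T, if T' = T.erase t then (sg t (T.erase t) : ℂ) *
        ((if A' = A then Z T A γ else 0) - (if A' = insert t A then
          Z T A (γ * (gm G (rep G A * (cox G).simple t))⁻¹) else 0)) else 0)
      (fun T A hTA => by
        refine Finset.sum_eq_zero fun t _ => ?_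
        simp [hZ T A _ hTA])]
  have e2 : ∀ T : Finset V, ∑ A, ∑ t ∈ T, (if T' = T.erase t then (sg t (T.erase t) : ℂ) *
        ((if A' = A then Z T A γ else 0) - (if A' = insert t A then
          Z T A (γ * (gm G (rep G A * (cox G).simple t))⁻¹) else 0)) else 0) =
      ∑ t ∈ T, (if T' = T.erase t then ∑ A, (sg t (T.erase t) : ℂ) *
        ((if A' = A then Z T A γ else 0) - (if A' = insert t A then
          Z T A (γ * (gm G (rep G A * (cox G).simple t))⁻¹) else 0)) else 0) := by
    intro T
    rw [Finset.sum_comm]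
    refine Finset.sum_congr rfl fun t _ => ?_
    split_ifs
    · rfl
    · simp
  rw [Finset.sum_congr rfl fun T _ => e2 T, sum_erase]
  refine Finset.sum_congr rfl fun t ht => ?_
  rw [Finset.mem_compl] at ht
  rw [← Finset.mul_sum, Finset.erase_insert ht]
  congr 1
  rw [Finset.sum_sub_distrib]
  have e3 : ∑ A : Finset V, (if A' = A then Z (insert t T') A γ else 0) =
      Z (insert t T') A' γ := by
    rw [Finset.sum_ite_eq]
    simp
  rw [e3]
  by_cases htA : t ∈ A'
  · rw [if_pos htA, hZ (insert t T') A' γ (by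
      rintro ⟨_, h2⟩
      exact Finset.disjoint_left.1 h2 (Finset.mem_insert_self t T') htA), zero_sub]
    congr 1
    rw [Finset.sum_eq_single (A'.erase t)]
    · rw [if_pos (Finset.insert_erase htA).symm]
    · intro A _ hA
      by_cases h1 : A' = insert t A
      · rw [if_pos h1]
        apply hZ
        rintro ⟨_, h2⟩
        have h3 : t ∉ A := fun h4 => Finset.disjoint_left.1 h2 (Finset.mem_insert_self t T') h4
        exact hA (by rw [h1, Finset.erase_insert h3])
      · rw [if_neg h1]
    · simp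
  · rw [if_neg htA, Finset.sum_eq_zero, sub_zero]
    intro A _
    rw [if_neg]
    rintro rfl
    exact htA (Finset.mem_insert_self t A)

/-- the cocycle condition on the cells -/
theorem cocyc_formula (hZ : Supp G Z) {X : (davis G).ι → (th G).ker → ℂ}
    (hX : ∀ c, X c = Z c.1.1 c.1.2)
    (h : ∀ c g, ∑ c', ph' (X c') g ((davis G).D c c') = 0) (T A : Finset V)
    (hc : G.IsClique (T : Set V) ∧ Disjoint T A) (γ : (th G).ker) :
    ∑ t ∈ T, (sg t (T.erase t) : ℂ) * (Z (T.erase t) A γ - Z (T.erase t) (insert t A)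
        (γ * gm G (rep G A * (cox G).simple t))) = 0 := by
  classical
  rw [← h ⟨(T, A), hc⟩ γ]
  symm
  have e1 : ∀ c' : (davis G).ι, ph' (X c') γ ((davis G).D ⟨(T, A), hc⟩ c') =
      ∑ t ∈ T, if c'.1.1 = T.erase t then (sg t (T.erase t) : ℂ) *
        ((if c'.1.2 = A then Z c'.1.1 c'.1.2 γ else 0) - (if c'.1.2 = insert t A then
          Z c'.1.1 c'.1.2 (γ * gm G (rep G A * (cox G).simple t)) else 0)) else 0 := by
    intro c'
    rw [hX]
    show ph' (Z c'.1.1 c'.1.2) γ (∑ t ∈ T, if c'.1.1 = T.erase t then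
      ((sg t (T.erase t) : ℤ) : MonoidAlgebra ℤ (th G).ker) *
      ((if c'.1.2 = A then 1 else 0) - (if c'.1.2 = insert t A then
        MonoidAlgebra.single (gm G (rep G A * (cox G).simple t)) 1 else 0)) else 0) = _
    rw [map_sum]
    refine Finset.sum_congr rfl fun t _ => ?_
    by_cases h1 : c'.1.1 = T.erase t
    · rw [if_pos h1, if_pos h1, ph'_intCast_mul, map_sub]
      congr 2
      · by_cases h2 : c'.1.2 = A
        · rw [if_pos h2, if_pos h2, ph'_one]
        · rw [if_neg h2, if_neg h2, map_zero]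
      · by_cases h2 : c'.1.2 = insert t A
        · rw [if_pos h2, if_pos h2, ph'_single, Int.cast_one, one_mul]
        · rw [if_neg h2, if_neg h2, map_zero]
    · rw [if_neg h1, if_neg h1, map_zero]
  rw [Finset.sum_congr rfl fun c _ => e1 c,
    sum_cells G (fun T₁ A₁ => ∑ t ∈ T, if T₁ = T.erase t then (sg t (T.erase t) : ℂ) *
        ((if A₁ = A then Z T₁ A₁ γ else 0) - (if A₁ = insert t A then
          Z T₁ A₁ (γ * gm G (rep G A * (cox G).simple t)) else 0)) else 0)
      (fun T₁ A₁ hTA => by
        refine Finset.sum_eq_zero fun t _ => ?_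
        simp [hZ T₁ A₁ _ hTA])]
  have e2 : ∀ T₁ : Finset V, ∑ A₁, ∑ t ∈ T, (if T₁ = T.erase t then (sg t (T.erase t) : ℂ) *
        ((if A₁ = A then Z T₁ A₁ γ else 0) - (if A₁ = insert t A then
          Z T₁ A₁ (γ * gm G (rep G A * (cox G).simple t)) else 0)) else 0) =
      ∑ t ∈ T, (if T₁ = T.erase t then (sg t (T.erase t) : ℂ) *
        (Z T₁ A γ - Z T₁ (insert t A) (γ * gm G (rep G A * (cox G).simple t))) else 0) := by
    intro T₁
    rw [Finset.sum_comm]
    refine Finset.sum_congr rfl fun t _ => ?_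
    split_ifs
    · rw [← Finset.mul_sum, Finset.sum_sub_distrib, Finset.sum_ite_eq', Finset.sum_ite_eq']
      simp
    · simp
  rw [Finset.sum_congr rfl fun T₁ _ => e2 T₁, Finset.sum_comm]
  refine Finset.sum_congr rfl fun t _ => ?_
  rw [Finset.sum_ite_eq']
  simp

theorem coe_gm (w : W G) : (gm G w : W G) = w * (rep G (par G w))⁻¹ := rfl

/-- the cycle condition -/
theorem cc_cycle (hZ : Supp G Z) {X : (davis G).ι → (th G).ker → ℂ}
    (hX : ∀ c, X c = Z c.1.1 c.1.2)
    (h : ∀ c' g, ∑ c, ph (X c) g ((davis G).D c c') = 0) (w : W G) (T : Finset V) :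
    ∑ v ∈ Tᶜ, (sg v T : ℂ) * cc G Z w (insert v T) = 0 := by
  by_cases hT : G.IsClique (T : Set V)
  · revert w
    refine reduce G (T := T) ?_ ?_
    · intro w hw
      rw [← cyc_formula G hZ hX h T (par G w) ⟨hT, hw.symm⟩ (gm G w)]
      refine Finset.sum_congr rfl fun t ht => ?_
      rw [Finset.mem_compl] at ht
      congr 1
      by_cases htA : t ∈ par G w
      · rw [if_pos htA]
        have e1 : par G w ∩ insert t T = {t} := by
          ext v
          simp only [Finset.mem_inter, Finset.mem_insert, Finset.mem_singleton]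
          constructor
          · rintro ⟨h1, rfl | h2⟩
            · rfl
            · exact absurd h2 (Finset.disjoint_left.1 hw h1)
          · rintro rfl
            exact ⟨htA, Or.inl rfl⟩
        have e2 : par G w \ insert t T = (par G w).erase t := by
          ext v
          simp only [Finset.mem_sdiff, Finset.mem_insert, Finset.mem_erase, not_or]
          constructor
          · rintro ⟨h1, h2, _⟩
            exact ⟨h2, h1⟩
          · rintro ⟨h1, h2⟩
            exact ⟨h2, h1, Finset.disjoint_left.1 hw h2⟩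
        have e3 : rep G {t} = (cox G).simple t := by simp [rep]
        rw [cc, e1, e2, e3, Finset.card_singleton, pow_one, neg_one_mul]
        congr 2
        apply Subtype.ext
        rw [Subgroup.coe_mul, Subgroup.coe_inv, coe_gm, coe_gm, coe_gm,
          par_mul_simple_of_mem G w htA]
        have e4 : par G (rep G ((par G w).erase t) * (cox G).simple t) = par G w := by
          rw [par_mul_simple_of_notMem, par_rep, Finset.insert_erase htA]
          rw [par_rep]
          exact Finset.notMem_erase t _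
        rw [e4, mul_inv_rev, mul_inv_rev, inv_inv, simple_inv]
        group
      · rw [if_neg htA, cc_disj]
        rw [Finset.disjoint_insert_right]
        exact ⟨htA, hw⟩
    · intro w u hu h1
      have h2 : ∑ v ∈ Tᶜ, (sg v T : ℂ) * cc G Z (w * (cox G).simple u) (insert v T) =
          - ∑ v ∈ Tᶜ, (sg v T : ℂ) * cc G Z w (insert v T) := by
        rw [← Finset.sum_neg_distrib]
        refine Finset.sum_congr rfl fun v _ => ?_
        rw [cc_anti G hZ w _ u (Finset.mem_insert_of_mem hu), mul_neg]
      rw [h2, neg_eq_zero] at h1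
      exact h1
  · refine Finset.sum_eq_zero fun v _ => ?_
    rw [cc_of_not G hZ, mul_zero]
    exact fun h1 => hT (h1.subset (by simp))

/-- the cocycle condition -/
theorem cc_cocycle (hZ : Supp G Z) {X : (davis G).ι → (th G).ker → ℂ}
    (hX : ∀ c, X c = Z c.1.1 c.1.2)
    (h : ∀ c g, ∑ c', ph' (X c') g ((davis G).D c c') = 0) (w : W G) (T : Finset V)
    (hT : G.IsClique (T : Set V)) :
    ∑ t ∈ T, (sg t (T.erase t) : ℂ) * (cc G Z w (T.erase t) -
      cc G Z (w * (cox G).simple t) (T.erase t)) = 0 := by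
  revert w
  refine reduce G (T := T) ?_ ?_
  · intro w hw
    rw [← cocyc_formula G hZ hX h T (par G w) ⟨hT, hw.symm⟩ (gm G w)]
    refine Finset.sum_congr rfl fun t ht => ?_
    have htA : t ∉ par G w := fun h1 => Finset.disjoint_left.1 hw h1 ht
    congr 2
    · exact cc_disj G w _ (hw.mono_right (Finset.erase_subset t T))
    · rw [cc_disj, par_mul_simple_of_notMem G w htA]
      · congr 1
        apply Subtype.ext
        rw [Subgroup.coe_mul, coe_gm, coe_gm, coe_gm, par_mul_simple_of_notMem G w htA]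
        have e4 : par G (rep G (par G w) * (cox G).simple t) = insert t (par G w) := by
          rw [par_mul_simple_of_notMem, par_rep]
          rw [par_rep]
          exact htA
        rw [e4]
        group
      · rw [par_mul_simple_of_notMem G w htA, Finset.disjoint_insert_left]
        exact ⟨Finset.notMem_erase t T, hw.mono_right (Finset.erase_subset t T)⟩
  · intro w u hu h1
    have h2 : ∑ t ∈ T, (sg t (T.erase t) : ℂ) * (cc G Z (w * (cox G).simple u) (T.erase t) -
          cc G Z (w * (cox G).simple u * (cox G).simple t) (T.erase t)) =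
        - ∑ t ∈ T, (sg t (T.erase t) : ℂ) * (cc G Z w (T.erase t) -
          cc G Z (w * (cox G).simple t) (T.erase t)) := by
      rw [← Finset.sum_neg_distrib]
      refine Finset.sum_congr rfl fun t ht => ?_
      rw [← mul_neg]
      congr 1
      by_cases htu : t = u
      · subst htu
        rw [mul_assoc, simple_mul_self, mul_one]
        ring
      · have h3 : u ∈ T.erase t := Finset.mem_erase.2 ⟨Ne.symm htu, hu⟩
        have h4 : w * (cox G).simple u * (cox G).simple t =
            w * (cox G).simple t * (cox G).simple u := by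
          rw [mul_assoc, simple_comm G u t (hT hu ht (Ne.symm htu)), mul_assoc]
        rw [h4, cc_anti G hZ w _ u h3, cc_anti G hZ _ _ u h3]
        ring
    rw [h2, neg_eq_zero] at h1
    exact h1

theorem cc_summable (hs : ∀ T A, Summable fun γ => ‖Z T A γ‖ ^ 2) :
    Summable fun x : W G × Finset V => ‖cc G Z x.1 x.2‖ ^ 2 := by
  have hinj : Function.Surjective (fun y : (Finset V × Finset V) × (th G).ker =>
      (((y.2 : W G) * rep G y.1.2, y.1.1) : W G × Finset V)) := by
    rintro ⟨w, T⟩
    exact ⟨((T, par G w), gm G w), Prod.ext (gm_mul_rep G w) rfl⟩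
  have hinj2 : Function.Injective (fun y : (Finset V × Finset V) × (th G).ker =>
      (((y.2 : W G) * rep G y.1.2, y.1.1) : W G × Finset V)) := by
    rintro ⟨⟨T, A⟩, γ⟩ ⟨⟨T', A'⟩, γ'⟩ h
    simp only [Prod.mk.injEq] at h
    obtain ⟨h1, rfl⟩ := h
    have h2 : A = A' := by
      have := congrArg (par G) h1
      rwa [par_ker_mul, par_ker_mul, par_rep, par_rep] at this
    subst h2
    have h3 := mul_right_cancel h1
    rw [Subtype.ext h3]
  rw [← (Equiv.ofBijective _ ⟨hinj2, hinj⟩).summable_iff]
  refine (summable_prod_of_nonneg (f := fun y : (Finset V × Finset V) × (th G).ker =>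
    ‖cc G Z ((y.2 : W G) * rep G y.1.2) y.1.1‖ ^ 2) (fun _ => sq_nonneg _)).2
    ⟨fun y => ?_, (hasSum_fintype _).summable⟩
  obtain ⟨T, A⟩ := y
  show Summable fun γ : (th G).ker => ‖cc G Z ((γ : W G) * rep G A) T‖ ^ 2
  have e1 : ∀ γ : (th G).ker, ‖cc G Z ((γ : W G) * rep G A) T‖ ^ 2 =
      ‖Z T (A \ T) (γ * gm G (rep G A * rep G (A ∩ T)))‖ ^ 2 := by
    intro γ
    rw [cc, par_ker_mul, par_rep, mul_assoc, gm_ker_mul, norm_mul, norm_pow, norm_neg, norm_one,
      one_pow, one_mul]
  simp only [e1]
  exact (Equiv.mulRight (gm G (rep G A * rep G (A ∩ T)))).summable_iff.2 (hs T (A \ T))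

end chains

open Classical in
/-- the chain as a function of the clique and the parity -/
def ZZ' {V : Type} [Fintype V] [LinearOrder V] (G : SimpleGraph V)
    (X : (davis G).ι → (th G).ker → ℂ) (T A : Finset V) (γ : (th G).ker) : ℂ :=
  if h : G.IsClique (T : Set V) ∧ Disjoint T A then X ⟨(T, A), h⟩ γ else 0

theorem lap_zero {V : Type} [Fintype V] [LinearOrder V] (G : SimpleGraph V) (n : ℕ)
    (hL : L2Van G n) (x : L2Pow (th G).ker ((davis G).toFree.rank n))
    (h1 : ∀ c' g, ∑ c, ph (XX (davis G) n x c) g ((davis G).D c c') = 0)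
    (h2 : ∀ c g, ∑ c', ph' (XX (davis G) n x c') g ((davis G).D c c') = 0) : x = 0 := by
  classical
  set X := XX (davis G) n x with hXd
  set Z := ZZ' G X with hZd
  have hZ : Supp G Z := by
    intro T A γ h
    rw [hZd, ZZ', dif_neg h]
  have hX : ∀ c : (davis G).ι, X c = Z c.1.1 c.1.2 := by
    intro c
    funext g
    rw [hZd, ZZ', dif_pos c.2]
    rfl
  have hdeg : ∀ (T A : Finset V) (γ : (th G).ker), T.card ≠ n → Z T A γ = 0 := by
    intro T A γ hT
    rw [hZd, ZZ']
    split_ifs with h
    · have : (davis G).deg ⟨(T, A), h⟩ ≠ n := hT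
      rw [hXd, XX_ne (davis G) n x _ this]
    · rfl
  have hs : ∀ T A, Summable fun γ => ‖Z T A γ‖ ^ 2 := by
    intro T A
    by_cases h : G.IsClique (T : Set V) ∧ Disjoint T A
    · have := XX_summable (davis G) n x ⟨(T, A), h⟩
      refine this.congr fun γ => ?_
      rw [hZd, ZZ', dif_pos h]
    · have : ∀ γ, Z T A γ = 0 := fun γ => hZ T A γ h
      simp [this]
  have hsum := cc_summable G hs
  have hcyc := cc_cycle G hZ hX h1
  have hcoc := cc_cocycle G hZ hX h2
  have hsupp : ∀ w (T : Finset V), ¬ (G.IsClique (T : Set V) ∧ T.card = n) → cc G Z w T = 0 := by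
    intro w T hT
    by_cases hTc : G.IsClique (T : Set V)
    · rw [cc, hdeg _ _ _ fun h => hT ⟨hTc, h⟩, mul_zero]
    · exact cc_of_not G hZ w T hTc
  have hre : IsHarm G n fun w T => (cc G Z w T).re := by
    refine ⟨?_, ?_, ?_, ?_, ?_⟩
    · intro w T hT
      rw [hsupp w T hT, Complex.zero_re]
    · intro w T t ht
      rw [cc_anti G hZ w T t ht, Complex.neg_re]
    · refine Summable.of_nonneg_of_le (fun _ => sq_nonneg _) (fun y => ?_) hsum
      rw [Complex.sq_norm, Complex.normSq_apply]
      nlinarith [mul_self_nonneg (cc G Z y.1 y.2).im]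
    · intro w T
      have := congrArg Complex.re (hcyc w T)
      rw [Complex.re_sum, Complex.zero_re] at this
      rw [← this]
      refine Finset.sum_congr rfl fun v _ => ?_
      simp
    · intro w T hT
      have := congrArg Complex.re (hcoc w T hT)
      rw [Complex.re_sum, Complex.zero_re] at this
      rw [← this]
      refine Finset.sum_congr rfl fun v _ => ?_
      simp
  have him : IsHarm G n fun w T => (cc G Z w T).im := by
    refine ⟨?_, ?_, ?_, ?_, ?_⟩
    · intro w T hT
      rw [hsupp w T hT, Complex.zero_im]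
    · intro w T t ht
      rw [cc_anti G hZ w T t ht, Complex.neg_im]
    · refine Summable.of_nonneg_of_le (fun _ => sq_nonneg _) (fun y => ?_) hsum
      rw [Complex.sq_norm, Complex.normSq_apply]
      nlinarith [mul_self_nonneg (cc G Z y.1 y.2).re]
    · intro w T
      have := congrArg Complex.im (hcyc w T)
      rw [Complex.im_sum, Complex.zero_im] at this
      rw [← this]
      refine Finset.sum_congr rfl fun v _ => ?_
      simp
    · intro w T hT
      have := congrArg Complex.im (hcoc w T hT)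
      rw [Complex.im_sum, Complex.zero_im] at this
      rw [← this]
      refine Finset.sum_congr rfl fun v _ => ?_
      simp
  have hre0 := hL _ hre
  have him0 := hL _ him
  have hcc : ∀ w T, cc G Z w T = 0 := by
    intro w T
    apply Complex.ext
    · exact congrFun (congrFun hre0 w) T
    · exact congrFun (congrFun him0 w) T
  refine XX_zero (davis G) n x ?_
  intro c γ
  show X c γ = 0
  rw [hX]
  have h3 := hcc ((γ : W G) * rep G c.1.2) c.1.1
  rw [cc_disj, par_ker_mul, par_rep, gm_ker_mul, gm_rep, mul_one] at h3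
  · exact h3
  · rw [par_ker_mul, par_rep]
    exact c.2.2.symm

end Pool.Agent.N75.LT

namespace Pool.Agent.N496.LT

open Pool.Agent.W907.SG Pool.Agent.TH630.Tor Pool.Agent.W461.SGN
  Pool.Agent.Helper993.FK Pool.Agent.Helper993.Delta Pool.Agent.N75.LT

theorem p4A (hR : P4R) : P4A := by
  intro V _ _ G hL
  refine acyclic_of_inj _ (hR V G) ?_
  intro n x hx
  rcases n with _ | n
  · have h1 : ((davis G).toFree.l2d 0).adjoint x = 0 := lap_ker_zero _ x hx
    exact lap_zero G 0 (hL 0) x (XX_cyc0 (davis G) x) (XX_cocyc (davis G) 0 x h1)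
  · have h1 := lap_ker ((davis G).toFree.l2d n) ((davis G).toFree.l2d (n + 1)) x hx
    exact lap_zero G (n + 1) (hL (n + 1)) x (XX_cyc (davis G) n x h1.1)
      (XX_cocyc (davis G) (n + 1) x h1.2)

end Pool.Agent.N496.LT
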