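import Pool.Agent.N496.LT.Stm

/-!
# Project LT: Betti numbers of the quotients of the Davis complex
-/

set_option autoImplicit false

open scoped Matrix

noncomputable section

namespace Pool.Agent.N558.LT

open Module Pool.Agent.W907.SG Pool.Agent.TH630.Tor Pool.Agent.W461.SGN Pool.Agent.R782.Bal
open Pool.Agent.N496.LT
open Pool.Agent.Y132.SI (aa aa_mk)

variable {V : Type} [Fintype V] [LinearOrder V] (G : SimpleGraph V)

/-! ### group theory -/

omit [LinearOrder V] in
theorem mem_par (w : W G) (v : V) : v ∈ par G w ↔ th G w v = -1 := by simp [par]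

theorem par_simple (w : W G) (t : V) :
    par G (w * (cox G).simple t) = if t ∈ par G w then (par G w).erase t else insert t (par G w) := by
  ext v
  by_cases hv : v = t
  · subst hv
    rw [mem_par, th_self]
    by_cases h : v ∈ par G w
    · rw [if_pos h]
      rw [mem_par] at h
      rw [h]
      simp
    · rw [if_neg h]
      have h1 : th G w v = 1 := by
        rcases Int.units_eq_one_or (th G w v) with h2 | h2
        · exact h2
        · exact absurd ((mem_par G w v).2 h2) h
      simp [h1]
  · rw [mem_par, th_other G w v t hv, ← mem_par]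
    split_ifs <;> simp [hv]

omit [LinearOrder V] in
theorem par_ker (g : W G) (hg : g ∈ (th G).ker) (w : W G) : par G (g * w) = par G w := by
  ext v
  rw [mem_par, mem_par, map_mul, (MonoidHom.mem_ker).1 hg, one_mul]

theorem par_rep (A : Finset V) : par G (rep G A) = A := by
  ext v
  rw [mem_par, th_rep]
  by_cases h : v ∈ A <;> simp [h]

omit [Fintype V] in
theorem rep_empty : rep G ∅ = 1 := by simp [rep]

omit [Fintype V] in
theorem rep_insert (B : Finset V) (t : V) (ht : t ∉ B)
    (hc : G.IsClique ((insert t B : Finset V) : Set V)) :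
    rep G (insert t B) = rep G B * (cox G).simple t := by
  classical
  unfold rep
  have hp : ((insert t B).sort (· ≤ ·)).Perm (t :: B.sort (· ≤ ·)) := by
    rw [← Multiset.coe_eq_coe, Finset.sort_eq, ← Multiset.cons_coe, Finset.sort_eq,
      Finset.insert_val_of_notMem ht]
  have hcomm : ∀ u ∈ insert t B, ∀ v ∈ insert t B,
      Commute ((cox G).simple u) ((cox G).simple v) := by
    intro u hu v hv
    by_cases huv : u = v
    · subst huv; exact Commute.refl _
    · exact simple_comm G u v (hc (by exact_mod_cast hu) (by exact_mod_cast hv) huv)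
  have h1 : (((insert t B).sort (· ≤ ·)).map (cox G).simple).prod =
      ((t :: B.sort (· ≤ ·)).map (cox G).simple).prod := by
    refine (hp.map _).prod_eq' ?_
    rw [List.pairwise_map]
    refine List.pairwise_of_forall_mem_list ?_
    intro u hu v hv
    exact hcomm u ((Finset.mem_sort _).1 hu) v ((Finset.mem_sort _).1 hv)
  rw [h1, List.map_cons, List.prod_cons]
  have h2 : Commute ((cox G).simple t) ((B.sort (· ≤ ·)).map (cox G).simple).prod := by
    refine Commute.list_prod_right _ _ ?_
    intro x hx
    obtain ⟨u, hu, rfl⟩ := List.mem_map.1 hx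
    exact hcomm t (Finset.mem_insert_self _ _) u (Finset.mem_insert_of_mem ((Finset.mem_sort _).1 hu))
  exact h2.eq

omit [Fintype V] in
theorem rep_erase (B : Finset V) (t : V) (ht : t ∈ B) (hc : G.IsClique (B : Set V)) :
    rep G B = rep G (B.erase t) * (cox G).simple t := by
  have h := rep_insert G (B.erase t) t (Finset.notMem_erase _ _) (by rwa [Finset.insert_erase ht])
  rwa [Finset.insert_erase ht] at h

theorem gm_ker (g : (th G).ker) (w : W G) : gm G (g.1 * w) = g * gm G w := by
  apply Subtype.ext
  show g.1 * w * (rep G (par G (g.1 * w)))⁻¹ = g.1 * (w * (rep G (par G w))⁻¹)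
  rw [par_ker G g.1 g.2, mul_assoc]

theorem gm_mul (w : W G) : (gm G w).1 * rep G (par G w) = w := by
  show w * (rep G (par G w))⁻¹ * rep G (par G w) = w
  rw [inv_mul_cancel_right]

theorem gm_rep (A : Finset V) : gm G (rep G A) = 1 := by
  apply Subtype.ext
  show rep G A * (rep G (par G (rep G A)))⁻¹ = 1
  rw [par_rep, mul_inv_cancel]

/-- moving to the corner of the cube `w W_T` with no generator of `T` in its parity -/
theorem par_base (w : W G) (T : Finset V) (hT : G.IsClique (T : Set V)) (B : Finset V) :
    B ⊆ par G w ∩ T → par G (w * rep G B) = par G w \ B := by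
  induction B using Finset.induction_on with
  | empty =>
    intro _
    rw [rep_empty, mul_one, Finset.sdiff_empty]
  | insert t B ht ih =>
    intro hB
    have hB' : B ⊆ par G w ∩ T := (Finset.subset_insert _ _).trans hB
    have hcl : G.IsClique ((insert t B : Finset V) : Set V) := by
      refine hT.subset ?_
      intro x hx
      have := hB (by exact_mod_cast hx)
      exact_mod_cast (Finset.mem_inter.1 this).2
    rw [rep_insert G B t ht hcl, ← mul_assoc, par_simple, ih hB']
    have htw : t ∈ par G w \ B :=
      Finset.mem_sdiff.2 ⟨(Finset.mem_inter.1 (hB (Finset.mem_insert_self _ _))).1, ht⟩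
    rw [if_pos htw]
    ext x
    simp only [Finset.mem_erase, Finset.mem_sdiff, Finset.mem_insert, not_or]
    tauto

theorem par_base' (w : W G) (T : Finset V) (hT : G.IsClique (T : Set V)) :
    par G (w * rep G (par G w ∩ T)) = par G w \ T := by
  rw [par_base G w T hT _ Finset.Subset.rfl]
  ext x
  simp only [Finset.mem_sdiff, Finset.mem_inter]
  tauto

omit [Fintype V] in
theorem rep_erase' (B : Finset V) (t : V) (ht : t ∈ B) (hc : G.IsClique (B : Set V)) :
    (cox G).simple t * rep G (B.erase t) = rep G B := by
  have h : ∀ (C : Finset V), C ⊆ B.erase t → Commute ((cox G).simple t) (rep G C) := by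
    intro C hC
    unfold rep
    refine Commute.list_prod_right _ _ ?_
    intro x hx
    obtain ⟨u, hu, rfl⟩ := List.mem_map.1 hx
    have hu' := Finset.mem_erase.1 (hC ((Finset.mem_sort _).1 hu))
    exact simple_comm G t u (hc (by exact_mod_cast ht) (by exact_mod_cast hu'.2) (Ne.symm hu'.1))
  rw [rep_erase G B t ht hc]
  exact (h _ Finset.Subset.rfl).eq

/-! ### cells and quotients -/

variable (F : Type) [Field F] (N : Subgroup (th G).ker) [N.Normal]

/-- the cells -/
abbrev II : Type := ((davis G).quot N).ι

/-- the finite quotient -/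
abbrev QQ : Type := (th G).ker ⧸ N

/-- the subgroup of `W G` -/
abbrev HH : Subgroup (W G) := N.map (th G).ker.subtype

/-- the coset space -/
abbrev XX : Type := Quotient (QuotientGroup.rightRel (HH G N))

variable {G N}

/-- the clique of a cell -/
def uT (c : II G N) : Finset V :=
  (Subtype.val (p := fun c : Finset V × Finset V => G.IsClique (c.1 : Set V) ∧ Disjoint c.1 c.2) c).1

/-- the parity of a cell -/
def uA (c : II G N) : Finset V :=
  (Subtype.val (p := fun c : Finset V × Finset V => G.IsClique (c.1 : Set V) ∧ Disjoint c.1 c.2) c).2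

theorem u_clique (c : II G N) : G.IsClique (uT c : Set V) :=
  (Subtype.property (p := fun c : Finset V × Finset V =>
    G.IsClique (c.1 : Set V) ∧ Disjoint c.1 c.2) c).1

theorem u_disj (c : II G N) : Disjoint (uT c) (uA c) :=
  (Subtype.property (p := fun c : Finset V × Finset V =>
    G.IsClique (c.1 : Set V) ∧ Disjoint c.1 c.2) c).2

theorem u_ext {c c' : II G N} (h1 : uT c = uT c') (h2 : uA c = uA c') : c = c' :=
  Subtype.ext (p := fun c : Finset V × Finset V => G.IsClique (c.1 : Set V) ∧ Disjoint c.1 c.2)
    (Prod.ext h1 h2)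

/-- the cell containing a corner -/
def cell (T : Finset V) (h : G.IsClique (T : Set V)) (P : Finset V) : II G N :=
  (⟨(T, P \ T), h, Finset.disjoint_sdiff⟩ :
    {c : Finset V × Finset V // G.IsClique (c.1 : Set V) ∧ Disjoint c.1 c.2})

theorem uT_cell (T : Finset V) (h : G.IsClique (T : Set V)) (P : Finset V) :
    uT (cell (N := N) T h P) = T := rfl

theorem uA_cell (T : Finset V) (h : G.IsClique (T : Set V)) (P : Finset V) :
    uA (cell (N := N) T h P) = P \ T := rfl

variable {F}

open Classical in
/-- the corner function of a chain -/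
def base (v : II G N × QQ G N → F) (T : Finset V) (w : W G) : F :=
  if h : G.IsClique (T : Set V) then
    (-1) ^ (par G w ∩ T).card *
      v (cell T h (par G w), QuotientGroup.mk (gm G (w * rep G (par G w ∩ T))))
  else 0

theorem base_neg (v : II G N × QQ G N → F) (T : Finset V) (w : W G)
    (h : ¬ G.IsClique (T : Set V)) : base v T w = 0 := by
  unfold base
  rw [dif_neg h]

theorem base_pos (v : II G N × QQ G N → F) (T : Finset V) (w : W G)
    (h : G.IsClique (T : Set V)) : base v T w = (-1) ^ (par G w ∩ T).card *
      v (cell T h (par G w), QuotientGroup.mk (gm G (w * rep G (par G w ∩ T)))) := by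
  unfold base
  rw [dif_pos h]

theorem base_H (v : II G N × QQ G N → F) (T : Finset V) (w h : W G) (hh : h ∈ HH G N) :
    base v T (h * w) = base v T w := by
  obtain ⟨n, hn, rfl⟩ := hh
  by_cases hT : G.IsClique (T : Set V)
  · rw [base_pos _ _ _ hT, base_pos _ _ _ hT]
    have e1 : par G ((th G).ker.subtype n * w) = par G w := par_ker G n.1 n.2 w
    rw [e1]
    have e2 : gm G ((th G).ker.subtype n * w * rep G (par G w ∩ T)) =
        n * gm G (w * rep G (par G w ∩ T)) := by
      rw [mul_assoc]
      exact gm_ker G n _
    rw [e2]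
    have e3 : (QuotientGroup.mk (n * gm G (w * rep G (par G w ∩ T))) : QQ G N) =
        QuotientGroup.mk (gm G (w * rep G (par G w ∩ T))) := by
      rw [QuotientGroup.mk_mul, (QuotientGroup.eq_one_iff n).2 hn, one_mul]
    rw [e3]
  · rw [base_neg _ _ _ hT, base_neg _ _ _ hT]

/-- the comparison map -/
def Phi : (II G N × QQ G N → F) →ₗ[F] (Finset V → XX G N → F) where
  toFun v T x := Quotient.liftOn' x (base v T) (fun a b hab => by
    rw [QuotientGroup.rightRel_apply] at hab
    have h := base_H v T a _ hab
    rw [inv_mul_cancel_right] at h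
    exact h.symm)
  map_add' v v' := by
    funext T x
    induction x using Quotient.inductionOn' with
    | h w =>
      show base (v + v') T w = base v T w + base v' T w
      by_cases hT : G.IsClique (T : Set V)
      · rw [base_pos _ _ _ hT, base_pos _ _ _ hT, base_pos _ _ _ hT, Pi.add_apply]
        ring
      · rw [base_neg _ _ _ hT, base_neg _ _ _ hT, base_neg _ _ _ hT, add_zero]
  map_smul' r v := by
    funext T x
    induction x using Quotient.inductionOn' with
    | h w =>
      show base (r • v) T w = r * base v T w
      by_cases hT : G.IsClique (T : Set V)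
      · rw [base_pos _ _ _ hT, base_pos _ _ _ hT, Pi.smul_apply, smul_eq_mul]
        ring
      · rw [base_neg _ _ _ hT, base_neg _ _ _ hT, mul_zero]

theorem Phi_mk (v : II G N × QQ G N → F) (T : Finset V) (w : W G) :
    Phi v T (Quotient.mk'' w) = base v T w := rfl

/-- antiinvariance -/
theorem base_anti1 (v : II G N × QQ G N → F) (T : Finset V) (t : V) (ht : t ∈ T) (w : W G)
    (htw : t ∈ par G w) : base v T (w * (cox G).simple t) = - base v T w := by
  by_cases hT : G.IsClique (T : Set V)
  · rw [base_pos _ _ _ hT, base_pos _ _ _ hT]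
    have e1 : par G (w * (cox G).simple t) = (par G w).erase t := by
      rw [par_simple, if_pos htw]
    have e2 : (par G w).erase t ∩ T = (par G w ∩ T).erase t := by
      ext x; simp only [Finset.mem_inter, Finset.mem_erase]; tauto
    have htm : t ∈ par G w ∩ T := Finset.mem_inter.2 ⟨htw, ht⟩
    have e3 : cell (N := N) T hT ((par G w).erase t) = cell T hT (par G w) := by
      refine u_ext rfl ?_
      rw [uA_cell, uA_cell]
      ext x
      simp only [Finset.mem_sdiff, Finset.mem_erase]
      constructor
      · rintro ⟨⟨_, h⟩, h'⟩; exact ⟨h, h'⟩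
      · rintro ⟨h, h'⟩
        exact ⟨⟨fun e => h' (e ▸ ht), h⟩, h'⟩
    have e4 : w * (cox G).simple t * rep G ((par G w ∩ T).erase t) = w * rep G (par G w ∩ T) := by
      rw [mul_assoc, rep_erase' G _ t htm (hT.subset (by
        intro x hx
        have := Finset.mem_inter.1 (Finset.mem_coe.1 hx)
        exact Finset.mem_coe.2 this.2))]
    have e5 : (par G w ∩ T).card = ((par G w ∩ T).erase t).card + 1 := by
      rw [Finset.card_erase_of_mem htm]
      have : 0 < (par G w ∩ T).card := Finset.card_pos.2 ⟨t, htm⟩
      omega
    rw [e1, e2, e3, e4, e5, pow_succ]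
    ring
  · rw [base_neg _ _ _ hT, base_neg _ _ _ hT, neg_zero]

theorem base_anti (v : II G N × QQ G N → F) (T : Finset V) (t : V) (ht : t ∈ T) (w : W G) :
    base v T (w * (cox G).simple t) = - base v T w := by
  by_cases htw : t ∈ par G w
  · exact base_anti1 v T t ht w htw
  · have h1 : t ∈ par G (w * (cox G).simple t) := by
      rw [par_simple, if_neg htw]
      exact Finset.mem_insert_self _ _
    have h2 := base_anti1 v T t ht _ h1
    rw [mul_assoc, simple_mul_self, mul_one] at h2
    rw [h2, neg_neg]

/-- the action of the finite quotient -/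
def kap (q : QQ G N) (w : W G) : XX G N :=
  Quotient.liftOn' q (fun g => (Quotient.mk'' (g.1 * w) : XX G N)) (fun a b hab => by
    refine Quotient.sound' ?_
    rw [QuotientGroup.leftRel_apply] at hab
    rw [QuotientGroup.rightRel_apply]
    refine ⟨b * a⁻¹, ?_, ?_⟩
    · have h : a * (a⁻¹ * b) * a⁻¹ ∈ N := Subgroup.Normal.conj_mem inferInstance _ hab a
      rwa [mul_inv_cancel_left] at h
    · show (b * a⁻¹ : (th G).ker).1 = b.1 * w * (a.1 * w)⁻¹
      rw [mul_inv_rev, mul_assoc, mul_inv_cancel_left]
      rfl)

omit [Fintype V] [LinearOrder V] in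
theorem kap_mk (g : (th G).ker) (w : W G) :
    kap (QuotientGroup.mk g : QQ G N) w = Quotient.mk'' (g.1 * w) := rfl

/-- the inverse map -/
def Psi (c : Finset V → XX G N → F) : II G N × QQ G N → F :=
  fun x => c (uT x.1) (kap x.2 (rep G (uA x.1)))

theorem Psi_Phi (v : II G N × QQ G N → F) : Psi (Phi v) = v := by
  funext x
  obtain ⟨c, q⟩ := x
  induction q using QuotientGroup.induction_on with
  | H g =>
    show Phi v (uT c) (kap (QuotientGroup.mk g) (rep G (uA c))) = _
    rw [kap_mk, Phi_mk, base_pos _ _ _ (u_clique c)]
    have e1 : par G (g.1 * rep G (uA c)) = uA c := by rw [par_ker G g.1 g.2, par_rep]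
    have e2 : uA c ∩ uT c = ∅ := Finset.disjoint_iff_inter_eq_empty.1 (u_disj c).symm
    have e3 : cell (N := N) (uT c) (u_clique c) (uA c) = c := by
      refine u_ext rfl ?_
      rw [uA_cell, Finset.sdiff_eq_self_of_disjoint (u_disj c).symm]
    rw [e1, e2, e3, rep_empty, mul_one, gm_ker, gm_rep, mul_one]
    simp

omit [Fintype V] [N.Normal] in
theorem anti_rep {n : ℕ} {c : Finset V → XX G N → F}
    (hc : c ∈ KK G (pull F (aa G (HH G N))) Set.univ ∅ n) (T : Finset V)
    (hT : G.IsClique (T : Set V)) (w : W G) (B : Finset V) : B ⊆ T →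
    c T (Quotient.mk'' (w * rep G B)) = (-1) ^ B.card * c T (Quotient.mk'' w) := by
  induction B using Finset.induction_on with
  | empty =>
    intro _
    rw [rep_empty, mul_one]; simp
  | insert t B ht ih =>
    intro hB
    have hcl : G.IsClique ((insert t B : Finset V) : Set V) :=
      hT.subset (by exact_mod_cast hB)
    have h1 := (mem_KK.1 hc).2 T t (Or.inl (hB (Finset.mem_insert_self _ _)))
    have h2 := congrFun h1 (Quotient.mk'' (w * rep G B))
    rw [pull_apply, aa_mk, Pi.neg_apply] at h2
    rw [rep_insert G B t ht hcl, ← mul_assoc, h2, ih ((Finset.subset_insert _ _).trans hB),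
      Finset.card_insert_of_notMem ht, pow_succ]
    ring

theorem Phi_Psi {n : ℕ} {c : Finset V → XX G N → F}
    (hc : c ∈ KK G (pull F (aa G (HH G N))) Set.univ ∅ n) : Phi (Psi c) = c := by
  funext T x
  induction x using Quotient.inductionOn' with
  | h w =>
    rw [Phi_mk]
    by_cases hT : G.IsClique (T : Set V)
    · rw [base_pos _ _ _ hT]
      show _ * c T (kap (QuotientGroup.mk (gm G (w * rep G (par G w ∩ T)))) (rep G (par G w \ T))) = _
      rw [kap_mk, ← par_base' G w T hT, gm_mul,
        anti_rep hc T hT w _ Finset.inter_subset_right, ← mul_assoc, ← mul_pow]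
      simp
    · rw [base_neg _ _ _ hT, (mem_KK.1 hc).1 T (fun h => hT h.1)]
      rfl

/-! ### the boundary -/

omit [Fintype V] [LinearOrder V] in
open Classical in
theorem sum_ite_inv [Fintype (QQ G N)] (f : QQ G N → F) (k m : QQ G N) :
    (∑ g, f g * (if g⁻¹ * k = m then (1 : F) else 0)) = f (k * m⁻¹) := by
  rw [Finset.sum_eq_single (k * m⁻¹)]
  · rw [if_pos (by group), mul_one]
  · intro g _ hg
    rw [if_neg, mul_zero]
    intro h
    apply hg
    rw [← h]
    group
  · intro h
    exact absurd (Finset.mem_univ _) h

open Classical in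
theorem D_coeff (c c' : II G N) (q : QQ G N) : (((davis G).quot N).D c c').coeff q =
    ∑ t ∈ uT c, if uT c' = (uT c).erase t then (sg t ((uT c).erase t)) *
      ((if uA c' = uA c ∧ q = 1 then 1 else 0) - (if uA c' = insert t (uA c) ∧
        q = QuotientGroup.mk (gm G (rep G (uA c) * (cox G).simple t)) then 1 else 0)) else 0 := by
  have h0 : ((davis G).quot N).D c c' = MonoidAlgebra.mapDomainRingHom ℤ (QuotientGroup.mk' N)
      (∑ t ∈ uT c, if uT c' = (uT c).erase t then
    ((sg t ((uT c).erase t) : ℤ) : MonoidAlgebra ℤ (th G).ker) *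
      ((if uA c' = uA c then 1 else 0) - (if uA c' = insert t (uA c) then
        MonoidAlgebra.single (gm G (rep G (uA c) * (cox G).simple t)) 1 else 0)) else 0) := rfl
  rw [h0, map_sum, MonoidAlgebra.coeff_sum, Finsupp.finsetSum_apply]
  refine Finset.sum_congr rfl fun t _ => ?_
  by_cases h1 : uT c' = (uT c).erase t
  · rw [if_pos h1, if_pos h1, map_mul, map_intCast, ← zsmul_eq_mul, MonoidAlgebra.coeff_smul,
      Finsupp.smul_apply, smul_eq_mul, map_sub, MonoidAlgebra.coeff_sub, Finsupp.sub_apply]
    congr 2
    · by_cases h2 : uA c' = uA c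
      · rw [if_pos h2, map_one, MonoidAlgebra.one_def, MonoidAlgebra.coeff_single,
          Finsupp.single_apply]
        simp only [h2, true_and, eq_comm]
      · rw [if_neg h2, map_zero, if_neg (fun h => h2 h.1)]
        rfl
    · by_cases h2 : uA c' = insert t (uA c)
      · rw [if_pos h2, MonoidAlgebra.mapDomainRingHom_apply, MonoidAlgebra.mapDomain_single,
          MonoidAlgebra.coeff_single, Finsupp.single_apply]
        simp only [h2, true_and, eq_comm]
        rfl
      · rw [if_neg h2, map_zero, if_neg (fun h => h2 h.1)]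
        rfl
  · rw [if_neg h1, if_neg h1, map_zero]
    rfl

omit [Fintype V] [LinearOrder V] in
theorem sum_and_ite [Fintype (QQ G N)] (f : QQ G N → F) (k m : QQ G N) (a : Prop) [Decidable a]
    [∀ g : QQ G N, Decidable (a ∧ g⁻¹ * k = m)] :
    (∑ g, f g * (if a ∧ g⁻¹ * k = m then (1 : F) else 0)) = if a then f (k * m⁻¹) else 0 := by
  classical
  by_cases ha : a
  · rw [if_pos ha, ← sum_ite_inv f k m]
    refine Finset.sum_congr rfl fun g _ => ?_
    congr 1
    by_cases h : g⁻¹ * k = m
    · rw [if_pos h, if_pos ⟨ha, h⟩]
    · rw [if_neg h, if_neg (fun h' => h h'.2)]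
  · rw [if_neg ha]
    refine Finset.sum_eq_zero fun g _ => ?_
    rw [if_neg (fun h' => ha h'.1), mul_zero]

open Classical in
theorem row_sum [Fintype (QQ G N)] (v : II G N × QQ G N → F) (c c' : II G N) (k : QQ G N) :
    (∑ g, v (c, g) * (((((davis G).quot N).D c c').coeff (g⁻¹ * k) : ℤ) : F)) =
    ∑ t ∈ uT c, if uT c' = (uT c).erase t then (((sg t ((uT c).erase t)) : ℤ) : F) *
      ((if uA c' = uA c then v (c, k) else 0) - (if uA c' = insert t (uA c) then
        v (c, k * (QuotientGroup.mk (gm G (rep G (uA c) * (cox G).simple t)))⁻¹) else 0)) else 0 := by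
  have h1 : ∀ g : QQ G N, v (c, g) * (((((davis G).quot N).D c c').coeff (g⁻¹ * k) : ℤ) : F) =
      ∑ t ∈ uT c, v (c, g) * (if uT c' = (uT c).erase t then (((sg t ((uT c).erase t)) : ℤ) : F) *
      ((if uA c' = uA c ∧ g⁻¹ * k = 1 then 1 else 0) - (if uA c' = insert t (uA c) ∧
        g⁻¹ * k = QuotientGroup.mk (gm G (rep G (uA c) * (cox G).simple t)) then 1 else 0))
          else 0) := by
    intro g
    rw [D_coeff, Int.cast_sum, Finset.mul_sum]
    refine Finset.sum_congr rfl fun t _ => ?_
    push_cast
    rfl
  rw [Finset.sum_congr rfl fun g _ => h1 g, Finset.sum_comm]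
  refine Finset.sum_congr rfl fun t _ => ?_
  by_cases h2 : uT c' = (uT c).erase t
  · simp only [if_pos h2]
    have e1 := sum_and_ite (fun g => v (c, g)) k 1 (uA c' = uA c)
    have e2 := sum_and_ite (fun g => v (c, g)) k
      (QuotientGroup.mk (gm G (rep G (uA c) * (cox G).simple t))) (uA c' = insert t (uA c))
    rw [inv_one, mul_one] at e1
    rw [← e1, ← e2, ← Finset.sum_sub_distrib, Finset.mul_sum]
    refine Finset.sum_congr rfl fun g _ => ?_
    ring
  · simp only [if_neg h2, mul_zero, Finset.sum_const_zero]

/-- the group identity at a wall -/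
theorem gm_wall (w : W G) (T : Finset V) (t : V) (htT : t ∉ T) (htw : t ∈ par G w)
    (hc : G.IsClique ((insert t T : Finset V) : Set V)) :
    gm G (w * rep G (par G w ∩ insert t T)) = gm G (w * rep G (par G w ∩ T)) *
      (gm G (rep G (par G w \ insert t T) * (cox G).simple t))⁻¹ := by
  have hcT : G.IsClique (T : Set V) := hc.subset (by simp)
  rw [eq_mul_inv_iff_mul_eq]
  apply Subtype.ext
  have e1 : par G w ∩ insert t T = insert t (par G w ∩ T) := by
    ext x
    simp only [Finset.mem_inter, Finset.mem_insert]
    constructor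
    · rintro ⟨h, h1 | h1⟩
      · exact Or.inl h1
      · exact Or.inr ⟨h, h1⟩
    · rintro (h | h)
      · exact ⟨h ▸ htw, Or.inl h⟩
      · exact ⟨h.1, Or.inr h.2⟩
  have e2 : t ∉ par G w ∩ T := fun h => htT (Finset.mem_inter.1 h).2
  have e3 : par G (w * rep G (par G w ∩ insert t T)) = par G w \ insert t T := par_base' G w _ hc
  have e4 : par G (w * rep G (par G w ∩ T)) = par G w \ T := par_base' G w _ hcT
  have e5 : par G (rep G (par G w \ insert t T) * (cox G).simple t) = par G w \ T := by
    rw [par_simple, par_rep, if_neg (by simp)]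
    ext x
    simp only [Finset.mem_insert, Finset.mem_sdiff, not_or]
    constructor
    · rintro (h | h)
      · exact ⟨h ▸ htw, h ▸ htT⟩
      · exact ⟨h.1, h.2.2⟩
    · rintro ⟨h1, h2⟩
      by_cases hx : x = t
      · exact Or.inl hx
      · exact Or.inr ⟨h1, hx, h2⟩
  have e6 : rep G (insert t (par G w ∩ T)) = rep G (par G w ∩ T) * (cox G).simple t :=
    rep_insert G _ t e2 (by
      rw [← e1]
      exact hc.subset (by
        intro x hx
        exact Finset.mem_coe.2 (Finset.mem_inter.1 (Finset.mem_coe.1 hx)).2))
  show w * rep G (par G w ∩ insert t T) * (rep G (par G (w * rep G (par G w ∩ insert t T))))⁻¹ *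
    (rep G (par G w \ insert t T) * (cox G).simple t *
      (rep G (par G (rep G (par G w \ insert t T) * (cox G).simple t)))⁻¹) =
    w * rep G (par G w ∩ T) * (rep G (par G (w * rep G (par G w ∩ T))))⁻¹
  rw [e3, e4, e5, e1, e6]
  have hs : (cox G).simple t * (cox G).simple t = 1 := simple_mul_self G t
  calc w * (rep G (par G w ∩ T) * (cox G).simple t) * (rep G (par G w \ insert t T))⁻¹ *
        (rep G (par G w \ insert t T) * (cox G).simple t * (rep G (par G w \ T))⁻¹)
      = w * rep G (par G w ∩ T) * ((cox G).simple t * (cox G).simple t) *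
          (rep G (par G w \ T))⁻¹ := by group
    _ = _ := by rw [hs, mul_one]

open Classical in
/-- the cells with a given clique containing the corner, one generator more -/
theorem cell_sum (v : II G N × QQ G N → F) (w : W G) (T : Finset V) (t : V) (ht : t ∉ T) :
    (-1) ^ (par G w ∩ T).card * (∑ c : II G N, if uT c = insert t T then
      (((sg t T) : ℤ) : F) * ((if par G w \ T = uA c then
        v (c, QuotientGroup.mk (gm G (w * rep G (par G w ∩ T)))) else 0) -
        (if par G w \ T = insert t (uA c) then
        v (c, QuotientGroup.mk (gm G (w * rep G (par G w ∩ T))) *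
          (QuotientGroup.mk (gm G (rep G (uA c) * (cox G).simple t)))⁻¹) else 0)) else 0) =
    (((sg t T) : ℤ) : F) * base v (insert t T) w := by
  by_cases hc : G.IsClique ((insert t T : Finset V) : Set V)
  · rw [Finset.sum_eq_single (cell (insert t T) hc (par G w))]
    · rw [if_pos (uT_cell _ _ _), uA_cell, base_pos _ _ _ hc]
      by_cases htw : t ∈ par G w
      · rw [if_neg, if_pos, gm_wall w T t ht htw hc, zero_sub]
        · have e1 : (par G w ∩ insert t T).card = (par G w ∩ T).card + 1 := by
            rw [← Finset.card_insert_of_notMem (fun h => ht (Finset.mem_inter.1 h).2 :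
              t ∉ par G w ∩ T)]
            congr 1
            ext x
            simp only [Finset.mem_inter, Finset.mem_insert]
            constructor
            · rintro ⟨h, h1 | h1⟩
              · exact Or.inl h1
              · exact Or.inr ⟨h, h1⟩
            · rintro (h | h)
              · exact ⟨h ▸ htw, Or.inl h⟩
              · exact ⟨h.1, Or.inr h.2⟩
          rw [e1, pow_succ, QuotientGroup.mk_mul, QuotientGroup.mk_inv]
          ring
        · ext x
          simp only [Finset.mem_insert, Finset.mem_sdiff, not_or]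
          constructor
          · rintro ⟨h1, h2⟩
            by_cases hx : x = t
            · exact Or.inl hx
            · exact Or.inr ⟨h1, hx, h2⟩
          · rintro (h | h)
            · exact ⟨h ▸ htw, h ▸ ht⟩
            · exact ⟨h.1, h.2.2⟩
        · intro h
          have : t ∈ par G w \ T := Finset.mem_sdiff.2 ⟨htw, ht⟩
          rw [h] at this
          exact (Finset.mem_sdiff.1 this).2 (Finset.mem_insert_self _ _)
      · have e1 : par G w ∩ insert t T = par G w ∩ T := by
          ext x
          simp only [Finset.mem_inter, Finset.mem_insert]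
          constructor
          · rintro ⟨h, h1 | h1⟩
            · exact absurd (h1 ▸ h) htw
            · exact ⟨h, h1⟩
          · rintro ⟨h, h1⟩
            exact ⟨h, Or.inr h1⟩
        rw [if_pos, if_neg, sub_zero, e1]
        · ring
        · intro h
          have : t ∈ par G w \ T := by
            rw [h]; exact Finset.mem_insert_self _ _
          exact htw (Finset.mem_sdiff.1 this).1
        · ext x
          simp only [Finset.mem_insert, Finset.mem_sdiff, not_or]
          constructor
          · rintro ⟨h1, h2⟩
            exact ⟨h1, fun h => htw (h ▸ h1), h2⟩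
          · rintro ⟨h1, _, h2⟩
            exact ⟨h1, h2⟩
    · intro c _ hne
      by_cases h1 : uT c = insert t T
      · rw [if_pos h1]
        have htc : t ∉ uA c := fun h => Finset.disjoint_left.1 (u_disj c)
          (h1 ▸ Finset.mem_insert_self t T) h
        rw [if_neg, if_neg, sub_zero, mul_zero]
        · intro h
          apply hne
          refine u_ext h1 ?_
          rw [uA_cell]
          ext x
          simp only [Finset.mem_insert, Finset.mem_sdiff, not_or]
          have hx := Finset.ext_iff.1 h x
          simp only [Finset.mem_insert, Finset.mem_sdiff] at hx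
          constructor
          · intro h2
            have h3 := hx.2 (Or.inr h2)
            exact ⟨h3.1, fun e => htc (e ▸ h2), h3.2⟩
          · rintro ⟨h2, h3, h4⟩
            exact (hx.1 ⟨h2, h4⟩).resolve_left h3
        · intro h
          apply hne
          refine u_ext h1 ?_
          rw [uA_cell, ← h]
          ext x
          simp only [Finset.mem_insert, Finset.mem_sdiff, not_or]
          constructor
          · rintro ⟨h2, h3⟩
            refine ⟨h2, ?_, h3⟩
            intro e
            apply htc
            rw [← h, ← e]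
            exact Finset.mem_sdiff.2 ⟨h2, h3⟩
          · rintro ⟨h2, _, h4⟩
            exact ⟨h2, h4⟩
      · rw [if_neg h1]
    · intro h
      exact absurd (Finset.mem_univ _) h
  · rw [base_neg _ _ _ hc, mul_zero, Finset.sum_eq_zero, mul_zero]
    intro c _
    rw [if_neg]
    intro h
    apply hc
    rw [← h]
    exact u_clique c

/-- the comparison map commutes with the boundaries -/
theorem Phi_bd [Fintype (QQ G N)] (v : II G N × QQ G N → F) :
    Phi (v ᵥ* ((davis G).quot N).mat F) = bd F (Phi v) := by
  classical
  funext T x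
  induction x using Quotient.inductionOn' with
  | h w =>
    rw [Phi_mk, bd_apply, Finset.sum_apply]
    have hR : ∀ t ∈ Tᶜ, (sg t T • Phi v (insert t T)) (Quotient.mk'' w) =
        (((sg t T) : ℤ) : F) * base v (insert t T) w := by
      intro t _
      rw [Pi.smul_apply, Phi_mk, zsmul_eq_mul]
    rw [Finset.sum_congr rfl hR]
    by_cases hT : G.IsClique (T : Set V)
    · rw [base_pos _ _ _ hT]
      have h1 : (v ᵥ* ((davis G).quot N).mat F) (cell T hT (par G w),
          QuotientGroup.mk (gm G (w * rep G (par G w ∩ T)))) =
          ∑ c : II G N, ∑ t ∈ Tᶜ, if uT c = insert t T then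
      (((sg t T) : ℤ) : F) * ((if par G w \ T = uA c then
        v (c, QuotientGroup.mk (gm G (w * rep G (par G w ∩ T)))) else 0) -
        (if par G w \ T = insert t (uA c) then
        v (c, QuotientGroup.mk (gm G (w * rep G (par G w ∩ T))) *
          (QuotientGroup.mk (gm G (rep G (uA c) * (cox G).simple t)))⁻¹) else 0)) else 0 := by
        have h2 : (v ᵥ* ((davis G).quot N).mat F) (cell T hT (par G w),
          QuotientGroup.mk (gm G (w * rep G (par G w ∩ T)))) =
          ∑ c : II G N, ∑ g : QQ G N, v (c, g) * (((((davis G).quot N).D c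
            (cell T hT (par G w))).coeff
            (g⁻¹ * QuotientGroup.mk (gm G (w * rep G (par G w ∩ T)))) : ℤ) : F) := by
          rw [← Fintype.sum_prod_type']
          rfl
        rw [h2]
        refine Finset.sum_congr rfl fun c _ => ?_
        rw [row_sum, uT_cell, uA_cell]
        rw [← Finset.sum_filter, ← Finset.sum_filter]
        refine Finset.sum_congr ?_ ?_
        · ext t
          simp only [Finset.mem_filter, Finset.mem_compl]
          constructor
          · rintro ⟨h3, h4⟩
            rw [h4]
            exact ⟨Finset.notMem_erase _ _, (Finset.insert_erase h3).symm⟩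
          · rintro ⟨h3, h4⟩
            rw [h4]
            exact ⟨Finset.mem_insert_self _ _, (Finset.erase_insert h3).symm⟩
        · intro t ht
          rw [Finset.mem_filter] at ht
          rw [ht.2, Finset.erase_insert (Finset.mem_compl.1 ht.1)]
      rw [h1, Finset.sum_comm, Finset.mul_sum]
      refine Finset.sum_congr rfl fun t ht => ?_
      exact cell_sum v w T t (Finset.mem_compl.1 ht)
    · rw [base_neg _ _ _ hT]
      symm
      refine Finset.sum_eq_zero fun t _ => ?_
      rw [base_neg, mul_zero]
      intro h
      exact hT (h.subset (by simp))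

/-! ### linear algebra -/

variable (G N F)

/-- the chains of degree `n` -/
def CN (n : ℕ) : Submodule F (II G N × QQ G N → F) where
  carrier := {v | ∀ x, (uT x.1).card ≠ n → v x = 0}
  add_mem' := by
    intro v v' h h' x hx
    rw [Pi.add_apply, h x hx, h' x hx, add_zero]
  zero_mem' := fun _ _ => rfl
  smul_mem' := by
    intro r v h x hx
    rw [Pi.smul_apply, h x hx, smul_zero]

variable {G N F}

theorem map_CN (n : ℕ) : (CN G F N n).map Phi =
    KK G (pull F (aa G (HH G N))) Set.univ ∅ n := by
  ext c
  constructor
  · rintro ⟨v, hv, rfl⟩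
    rw [mem_KK]
    refine ⟨fun T hT => ?_, fun T t ht => ?_⟩
    · funext x
      induction x using Quotient.inductionOn' with
      | h w =>
        rw [Phi_mk]
        by_cases h : G.IsClique (T : Set V)
        · rw [base_pos _ _ _ h, hv (cell T h (par G w), _)
            (fun h' => hT ⟨h, Set.subset_univ _, h'⟩), mul_zero]
          rfl
        · rw [base_neg _ _ _ h]
          rfl
    · funext x
      rcases ht with ht | ht
      · induction x using Quotient.inductionOn' with
        | h w =>
          rw [pull_apply, aa_mk, Pi.neg_apply, Phi_mk, Phi_mk, base_anti v T t ht]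
      · exact absurd ht (Set.notMem_empty _)
  · intro hc
    refine ⟨Psi c, fun x hx => ?_, Phi_Psi hc⟩
    show c (uT x.1) _ = 0
    rw [(mem_KK.1 hc).1 (uT x.1) (fun h => hx h.2.2)]
    rfl

theorem Phi_inj : Function.Injective (Phi : (II G N × QQ G N → F) →ₗ[F] _) := by
  intro v v' h
  rw [← Psi_Phi v, h, Psi_Phi]

theorem CN_span [Fintype (QQ G N)] (n : ℕ) : CN G F N n = Submodule.span F
    (Set.range fun x : {x : II G N × QQ G N // (uT x.1).card = n} =>
      (Pi.basisFun F (II G N × QQ G N)) x.1) := by
  classical
  apply le_antisymm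
  · intro v hv
    rw [← (Pi.basisFun F (II G N × QQ G N)).sum_repr v]
    refine Submodule.sum_mem _ fun x _ => ?_
    by_cases hx : (uT x.1).card = n
    · exact Submodule.smul_mem _ _ (Submodule.subset_span ⟨⟨x, hx⟩, rfl⟩)
    · rw [Pi.basisFun_repr, hv x hx, zero_smul]
      exact Submodule.zero_mem _
  · rw [Submodule.span_le]
    rintro _ ⟨x, rfl⟩ y hy
    simp only [Pi.basisFun_apply]
    rw [Pi.single_eq_of_ne]
    intro h
    rw [h] at hy
    exact hy x.2

theorem finrank_CN [Fintype (QQ G N)] (n : ℕ) : finrank F (CN G F N n) =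
    Fintype.card {i : II G N // ((davis G).quot N).deg i = n} * Fintype.card (QQ G N) := by
  classical
  have h1 : LinearIndependent F (fun x : {x : II G N × QQ G N // (uT x.1).card = n} =>
      (Pi.basisFun F (II G N × QQ G N)) x.1) :=
    (Pi.basisFun F (II G N × QQ G N)).linearIndependent.comp _ Subtype.val_injective
  rw [CN_span, finrank_span_eq_card h1, ← Fintype.card_prod]
  exact Fintype.card_congr
    (Equiv.prodSubtypeFstEquivSubtypeProd (p := fun i : II G N => (uT i).card = n))

theorem rk_eq [Fintype (QQ G N)] (n : ℕ) : ((davis G).quot N).rk F n =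
    finrank F ((CN G F N n).map (((davis G).quot N).mat F).vecMulLinear) := by
  classical
  unfold GCx.rk
  rw [Matrix.rank_eq_finrank_span_row, CN_span, Submodule.map_span, ← Set.range_comp]
  have e : (((davis G).quot N).mat F).vecMulLinear ∘ (fun x : {x : II G N × QQ G N //
      (uT x.1).card = n} => (Pi.basisFun F (II G N × QQ G N)) x.1) =
      (Matrix.submatrix (((davis G).quot N).mat F) (fun x : {x : II G N × QQ G N //
      (uT x.1).card = n} => x.1) id).row := by
    funext x
    show Pi.basisFun F _ x.1 ᵥ* _ = _
    rw [Pi.basisFun_apply, Matrix.single_one_vecMul]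
    rfl
  rw [e]
  rfl

/-- rank-nullity on a subspace -/
theorem rank_sub {E : Type} [AddCommGroup E] [Module F E] [FiniteDimensional F E]
    (K : Submodule F E) (f : E →ₗ[F] E) :
    finrank F (K.map f) + finrank F (K ⊓ LinearMap.ker f : Submodule F E) = finrank F K := by
  have h := (f.domRestrict K).finrank_range_add_finrank_ker
  rw [LinearMap.range_domRestrict] at h
  have h2 : finrank F (LinearMap.ker (f.domRestrict K)) =
      finrank F (K ⊓ LinearMap.ker f : Submodule F E) := by
    have e : (LinearMap.ker (f.domRestrict K)).map K.subtype = K ⊓ LinearMap.ker f := by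
      rw [LinearMap.ker_domRestrict, Submodule.map_comap_subtype]
    rw [← e]
    exact (Submodule.equivMapOfInjective _ K.subtype_injective _).finrank_eq
  rw [h2] at h
  exact h

end Pool.Agent.N558.LT

namespace Pool.Agent.N496.LT

open Module Pool.Agent.W907.SG Pool.Agent.W461.SGN Pool.Agent.N558.LT
open Pool.Agent.Y132.SI (aa)

theorem p4B : P4B := by
  intro V F _ _ _ G N _ _ _ n _
  classical
  have hinj : Function.Injective (Phi : (II G N × QQ G N → F) →ₗ[F] _) := Phi_inj
  -- the rank of the boundary on the chains of degree `m`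
  have hr : ∀ m : ℕ, finrank F ((KK G (pull F (aa G (HH G N))) Set.univ ∅ m).map (bd F)) =
      ((davis G).quot N).rk F m := by
    intro m
    rw [rk_eq, ← map_CN, ← Submodule.map_comp]
    have e : (bd F).comp (Phi : (II G N × QQ G N → F) →ₗ[F] _) =
        (Phi : (II G N × QQ G N → F) →ₗ[F] _).comp (((davis G).quot N).mat F).vecMulLinear := by
      refine LinearMap.ext fun v => ?_
      exact (Phi_bd v).symm
    rw [e, Submodule.map_comp]
    exact (Submodule.equivMapOfInjective _ hinj _).finrank_eq.symm
  have hk : finrank F (KK G (pull F (aa G (HH G N))) Set.univ ∅ n) =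
      Fintype.card {i : II G N // ((davis G).quot N).deg i = n} * Fintype.card (QQ G N) := by
    rw [← finrank_CN (F := F), ← map_CN]
    exact (Submodule.equivMapOfInjective _ hinj _).finrank_eq.symm
  have h1 := rank_sub (KK G (pull F (aa G (HH G N))) Set.univ ∅ n) (bd F)
  rw [hr, hk] at h1
  have h2 : finrank F (BB G (pull F (aa G (HH G N))) Set.univ ∅ n) =
      ((davis G).quot N).rk F (n + 1) := hr (n + 1)
  have h3 : finrank F (BB G (pull F (aa G (HH G N))) Set.univ ∅ n) ≤
      finrank F (ZZ G (pull F (aa G (HH G N))) Set.univ ∅ n) :=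
    Submodule.finrank_mono (BB_le_ZZ G _ _ _ n)
  unfold GCx.betti beta
  rw [Nat.cast_sub h3, h2]
  have h4 : ((((davis G).quot N).rk F n : ℕ) : ℤ) +
      (finrank F (ZZ G (pull F (aa G (HH G N))) Set.univ ∅ n) : ℤ) =
      Fintype.card {i : II G N // ((davis G).quot N).deg i = n} * Fintype.card (QQ G N) := by
    exact_mod_cast h1
  linear_combination -h4

end Pool.Agent.N496.LT

end
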