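import Pool.Agent.N496.LT.Stm
import Pool.Agent.W461.SG.NIL

/-!
# Project LT, part P4R (helper572): residual finiteness of right-angled Coxeter groups
-/

set_option autoImplicit false

namespace Pool.Agent.N572.LT

/-- a countable group in which every nontrivial element is missing from a normal subgroup of finite
index has a residual chain -/
theorem resFin_of {Γ : Type} [Group Γ] [Countable Γ]
    (h : ∀ g : Γ, g ≠ 1 → ∃ K : Subgroup Γ, K.Normal ∧ K.FiniteIndex ∧ g ∉ K) :
    ∃ (N : ℕ → Subgroup Γ) (_ : ∀ i, (N i).Normal), (∀ i, (N i).FiniteIndex) ∧ Antitone N ∧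
      ⨅ i, N i = ⊥ := by
  classical
  have h1 : ∀ g : Γ, ∃ K : Subgroup Γ, K.Normal ∧ K.FiniteIndex ∧ (g ≠ 1 → g ∉ K) := by
    intro g
    by_cases hg : g = 1
    · exact ⟨⊤, inferInstance, inferInstance, fun h => absurd hg h⟩
    · obtain ⟨K, hK, hK2, hK3⟩ := h g hg
      exact ⟨K, hK, hK2, fun _ => hK3⟩
  choose K hK hK2 hK3 using h1
  obtain ⟨f, hf⟩ := exists_surjective_nat Γ
  let N : ℕ → Subgroup Γ := fun n => Nat.rec (K (f 0)) (fun i S => S ⊓ K (f (i + 1))) n
  have hN1 : ∀ i, N (i + 1) = N i ⊓ K (f (i + 1)) := fun i => rfl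
  have hle : ∀ i, N i ≤ K (f i) := by
    intro i
    cases i with
    | zero => exact le_rfl
    | succ i => rw [hN1]; exact inf_le_right
  refine ⟨N, ?_, ?_, antitone_nat_of_succ_le fun i => by rw [hN1]; exact inf_le_left, ?_⟩
  · intro i
    induction i with
    | zero => exact hK _
    | succ i ih =>
      rw [hN1]
      exact @Subgroup.normal_inf_normal _ _ _ _ ih (hK (f (i + 1)))
  · intro i
    induction i with
    | zero => exact hK2 _
    | succ i ih =>
      rw [hN1]
      exact @Subgroup.instFiniteIndexMin _ _ _ _ ih (hK2 (f (i + 1)))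
  · rw [eq_bot_iff]
    intro g hg
    rw [Subgroup.mem_bot]
    by_contra hg1
    obtain ⟨i, rfl⟩ := hf g
    rw [Subgroup.mem_iInf] at hg
    exact hK3 _ hg1 (hle i (hg i))

/-- the kernel of a right action on a finite set -/
theorem exists_ker {Γ Y : Type} [Group Γ] [Finite Y] (ev : Y → Γ → Y) (h1 : ∀ y, ev y 1 = y)
    (h2 : ∀ y g h, ev y (g * h) = ev (ev y g) h) (g : Γ) (y : Y) (hg : ev y g ≠ y) :
    ∃ K : Subgroup Γ, K.Normal ∧ K.FiniteIndex ∧ g ∉ K := by
  let φ : Γ →* Equiv.Perm Y :=
    { toFun := fun w =>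
        { toFun := fun y => ev y w⁻¹
          invFun := fun y => ev y w
          left_inv := fun y => by
            show ev (ev y w⁻¹) w = y
            rw [← h2, inv_mul_cancel, h1]
          right_inv := fun y => by
            show ev (ev y w) w⁻¹ = y
            rw [← h2, mul_inv_cancel, h1] }
      map_one' := by
        ext y
        simp [h1]
      map_mul' := fun a b => by
        ext y
        simp [h2] }
  refine ⟨φ.ker, inferInstance, inferInstance, fun h => hg ?_⟩
  rw [MonoidHom.mem_ker] at h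
  have h3 : ev y g⁻¹ = y := by
    have := congrArg (fun e : Equiv.Perm Y => e y) h
    exact this
  calc ev y g = ev (ev y g⁻¹) g := by rw [h3]
    _ = y := by rw [← h2, inv_mul_cancel, h1]


open Pool.Agent.W907.SG Pool.Agent.W461.SGN Pool.Agent.N496.LT

theorem countable_W {V : Type} [Finite V] (G : SimpleGraph V) : Countable (W G) := by
  have h1 : Countable (FreeGroup V) :=
    (Quot.mk_surjective (r := FreeGroup.Red.Step) (α := List (V × Bool))).countable
  exact (QuotientGroup.mk'_surjective (Subgroup.normalClosure (cox G).relationsSet)).countable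

end Pool.Agent.N572.LT

namespace Pool.Agent.N496.LT

open Pool.Agent.N572.LT Pool.Agent.W907.SG Pool.Agent.W461.SGN

/-- P4R (helper572) -/
theorem p4R : P4R := by
  intro V _ G
  have hc := countable_W G
  have hck : Countable (th G).ker := inferInstance
  refine resFin_of fun g hg => ?_
  have hg1 : (g : W G) ≠ 1 := fun h => hg (Subtype.ext h)
  obtain ⟨Y, _, ⟨y⟩, P, ev, h1, h2, -, h3⟩ := Pool.Agent.W461.SGN.nil V G {(g : W G)} (by
    rw [Finset.mem_singleton]
    exact fun h => hg1 h.symm)
  obtain ⟨K, hK, hK2, hK3⟩ := exists_ker ev h1 h2 (g : W G) y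
    (h3 _ (Finset.mem_singleton_self _) y)
  exact ⟨K.subgroupOf (th G).ker, inferInstance, inferInstance, fun h => hK3 h⟩

end Pool.Agent.N496.LT
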