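import Pool.Agent.N496.LT.Stm
import Pool.Agent.Helper993.Acyclic

/-!
# Project LT, part P5A (helper572): products of det-`L²`-acyclic complexes are det-`L²`-acyclic
-/

set_option autoImplicit false

open scoped Matrix InnerProductSpace

noncomputable section

namespace Pool.Agent.N572.P5A

open Pool.Agent.Helper993.FK Pool.Agent.Helper993.Delta Pool.Agent.TH630.Tor ContinuousLinearMap
open Pool.Agent.N496.LT

section act

variable {Γ : Type} [Group Γ] {κ κ' : Type} [Fintype κ] [Fintype κ']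

/-- the action of a matrix over the group ring on vectors of functions -/
def act (A : Matrix κ κ' (MonoidAlgebra ℤ Γ)) (f : κ → Γ → ℂ) (j : κ') (h : Γ) : ℂ :=
  ∑ i, (A i j).coeff.sum fun g c => (c : ℂ) * f i (h * g⁻¹)

/-- square summable vectors of functions -/
def Sq (f : κ → Γ → ℂ) : Prop :=
  Summable fun p : κ × Γ => ‖f p.1 p.2‖ ^ ((2 : ENNReal).toReal)

/-- the adjoint matrix -/
def adjM (A : Matrix κ κ' (MonoidAlgebra ℤ Γ)) : Matrix κ' κ (MonoidAlgebra ℤ Γ) :=
  A.transpose.map (MonoidAlgebra.mapDomain fun g => g⁻¹)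

theorem coord_rMul {r s : ℕ} (A : Matrix (Fin r) (Fin s) (MonoidAlgebra ℤ Γ)) (v : L2Pow Γ r)
    (j : Fin s) (h : Γ) : coord (rMul (A.map toQ) v) j h = act A (coord v) j h := by
  rw [rMul_apply, act]
  refine Finset.sum_congr rfl fun i _ => ?_
  rw [Matrix.map_apply, Finsupp.sum]
  refine Eq.trans (Finset.sum_subset (s₂ := (A i j).coeff.support) ?_ ?_) ?_
  · intro g hg
    rw [Finsupp.mem_support_iff] at hg ⊢
    rw [toQ_coeff] at hg
    exact fun h0 => hg (by rw [h0]; rfl)
  · intro g _ hg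
    rw [Finsupp.notMem_support_iff] at hg
    rw [hg]
    simp
  · refine Finset.sum_congr rfl fun g _ => ?_
    rw [toQ_coeff]
    simp

theorem act_submatrix {κ₁ κ₁' : Type} [Fintype κ₁] [Fintype κ₁'] (e : κ₁ ≃ κ) (e' : κ₁' ≃ κ')
    (A : Matrix κ κ' (MonoidAlgebra ℤ Γ)) (f : κ → Γ → ℂ) (j : κ₁') (h : Γ) :
    act (A.submatrix e e') (fun i => f (e i)) j h = act A f (e' j) h := by
  unfold act
  exact Equiv.sum_comp e fun i => (A i (e' j)).coeff.sum fun g c => (c : ℂ) * f i (h * g⁻¹)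

theorem adjM_submatrix {κ₁ κ₁' : Type} (e : κ₁ → κ) (e' : κ₁' → κ')
    (A : Matrix κ κ' (MonoidAlgebra ℤ Γ)) :
    A.transpose.submatrix e' e = (A.submatrix e e').transpose := rfl

/-- the vector with given coordinates -/
theorem exists_vec {r : ℕ} (f : Fin r → Γ → ℂ) (hf : Sq f) :
    ∃ v : L2Pow Γ r, ∀ i h, coord v i h = f i h := by
  have h2 : Memℓp (fun p : Fin r × Γ => f p.1 p.2) 2 := memℓp_gen hf
  exact ⟨(⟨_, h2⟩ : lp (fun _ : Fin r × Γ => ℂ) 2), fun _ _ => rfl⟩

theorem sq_comp {κ₁ Γ₁ : Type} [Fintype κ₁] [Group Γ₁] (f : κ → Γ → ℂ) (hf : Sq f)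
    (e : κ₁ × Γ₁ → κ × Γ) (he : Function.Injective e) :
    Sq (fun (i : κ₁) (g : Γ₁) => f (e (i, g)).1 (e (i, g)).2) := by
  exact (Summable.comp_injective hf he)

end act

section abs

variable {H : Type} [NormedAddCommGroup H] [InnerProductSpace ℂ H] [CompleteSpace H]

theorem four_ker (T₁ T₂ T₃ T₄ : H →L[ℂ] H) (v : H)
    (h : T₁.adjoint (T₁ v) + T₂.adjoint (T₂ v) + T₃.adjoint (T₃ v) + T₄.adjoint (T₄ v) = 0) :
    T₁ v = 0 ∧ T₂ v = 0 := by
  have h1 : ⟪v, T₁.adjoint (T₁ v) + T₂.adjoint (T₂ v) + T₃.adjoint (T₃ v) +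
      T₄.adjoint (T₄ v)⟫_ℂ = 0 := by
    rw [h, inner_zero_right]
  simp only [inner_add_right, ContinuousLinearMap.adjoint_inner_right,
    inner_self_eq_norm_sq_to_K] at h1
  have h2 : ‖T₁ v‖ ^ 2 + ‖T₂ v‖ ^ 2 + ‖T₃ v‖ ^ 2 + ‖T₄ v‖ ^ 2 = 0 := by
    have h2' : ((‖T₁ v‖ ^ 2 + ‖T₂ v‖ ^ 2 + ‖T₃ v‖ ^ 2 + ‖T₄ v‖ ^ 2 : ℝ) : ℂ) = 0 := by
      push_cast
      exact h1
    exact Complex.ofReal_eq_zero.mp h2'
  have h3 : ‖T₁ v‖ ^ 2 = 0 := by
    nlinarith [sq_nonneg ‖T₁ v‖, sq_nonneg ‖T₂ v‖, sq_nonneg ‖T₃ v‖, sq_nonneg ‖T₄ v‖]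
  have h4 : ‖T₂ v‖ ^ 2 = 0 := by
    nlinarith [sq_nonneg ‖T₁ v‖, sq_nonneg ‖T₂ v‖, sq_nonneg ‖T₃ v‖, sq_nonneg ‖T₄ v‖]
  exact ⟨norm_eq_zero.mp (pow_eq_zero_iff two_ne_zero |>.mp h3),
    norm_eq_zero.mp (pow_eq_zero_iff two_ne_zero |>.mp h4)⟩

theorem proj_nonneg (K : Submodule ℂ H) [K.HasOrthogonalProjection] (e : H) :
    (⟪e, K.starProjection e⟫_ℂ).re = ‖K.starProjection e‖ ^ 2 := by
  have h1 : ⟪e, K.starProjection e⟫_ℂ = ⟪K.starProjection e, K.starProjection e⟫_ℂ := by
    have h2 : K.starProjection (K.starProjection e) = K.starProjection e :=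
      Submodule.starProjection_eq_self_iff.2 (Submodule.starProjection_apply_mem _ _)
    conv_lhs => rw [← h2]
    rw [← Submodule.inner_starProjection_left_eq_right]
  rw [h1, inner_self_eq_norm_sq_to_K]
  norm_cast

theorem proj_zero (K : Submodule ℂ H) [K.HasOrthogonalProjection] (e : H)
    (h : (⟪e, K.starProjection e⟫_ℂ).re = 0) (v : H) (hv : v ∈ K) : ⟪e, v⟫_ℂ = 0 := by
  rw [proj_nonneg] at h
  have h1 : K.starProjection e = 0 := norm_eq_zero.mp (pow_eq_zero_iff two_ne_zero |>.mp h)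
  have h2 : K.starProjection v = v := Submodule.starProjection_eq_self_iff.2 hv
  rw [← h2, ← Submodule.inner_starProjection_left_eq_right, h1, inner_zero_left]

end abs

section inv

variable {Γ : Type} [Group Γ]

theorem coeff_inv (a : MonoidAlgebra ℤ Γ) (g : Γ) :
    (MonoidAlgebra.mapDomain (fun g : Γ => g⁻¹) a).coeff g = a.coeff g⁻¹ := by
  have := Finsupp.mapDomain_apply (f := fun g : Γ => g⁻¹) inv_injective a.coeff g⁻¹
  rw [inv_inv] at this
  exact this

theorem inv_inv' (a : MonoidAlgebra ℤ Γ) : MonoidAlgebra.mapDomain (fun g : Γ => g⁻¹)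
    (MonoidAlgebra.mapDomain (fun g : Γ => g⁻¹) a) = a := by
  apply MonoidAlgebra.coeff_injective
  ext g
  rw [coeff_inv, coeff_inv, inv_inv]

theorem adjM_adjM {κ κ' : Type} [Fintype κ] [Fintype κ'] (A : Matrix κ κ' (MonoidAlgebra ℤ Γ)) :
    adjM (adjM A) = A := by
  ext1 i j
  exact inv_inv' (A i j)

theorem adjM_add {κ κ' : Type} [Fintype κ] [Fintype κ'] (A B : Matrix κ κ' (MonoidAlgebra ℤ Γ)) :
    adjM (A + B) = adjM A + adjM B := by
  ext1 i j
  exact MonoidAlgebra.mapDomain_add _ _ _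

/-- injectivity of an operator from the vanishing of the dimension of its kernel -/
theorem inj_of_dimKer {r : ℕ} (A : Matrix (Fin r) (Fin r) (MonoidAlgebra ℤ Γ))
    (h : dimKer (rMul (A.map toQ)) = 0) (v : L2Pow Γ r) (hv : rMul (A.map toQ) v = 0) :
    v = 0 := by
  have h1 : ∀ (i : Fin r) (w : L2Pow Γ r), rMul (A.map toQ) w = 0 → coord w i 1 = 0 := by
    intro i w hw
    rw [← inner_unitVec]
    refine proj_zero (rMul (A.map toQ)).ker (unitVec i) ?_ w (LinearMap.mem_ker.2 hw)
    unfold dimKer at h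
    rw [Finset.sum_eq_zero_iff_of_nonneg] at h
    · exact h i (Finset.mem_univ i)
    · intro j _
      have := proj_nonneg (rMul (A.map toQ)).ker (unitVec j)
      exact (sq_nonneg _).trans this.ge
  apply coord_ext
  intro j g
  rw [coord_zero]
  obtain ⟨w, hw⟩ := exists_translate v g
  have h2 : rMul (A.map toQ) w = 0 := by
    apply coord_ext
    intro k h
    rw [coord_zero, rMul_apply]
    have := congrArg (fun x => coord x k (g * h)) hv
    simp only [coord_zero, rMul_apply] at this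
    rw [← this]
    simp only [hw, mul_assoc]
  have h3 := h1 j w h2
  rwa [hw, mul_one] at h3

end inv

section key

variable {Γ : Type} [Group Γ] {κ : Type} [Fintype κ] [DecidableEq κ]

theorem key (P Q : Matrix κ κ (MonoidAlgebra ℤ Γ)) (h1 : P * adjM Q + adjM Q * P = 0)
    (h2 : Q * adjM P + adjM P * Q = 0) (f : κ → Γ → ℂ) (hf : Sq f)
    (hD : ∀ j h, act (P + Q) f j h = 0) (hD' : ∀ j h, act (adjM (P + Q)) f j h = 0) :
    (∀ j h, act P f j h = 0) ∧ ∀ j h, act (adjM P) f j h = 0 := by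
  set e := Fintype.equivFin κ with he
  have hat : ∀ A : Matrix κ κ (MonoidAlgebra ℤ Γ), adjZ (A.submatrix e.symm e.symm) =
      (adjM A).submatrix e.symm e.symm := fun A => rfl
  obtain ⟨v, hv⟩ := exists_vec (fun i h => f (e.symm i) h)
    (sq_comp f hf (fun p : Fin (Fintype.card κ) × Γ => (e.symm p.1, p.2)) (by
      rintro ⟨a, b⟩ ⟨c, d⟩ h
      simpa using h))
  have hv' : coord v = fun i => f (e.symm i) := by
    funext i h
    exact hv i h
  have hop : ∀ (A : Matrix κ κ (MonoidAlgebra ℤ Γ)),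
      (rMul ((A.submatrix e.symm e.symm).map toQ) v = 0 ↔ ∀ j h, act A f j h = 0) := by
    intro A
    constructor
    · intro h0 j h
      have h3 := congrArg (fun x => coord x (e j) h) h0
      simp only [coord_zero] at h3
      rw [coord_rMul, hv', act_submatrix, Equiv.symm_apply_apply] at h3
      exact h3
    · intro h0
      apply coord_ext
      intro j h
      rw [coord_zero, coord_rMul, hv', act_submatrix]
      exact h0 _ _
  have hsq : ∀ A : Matrix κ κ (MonoidAlgebra ℤ Γ),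
      (rMul ((A.submatrix e.symm e.symm).map toQ)).adjoint
        (rMul ((A.submatrix e.symm e.symm).map toQ) v) =
      rMul (((A * adjM A).submatrix e.symm e.symm).map toQ) v := by
    intro A
    rw [← Matrix.submatrix_mul_equiv A (adjM A) e.symm e.symm e.symm, ← hat, toQ_mul, toQ_adjZ,
      rMul_mul, ← adjoint_rMul, comp_apply]
  have hadd : ∀ A B : Matrix κ κ (MonoidAlgebra ℤ Γ),
      rMul (((A + B).submatrix e.symm e.symm).map toQ) v =
      rMul ((A.submatrix e.symm e.symm).map toQ) v +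
        rMul ((B.submatrix e.symm e.symm).map toQ) v := by
    intro A B
    rw [Matrix.submatrix_add, Pi.add_apply, Pi.add_apply, toQ_add, rMul_add, add_apply]
  set D := P + Q with hDdef
  have hDv := (hop D).2 hD
  have hDv' := (hop (adjM D)).2 hD'
  have e1 : rMul (((D * adjM D).submatrix e.symm e.symm).map toQ) v = 0 := by
    rw [← hsq, hDv, map_zero]
  have e2 : rMul (((adjM D * D).submatrix e.symm e.symm).map toQ) v = 0 := by
    have := hsq (adjM D)
    rw [adjM_adjM] at this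
    rw [← this, hDv', map_zero]
  have hid : D * adjM D + adjM D * D =
      (P * adjM P + adjM P * P) + (Q * adjM Q + adjM Q * Q) := by
    have : D * adjM D + adjM D * D = (P * adjM P + adjM P * P) + (Q * adjM Q + adjM Q * Q) +
        (P * adjM Q + adjM Q * P) + (Q * adjM P + adjM P * Q) := by
      rw [hDdef, adjM_add]
      simp only [add_mul, mul_add]
      abel
    rw [this, h1, h2, add_zero, add_zero]
  have e3 : rMul ((((P * adjM P + adjM P * P) + (Q * adjM Q + adjM Q * Q)).submatrix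
      e.symm e.symm).map toQ) v = 0 := by
    rw [← hid, hadd, e1, e2, add_zero]
  rw [hadd, hadd, hadd] at e3
  have s1 := hsq P
  have s2 := hsq (adjM P)
  have s3 := hsq Q
  have s4 := hsq (adjM Q)
  rw [adjM_adjM] at s2 s4
  rw [← s1, ← s2, ← s3, ← s4] at e3
  have := four_ker (rMul ((P.submatrix e.symm e.symm).map toQ))
    (rMul (((adjM P).submatrix e.symm e.symm).map toQ))
    (rMul ((Q.submatrix e.symm e.symm).map toQ))
    (rMul (((adjM Q).submatrix e.symm e.symm).map toQ)) v (by rw [← e3]; abel)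
  exact ⟨(hop P).1 this.1, (hop (adjM P)).1 this.2⟩

end key

section kron

variable {R : Type} [Ring R] {κ₁ κ₂ : Type} [Fintype κ₁] [Fintype κ₂] [DecidableEq κ₁]
  [DecidableEq κ₂]

/-- `A ⊗ 1` -/
def k1 (A : Matrix κ₁ κ₁ R) : Matrix (κ₁ × κ₂) (κ₁ × κ₂) R :=
  Matrix.of fun x y => if x.2 = y.2 then A x.1 y.1 else 0

/-- `s ⊗ B` -/
def k2 (n : κ₁ → ℕ) (B : Matrix κ₂ κ₂ R) : Matrix (κ₁ × κ₂) (κ₁ × κ₂) R :=
  Matrix.of fun x y => if x.1 = y.1 then (-1) ^ n x.1 * B x.2 y.2 else 0

theorem k1_k2 (n : κ₁ → ℕ) (A : Matrix κ₁ κ₁ R) (B : Matrix κ₂ κ₂ R)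
    (h : ∀ a b c d, A a b * B c d = B c d * A a b)
    (hn : ∀ a b, A a b ≠ 0 → n a = n b + 1 ∨ n b = n a + 1) :
    k1 A * k2 n B + k2 n B * k1 A = 0 := by
  ext1 x y
  rw [Matrix.add_apply, Matrix.zero_apply, Matrix.mul_apply, Matrix.mul_apply,
    Finset.sum_eq_single (y.1, x.2), Finset.sum_eq_single (x.1, y.2)]
  · simp only [k1, k2, Matrix.of_apply, if_true]
    by_cases h0 : A x.1 y.1 = 0
    · rw [h0, zero_mul, mul_zero, add_zero]
    · have hc : ∀ m : ℕ, A x.1 y.1 * (-1) ^ m = (-1) ^ m * A x.1 y.1 := fun m =>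
        ((Commute.neg_one_right _).pow_right m).eq
      rw [← mul_assoc, hc, mul_assoc, h, mul_assoc]
      rcases hn _ _ h0 with h1 | h1
      · rw [h1, pow_succ]
        simp
      · rw [h1, pow_succ]
        simp
  · rintro ⟨a, b⟩ _ hab
    simp only [k1, k2, Matrix.of_apply]
    by_cases h1 : x.1 = a
    · by_cases h2 : b = y.2
      · exact absurd (by rw [h1, h2]) hab
      · rw [if_neg h2, mul_zero]
    · rw [if_neg h1, zero_mul]
  · exact fun h => absurd (Finset.mem_univ _) h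
  · rintro ⟨a, b⟩ _ hab
    simp only [k1, k2, Matrix.of_apply]
    by_cases h1 : x.2 = b
    · by_cases h2 : a = y.1
      · exact absurd (by rw [h1, h2]) hab
      · rw [if_neg h2, mul_zero]
    · rw [if_neg h1, zero_mul]
  · exact fun h => absurd (Finset.mem_univ _) h

end kron

section slice

variable {G H : Type} [Group G] [Group H]

theorem inl_inv (a : MonoidAlgebra ℤ G) : MonoidAlgebra.mapDomain (fun g : G × H => g⁻¹)
    (MonoidAlgebra.mapDomainRingHom ℤ (MonoidHom.inl G H) a) =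
    MonoidAlgebra.mapDomainRingHom ℤ (MonoidHom.inl G H)
      (MonoidAlgebra.mapDomain (fun g : G => g⁻¹) a) := by
  induction a using MonoidAlgebra.induction_linear with
  | zero => simp
  | add a b ha hb => rw [map_add, MonoidAlgebra.mapDomain_add, ha, hb, MonoidAlgebra.mapDomain_add,
      map_add]
  | single g c =>
    simp [MonoidAlgebra.mapDomain_single]

theorem inr_inv (a : MonoidAlgebra ℤ H) : MonoidAlgebra.mapDomain (fun g : G × H => g⁻¹)
    (MonoidAlgebra.mapDomainRingHom ℤ (MonoidHom.inr G H) a) =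
    MonoidAlgebra.mapDomainRingHom ℤ (MonoidHom.inr G H)
      (MonoidAlgebra.mapDomain (fun g : H => g⁻¹) a) := by
  induction a using MonoidAlgebra.induction_linear with
  | zero => simp
  | add a b ha hb => rw [map_add, MonoidAlgebra.mapDomain_add, ha, hb, MonoidAlgebra.mapDomain_add,
      map_add]
  | single g c =>
    simp [MonoidAlgebra.mapDomain_single]

theorem inl_inr (a : MonoidAlgebra ℤ G) (b : MonoidAlgebra ℤ H) :
    MonoidAlgebra.mapDomainRingHom ℤ (MonoidHom.inl G H) a *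
      MonoidAlgebra.mapDomainRingHom ℤ (MonoidHom.inr G H) b =
    MonoidAlgebra.mapDomainRingHom ℤ (MonoidHom.inr G H) b *
      MonoidAlgebra.mapDomainRingHom ℤ (MonoidHom.inl G H) a := by
  induction a using MonoidAlgebra.induction_linear with
  | zero => simp
  | add a a' ha hb => rw [map_add, add_mul, mul_add, ha, hb]
  | single g c =>
    induction b using MonoidAlgebra.induction_linear with
    | zero => simp
    | add a a' ha hb => rw [map_add, add_mul, mul_add, ha, hb]
    | single h d =>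
      simp [MonoidAlgebra.single_mul_single, mul_comm]

theorem sum_inl (a : MonoidAlgebra ℤ G) (F : G × H → ℂ) :
    ((MonoidAlgebra.mapDomainRingHom ℤ (MonoidHom.inl G H) a).coeff.sum fun g c => (c : ℂ) * F g) =
      a.coeff.sum fun g c => (c : ℂ) * F (g, 1) := by
  have h1 : (MonoidAlgebra.mapDomainRingHom ℤ (MonoidHom.inl G H) a).coeff =
      Finsupp.mapDomain (MonoidHom.inl G H) a.coeff := rfl
  rw [h1, Finsupp.sum_mapDomain_index (fun _ => by simp) (fun _ _ _ => by push_cast; ring)]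
  rfl

variable {κ₁ κ₂ : Type} [Fintype κ₁] [Fintype κ₂] [DecidableEq κ₁] [DecidableEq κ₂]

theorem act_k1 (A : Matrix κ₁ κ₁ (MonoidAlgebra ℤ G)) (f : κ₁ × κ₂ → G × H → ℂ) (i : κ₁) (j : κ₂)
    (g : G) (h : H) :
    act (k1 (κ₂ := κ₂) (A.map (MonoidAlgebra.mapDomainRingHom ℤ (MonoidHom.inl G H)))) f (i, j)
      (g, h) = act A (fun i g => f (i, j) (g, h)) i g := by
  unfold act
  rw [Fintype.sum_prod_type]
  refine Finset.sum_congr rfl fun a _ => ?_
  rw [Finset.sum_eq_single j]
  · simp only [k1, Matrix.of_apply, if_true, Matrix.map_apply]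
    rw [sum_inl (A a i) (fun x => f (a, j) ((g, h) * x⁻¹))]
    simp
  · intro b _ hb
    simp only [k1, Matrix.of_apply, if_neg hb]
    simp
  · exact fun h => absurd (Finset.mem_univ _) h

theorem adjM_k1 (A : Matrix κ₁ κ₁ (MonoidAlgebra ℤ G)) :
    adjM (k1 (κ₂ := κ₂) (A.map (MonoidAlgebra.mapDomainRingHom ℤ (MonoidHom.inl G H)))) =
      k1 ((adjM A).map (MonoidAlgebra.mapDomainRingHom ℤ (MonoidHom.inl G H))) := by
  ext1 x y
  simp only [adjM, k1, Matrix.map_apply, Matrix.transpose_apply, Matrix.of_apply]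
  by_cases h : x.2 = y.2
  · rw [if_pos h, if_pos h.symm, inl_inv]
  · rw [if_neg h, if_neg (Ne.symm h), MonoidAlgebra.mapDomain_zero]

theorem adjM_k2 (n : κ₁ → ℕ) (B : Matrix κ₂ κ₂ (MonoidAlgebra ℤ H)) :
    adjM (k2 n (B.map (MonoidAlgebra.mapDomainRingHom ℤ (MonoidHom.inr G H)))) =
      k2 n ((adjM B).map (MonoidAlgebra.mapDomainRingHom ℤ (MonoidHom.inr G H))) := by
  ext1 x y
  simp only [adjM, k2, Matrix.map_apply, Matrix.transpose_apply, Matrix.of_apply]
  by_cases h : x.1 = y.1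
  · rw [if_pos h, if_pos h.symm, h]
    rcases neg_one_pow_eq_or (MonoidAlgebra ℤ (G × H)) (n y.1) with h1 | h1
    · rw [h1, one_mul, one_mul, inr_inv]
    · rw [h1, neg_one_mul, neg_one_mul, ← inr_inv]
      have h2 := MonoidAlgebra.mapDomain_add (fun g : G × H => g⁻¹)
        (-(MonoidAlgebra.mapDomainRingHom ℤ (MonoidHom.inr G H) (B y.2 x.2)))
        (MonoidAlgebra.mapDomainRingHom ℤ (MonoidHom.inr G H) (B y.2 x.2))
      rw [neg_add_cancel, MonoidAlgebra.mapDomain_zero] at h2
      exact eq_neg_of_add_eq_zero_left h2.symm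
  · rw [if_neg h, if_neg (Ne.symm h), MonoidAlgebra.mapDomain_zero]

/-- total injectivity -/
def TI (C : GCx G) : Prop := ∀ f : C.ι → G → ℂ, Sq f → (∀ j h, act C.D f j h = 0) →
  (∀ j h, act (adjM C.D) f j h = 0) → ∀ i h, f i h = 0

theorem ti_prod (C : GCx G) (E : GCx H) (hC : TI C) : TI (C.prod E) := by
  intro f hf h1 h2
  change C.ι × E.ι → G × H → ℂ at f
  set P : Matrix (C.ι × E.ι) (C.ι × E.ι) (MonoidAlgebra ℤ (G × H)) :=
    k1 (C.D.map (MonoidAlgebra.mapDomainRingHom ℤ (MonoidHom.inl G H))) with hP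
  set Q : Matrix (C.ι × E.ι) (C.ι × E.ι) (MonoidAlgebra ℤ (G × H)) :=
    k2 C.deg (E.D.map (MonoidAlgebra.mapDomainRingHom ℤ (MonoidHom.inr G H))) with hQ
  have h1' : ∀ j h, act (P + Q) f j h = 0 := h1
  have h2' : ∀ j h, act (adjM (P + Q)) f j h = 0 := h2
  have hdeg : ∀ a b, (C.D.map (MonoidAlgebra.mapDomainRingHom ℤ (MonoidHom.inl G H))) a b ≠ 0 →
      C.deg a = C.deg b + 1 ∨ C.deg b = C.deg a + 1 := by
    intro a b h
    left
    refine C.D_deg a b fun h0 => h ?_
    rw [Matrix.map_apply, h0, map_zero]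
  have hdeg' : ∀ a b,
      ((adjM C.D).map (MonoidAlgebra.mapDomainRingHom ℤ (MonoidHom.inl G H))) a b ≠ 0 →
      C.deg a = C.deg b + 1 ∨ C.deg b = C.deg a + 1 := by
    intro a b h
    right
    refine C.D_deg b a fun h0 => h ?_
    rw [Matrix.map_apply]
    simp only [adjM, Matrix.map_apply, Matrix.transpose_apply]
    rw [h0, MonoidAlgebra.mapDomain_zero, map_zero]
  have hk := key P Q (by
      rw [hP, hQ, adjM_k2]
      exact k1_k2 C.deg _ _ (fun a b c d => by
        rw [Matrix.map_apply, Matrix.map_apply]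
        exact inl_inr _ _) hdeg) (by
      rw [hP, hQ, adjM_k1, add_comm]
      exact k1_k2 C.deg _ _ (fun a b c d => by
        rw [Matrix.map_apply, Matrix.map_apply]
        exact inl_inr _ _) hdeg') f hf h1' h2'
  rw [hP, adjM_k1] at hk
  rintro ⟨i, j⟩ ⟨g, h⟩
  refine hC (fun i g => f (i, j) (g, h)) ?_ (fun i' g' => ?_) (fun i' g' => ?_) i g
  · exact sq_comp f hf (fun p : C.ι × G => ((p.1, j), (p.2, h))) (by
      rintro ⟨a, b⟩ ⟨c, d⟩ hab
      simpa using hab)
  · rw [← act_k1]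
    exact hk.1 _ _
  · rw [← act_k1]
    exact hk.2 _ _

end slice

section free

variable {Γ : Type} [Group Γ] (C : GCx Γ)

/-- the numbering of the cells of dimension `n` -/
def en (n : ℕ) : Fin (C.toFree.rank n) ≃ {i : C.ι // C.deg i = n} :=
  (Fintype.equivFin {i : C.ι // C.deg i = n}).symm

theorem d_eq (n : ℕ) (a : Fin (C.toFree.rank (n + 1))) (b : Fin (C.toFree.rank n)) :
    C.toFree.d n a b = C.D (en C (n + 1) a).1 (en C n b).1 := rfl

theorem sum_en (n : ℕ) (F : C.ι → ℂ) (hF : ∀ i, C.deg i ≠ n → F i = 0) :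
    ∑ a : Fin (C.toFree.rank n), F (en C n a).1 = ∑ i, F i := by
  rw [Equiv.sum_comp (en C n) (fun k => F k.1)]
  exact sum_deg C.deg n F hF

theorem coord_l2d (n : ℕ) (f : C.ι → Γ → ℂ) (v : L2Pow Γ (C.toFree.rank (n + 1)))
    (hv : ∀ a h, coord v a h = f (en C (n + 1) a).1 h) (b : Fin (C.toFree.rank n)) (h : Γ) :
    coord (C.toFree.l2d n v) b h = act C.D f (en C n b).1 h := by
  have h1 : C.toFree.l2d n = rMul ((C.toFree.d n).map toQ) := rfl
  rw [h1, coord_rMul, act, act]
  rw [← sum_en C (n + 1) (fun i => (C.D i (en C n b).1).coeff.sum fun g c =>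
    (c : ℂ) * f i (h * g⁻¹))]
  · refine Finset.sum_congr rfl fun a _ => ?_
    rw [d_eq]
    simp only [hv]
  · intro i hi
    have h2 : C.D i (en C n b).1 = 0 := by
      by_contra h2
      have h3 := C.D_deg _ _ h2
      rw [(en C n b).2] at h3
      exact hi h3
    rw [h2]
    simp

theorem coord_l2d_adj (n : ℕ) (f : C.ι → Γ → ℂ) (v : L2Pow Γ (C.toFree.rank n))
    (hv : ∀ a h, coord v a h = f (en C n a).1 h) (b : Fin (C.toFree.rank (n + 1))) (h : Γ) :
    coord ((C.toFree.l2d n).adjoint v) b h = act (adjM C.D) f (en C (n + 1) b).1 h := by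
  have h1 : (C.toFree.l2d n).adjoint = rMul ((adjZ (C.toFree.d n)).map toQ) := by
    rw [toQ_adjZ, ← adjoint_rMul]
    rfl
  rw [h1, coord_rMul, act, act]
  rw [← sum_en C n (fun i => (adjM C.D i (en C (n + 1) b).1).coeff.sum fun g c =>
    (c : ℂ) * f i (h * g⁻¹))]
  · refine Finset.sum_congr rfl fun a _ => ?_
    simp only [hv]
    rfl
  · intro i hi
    have h2 : C.D (en C (n + 1) b).1 i = 0 := by
      by_contra h2
      have h3 := C.D_deg _ _ h2
      rw [(en C (n + 1) b).2] at h3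
      exact hi (by omega)
    have h3 : adjM C.D i (en C (n + 1) b).1 = 0 := by
      simp only [adjM, Matrix.map_apply, Matrix.transpose_apply]
      rw [h2, MonoidAlgebra.mapDomain_zero]
    rw [h3]
    simp

theorem ti_of (h : C.toFree.DetL2Acyclic) : TI C := by
  intro f hf h1 h2 i g
  obtain ⟨n, hn⟩ : ∃ n, C.deg i = n := ⟨_, rfl⟩
  obtain ⟨v, hv⟩ := exists_vec (fun a h => f (en C n a).1 h)
    (sq_comp f hf (fun p : Fin (C.toFree.rank n) × Γ => ((en C n p.1).1, p.2)) (by
      rintro ⟨a, b⟩ ⟨c, d⟩ hab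
      simp only [Prod.mk.injEq] at hab ⊢
      exact ⟨(en C n).injective (Subtype.ext hab.1), hab.2⟩))
  have hadj : (C.toFree.l2d n).adjoint v = 0 := by
    apply coord_ext
    intro j h
    rw [coord_zero, coord_l2d_adj C n f v hv]
    exact h2 _ _
  have hlap : C.toFree.laplacian n v = 0 := by
    cases n with
    | zero =>
      show (C.toFree.l2d 0 ∘L (C.toFree.l2d 0).adjoint) v = 0
      rw [comp_apply, hadj, map_zero]
    | succ n =>
      have hd : C.toFree.l2d n v = 0 := by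
        apply coord_ext
        intro j h
        rw [coord_zero, coord_l2d C n f v hv]
        exact h1 _ _
      show (C.toFree.l2d (n + 1) ∘L (C.toFree.l2d (n + 1)).adjoint +
        (C.toFree.l2d n).adjoint ∘L C.toFree.l2d n) v = 0
      rw [add_apply, comp_apply, comp_apply, hadj, hd, map_zero, map_zero, add_zero]
  have hv0 : v = 0 := by
    have h3 := (h n).1
    unfold FreeCx.l2betti at h3
    rw [FreeCx.laplacian_eq] at h3 hlap
    exact inj_of_dimKer _ h3 v hlap
  have h4 := hv ((en C n).symm ⟨i, hn⟩) g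
  rw [hv0, coord_zero] at h4
  simpa using h4.symm

theorem inj_of_ti (h : TI C) (n : ℕ) (v : L2Pow Γ (C.toFree.rank n))
    (hv : C.toFree.laplacian n v = 0) : v = 0 := by
  classical
  set f : C.ι → Γ → ℂ := fun i g =>
    if hi : C.deg i = n then coord v ((en C n).symm ⟨i, hi⟩) g else 0 with hf
  have hfv : ∀ a g, coord v a g = f (en C n a).1 g := by
    intro a g
    simp only [hf]
    rw [dif_pos (en C n a).2]
    simp
  have hf0 : ∀ i, C.deg i ≠ n → ∀ g, f i g = 0 := by
    intro i hi g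
    simp only [hf]
    rw [dif_neg hi]
  have hSq : Sq f := by
    have hinj : Function.Injective
        (fun p : Fin (C.toFree.rank n) × Γ => (((en C n p.1).1, p.2) : C.ι × Γ)) := by
      rintro ⟨a, b⟩ ⟨c, d⟩ hab
      simp only [Prod.mk.injEq] at hab ⊢
      exact ⟨(en C n).injective (Subtype.ext hab.1), hab.2⟩
    refine (hinj.summable_iff ?_).1 ?_
    · rintro ⟨i, g⟩ hig
      have hi : C.deg i ≠ n := by
        intro hi
        exact hig ⟨((en C n).symm ⟨i, hi⟩, g), by simp⟩
      simp only [hf0 i hi]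
      simp
    · refine (coord_summable v).congr fun p => ?_
      rw [hfv]
      rfl
  have hker : (C.toFree.l2d n).adjoint v = 0 ∧ ∀ m (hm : n = m + 1), ∀ j g, C.deg j = m →
      act C.D f j g = 0 := by
    cases n with
    | zero =>
      refine ⟨lap_ker_zero (C.toFree.l2d 0) v hv, fun m hm => ?_⟩
      omega
    | succ n =>
      have h1 := lap_ker (C.toFree.l2d n) (C.toFree.l2d (n + 1)) v hv
      refine ⟨h1.2, fun m hm j g hj => ?_⟩
      obtain rfl : n = m := by omega
      have h2 := coord_l2d C n f v hfv ((en C n).symm ⟨j, hj⟩) g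
      rw [h1.1, coord_zero, Equiv.apply_symm_apply] at h2
      exact h2.symm
  have hf1 : ∀ i g, f i g = 0 := by
    refine h f hSq ?_ ?_
    · intro j g
      by_cases hj : C.deg j + 1 = n
      · exact hker.2 (C.deg j) hj.symm j g rfl
      · unfold act
        refine Finset.sum_eq_zero fun i _ => ?_
        by_cases hi : C.deg i = n
        · have h2 : C.D i j = 0 := by
            by_contra h2
            exact hj (by rw [← C.D_deg _ _ h2, hi])
          rw [h2]
          simp
        · simp only [hf0 i hi]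
          simp
    · intro j g
      by_cases hj : C.deg j = n + 1
      · have h2 := coord_l2d_adj C n f v hfv ((en C (n + 1)).symm ⟨j, hj⟩) g
        rw [hker.1, coord_zero, Equiv.apply_symm_apply] at h2
        exact h2.symm
      · unfold act
        refine Finset.sum_eq_zero fun i _ => ?_
        by_cases hi : C.deg i = n
        · have h2 : C.D j i = 0 := by
            by_contra h2
            exact hj (by rw [C.D_deg _ _ h2, hi])
          have h3 : adjM C.D i j = 0 := by
            simp only [adjM, Matrix.map_apply, Matrix.transpose_apply]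
            rw [h2, MonoidAlgebra.mapDomain_zero]
          rw [h3]
          simp
        · simp only [hf0 i hi]
          simp
  apply coord_ext
  intro a g
  rw [coord_zero, hfv, hf1]

/-- det-`L²`-acyclicity over a residually finite group. -/
theorem acyclic_of_ti (N : ℕ → Subgroup Γ) [∀ i, (N i).Normal] [∀ i, Finite (Γ ⧸ N i)]
    (hanti : Antitone N) (hinf : ⨅ i, N i = ⊥) (h : TI C) : C.toFree.DetL2Acyclic := by
  intro n
  constructor
  · exact FreeCx.dimKer_of_inj _ (inj_of_ti C h n)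
  · by_cases hn : C.toFree.rank n = 0
    · exact fkDet_pos_of_eq_zero hn _
    · have : NeZero (C.toFree.rank n) := ⟨hn⟩
      have hinj := inj_of_ti C h n
      rw [C.toFree.laplacian_eq] at hinj ⊢
      exact fkDet_pos N hanti hinf _ hinj

end free

end Pool.Agent.N572.P5A

namespace Pool.Agent.N496.LT

open Pool.Agent.N572.P5A

/-- P5A (helper572) -/
theorem p5A : ∀ (G H : Type) [Group G] [Group H] (C : GCx G) (E : GCx H), ResFin G → ResFin H →
    C.toFree.DetL2Acyclic → (C.prod E).toFree.DetL2Acyclic := by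
  rintro G H _ _ C E ⟨N, hN, hNf, hNa, hNi⟩ ⟨M, hM, hMf, hMa, hMi⟩ hC
  have h1 : ∀ i, ((N i).prod (M i)).Normal := fun i => inferInstance
  have h2 : ∀ i, Finite ((G × H) ⧸ ((N i).prod (M i))) := fun i => by
    have := hNf i
    have := hMf i
    have : ((N i).prod (M i)).FiniteIndex := ⟨by
      rw [Subgroup.index_prod]
      exact mul_ne_zero (hNf i).index_ne_zero (hMf i).index_ne_zero⟩
    exact Subgroup.finite_quotient_of_finiteIndex
  refine acyclic_of_ti (C.prod E) (fun i => (N i).prod (M i)) ?_ ?_ (ti_prod C E (ti_of C hC))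
  · intro i j hij
    exact Subgroup.prod_mono (hNa hij) (hMa hij)
  · rw [eq_bot_iff]
    rintro ⟨g, h⟩ hgh
    rw [Subgroup.mem_iInf] at hgh
    have hg : g ∈ ⨅ i, N i := Subgroup.mem_iInf.2 fun i => (Subgroup.mem_prod.1 (hgh i)).1
    have hh : h ∈ ⨅ i, M i := Subgroup.mem_iInf.2 fun i => (Subgroup.mem_prod.1 (hgh i)).2
    rw [hNi, Subgroup.mem_bot] at hg
    rw [hMi, Subgroup.mem_bot] at hh
    rw [hg, hh]
    exact Subgroup.one_mem _

end Pool.Agent.N496.LT
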