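import Pool.Agent.N496.LT.Defs
import Pool.Agent.N300.LT.Ana
import Pool.Agent.N300.LT.Prod

/-!
# The `L²`-torsion of a product of two acyclic complexes vanishes
-/

set_option autoImplicit false

open scoped InnerProductSpace

noncomputable section

namespace Pool.Agent.N496.LT

open Pool.Agent.N300.LT Pool.Agent.TH630.Tor Pool.Agent.Helper993.FK Pool.Agent.Helper993.Delta

namespace GCx

variable {G H : Type} [Group G] [Group H] (C : GCx G)

/-- the cell of a basis element -/
def cell (n : ℕ) (a : Fin (C.toFree.rank n)) : C.ι := ((Fintype.equivFin {i : C.ι // C.deg i = n}).symm a).1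

theorem deg_cell (n : ℕ) (a : Fin (C.toFree.rank n)) : C.deg (C.cell n a) = n :=
  ((Fintype.equivFin {i : C.ι // C.deg i = n}).symm a).2

theorem sum_cell (n : ℕ) {M : Type} [AddCommMonoid M] (f : C.ι → M) (h : ∀ k, C.deg k ≠ n → f k = 0) :
    ∑ a : Fin (C.toFree.rank n), f (C.cell n a) = ∑ i, f i := by
  rw [← sum_deg C.deg n f h]
  exact (Fintype.equivFin {i : C.ι // C.deg i = n}).symm.sum_comp (fun k => f k.1)

theorem adjZ_mul_apply (n : ℕ) (a b : Fin (C.toFree.rank n)) :
    (adjZ (C.toFree.d n) * C.toFree.d n) a b = (adj C.D * C.D) (C.cell n a) (C.cell n b) := by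
  rw [Matrix.mul_apply, Matrix.mul_apply]
  refine Eq.trans ?_ (C.sum_cell (n + 1) (fun k => adj C.D (C.cell n a) k * C.D k (C.cell n b)) ?_)
  · rfl
  · intro k hk
    by_cases h0 : C.D k (C.cell n b) = 0
    · rw [h0, mul_zero]
    · exfalso
      apply hk
      rw [C.D_deg _ _ h0, C.deg_cell]

theorem mul_adjZ_apply (n : ℕ) (a b : Fin (C.toFree.rank (n + 1))) :
    (C.toFree.d n * adjZ (C.toFree.d n)) a b = (C.D * adj C.D) (C.cell (n + 1) a) (C.cell (n + 1) b) := by
  rw [Matrix.mul_apply, Matrix.mul_apply]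
  refine Eq.trans ?_ (C.sum_cell n (fun k => C.D (C.cell (n + 1) a) k * adj C.D k (C.cell (n + 1) b)) ?_)
  · rfl
  · intro k hk
    by_cases h0 : C.D (C.cell (n + 1) a) k = 0
    · rw [h0, zero_mul]
    · exfalso
      apply hk
      have := C.D_deg _ _ h0
      rw [C.deg_cell] at this
      omega

theorem lapM_apply (n : ℕ) (a b : Fin (C.toFree.rank n)) :
    C.toFree.lapM n a b = lap C.D (C.cell n a) (C.cell n b) := by
  cases n with
  | zero =>
    have h1 : (C.D * adj C.D) (C.cell 0 a) (C.cell 0 b) = 0 := by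
      rw [Matrix.mul_apply]
      apply Finset.sum_eq_zero
      intro k _
      by_cases h0 : C.D (C.cell 0 a) k = 0
      · rw [h0, zero_mul]
      · exfalso
        have := C.D_deg _ _ h0
        rw [C.deg_cell] at this
        omega
    unfold lap
    rw [Matrix.add_apply, h1, zero_add, ← C.adjZ_mul_apply 0]
    rfl
  | succ n =>
    unfold lap
    rw [Matrix.add_apply, ← C.adjZ_mul_apply (n + 1), ← C.mul_adjZ_apply n]
    exact add_comm ((adjZ (C.toFree.d (n + 1)) * C.toFree.d (n + 1)) a b)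
      ((C.toFree.d n * adjZ (C.toFree.d n)) a b)

theorem lap_deg (i j : C.ι) (h : lap C.D i j ≠ 0) : C.deg i = C.deg j := by
  by_contra hne
  apply h
  unfold lap
  rw [Matrix.add_apply, Matrix.mul_apply, Matrix.mul_apply]
  have h1 : ∀ k ∈ Finset.univ, C.D i k * adj C.D k j = 0 := by
    intro k _
    by_cases h0 : C.D i k = 0
    · rw [h0, zero_mul]
    · by_cases h2 : C.D j k = 0
      · have : adj C.D k j = 0 := by
          change inv1 (C.D j k) = 0
          rw [h2, inv1_zero]
        rw [this, mul_zero]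
      · exact absurd ((C.D_deg _ _ h0).trans (C.D_deg _ _ h2).symm) hne
  have h3 : ∀ k ∈ Finset.univ, adj C.D i k * C.D k j = 0 := by
    intro k _
    by_cases h0 : C.D k j = 0
    · rw [h0, mul_zero]
    · by_cases h2 : C.D k i = 0
      · have : adj C.D i k = 0 := by
          change inv1 (C.D k i) = 0
          rw [h2, inv1_zero]
        rw [this, zero_mul]
      · have h4 := C.D_deg _ _ h0
        have h5 := C.D_deg _ _ h2
        exact absurd (by omega) hne
  rw [Finset.sum_eq_zero h1, Finset.sum_eq_zero h3, add_zero]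

theorem lapM_pow_apply (n k : ℕ) (a b : Fin (C.toFree.rank n)) :
    (C.toFree.lapM n ^ k) a b = (lap C.D ^ k) (C.cell n a) (C.cell n b) := by
  induction k generalizing a b with
  | zero =>
    rw [pow_zero, pow_zero]
    by_cases h : a = b
    · subst h
      rw [Matrix.one_apply_eq, Matrix.one_apply_eq]
    · rw [Matrix.one_apply_ne h, Matrix.one_apply_ne]
      intro h1
      apply h
      have := Subtype.ext h1
      exact (Fintype.equivFin {i : C.ι // C.deg i = n}).symm.injective this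
  | succ k ih =>
    rw [pow_succ, pow_succ, Matrix.mul_apply, Matrix.mul_apply]
    refine Eq.trans ?_ (C.sum_cell n (fun l => (lap C.D ^ k) (C.cell n a) l * lap C.D l (C.cell n b)) ?_)
    · exact Finset.sum_congr rfl fun l _ => by rw [ih, C.lapM_apply]
    · intro l hl
      by_cases h0 : lap C.D l (C.cell n b) = 0
      · rw [h0, mul_zero]
      · exfalso
        apply hl
        rw [C.lap_deg _ _ h0, C.deg_cell]

theorem toQ_pow {r : ℕ} (A : Matrix (Fin r) (Fin r) (MonoidAlgebra ℤ G)) (k : ℕ) :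
    (A.map toQ) ^ k = (A ^ k).map toQ := by
  have : (toQ : MonoidAlgebra ℤ G → MonoidAlgebra ℚ G)
    = MonoidAlgebra.mapRingHom G (Int.castRingHom ℚ) := rfl
  rw [this]
  exact (Matrix.map_pow A (MonoidAlgebra.mapRingHom G (Int.castRingHom ℚ)) k).symm

theorem trc_lapM (n k : ℕ) : trc ((C.toFree.lapM n).map toQ ^ k)
    = ((∑ i, if C.deg i = n then ((lap C.D ^ k) i i).coeff 1 else 0 : ℤ) : ℝ) := by
  have h1 := C.sum_cell n (fun i => if C.deg i = n then ((lap C.D ^ k) i i).coeff 1 else (0 : ℤ))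
    (fun i hi => if_neg hi)
  rw [← h1, toQ_pow]
  unfold trc
  push_cast
  apply Finset.sum_congr rfl
  intro a _
  rw [Matrix.map_apply, toQ_coeff, C.lapM_pow_apply, if_pos (C.deg_cell n a)]
  push_cast
  rfl

theorem moments (c : ℕ → ℤ) (k : ℕ) : ∑ n ∈ Finset.range (C.toFree.dim + 1),
    (c n : ℝ) * trc ((C.toFree.lapM n).map toQ ^ k) = ((tw (fun i => c (C.deg i)) (lap C.D ^ k) : ℤ) : ℝ) := by
  simp only [trc_lapM]
  have key : ∑ n ∈ Finset.range (C.toFree.dim + 1),
      c n * ∑ i, (if C.deg i = n then ((lap C.D ^ k) i i).coeff 1 else 0) = tw (fun i => c (C.deg i)) (lap C.D ^ k) := by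
    unfold tw
    simp only [Finset.mul_sum, mul_ite, mul_zero]
    rw [Finset.sum_comm]
    apply Finset.sum_congr rfl
    intro i _
    rw [Finset.sum_ite_eq, if_pos]
    rw [Finset.mem_range]
    exact Nat.lt_succ_of_le (Finset.le_sup (f := C.deg) (Finset.mem_univ i))
  exact_mod_cast key

theorem adjZ_lapM (n : ℕ) : adjZ (C.toFree.lapM n) = C.toFree.lapM n := by
  ext1 a b
  have h1 : adj (lap C.D) = lap C.D := by
    unfold lap
    rw [adj_add, adj_mul, adj_mul, adj_adj]
  change inv1 (C.toFree.lapM n b a) = _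
  rw [C.lapM_apply, C.lapM_apply]
  exact congrFun (congrFun h1 (C.cell n a)) (C.cell n b)

/-- the square of the Laplacian -/
def sqM (n : ℕ) : Matrix (Fin (C.toFree.rank n)) (Fin (C.toFree.rank n)) (MonoidAlgebra ℚ G) :=
  (C.toFree.lapM n).map toQ ^ 2

theorem sqM_eq (n : ℕ) : C.sqM n = (C.toFree.lapM n).map toQ * adjQ ((C.toFree.lapM n).map toQ) := by
  unfold sqM
  rw [← toQ_adjZ, C.adjZ_lapM, pow_two]

theorem sqM_nonneg (n : ℕ) : 0 ≤ rMul (C.sqM n) := by
  rw [C.sqM_eq]
  exact rMul_self_nonneg _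

theorem sqM_moments (c : ℕ → ℤ) (k : ℕ) : ∑ n ∈ Finset.range (C.toFree.dim + 1),
    (c n : ℝ) * trc (C.sqM n ^ k) = ((tw (fun i => c (C.deg i)) (lap C.D ^ (2 * k)) : ℤ) : ℝ) := by
  rw [← C.moments c (2 * k)]
  apply Finset.sum_congr rfl
  intro n _
  unfold sqM
  rw [← pow_mul]

theorem sum_rank (c : ℕ → ℤ) : ∑ n ∈ Finset.range (C.toFree.dim + 1), (c n : ℝ) * C.toFree.rank n
    = ((∑ i, c (C.deg i) : ℤ) : ℝ) := by
  have h := C.moments c 0
  simp only [pow_zero, trc_one] at h
  rw [h]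
  congr 1
  unfold tw
  simp

theorem tw_pow_pos (k : ℕ) (hk : 0 < k) : tw (fun i => (-1) ^ C.deg i) (lap C.D ^ k) = 0 := by
  obtain ⟨m, rfl⟩ := Nat.exists_eq_succ_of_ne_zero hk.ne'
  exact tw_lap_pow C.deg C.D C.D_deg C.D_sq m

/-- The Euler characteristic of an acyclic complex is zero. -/
theorem euler (h : C.toFree.DetL2Acyclic) : ∑ i, (-1 : ℤ) ^ C.deg i = 0 := by
  have h1 := euler_zero (Finset.range (C.toFree.dim + 1)) (fun n => (((-1) ^ n : ℤ) : ℝ)) C.toFree.rank C.sqM
    C.sqM_nonneg ((∑ i, (-1 : ℤ) ^ C.deg i : ℤ) : ℝ) (C.sum_rank fun n => (-1) ^ n)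
    (fun k hk => by
      rw [C.sqM_moments (fun n => (-1) ^ n) k, C.tw_pow_pos (2 * k) (by omega), Int.cast_zero])
    (fun n _ => by
      have h2 := inj_of_dimKer ((C.toFree.lapM n).map toQ) (by
        rw [← C.toFree.laplacian_eq n]
        exact (h n).1)
      intro v hv
      unfold sqM at hv
      rw [pow_two, rMul_mul] at hv
      exact h2 v (h2 _ hv))
  exact_mod_cast h1

theorem prod_D_apply (E : GCx H) (x y : C.ι × E.ι) : (C.prod E).D x y = dP C.deg C.D E.D x y := by
  unfold dP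
  rw [Matrix.add_apply, aM_mul_bM_apply]
  have h1 : il G H ((sgm C.deg : Matrix C.ι C.ι (MonoidAlgebra ℤ G)) x.1 y.1)
      = if x.1 = y.1 then (-1) ^ C.deg x.1 else 0 := by
    unfold sgm
    rw [Matrix.diagonal_apply]
    split_ifs
    · rw [map_intCast]
      push_cast
      rfl
    · exact map_zero _
  rw [h1, ite_mul, zero_mul]
  rfl

theorem prod_D (E : GCx H) : (C.prod E).D = dP C.deg C.D E.D := by
  ext1 x y
  exact C.prod_D_apply E x y

end GCx

/-- The `L²`-torsion of a product of two acyclic complexes vanishes. -/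
theorem p5B (G H : Type) [Group G] [Group H] (C : GCx G) (E : GCx H) (hC : C.toFree.DetL2Acyclic)
    (hE : E.toFree.DetL2Acyclic) (hP : (C.prod E).toFree.DetL2Acyclic) : (C.prod E).toFree.l2torsion = 0 := by
  have z : ∀ k, tw (fun x : (C.prod E).ι => (-1) ^ ((C.prod E).deg x) * (((C.prod E).deg x : ℕ) : ℤ))
      (lap (C.prod E).D ^ k) = 0 := by
    intro k
    rw [C.prod_D E]
    exact tw_prod C.deg E.deg C.D E.D C.D_deg C.D_sq E.D_deg E.D_sq (C.euler hC) (E.euler hE) k
  have h1 := sum_log (Finset.range ((C.prod E).toFree.dim + 1)) (fun n => (((-1) ^ n * (n : ℤ) : ℤ) : ℝ))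
    (C.prod E).toFree.rank (C.prod E).sqM (C.prod E).sqM_nonneg
    ((∑ i, (-1 : ℤ) ^ (C.prod E).deg i * ((C.prod E).deg i : ℤ) : ℤ) : ℝ)
    ((C.prod E).sum_rank fun n => (-1) ^ n * (n : ℤ))
    (fun k _ => by rw [(C.prod E).sqM_moments (fun n => (-1) ^ n * (n : ℤ)) k, z, Int.cast_zero])
    (by
      have h0 := z 0
      rw [pow_zero] at h0
      unfold tw at h0
      rw [← Int.cast_zero]
      congr 1
      rw [← h0]
      apply Finset.sum_congr rfl
      intro i _
      rw [Matrix.one_apply_eq]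
      simp)
    (C.prod E).toFree.laplacian
    (fun n => by
      rw [(C.prod E).toFree.laplacian_eq n, adjoint_comp_rMul, ← (C.prod E).sqM_eq])
    (fun n _ => (hP n).2)
  unfold FreeCx.l2torsion
  have h2 : ∑ n ∈ Finset.range ((C.prod E).toFree.dim + 1),
      (-1) ^ n * (n : ℝ) * Real.log (fkDet ((C.prod E).toFree.laplacian n)) = 0 := by
    rw [← h1]
    apply Finset.sum_congr rfl
    intro n _
    push_cast
    rfl
  rw [h2, mul_zero]

end Pool.Agent.N496.LT
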