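import Pool.Agent.N496.LT.Main
import Pool.Agent.N496.LT.P1
import Pool.Agent.N496.LT.P2
import Pool.Agent.N496.LT.P3A
import Pool.Agent.N496.LT.P3ST
import Pool.Agent.N496.LT.P4A
import Pool.Agent.N496.LT.P4B
import Pool.Agent.N496.LT.P4R
import Pool.Agent.N496.LT.P5A
import Pool.Agent.N496.LT.P5B

/-!
# Project LT: the main theorems
-/

set_option autoImplicit false

namespace Pool.Agent.N496.LT

theorem main3' : Main3 := main3 p1 p2 p3A p3T p4B p4R (p4A p4R) p5A p5B

theorem main2' : Main2 := main2 p1 p2 p3A p3S p4B p4R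

end Pool.Agent.N496.LT
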