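import Pool.Agent.N496.LT.Stm2

/-!
# Project LT, part 2: removing one monochromatic edge by edge subdivisions (helper400)
-/

set_option autoImplicit false

namespace Pool.Agent.N496.LT

namespace C1x

theorem subN_trans {n n₁ n₂ : ℕ} {G G₁ G₂ : SimpleGraph ℕ} (h : SubN n G n₁ G₁)
    (h' : SubN n₁ G₁ n₂ G₂) : SubN n G n₂ G₂ := by
  induction h' with
  | refl => exact h
  | step k H s t hst _ ih => exact SubN.step k H s t hst ih

theorem bd_sdN {n : ℕ} {G : SimpleGraph ℕ} {a b : ℕ} (hB : Bd n G) (hab : G.Adj a b) :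
    Bd (n + 1) (sdN G n a b) := by
  intro x y h
  have ha := hB a b hab
  have hb := hB b a hab.symm
  rcases h with ⟨-, -, h, -⟩ | ⟨h, -, -⟩ | ⟨-, -, h⟩
  · have := hB x y h
    omega
  · omega
  · rcases h with h | h | ⟨h, -⟩
    · omega
    · omega
    · have := hB x a h.symm
      omega

/-- adjacency of old vertices in the subdivided graph -/
theorem adj_old {n : ℕ} {G : SimpleGraph ℕ} {a b x y : ℕ} (hx : x ≠ n) (hy : y ≠ n) :
    (sdN G n a b).Adj x y ↔ G.Adj x y ∧ s(x, y) ≠ s(a, b) := by
  constructor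
  · rintro (⟨-, -, h1, h2⟩ | ⟨h, -⟩ | ⟨h, -⟩)
    · exact ⟨h1, h2⟩
    · exact absurd h hx
    · exact absurd h hy
  · rintro ⟨h1, h2⟩
    exact Or.inl ⟨hx, hy, h1, h2⟩

/-- adjacency with the new vertex -/
theorem adj_new {n : ℕ} {G : SimpleGraph ℕ} {a b x : ℕ} (hx : x ≠ n) :
    (sdN G n a b).Adj n x ↔ (x = a ∨ x = b ∨ (G.Adj a x ∧ G.Adj b x)) := by
  constructor
  · rintro (⟨h, -⟩ | ⟨-, -, h⟩ | ⟨h, -⟩)
    · exact absurd rfl h
    · exact h
    · exact absurd h hx
  · intro h
    exact Or.inr (Or.inl ⟨rfl, hx, h⟩)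

/-- the statement for one value of `m` -/
def St (m : ℕ) : Prop := ∀ (r n : ℕ) (G : SimpleGraph ℕ) (κ : ℕ → ℕ) (a b : ℕ), Bd n G →
    G.Adj a b → κ a < r → κ b < r →
    (∀ Q : Finset ℕ, G.IsClique (Q : Set ℕ) → (∀ x ∈ Q, G.Adj a x ∧ G.Adj b x ∧ r ≤ κ x) → Q.card ≤ m) →
    (∀ x y, G.Adj a x → G.Adj b x → G.Adj a y → G.Adj b y → r ≤ κ x → κ x = κ y → ¬ G.Adj x y) →
    ∃ (n' : ℕ) (G' : SimpleGraph ℕ) (κ' : ℕ → ℕ), n < n' ∧ SubN n G n' G' ∧ Bd n' G' ∧
      (∀ x, x < n → κ' x = κ x) ∧ (∀ x, n ≤ x → x < n' → r ≤ κ' x ∧ κ' x ≤ r + m) ∧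
      (∀ x y, x < n → y < n → (G'.Adj x y ↔ G.Adj x y ∧ s(x, y) ≠ s(a, b))) ∧
      (∀ x y, x < n → n ≤ y → G'.Adj x y → x = a ∨ x = b ∨ (G.Adj a x ∧ G.Adj b x)) ∧
      (∀ x y, n ≤ y → G'.Adj x y → κ' x ≠ κ' y)

theorem st_step (m : ℕ) (ih : ∀ m', m = m' + 1 → St m') : St m := by
  classical
  intro r n G κ a b hB hab hκa hκb hQ hmono
  have han := hB a b hab
  have hbn := hB b a hab.symm
  have hB' : ∀ x y, G.Adj x y → y < n := fun x y h => hB y x h.symm
  set G1 := sdN G n a b with hG1
  set κ1 : ℕ → ℕ := Function.update κ n r with hκ1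
  have hκn : κ1 n = r := Function.update_self ..
  have hκo : ∀ x, x ≠ n → κ1 x = κ x := fun x hx => Function.update_of_ne hx ..
  set W : Finset ℕ := (Finset.range n).filter (fun w => G.Adj a w ∧ G.Adj b w ∧ κ w = r) with hW
  have hWm : ∀ w, w ∈ W ↔ G.Adj a w ∧ G.Adj b w ∧ κ w = r := by
    intro w
    rw [hW, Finset.mem_filter, Finset.mem_range]
    exact ⟨fun h => h.2, fun h => ⟨hB' a w h.1, h⟩⟩
  have hWn : ∀ w ∈ W, w < n := fun w hw => hB' a w ((hWm w).1 hw).1
  have hB1 : Bd (n + 1) G1 := bd_sdN hB hab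
  -- the inner induction
  have inner : ∀ W' : Finset ℕ, W' ⊆ W → ∃ (n2 : ℕ) (G2 : SimpleGraph ℕ) (κ2 : ℕ → ℕ),
      n + 1 ≤ n2 ∧ SubN n G n2 G2 ∧ Bd n2 G2 ∧ (∀ x, x < n + 1 → κ2 x = κ1 x) ∧
      (∀ x, n + 1 ≤ x → x < n2 → r + 1 ≤ κ2 x ∧ κ2 x ≤ r + m) ∧
      (∀ x y, x < n + 1 → y < n + 1 → (G2.Adj x y ↔ G1.Adj x y ∧ ∀ w ∈ W', s(x, y) ≠ s(n, w))) ∧
      (∀ x y, x < n + 1 → n + 1 ≤ y → G2.Adj x y → x = n ∨ x = a ∨ x = b ∨ x ∈ W' ∨
        (G.Adj a x ∧ G.Adj b x ∧ ∃ w ∈ W', G.Adj w x)) ∧
      (∀ x y, n + 1 ≤ y → G2.Adj x y → κ2 x ≠ κ2 y) := by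
    intro W'
    induction W' using Finset.induction_on with
    | empty =>
      intro _
      have hno : ∀ x y, n + 1 ≤ y → ¬ G1.Adj x y := fun x y hy h => by
        have := hB1 y x h.symm
        omega
      refine ⟨n + 1, G1, κ1, le_rfl, SubN.step n G a b hab SubN.refl, hB1, fun _ _ => rfl,
        fun x h1 h2 => by omega, fun x y _ _ => ?_, fun x y _ h2 h3 => absurd h3 (hno x y h2),
        fun x y h2 h3 => absurd h3 (hno x y h2)⟩
      simp
    | insert w2 W' hw2' ihW =>
      intro hsub
      have hw2 : w2 ∈ W := hsub (Finset.mem_insert_self w2 W')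
      have hW'W : W' ⊆ W := fun w hw => hsub (Finset.mem_insert_of_mem hw)
      obtain ⟨n2, G2, κ2, hn2, hS2, hB2, hk2, hc2, hi, hii, hiii⟩ := ihW hW'W
      have hw2n : w2 < n := hWn w2 hw2
      obtain ⟨haw, hbw, hκw⟩ := (hWm w2).1 hw2
      obtain ⟨m', hm'⟩ : ∃ m', m = m' + 1 := by
        have h1 := hQ {w2} (by simp) (by
          intro x hx
          rw [Finset.mem_singleton] at hx
          rw [hx]
          exact ⟨haw, hbw, hκw.ge⟩)
        rw [Finset.card_singleton] at h1
        exact ⟨m - 1, by omega⟩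
      -- adjacency of the old vertices
      have hold : ∀ x y, x < n → y < n → G2.Adj x y → G.Adj x y := by
        intro x y hx hy h
        have h1 := ((hi x y (by omega) (by omega)).1 h).1
        exact ((adj_old (by omega) (by omega)).1 h1).1
      -- the common neighbours
      have hcn : ∀ x, G2.Adj n x → G2.Adj w2 x → x < n ∧ G.Adj w2 x ∧
          (x = a ∨ x = b ∨ (G.Adj a x ∧ G.Adj b x)) := by
        intro x h1 h2
        have hx1 : x < n + 1 := by
          by_contra hcon
          rcases hii w2 x (by omega) (by omega) h2 with h | h | h | h | ⟨-, -, w, hw, h⟩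
          · omega
          · rw [h] at hκw
            omega
          · rw [h] at hκw
            omega
          · exact hw2' h
          · obtain ⟨g1, g2, g3⟩ := (hWm w).1 (hW'W hw)
            exact hmono w w2 g1 g2 haw hbw g3.ge (g3.trans hκw.symm) h
        have hxn : x ≠ n := fun h => by
          rw [h] at h1
          exact h1.ne rfl
        have hx : x < n := by omega
        refine ⟨hx, hold w2 x hw2n hx h2, ?_⟩
        exact (adj_new hxn).1 ((hi n x (by omega) hx1).1 h1).1
      have hcn' : ∀ x, G2.Adj n x → G2.Adj w2 x → r + 1 ≤ κ2 x → x < n ∧ G.Adj w2 x ∧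
          G.Adj a x ∧ G.Adj b x ∧ κ2 x = κ x := by
        intro x h1 h2 h3
        obtain ⟨g1, g2, g3⟩ := hcn x h1 h2
        have g4 : κ2 x = κ x := by rw [hk2 x (by omega), hκo x (by omega)]
        rw [g4] at h3
        rcases g3 with g3 | g3 | g3
        · rw [g3] at h3
          omega
        · rw [g3] at h3
          omega
        · exact ⟨g1, g2, g3.1, g3.2, g4⟩
      have hadj : G2.Adj n w2 := by
        rw [hi n w2 (by omega) (by omega)]
        refine ⟨(adj_new (by omega)).2 (Or.inr (Or.inr ⟨haw, hbw⟩)), fun w hw h => ?_⟩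
        rw [Sym2.congr_right] at h
        rw [← h] at hw
        exact hw2' hw
      have hκ2n : κ2 n < r + 1 := by
        rw [hk2 n (by omega), hκn]
        omega
      have hκ2w : κ2 w2 < r + 1 := by
        rw [hk2 w2 (by omega), hκo w2 (by omega), hκw]
        omega
      obtain ⟨n3, G3, κ3, hn3, hS3, hB3, hk3, hc3, hA3, hB3', hD3⟩ :=
        ih m' hm' (r + 1) n2 G2 κ2 n w2 hB2 hadj hκ2n hκ2w (by
          intro Q hQc hQm
          have hw2Q : w2 ∉ Q := fun h => (hQm w2 h).2.1.ne rfl
          have h1 := hQ (insert w2 Q) (by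
            intro x hx y hy hxy
            rw [Finset.coe_insert] at hx hy
            rcases hx with hx | hx
            · rcases hy with hy | hy
              · exact absurd (hx.trans hy.symm) hxy
              · rw [hx]
                obtain ⟨g1, g2, g3⟩ := hQm y hy
                exact (hcn' y g1 g2 g3).2.1
            · rcases hy with hy | hy
              · rw [hy]
                obtain ⟨g1, g2, g3⟩ := hQm x hx
                exact (hcn' x g1 g2 g3).2.1.symm
              · obtain ⟨g1, g2, g3⟩ := hQm x hx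
                obtain ⟨g1', g2', g3'⟩ := hQm y hy
                exact hold x y (hcn' x g1 g2 g3).1 (hcn' y g1' g2' g3').1 (hQc hx hy hxy)) (by
            intro x hx
            rw [Finset.mem_insert] at hx
            rcases hx with hx | hx
            · rw [hx]
              exact ⟨haw, hbw, hκw.ge⟩
            · obtain ⟨g1, g2, g3⟩ := hQm x hx
              obtain ⟨-, -, e1, e2, e3⟩ := hcn' x g1 g2 g3
              exact ⟨e1, e2, by omega⟩)
          rw [Finset.card_insert_of_notMem hw2Q] at h1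
          omega) (by
          intro x y h1 h2 h3 h4 h5 h6 h7
          obtain ⟨e0, -, e1, e2, e3⟩ := hcn' x h1 h2 h5
          obtain ⟨f0, -, f1, f2, f3⟩ := hcn' y h3 h4 (by omega)
          exact hmono x y e1 e2 f1 f2 (by omega) (by omega) (hold x y e0 f0 h7))
      refine ⟨n3, G3, κ3, by omega, subN_trans hS2 hS3, hB3, ?_, ?_, ?_, ?_, ?_⟩
      · intro x hx
        rw [hk3 x (by omega), hk2 x hx]
      · intro x hx1 hx2
        by_cases hx : x < n2
        · rw [hk3 x hx]
          exact hc2 x hx1 hx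
        · have := hc3 x (by omega) hx2
          omega
      · intro x y hx hy
        rw [hA3 x y (by omega) (by omega), hi x y hx hy]
        simp only [Finset.mem_insert, forall_eq_or_imp]
        tauto
      · intro x y hx hy h
        by_cases hy2 : y < n2
        · have h1 := ((hA3 x y (by omega) hy2).1 h).1
          rcases hii x y hx hy h1 with h | h | h | h | ⟨g1, g2, w, hw, g3⟩
          · exact Or.inl h
          · exact Or.inr (Or.inl h)
          · exact Or.inr (Or.inr (Or.inl h))
          · exact Or.inr (Or.inr (Or.inr (Or.inl (Finset.mem_insert_of_mem h))))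
          · exact Or.inr (Or.inr (Or.inr (Or.inr ⟨g1, g2, w, Finset.mem_insert_of_mem hw, g3⟩)))
        · rcases hB3' x y (by omega) (by omega) h with h | h | ⟨h1, h2⟩
          · exact Or.inl h
          · rw [h]
            exact Or.inr (Or.inr (Or.inr (Or.inl (Finset.mem_insert_self _ _))))
          · obtain ⟨g1, g2, g3⟩ := hcn x h1 h2
            rcases g3 with g3 | g3 | g3
            · exact Or.inr (Or.inl g3)
            · exact Or.inr (Or.inr (Or.inl g3))
            · exact Or.inr (Or.inr (Or.inr (Or.inr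
                ⟨g3.1, g3.2, w2, Finset.mem_insert_self _ _, g2⟩)))
      · intro x y hy h
        by_cases hy2 : y < n2
        · by_cases hx2 : x < n2
          · have h1 := ((hA3 x y hx2 hy2).1 h).1
            rw [hk3 x hx2, hk3 y hy2]
            exact hiii x y hy h1
          · exact (hD3 y x (by omega) h.symm).symm
        · exact hD3 x y (by omega) h
  obtain ⟨n2, G2, κ2, hn2, hS2, hB2, hk2, hc2, hi, hii, hiii⟩ := inner W (Finset.Subset.refl W)
  have hκ2n : κ2 n = r := by rw [hk2 n (by omega), hκn]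
  refine ⟨n2, G2, κ2, by omega, hS2, hB2, ?_, ?_, ?_, ?_, ?_⟩
  · intro x hx
    rw [hk2 x (by omega), hκo x (by omega)]
  · intro x hx1 hx2
    by_cases hx : x = n
    · rw [hx, hκ2n]
      omega
    · have := hc2 x (by omega) hx2
      omega
  · intro x y hx hy
    rw [hi x y (by omega) (by omega), adj_old (by omega) (by omega)]
    constructor
    · exact fun h => h.1
    · intro h
      refine ⟨h, fun w _ h1 => ?_⟩
      rw [Sym2.eq_iff] at h1
      omega
  · intro x y hx hy h
    by_cases hyn : y = n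
    · rw [hyn] at h
      have h1 := ((hi n x (by omega) (by omega)).1 h.symm).1
      exact (adj_new (by omega)).1 h1
    · rcases hii x y (by omega) (by omega) h with h | h | h | h | ⟨h1, h2, -⟩
      · omega
      · exact Or.inl h
      · exact Or.inr (Or.inl h)
      · exact Or.inr (Or.inr ⟨((hWm x).1 h).1, ((hWm x).1 h).2.1⟩)
      · exact Or.inr (Or.inr ⟨h1, h2⟩)
  · intro x y hy h
    by_cases hyn : y = n
    · rw [hyn] at h ⊢
      rw [hκ2n]
      have hxn : x ≠ n := fun h1 => by
        rw [h1] at h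
        exact h.ne rfl
      by_cases hx : x < n
      · rw [hk2 x (by omega), hκo x hxn]
        obtain ⟨h1, h2⟩ := (hi n x (by omega) (by omega)).1 h.symm
        rcases (adj_new hxn).1 h1 with h3 | h3 | h3
        · rw [h3]
          omega
        · rw [h3]
          omega
        · intro h4
          exact h2 x ((hWm x).2 ⟨h3.1, h3.2, h4⟩) rfl
      · have h1 := hB2 x n h
        have h2 := hc2 x (by omega) h1
        omega
    · exact hiii x y (by omega) h

theorem st_all (m : ℕ) : St m := by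
  induction m with
  | zero => exact st_step 0 fun m' h => by omega
  | succ m ih =>
    refine st_step (m + 1) fun m' h => ?_
    have : m' = m := by omega
    rw [this]
    exact ih

end C1x

theorem c1 : C1 := fun m => C1x.st_all m

end Pool.Agent.N496.LT
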