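import Pool.Agent.N496.LT.Stm2

/-!
# Project LT2, part C2: removing all the monochromatic edges (of colour `0`)
-/

set_option autoImplicit false

namespace Pool.Agent.N496.LT

namespace C2p

lemma subN_trans {m : ℕ} {G : SimpleGraph ℕ} {n : ℕ} {H : SimpleGraph ℕ} {k : ℕ} {K : SimpleGraph ℕ}
    (h1 : SubN m G n H) (h2 : SubN n H k K) : SubN m G k K := by
  induction h2 with
  | refl => exact h1
  | step k K s t hst _ ih => exact SubN.step k K s t hst ih

lemma bd_sdN {n : ℕ} {H : SimpleGraph ℕ} {s t : ℕ} (hH : Bd n H) (hst : H.Adj s t) :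
    Bd (n + 1) (sdN H n s t) := by
  rintro x y (⟨_, _, h3, _⟩ | ⟨h, _, _⟩ | ⟨_, _, h⟩)
  · exact (hH x y h3).trans (Nat.lt_succ_self n)
  · omega
  · rcases h with h | h | h
    · rw [h]
      exact (hH s t hst).trans (Nat.lt_succ_self n)
    · rw [h]
      exact (hH t s hst.symm).trans (Nat.lt_succ_self n)
    · exact (hH x s h.1.symm).trans (Nat.lt_succ_self n)

lemma clique_sdN {n k : ℕ} {H : SimpleGraph ℕ} {s t : ℕ} (hH : Bd n H) (hst : H.Adj s t)
    (hk : ∀ Q : Finset ℕ, H.IsClique (Q : Set ℕ) → Q.card ≤ k) (Q : Finset ℕ)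
    (hQ : (sdN H n s t).IsClique (Q : Set ℕ)) : Q.card ≤ k := by
  classical
  have hsn : s ≠ n := (hH s t hst).ne
  have htn : t ≠ n := (hH t s hst.symm).ne
  have hne : s ≠ t := hst.ne
  by_cases hn : n ∈ Q
  · -- the common neighbours
    set R : Finset ℕ := ((Q.erase n).erase s).erase t with hR
    have hRmem : ∀ y, y ∈ R ↔ y ≠ t ∧ y ≠ s ∧ y ≠ n ∧ y ∈ Q := by
      intro y
      simp [hR, Finset.mem_erase]
    have hcn : ∀ y ∈ R, H.Adj s y ∧ H.Adj t y := by
      intro y hy
      obtain ⟨h1, h2, h3, h4⟩ := (hRmem y).mp hy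
      have hadj := hQ (Finset.mem_coe.mpr hn) (Finset.mem_coe.mpr h4) h3.symm
      rcases hadj with ⟨h, _⟩ | ⟨_, _, h⟩ | ⟨h, _⟩
      · exact absurd rfl h
      · rcases h with h | h | h
        · exact absurd h h2
        · exact absurd h h1
        · exact h
      · exact absurd h h3
    have hsR : s ∉ R := fun h => ((hRmem s).mp h).2.1 rfl
    have htR : t ∉ R := fun h => ((hRmem t).mp h).1 rfl
    have hcl : H.IsClique ((insert s (insert t R) : Finset ℕ) : Set ℕ) := by
      have hRcl : H.IsClique (R : Set ℕ) := by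
        intro x hx y hy hxy
        obtain ⟨h1, h2, h3, h4⟩ := (hRmem x).mp (Finset.mem_coe.mp hx)
        obtain ⟨h1', h2', h3', h4'⟩ := (hRmem y).mp (Finset.mem_coe.mp hy)
        rcases hQ (Finset.mem_coe.mpr h4) (Finset.mem_coe.mpr h4') hxy with h | h | h
        · exact h.2.2.1
        · exact absurd h.1 h3
        · exact absurd h.1 h3'
      intro x hx y hy hxy
      simp only [Finset.coe_insert, Set.mem_insert_iff, Finset.mem_coe] at hx hy
      rcases hx with rfl | rfl | hx
      · rcases hy with rfl | rfl | hy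
        · exact absurd rfl hxy
        · exact hst
        · exact (hcn y hy).1
      · rcases hy with rfl | rfl | hy
        · exact hst.symm
        · exact absurd rfl hxy
        · exact (hcn y hy).2
      · rcases hy with rfl | rfl | hy
        · exact (hcn x hx).1.symm
        · exact (hcn x hx).2.symm
        · exact hRcl (Finset.mem_coe.mpr hx) (Finset.mem_coe.mpr hy) hxy
    have hcard := hk _ hcl
    rw [Finset.card_insert_of_notMem, Finset.card_insert_of_notMem htR] at hcard
    · -- card Q ≤ card R + 2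
      have hnot : ¬ (s ∈ Q ∧ t ∈ Q) := by
        rintro ⟨h1, h2⟩
        rcases hQ (Finset.mem_coe.mpr h1) (Finset.mem_coe.mpr h2) hne with h | h | h
        · exact h.2.2.2 rfl
        · exact hsn h.1
        · exact htn h.1
      have h1 : (Q.erase n).card + 1 = Q.card := Finset.card_erase_add_one hn
      have h2 : (Q.erase n).card ≤ R.card + 1 := by
        by_cases hs : s ∈ Q
        · have ht : t ∉ Q := fun ht => hnot ⟨hs, ht⟩
          have ht' : t ∉ (Q.erase n).erase s := fun h =>
            ht (Finset.mem_of_mem_erase (Finset.mem_of_mem_erase h))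
          rw [hR, Finset.erase_eq_of_notMem ht']
          have := Finset.card_erase_add_one (Finset.mem_erase.mpr ⟨hsn, hs⟩ : s ∈ Q.erase n)
          omega
        · have hs' : s ∉ Q.erase n := fun h => hs (Finset.mem_of_mem_erase h)
          rw [hR, Finset.erase_eq_of_notMem hs']
          have := Finset.pred_card_le_card_erase (s := Q.erase n) (a := t)
          omega
      omega
    · intro h
      rcases Finset.mem_insert.mp h with h | h
      · exact hne h
      · exact hsR h
  · apply hk
    intro x hx y hy hxy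
    have hxn : x ≠ n := fun h => hn (h ▸ Finset.mem_coe.mp hx)
    have hyn : y ≠ n := fun h => hn (h ▸ Finset.mem_coe.mp hy)
    rcases hQ hx hy hxy with h | h | h
    · exact h.2.2.1
    · exact absurd h.1 hxn
    · exact absurd h.1 hyn

lemma subN_bd_clique {k : ℕ} {m : ℕ} {G : SimpleGraph ℕ} {n : ℕ} {H : SimpleGraph ℕ}
    (h : SubN m G n H) (hG : Bd m G)
    (hk : ∀ Q : Finset ℕ, G.IsClique (Q : Set ℕ) → Q.card ≤ k) :
    Bd n H ∧ ∀ Q : Finset ℕ, H.IsClique (Q : Set ℕ) → Q.card ≤ k := by
  induction h with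
  | refl => exact ⟨hG, hk⟩
  | step n H s t hst _ ih => exact ⟨bd_sdN ih.1 hst, clique_sdN ih.1 hst ih.2⟩

open Classical in
/-- The (ordered) monochromatic edges. -/
noncomputable def monoE (n : ℕ) (G : SimpleGraph ℕ) (κ : ℕ → ℕ) : Finset (ℕ × ℕ) :=
  (Finset.range n ×ˢ Finset.range n).filter (fun p => G.Adj p.1 p.2 ∧ κ p.1 = κ p.2)

open Classical in
lemma mem_monoE {n : ℕ} {G : SimpleGraph ℕ} {κ : ℕ → ℕ} (hG : Bd n G) (x y : ℕ) :
    (x, y) ∈ monoE n G κ ↔ G.Adj x y ∧ κ x = κ y := by
  unfold monoE
  rw [Finset.mem_filter, Finset.mem_product, Finset.mem_range, Finset.mem_range]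
  exact ⟨fun h => h.2, fun h => ⟨⟨hG x y h.1, hG y x h.1.symm⟩, h⟩⟩

end C2p

open C2p in
theorem c2 (h : C1) : C2 := by
  intro d N H κ hd
  suffices key : ∀ (c N : ℕ) (H : SimpleGraph ℕ) (κ : ℕ → ℕ), (monoE N H κ).card ≤ c → Bd N H →
      (∀ Q : Finset ℕ, H.IsClique (Q : Set ℕ) → Q.card ≤ 2 * d + 1) → (∀ x, κ x ≤ 2 * d) →
      (∀ x y, H.Adj x y → κ x = κ y → κ x = 0) →
      ∃ (n : ℕ) (G : SimpleGraph ℕ) (κ' : ℕ → ℕ), N ≤ n ∧ SubN N H n G ∧ Bd n G ∧
        (∀ x, x < N → κ' x = κ x) ∧
        (∀ x, κ' x ≤ 2 * d) ∧ (∀ x y, G.Adj x y → κ' x ≠ κ' y) ∧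
        (∀ x y, x < N → y < N → (G.Adj x y ↔ H.Adj x y ∧ κ x ≠ κ y)) from
    key _ N H κ le_rfl
  intro c
  induction c with
  | zero =>
    intro N H κ hc hB hk hκ hm
    have hno : ∀ x y, H.Adj x y → κ x ≠ κ y := by
      intro x y hxy he
      have hmem := (mem_monoE (κ := κ) hB x y).mpr ⟨hxy, he⟩
      rw [Finset.card_eq_zero.mp (Nat.le_zero.mp hc)] at hmem
      exact absurd hmem (Finset.notMem_empty _)
    exact ⟨N, H, κ, le_rfl, SubN.refl, hB, fun _ _ => rfl, hκ, hno,
      fun x y _ _ => ⟨fun h => ⟨h, hno x y h⟩, fun h => h.1⟩⟩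
  | succ c ih =>
    intro N H κ hc hB hk hκ hm
    by_cases hex : ∃ a b, H.Adj a b ∧ κ a = κ b
    · obtain ⟨a, b, hab, he⟩ := hex
      have ha0 : κ a = 0 := hm a b hab he
      have hb0 : κ b = 0 := by rw [← he]; exact ha0
      obtain ⟨N', H', κ', hNN, hsub, hB', hκ', hnew, hadj, hold, hnm⟩ :=
        h (2 * d - 1) 1 N H κ a b hB hab (by omega) (by omega)
          (by
            classical
            intro Q hQ hcom
            have hbQ : b ∉ Q := fun hb => H.loopless.irrefl _ (hcom b hb).2.1
            have haQ : a ∉ insert b Q := by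
              intro ha
              rcases Finset.mem_insert.mp ha with ha | ha
              · exact hab.ne ha
              · exact H.loopless.irrefl _ (hcom a ha).1
            have hcl : H.IsClique ((insert a (insert b Q) : Finset ℕ) : Set ℕ) := by
              intro x hx y hy hxy
              simp only [Finset.coe_insert, Set.mem_insert_iff, Finset.mem_coe] at hx hy
              rcases hx with rfl | rfl | hx
              · rcases hy with rfl | rfl | hy
                · exact absurd rfl hxy
                · exact hab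
                · exact (hcom y hy).1
              · rcases hy with rfl | rfl | hy
                · exact hab.symm
                · exact absurd rfl hxy
                · exact (hcom y hy).2.1
              · rcases hy with rfl | rfl | hy
                · exact (hcom x hx).1.symm
                · exact (hcom x hx).2.1.symm
                · exact hQ (Finset.mem_coe.mpr hx) (Finset.mem_coe.mpr hy) hxy
            have := hk _ hcl
            rw [Finset.card_insert_of_notMem haQ, Finset.card_insert_of_notMem hbQ] at this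
            omega)
          (by
            intro x y _ _ _ _ hx hxy hadj
            have := hm x y hadj hxy
            omega)
      set κ'' : ℕ → ℕ := fun x => if x < N' then κ' x else 0 with hκ''
      have hk2 := (subN_bd_clique hsub hB hk).2
      have hlt : ∀ x, x < N' → κ'' x = κ' x := fun x hx => by simp [hκ'', hx]
      have hltN : ∀ x, x < N → κ'' x = κ x := fun x hx => by
        rw [hlt x (hx.trans hNN), hκ' x hx]
      -- monochromatic edges of the new graph
      have hmono : ∀ x y, H'.Adj x y → κ'' x = κ'' y → x < N ∧ y < N ∧ H.Adj x y ∧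
          s(x, y) ≠ s(a, b) ∧ κ x = κ y := by
        intro x y hxy hxe
        have hx' := hB' x y hxy
        have hy' := hB' y x hxy.symm
        rw [hlt x hx', hlt y hy'] at hxe
        have hx : x < N := by
          by_contra hcon
          exact hnm y x (not_lt.mp hcon) hxy.symm hxe.symm
        have hy : y < N := by
          by_contra hcon
          exact hnm x y (not_lt.mp hcon) hxy hxe
        obtain ⟨h1, h2⟩ := (hadj x y hx hy).mp hxy
        rw [hκ' x hx, hκ' y hy] at hxe
        exact ⟨hx, hy, h1, h2, hxe⟩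
      have hss : monoE N' H' κ'' ⊂ monoE N H κ := by
        rw [Finset.ssubset_iff_of_subset]
        · refine ⟨(a, b), (mem_monoE hB a b).mpr ⟨hab, he⟩, ?_⟩
          intro hcon
          obtain ⟨h1, h2⟩ := (mem_monoE hB' a b).mp hcon
          exact (hmono a b h1 h2).2.2.2.1 rfl
        · rintro ⟨x, y⟩ hxy
          obtain ⟨h1, h2⟩ := (mem_monoE hB' x y).mp hxy
          obtain ⟨-, -, h3, -, h4⟩ := hmono x y h1 h2
          exact (mem_monoE hB x y).mpr ⟨h3, h4⟩
      have hcard := Finset.card_lt_card hss
      obtain ⟨n, G, κ3, hn, hsub2, hB2, h1, h2, h3, h4⟩ := ih N' H' κ'' (by omega) hB' hk2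
        (by
          intro x
          by_cases hx : x < N
          · rw [hltN x hx]
            exact hκ x
          · by_cases hx' : x < N'
            · rw [hlt x hx']
              have := (hnew x (not_lt.mp hx) hx').2
              omega
            · simp [hκ'', hx'])
        (by
          intro x y hxy hxe
          obtain ⟨hx, hy, h3, -, h4⟩ := hmono x y hxy hxe
          rw [hltN x hx]
          exact hm x y h3 h4)
      refine ⟨n, G, κ3, hNN.le.trans hn, subN_trans hsub hsub2, hB2, ?_, h2, h3, ?_⟩
      · intro x hx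
        rw [h1 x (hx.trans hNN), hltN x hx]
      · intro x y hx hy
        rw [h4 x y (hx.trans hNN) (hy.trans hNN), hadj x y hx hy, hltN x hx, hltN y hy]
        constructor
        · rintro ⟨⟨h5, -⟩, h6⟩
          exact ⟨h5, h6⟩
        · rintro ⟨h5, h6⟩
          refine ⟨⟨h5, ?_⟩, h6⟩
          intro hs
          apply h6
          rcases Sym2.eq_iff.mp hs with ⟨rfl, rfl⟩ | ⟨rfl, rfl⟩
          · exact he
          · exact he.symm
    · have hno : ∀ x y, H.Adj x y → κ x ≠ κ y := fun x y hxy he => hex ⟨x, y, hxy, he⟩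
      exact ⟨N, H, κ, le_rfl, SubN.refl, hB, fun _ _ => rfl, hκ, hno,
        fun x y _ _ => ⟨fun h => ⟨h, hno x y h⟩, fun h => h.1⟩⟩

end Pool.Agent.N496.LT
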