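import Pool.Agent.N496.LT.Stm2

set_option autoImplicit false

/-!
# Subdividing the monochromatic edges when there are no monochromatic triangles (C3)
-/

namespace Pool.Agent.N496.LT

/-- the statement for a set of monochromatic edges -/
theorem c3_aux (n : ℕ) (G : SimpleGraph ℕ) (col : ℕ → ℕ) (hB : Bd n G)
    (hT : ∀ x y z, G.Adj x y → G.Adj y z → G.Adj x z → col x = col y → col y ≠ col z)
    (M : Finset (Sym2 ℕ)) : (∀ e ∈ M, ∃ a b, e = s(a, b) ∧ G.Adj a b ∧ col a = col b) →
    ∃ (n' : ℕ) (G' : SimpleGraph ℕ), n ≤ n' ∧ SubN n G n' G' ∧ Bd n' G' ∧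
      (∀ x y, x < n → y < n → (G'.Adj x y ↔ G.Adj x y ∧ s(x, y) ∉ M)) ∧
      (∀ m, n ≤ m → m < n' → ∃ s t, s < n ∧ t < n ∧ s ≠ t ∧ G.Adj s t ∧ col s = col t ∧
        ¬ G'.Adj s t ∧ G'.Adj m s ∧ G'.Adj m t ∧
        ∀ u, G'.Adj m u → u ≠ s → u ≠ t → G'.Adj u s ∧ G'.Adj u t) := by
  classical
  induction M using Finset.induction_on with
  | empty =>
    intro _
    refine ⟨n, G, le_rfl, SubN.refl, hB, fun x y _ _ => by simp, fun m h1 h2 => ?_⟩
    omega
  | insert e M he ih =>
    intro hM
    obtain ⟨n', G', hn, hS, hB', h1, h2⟩ := ih fun e' h => hM e' (Finset.mem_insert_of_mem h)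
    obtain ⟨a, b, rfl, hab, hc⟩ := hM e (Finset.mem_insert_self _ _)
    have ha : a < n := hB _ _ hab
    have hb : b < n := hB _ _ hab.symm
    have hne : a ≠ b := hab.ne
    have hab' : G'.Adj a b := (h1 a b ha hb).2 ⟨hab, he⟩
    have g1 : ∀ x y, x < n → y < n → ((sdN G' n' a b).Adj x y ↔
        G.Adj x y ∧ s(x, y) ∉ insert s(a, b) M) := by
      intro x y hx hy
      rw [Finset.mem_insert, not_or]
      constructor
      · rintro (⟨_, _, k1, k2⟩ | ⟨k, _⟩ | ⟨k, _⟩)
        · obtain ⟨k3, k4⟩ := (h1 x y hx hy).1 k1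
          exact ⟨k3, k2, k4⟩
        · omega
        · omega
      · rintro ⟨k1, k2, k3⟩
        exact Or.inl ⟨by omega, by omega, (h1 x y hx hy).2 ⟨k1, k3⟩, k2⟩
    refine ⟨n' + 1, sdN G' n' a b, by omega, SubN.step n' G' a b hab' hS, ?_, g1, ?_⟩
    · rintro x y (⟨_, _, k1, _⟩ | ⟨k, _⟩ | ⟨_, _, k⟩)
      · have := hB' _ _ k1
        omega
      · omega
      · rcases k with k | k | ⟨k, _⟩
        · omega
        · omega
        · have := hB' _ _ k.symm
          omega
    · intro m hm1 hm2
      by_cases hmn : m = n'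
      · subst hmn
        refine ⟨a, b, ha, hb, hne, hab, hc, ?_, ?_, ?_, ?_⟩
        · intro k
          exact ((g1 a b ha hb).1 k).2 (Finset.mem_insert_self _ _)
        · exact Or.inr (Or.inl ⟨rfl, by omega, Or.inl rfl⟩)
        · exact Or.inr (Or.inl ⟨rfl, by omega, Or.inr (Or.inl rfl)⟩)
        · intro u hu hua hub
          rcases hu with ⟨k, _⟩ | ⟨_, k1, k2⟩ | ⟨_, k, _⟩
          · exact absurd rfl k
          · rcases k2 with k2 | k2 | ⟨k2, k3⟩
            · exact absurd k2 hua
            · exact absurd k2 hub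
            · constructor
              · refine Or.inl ⟨k1, by omega, k2.symm, ?_⟩
                rw [Ne, Sym2.eq_iff]
                rintro (⟨r1, _⟩ | ⟨r1, _⟩)
                · exact hua r1
                · exact hub r1
              · refine Or.inl ⟨k1, by omega, k3.symm, ?_⟩
                rw [Ne, Sym2.eq_iff]
                rintro (⟨r1, _⟩ | ⟨r1, _⟩)
                · exact hua r1
                · exact hub r1
          · exact absurd rfl k
      · obtain ⟨s, t, hs, ht, hst, hGst, hcst, hnst, hms, hmt, hu⟩ := h2 m hm1 (by omega)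
        have tri : ∀ w, w < n → G'.Adj w s → G'.Adj w t → col w = col s → False := by
          intro w hw k1 k2 k3
          exact hT w s t ((h1 w s hw hs).1 k1).1 hGst ((h1 w t hw ht).1 k2).1 k3 hcst
        have inM : s(s, t) ∈ M := by
          by_contra hcon
          exact hnst ((h1 s t hs ht).2 ⟨hGst, hcon⟩)
        have hne2 : s(a, b) ≠ s(s, t) := fun k => he (k ▸ inM)
        have old : ∀ w, w < n → G'.Adj m w → (sdN G' n' a b).Adj m w := by
          intro w hw k
          refine Or.inl ⟨hmn, by omega, k, ?_⟩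
          rw [Ne, Sym2.eq_iff]
          rintro (⟨r1, _⟩ | ⟨r1, _⟩) <;> omega
        refine ⟨s, t, hs, ht, hst, hGst, hcst, ?_, old s hs hms, old t ht hmt, ?_⟩
        · intro k
          obtain ⟨k1, k2⟩ := (g1 s t hs ht).1 k
          exact k2 (Finset.mem_insert_of_mem inM)
        · intro u hmu hus hut
          by_cases hun : u = n'
          · subst hun
            have k : G'.Adj a m ∧ G'.Adj b m := by
              rcases hmu with ⟨_, k, _⟩ | ⟨k, _⟩ | ⟨_, _, k⟩
              · exact absurd rfl k
              · exact absurd k hmn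
              · rcases k with k | k | k
                · omega
                · omega
                · exact k
            have ka := hu a k.1.symm
            have kb := hu b k.2.symm
            by_cases e1 : a = s
            · have n1 : b ≠ s := fun r => hne (e1.trans r.symm)
              have n2 : b ≠ t := fun r => hne2 (by rw [e1, r])
              exact (tri b hb (kb n1 n2).1 (kb n1 n2).2 (by rw [← hc, e1])).elim
            by_cases e2 : a = t
            · have n2 : b ≠ t := fun r => hne (e2.trans r.symm)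
              have n1 : b ≠ s := fun r => hne2 (by rw [e2, r, Sym2.eq_swap])
              exact (tri b hb (kb n1 n2).1 (kb n1 n2).2 (by rw [← hc, e2, hcst])).elim
            by_cases e3 : b = s
            · exact (tri a ha (ka e1 e2).1 (ka e1 e2).2 (by rw [hc, e3])).elim
            by_cases e4 : b = t
            · exact (tri a ha (ka e1 e2).1 (ka e1 e2).2 (by rw [hc, e4, hcst])).elim
            exact ⟨Or.inr (Or.inl ⟨rfl, by omega, Or.inr (Or.inr ⟨(ka e1 e2).1, (kb e3 e4).1⟩)⟩),
              Or.inr (Or.inl ⟨rfl, by omega, Or.inr (Or.inr ⟨(ka e1 e2).2, (kb e3 e4).2⟩)⟩)⟩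
          · have k : G'.Adj m u := by
              rcases hmu with ⟨_, _, k, _⟩ | ⟨k, _⟩ | ⟨k, _⟩
              · exact k
              · exact absurd k hmn
              · exact absurd k hun
            obtain ⟨k1, k2⟩ := hu u k hus hut
            constructor
            · refine Or.inl ⟨hun, by omega, k1, fun r => ?_⟩
              rcases Sym2.eq_iff.1 r with ⟨r1, r2⟩ | ⟨r1, r2⟩
              · exact tri u (by omega) k1 k2 (by rw [r1, r2, hc])
              · exact tri u (by omega) k1 k2 (by rw [r1, r2, hc])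
            · refine Or.inl ⟨hun, by omega, k2, fun r => ?_⟩
              rcases Sym2.eq_iff.1 r with ⟨r1, r2⟩ | ⟨r1, r2⟩
              · exact tri u (by omega) k1 k2 (by rw [hcst, r1, r2, hc])
              · exact tri u (by omega) k1 k2 (by rw [hcst, r1, r2, hc])

theorem c3 : C3 := by
  classical
  intro n G col hB hT
  obtain ⟨n', G', h1, h2, h3, h4, h5⟩ := c3_aux n G col hB hT
    (((Finset.range n ×ˢ Finset.range n).filter fun p => G.Adj p.1 p.2 ∧ col p.1 = col p.2).image
      fun p => s(p.1, p.2)) (by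
      intro e he
      obtain ⟨⟨a, b⟩, hp, rfl⟩ := Finset.mem_image.1 he
      exact ⟨a, b, rfl, (Finset.mem_filter.1 hp).2⟩)
  refine ⟨n', G', h1, h2, h3, ?_, ?_⟩
  · intro x y hx hy
    rw [h4 x y hx hy]
    refine and_congr_right fun hxy => not_congr ?_
    rw [Finset.mem_image]
    constructor
    · rintro ⟨⟨a, b⟩, hp, hab⟩
      obtain ⟨_, _, hc⟩ := Finset.mem_filter.1 hp
      rcases Sym2.eq_iff.1 hab with ⟨r1, r2⟩ | ⟨r1, r2⟩
      · rw [← r1, ← r2]; exact hc
      · rw [← r1, ← r2]; exact hc.symm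
    · intro hc
      exact ⟨(x, y), Finset.mem_filter.2 ⟨Finset.mem_product.2 ⟨Finset.mem_range.2 hx,
        Finset.mem_range.2 hy⟩, hxy, hc⟩, rfl⟩
  · intro m hm1 hm2
    obtain ⟨s, t, k1, k2, k3, _, _, k4, k5, k6, k7⟩ := h5 m hm1 hm2
    exact ⟨s, t, k1, k2, k3, k4, k5, k6, k7⟩

end Pool.Agent.N496.LT
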