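import Pool.Agent.N496.LT.Stm2

/-!
# Project LT, part 2: the realization of the subdivided flag complex (helper700)
-/

set_option autoImplicit false

namespace Pool.Agent.N496.LT.E2p

open Pool.Agent.N496.LT Pool.Agent.R782.Bal

variable {n : ℕ}

/-- the linear map: the new vertex goes to the midpoint of `s t` -/
noncomputable def phi (s t : Fin n) (x : Fin (n + 1) → ℝ) (v : Fin n) : ℝ :=
  x (Fin.castSucc v) + if v = s ∨ v = t then x (Fin.last n) / 2 else 0

lemma phi_cont (s t : Fin n) : Continuous (phi s t) := by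
  refine continuous_pi fun v => ?_
  unfold phi
  by_cases h : v = s ∨ v = t
  · simp only [if_pos h]
    fun_prop
  · simp only [if_neg h]
    fun_prop

lemma phi_sum {s t : Fin n} (hst : s ≠ t) (x : Fin (n + 1) → ℝ) :
    ∑ v, phi s t x v = ∑ v, x v := by
  unfold phi
  rw [Finset.sum_add_distrib, Fin.sum_univ_castSucc]
  congr 1
  rw [← Finset.sum_filter]
  have h : (Finset.univ.filter fun v : Fin n => v = s ∨ v = t) = {s, t} := by
    ext v
    simp
  rw [h, Finset.sum_pair hst]
  ring

lemma adj_cast {G : SimpleGraph (Fin n)} {s t a b : Fin n}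
    (h : (sd G s t).Adj (Fin.castSucc a) (Fin.castSucc b)) : G.Adj a b ∧ s(a, b) ≠ s(s, t) := by
  rcases h with ⟨a', b', h1, h2, h3, h4⟩ | ⟨h, -⟩ | ⟨h, -⟩
  · rw [Fin.castSucc_injective _ h1, Fin.castSucc_injective _ h2]
    exact ⟨h3, h4⟩
  · exact absurd h (Fin.castSucc_lt_last a).ne
  · exact absurd h (Fin.castSucc_lt_last b).ne

lemma adj_last {G : SimpleGraph (Fin n)} {s t b : Fin n}
    (h : (sd G s t).Adj (Fin.last n) (Fin.castSucc b)) :
    b = s ∨ b = t ∨ (G.Adj s b ∧ G.Adj t b) := by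
  rcases h with ⟨a', b', h1, h2, h3, h4⟩ | ⟨-, b', h1, h2⟩ | ⟨h, -⟩
  · exact absurd h1.symm (Fin.castSucc_lt_last a').ne
  · rwa [Fin.castSucc_injective _ h1]
  · exact absurd h (Fin.castSucc_lt_last b).ne

/-- the supports -/
lemma phi_ne {s t : Fin n} {x : Fin (n + 1) → ℝ} {v : Fin n} (h : phi s t x v ≠ 0) :
    x (Fin.castSucc v) ≠ 0 ∨ ((v = s ∨ v = t) ∧ x (Fin.last n) ≠ 0) := by
  by_contra hcon
  push Not at hcon
  apply h
  unfold phi
  rw [hcon.1]
  by_cases h1 : v = s ∨ v = t
  · rw [if_pos h1, hcon.2 h1]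
    norm_num
  · rw [if_neg h1]
    norm_num

lemma phi_mem {G : SimpleGraph (Fin n)} {s t : Fin n} (hst : G.Adj s t)
    {x : Fin (n + 1) → ℝ} (hx : x ∈ Rea (sd G s t)) : phi s t x ∈ Rea G := by
  obtain ⟨h0, h1, h2⟩ := hx
  refine ⟨fun v => ?_, ?_, ?_⟩
  · unfold phi
    have := h0 (Fin.castSucc v)
    have := h0 (Fin.last n)
    split_ifs <;> linarith
  · rw [finsum_eq_sum_of_fintype] at h1 ⊢
    rw [phi_sum hst.ne, h1]
  · -- cliques
    have hcom : ∀ u : Fin n, x (Fin.castSucc u) ≠ 0 → x (Fin.last n) ≠ 0 →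
        u = s ∨ u = t ∨ (G.Adj s u ∧ G.Adj t u) := by
      intro u hu hl
      exact adj_last (h2 hl hu (Fin.castSucc_lt_last u).ne')
    intro u hu v hv huv
    rcases phi_ne hu with hu1 | ⟨hu1, hl⟩
    · rcases phi_ne hv with hv1 | ⟨hv1, hl⟩
      · exact (adj_cast (h2 hu1 hv1 (fun h => huv (Fin.castSucc_injective _ h)))).1
      · rcases hcom u hu1 hl with h | h | ⟨h3, h4⟩
        · rcases hv1 with h' | h'
          · exact absurd (h.trans h'.symm) huv
          · rw [h, h']; exact hst
        · rcases hv1 with h' | h'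
          · rw [h, h']; exact hst.symm
          · exact absurd (h.trans h'.symm) huv
        · rcases hv1 with h' | h'
          · rw [h']; exact h3.symm
          · rw [h']; exact h4.symm
    · rcases phi_ne hv with hv1 | ⟨hv1, -⟩
      · rcases hcom v hv1 hl with h | h | ⟨h3, h4⟩
        · rcases hu1 with h' | h'
          · exact absurd (h'.trans h.symm) huv
          · rw [h, h']; exact hst.symm
        · rcases hu1 with h' | h'
          · rw [h, h']; exact hst
          · exact absurd (h'.trans h.symm) huv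
        · rcases hu1 with h' | h'
          · rw [h']; exact h3
          · rw [h']; exact h4
      · rcases hu1 with h | h <;> rcases hv1 with h' | h'
        · exact absurd (h.trans h'.symm) huv
        · rw [h, h']; exact hst
        · rw [h, h']; exact hst.symm
        · exact absurd (h.trans h'.symm) huv

lemma st_zero {G : SimpleGraph (Fin n)} {s t : Fin n} (hst : s ≠ t)
    {x : Fin (n + 1) → ℝ} (hx : x ∈ Rea (sd G s t)) :
    x (Fin.castSucc s) = 0 ∨ x (Fin.castSucc t) = 0 := by
  by_contra hcon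
  push Not at hcon
  have := hx.2.2 hcon.1 hcon.2 (fun h => hst (Fin.castSucc_injective _ h))
  exact (adj_cast this).2 rfl

lemma phi_inj {G : SimpleGraph (Fin n)} {s t : Fin n} (hst : s ≠ t)
    {x y : Fin (n + 1) → ℝ} (hx : x ∈ Rea (sd G s t)) (hy : y ∈ Rea (sd G s t))
    (h : phi s t x = phi s t y) : x = y := by
  have hs := congrFun h s
  have ht := congrFun h t
  unfold phi at hs ht
  rw [if_pos (Or.inl rfl), if_pos (Or.inl rfl)] at hs
  rw [if_pos (Or.inr rfl), if_pos (Or.inr rfl)] at ht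
  have x1 := hx.1 (Fin.castSucc s)
  have x2 := hx.1 (Fin.castSucc t)
  have y1 := hy.1 (Fin.castSucc s)
  have y2 := hy.1 (Fin.castSucc t)
  have key : x (Fin.last n) = y (Fin.last n) := by
    rcases st_zero hst hx with a | a <;> rcases st_zero hst hy with b | b <;> linarith
  funext v
  refine Fin.lastCases key (fun v => ?_) v
  have hv := congrFun h v
  unfold phi at hv
  rw [key] at hv
  linarith

end Pool.Agent.N496.LT.E2p

namespace Pool.Agent.N496.LT

open Pool.Agent.R782.Bal

theorem e2 : E2 := by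
  intro n G s t E _ f hst hc hi
  refine ⟨f ∘ E2p.phi s t, ?_, ?_, ?_⟩
  · exact hc.comp (E2p.phi_cont s t).continuousOn fun x hx => E2p.phi_mem hst hx
  · intro x hx y hy hxy
    exact E2p.phi_inj hst.ne hx hy (hi (E2p.phi_mem hst hx) (E2p.phi_mem hst hy) hxy)
  · intro x hx
    exact ⟨_, E2p.phi_mem hst hx, rfl⟩

end Pool.Agent.N496.LT
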