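import Pool.Agent.N496.LT.Stm2
import Pool.Agent.N496.LT.P2

/-!
# Project LT (helper496), second part: the midpoints do not contribute, general form (helper849)
-/

set_option autoImplicit false

noncomputable section

namespace Pool.Agent.N496.LT

open P2aux Module Pool.Agent.W907.SG Pool.Agent.W461.SGN Pool.Agent.R782.Bal in
/-- **P2G.** -/
theorem p2g : P2G := by
  intro V F _ _ _ G A hA ε h2 hε
  classical
  obtain ⟨K, hK⟩ := exists_nat_gt
    ((Fintype.card V : ℝ) * 2 ^ (Fintype.card V + 1) / ε)
  have hK0 : (0 : ℝ) < K := lt_of_le_of_lt (by positivity) hK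
  refine ⟨((Finset.univ ×ˢ Finset.univ ×ˢ Finset.range K).filter
    (fun x : V × V × ℕ => x.1 ≠ x.2.1 ∧ ¬ G.Adj x.1 x.2.1 ∧ 0 < x.2.2)).image
    (fun x => ((cox G).simple x.1 * (cox G).simple x.2.1) ^ x.2.2), ?_, ?_⟩
  · intro h
    obtain ⟨⟨s, t, j⟩, hx, h1⟩ := Finset.mem_image.1 h
    obtain ⟨-, h3, h4, h5⟩ := Finset.mem_filter.1 hx
    exact pow_ne G s t h3 h4 j h5 h1
  · intro Y _ P i
    have hfree : ∀ s t : V, s ≠ t → ¬ G.Adj s t → ∀ j, 0 < j → j < K → ∀ y,
        (fun z => P.a t (P.a s z))^[j] y ≠ y := by
      intro s t hst hna j hj0 hj y h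
      have h1 : ∀ (j : ℕ) (y : Y), P.ev y (((cox G).simple s *
          (cox G).simple t) ^ j) = (fun z => P.a t (P.a s z))^[j] y := by
        intro j
        induction j with
        | zero =>
          intro y
          rw [pow_zero, P.ev_one]
          rfl
        | succ j ih =>
          intro y
          rw [pow_succ', P.ev_mul, P.ev_mul, P.ev_simple, P.ev_simple, ih,
            Function.iterate_succ_apply]
      refine P.free _ (Finset.mem_image.2 ⟨(s, t, j), Finset.mem_filter.2 ⟨?_, ?_⟩, rfl⟩) y
        ((h1 j y).trans h)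
      · simp [hj]
      · exact ⟨hst, hna, hj0⟩
    set C := 2 ^ (Fintype.card V + 1) * Fintype.card Y with hC
    have hind : ∀ B : Finset V, (∀ m ∈ B, m ∉ A) →
        K * beta G (pull F P.a) (A ∪ ↑B) ∅ i ≤
          K * beta G (pull F P.a) A ∅ i + B.card * C ∧
        K * beta G (pull F P.a) A ∅ i ≤
          K * beta G (pull F P.a) (A ∪ ↑B) ∅ i + B.card * C := by
      intro B
      induction B using Finset.induction_on with
      | empty =>
        intro _
        simp
      | insert m B hmB ih =>
        intro hB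
        obtain ⟨ih1, ih2⟩ := ih fun m' hm' => hB m' (Finset.mem_insert_of_mem hm')
        have hm2 := hB m (Finset.mem_insert_self m B)
        obtain ⟨s, hs, t, ht, hst, hna, hms, hmt, hadj⟩ := hA m hm2
        have hmA : m ∉ A ∪ ↑B := by
          rintro (h | h)
          · exact hm2 h
          · exact hmB h
        obtain ⟨h3, h4⟩ := step_le h2 G P.a P.inv P.comm (A ∪ ↑B) m s t hmA
          (Or.inl hs) (Or.inl ht) hms hmt hst hna (fun u _ hu h5 h6 => hadj u hu h5 h6) K
          (hfree s t hst hna) i
        have h5 : A ∪ ↑(insert m B) = insert m (A ∪ ↑B) := by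
          rw [Finset.coe_insert, Set.union_insert]
        rw [h5, Finset.card_insert_of_notMem hmB, Nat.add_mul, Nat.one_mul]
        constructor
        · omega
        · omega
    obtain ⟨h3, h4⟩ := hind (Finset.univ.filter fun m => m ∉ A) (by simp)
    have h5 : A ∪ ↑(Finset.univ.filter fun m : V => m ∉ A) = Set.univ := by
      ext m
      simp only [Set.mem_union, Finset.mem_coe, Finset.mem_filter, Finset.mem_univ, true_and,
        Set.mem_univ, iff_true]
      exact em _
    rw [h5] at h3 h4
    have h6 : (Finset.univ.filter fun m : V => m ∉ A).card ≤ Fintype.card V := Finset.card_le_univ _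
    have h7 := Nat.mul_le_mul_right C h6
    have h8 : K * beta G (pull F P.a) Set.univ ∅ i ≤
        K * beta G (pull F P.a) A ∅ i + Fintype.card V * C := by omega
    have h9 : K * beta G (pull F P.a) A ∅ i ≤
        K * beta G (pull F P.a) Set.univ ∅ i + Fintype.card V * C := by omega
    have h8' : (K : ℝ) * beta G (pull F P.a) Set.univ ∅ i ≤
        K * beta G (pull F P.a) A ∅ i + Fintype.card V * C := by
      exact_mod_cast h8
    have h9' : (K : ℝ) * beta G (pull F P.a) A ∅ i ≤
        K * beta G (pull F P.a) Set.univ ∅ i + Fintype.card V * C := by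
      exact_mod_cast h9
    have hC' : (Fintype.card V : ℝ) * C ≤ K * (ε * Fintype.card Y) := by
      rw [div_lt_iff₀ hε] at hK
      rw [hC]
      push_cast
      have hY : (0 : ℝ) ≤ Fintype.card Y := Nat.cast_nonneg _
      nlinarith [mul_le_mul_of_nonneg_right hK.le hY]
    rw [abs_le]
    constructor
    · refine le_of_mul_le_mul_left ?_ hK0
      linarith
    · refine le_of_mul_le_mul_left ?_ hK0
      linarith

end Pool.Agent.N496.LT
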