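import Pool.Agent.N496.LT.MainS
import Pool.Agent.N496.LT.C1
import Pool.Agent.N496.LT.C2
import Pool.Agent.N496.LT.C3
import Pool.Agent.N496.LT.E1
import Pool.Agent.N496.LT.E2
import Pool.Agent.N496.LT.P2G

/-!
# Project LT: the main theorems for flag spheres, complete
-/

set_option autoImplicit false

namespace Pool.Agent.N496.LT

theorem main3S' : Main3S := main3S (c2 c1) c3 e1 e2 p2g

theorem main2S' : Main2S := main2S (c2 c1) c3 e1 e2 p2g

end Pool.Agent.N496.LT
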