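import Pool.Agent.N496.LT.MainG

/-!
# Project LT: the coloured edge subdivision of a flag sphere
-/

set_option autoImplicit false

open scoped Matrix

noncomputable section

namespace Pool.Agent.N496.LT

open Module Filter Topology Pool.Agent.W907.SG Pool.Agent.TH630.Tor Pool.Agent.W461.SGN Pool.Agent.R782.Bal
open Pool.Agent.TH652.Above (HSph)

/-! ### from graphs on `ℕ` to graphs on `Fin n` -/

theorem sdN_comap {n : ℕ} {G : SimpleGraph ℕ} (hG : Bd n G) {s t : ℕ} (hst : G.Adj s t) (hs : s < n) (ht : t < n) :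
    (sdN G n s t).comap (Fin.val : Fin (n + 1) → ℕ) = sd (G.comap (Fin.val : Fin n → ℕ)) ⟨s, hs⟩ ⟨t, ht⟩ := by
  ext x y
  induction x using Fin.lastCases with
  | last =>
    induction y using Fin.lastCases with
    | last =>
      constructor
      · intro h; exact absurd h (SimpleGraph.irrefl _)
      · intro h; exact absurd h (SimpleGraph.irrefl _)
    | cast y =>
      have hy : (y : ℕ) ≠ n := y.2.ne
      constructor
      · rintro (⟨h1, -⟩ | ⟨-, -, h⟩ | ⟨h1, -⟩)
        · exact absurd rfl h1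
        · refine Or.inr (Or.inl ⟨rfl, y, rfl, ?_⟩)
          rcases h with h | h | ⟨h1, h2⟩
          · exact Or.inl (Fin.ext h)
          · exact Or.inr (Or.inl (Fin.ext h))
          · exact Or.inr (Or.inr ⟨h1, h2⟩)
        · exact absurd h1 hy
      · rintro (⟨a, b, h1, -⟩ | ⟨-, b, h1, h⟩ | ⟨h1, -⟩)
        · exact absurd h1 (Fin.castSucc_lt_last a).ne'
        · obtain rfl := Fin.castSucc_injective _ h1
          refine Or.inr (Or.inl ⟨rfl, hy, ?_⟩)
          rcases h with h | h | ⟨h1, h2⟩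
          · exact Or.inl (congrArg Fin.val h)
          · exact Or.inr (Or.inl (congrArg Fin.val h))
          · exact Or.inr (Or.inr ⟨h1, h2⟩)
        · exact absurd h1 (Fin.castSucc_lt_last y).ne
  | cast x =>
    have hx : (x : ℕ) ≠ n := x.2.ne
    induction y using Fin.lastCases with
    | last =>
      constructor
      · rintro (⟨-, h1, -⟩ | ⟨h1, -⟩ | ⟨-, -, h⟩)
        · exact absurd rfl h1
        · exact absurd h1 hx
        · refine Or.inr (Or.inr ⟨rfl, x, rfl, ?_⟩)
          rcases h with h | h | ⟨h1, h2⟩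
          · exact Or.inl (Fin.ext h)
          · exact Or.inr (Or.inl (Fin.ext h))
          · exact Or.inr (Or.inr ⟨h1, h2⟩)
      · rintro (⟨a, b, -, h1, -⟩ | ⟨h1, -⟩ | ⟨-, b, h1, h⟩)
        · exact absurd h1 (Fin.castSucc_lt_last b).ne'
        · exact absurd h1 (Fin.castSucc_lt_last x).ne
        · obtain rfl := Fin.castSucc_injective _ h1
          refine Or.inr (Or.inr ⟨rfl, hx, ?_⟩)
          rcases h with h | h | ⟨h1, h2⟩
          · exact Or.inl (congrArg Fin.val h)
          · exact Or.inr (Or.inl (congrArg Fin.val h))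
          · exact Or.inr (Or.inr ⟨h1, h2⟩)
    | cast y =>
      have hy : (y : ℕ) ≠ n := y.2.ne
      constructor
      · rintro (⟨-, -, h, h2⟩ | ⟨h1, -⟩ | ⟨h1, -⟩)
        · refine Or.inl ⟨x, y, rfl, rfl, h, fun h3 => h2 ?_⟩
          have := congrArg (Sym2.map (Fin.val : Fin n → ℕ)) h3
          simpa using this
        · exact absurd h1 hx
        · exact absurd h1 hy
      · rintro (⟨a, b, h1, h2, h, h3⟩ | ⟨h1, -⟩ | ⟨h1, -⟩)
        · obtain rfl := Fin.castSucc_injective _ h1
          obtain rfl := Fin.castSucc_injective _ h2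
          refine Or.inl ⟨hx, hy, h, fun h4 => h3 ?_⟩
          apply Sym2.map.injective Fin.val_injective
          simpa using h4
        · exact absurd h1 (Fin.castSucc_lt_last x).ne
        · exact absurd h1 (Fin.castSucc_lt_last y).ne

theorem Bd.sd {n : ℕ} {G : SimpleGraph ℕ} (hG : Bd n G) {s t : ℕ} (hst : G.Adj s t) : Bd (n + 1) (sdN G n s t) := by
  rintro x y (⟨-, -, h, -⟩ | ⟨h, -, -⟩ | ⟨-, -, h⟩)
  · exact (hG x y h).trans (Nat.lt_succ_self n)
  · omega
  · rcases h with rfl | rfl | ⟨h, -⟩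
    · exact (hG _ _ hst).trans (Nat.lt_succ_self n)
    · exact (hG _ _ hst.symm).trans (Nat.lt_succ_self n)
    · exact (hG _ _ h.symm).trans (Nat.lt_succ_self n)

theorem SubN.bd {m n : ℕ} {G H : SimpleGraph ℕ} (h : SubN m G n H) (hG : Bd m G) : Bd n H := by
  induction h with
  | refl => exact hG
  | step n H s t hst _ ih => exact ih.sd hst

theorem SubN.le {m n : ℕ} {G H : SimpleGraph ℕ} (h : SubN m G n H) : m ≤ n := by
  induction h with
  | refl => exact le_rfl
  | step n H s t hst _ ih => omega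

theorem SubN.trans {m n k : ℕ} {G H J : SimpleGraph ℕ} (h : SubN m G n H) (h' : SubN n H k J) : SubN m G k J := by
  induction h' with
  | refl => exact h
  | step n H s t hst _ ih => exact SubN.step _ _ _ _ hst ih

theorem SubN.sub {m n : ℕ} {G H : SimpleGraph ℕ} (h : SubN m G n H) (hG : Bd m G) :
    Sub (G.comap (Fin.val : Fin m → ℕ)) (H.comap (Fin.val : Fin n → ℕ)) := by
  induction h with
  | refl => exact Sub.refl
  | step n H s t hst h ih =>
    have hH := h.bd hG
    rw [sdN_comap hH hst (hH _ _ hst) (hH _ _ hst.symm)]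
    exact Sub.step _ _ _ hst ih

theorem Sub.hsph (hE : E1) {m n k : ℕ} {G : SimpleGraph (Fin m)} {H : SimpleGraph (Fin n)} (h : Sub G H)
    (hG : HSph k G) : HSph k H := by
  induction h with
  | refl => exact hG
  | step H s t hst _ ih => exact hE k _ H s t hst ih

theorem Sub.real (hE : E2) {m n : ℕ} {G : SimpleGraph (Fin m)} {H : SimpleGraph (Fin n)} (h : Sub G H)
    {E : Type} [TopologicalSpace E] (f : (Fin m → ℝ) → E) (hf : ContinuousOn f (Rea G)) (hi : Set.InjOn f (Rea G)) :
    ∃ g : (Fin n → ℝ) → E, ContinuousOn g (Rea H) ∧ Set.InjOn g (Rea H) ∧ ∀ x ∈ Rea H, ∃ y ∈ Rea G, g x = f y := by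
  induction h with
  | refl => exact ⟨f, hf, hi, fun x hx => ⟨x, hx, rfl⟩⟩
  | step H s t hst _ ih =>
    obtain ⟨g, h1, h2, h3⟩ := ih
    obtain ⟨g', h4, h5, h6⟩ := hE _ H s t E g hst h1 h2
    refine ⟨g', h4, h5, fun x hx => ?_⟩
    obtain ⟨y, hy, e⟩ := h6 x hx
    obtain ⟨z, hz, e'⟩ := h3 y hy
    exact ⟨z, hz, e.trans e'⟩

end Pool.Agent.N496.LT
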