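import Pool.Agent.N496.LT.AsmS

/-!
# Project LT: the coloured edge subdivision of a flag sphere, assembly
-/

set_option autoImplicit false

open scoped Matrix

noncomputable section

namespace Pool.Agent.N496.LT

open Module Filter Topology Pool.Agent.W907.SG Pool.Agent.TH630.Tor Pool.Agent.W461.SGN Pool.Agent.R782.Bal
open Pool.Agent.TH652.Above (HSph)

/-- the class `SQ` for graphs with midpoints -/
theorem sq_mid {V : Type} [Fintype V] [LinearOrder V] {d : ℕ} (S : SimpleGraph V) (A : Set V) (hM : MidP S A)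
    (κ : V → Fin (d + 1)) (hκ : ∀ u ∈ A, ∀ v ∈ A, S.Adj u v → κ u ≠ κ v) (hE : Emb d (S.induce A)) :
    SQ (d + 1) S := by
  classical
  have hb : SQ (d + 1) (S.induce A) := by
    have h1 := SQ.br (S.induce A) (BR.bal (d := d) (S.induce A) (fun u => κ u.1)
      (fun u v huv => hκ u.1 u.2 v.1 v.2 huv) hE)
    rwa [show (2 * d + 1) / 2 + 1 = d + 1 by omega] at h1
  choose s hs t ht hst hna hms hmt hadj using hM
  refine SQ.sub S Aᶜ (fun x => if h : x ∉ A then {s x h, t x h} else ∅) (fun x => if x ∈ A then 0 else 1)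
    ?_ ?_ ?_ ?_
  · intro x hx y hy
    replace hx : x ∉ A := hx
    rw [dif_pos hx] at hy
    rcases hy with rfl | hy
    · exact ⟨hms x hx, by simp [hs x hx, show x ∉ A from hx]⟩
    · rw [Set.mem_singleton_iff] at hy
      rw [hy]
      exact ⟨hmt x hx, by simp [ht x hx, show x ∉ A from hx]⟩
  · intro x hx w hw hwl y hy
    replace hx : x ∉ A := hx
    rw [dif_pos hx] at hwl hy
    rw [Set.mem_insert_iff, Set.mem_singleton_iff, not_or] at hwl
    obtain ⟨h1, h2⟩ := hadj x hx w hw hwl.1 hwl.2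
    rcases hy with rfl | hy
    · exact h1
    · rw [Set.mem_singleton_iff] at hy
      rw [hy]
      exact h2
  · intro x hx
    replace hx : x ∉ A := hx
    rw [dif_pos hx]
    have h1 : SQ 0 (susp (⊥ : SimpleGraph Empty)) := SQ.susp _
    refine SQ.iso _ _ ⟨?_⟩ h1
    refine ⟨⟨fun z => match z with
      | Sum.inl z => z.elim
      | Sum.inr true => ⟨s x hx, by simp⟩
      | Sum.inr false => ⟨t x hx, by simp⟩, fun z => Sum.inr (decide (z.1 = s x hx)), ?_, ?_⟩, ?_⟩
    · rintro (z | z)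
      · exact z.elim
      · cases z
        · simp [(hst x hx).symm]
        · simp
    · rintro ⟨z, hz⟩
      rcases hz with rfl | hz
      · simp
      · rw [Set.mem_singleton_iff] at hz
        subst hz
        simp [(hst x hx).symm]
    · intro a b
      rcases a with a | a
      · exact a.elim
      rcases b with b | b
      · exact b.elim
      have h2 : ¬ S.Adj (t x hx) (s x hx) := fun h => hna x hx h.symm
      cases a <;> cases b <;> simp [susp, hna x hx, h2]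
  · rw [compl_compl]
    exact hb

theorem build (hC2 : C2) (hC3 : C3) (hE1 : E1) (hE2 : E2) {F : Type} [Field F] {d N : ℕ} (H : SimpleGraph (Fin N))
    (hd : 1 ≤ d) (hS : HSph (2 * d + 1) H) (f : (Fin N → ℝ) → EuclideanSpace ℝ (Fin (2 * d + 1)))
    (hf : ContinuousOn f (Rea H)) (hf1 : ∀ x ∈ Rea H, ‖f x‖ = 1) (hfi : Set.InjOn f (Rea H)) (Z : Dbl F H d)
    (c : Fin Z.n → Fin (d + 1)) (hc : ∀ v w a b, H.Adj (Z.j v a) (Z.j w b) → c v ≠ c w) :
    ∃ (n : ℕ) (S : SimpleGraph (Fin n)) (A : Set (Fin n)) (κ : Fin n → Fin (d + 1)) (Z' : Dbl F S d),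
      Sub H S ∧ HSph (2 * d + 1) S ∧ MidP S A ∧ (∀ u ∈ A, ∀ v ∈ A, S.Adj u v → κ u ≠ κ v) ∧ (∀ i, L2Van S i) ∧
      (∀ v b, Z'.j v b ∈ A) ∧ Z'.U.card = Z.U.card := by
  classical
  -- the colouring
  obtain ⟨code, hcode⟩ : ∃ code : Fin (d + 1) → ℕ, code = fun i : Fin (d + 1) => if (i : ℕ) < d then 2 * (i : ℕ) + 1 else 2 * d := ⟨_, rfl⟩
  have hcode_inj : Function.Injective code := by
    intro i j hij
    rw [hcode] at hij
    dsimp only at hij
    have := i.2
    have := j.2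
    apply Fin.ext
    split_ifs at hij <;> omega
  have hcode_pos : ∀ i, 0 < code i := by
    intro i
    rw [hcode]
    dsimp only
    split_ifs <;> omega
  have hcode_le : ∀ i, code i ≤ 2 * d := by
    intro i
    rw [hcode]
    dsimp only
    split_ifs <;> omega
  have hcode_div : ∀ i, code i / 2 = i := by
    intro i
    rw [hcode]
    dsimp only
    have := i.2
    split_ifs <;> omega
  obtain ⟨κ, hκ⟩ : ∃ κ : ℕ → ℕ, κ = fun x => if h : ∃ v b, x = (Z.j v b : ℕ) then code (c h.choose) else 0 := ⟨_, rfl⟩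
  have hκj : ∀ v b, κ (Z.j v b : ℕ) = code (c v) := by
    intro v b
    have h1 : ∃ v' b', (Z.j v b : ℕ) = (Z.j v' b' : ℕ) := ⟨v, b, rfl⟩
    rw [hκ]
    dsimp only
    rw [dif_pos h1]
    have h2 : h1.choose = v := by
      by_contra h3
      obtain ⟨b', hb'⟩ := h1.choose_spec
      exact Z.j_ne _ _ h3 b' b (Fin.ext hb'.symm)
    rw [h2]
  have hκ0 : ∀ x, κ x ≠ 0 → ∃ v b, x = (Z.j v b : ℕ) := by
    intro x hx
    by_contra h
    apply hx
    rw [hκ]
    dsimp only
    rw [dif_neg h]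
  -- the graph on ℕ
  obtain ⟨HN, hHN⟩ : ∃ HN : SimpleGraph ℕ, HN = H.map Fin.valEmbedding := ⟨_, rfl⟩
  have hadjN : ∀ x y : Fin N, HN.Adj (x : ℕ) (y : ℕ) ↔ H.Adj x y := by
    intro x y
    rw [hHN]
    exact SimpleGraph.map_adj_apply
  have hadjN' : ∀ x y : ℕ, HN.Adj x y → ∃ a b : Fin N, H.Adj a b ∧ (a : ℕ) = x ∧ (b : ℕ) = y := by
    intro x y h
    rw [hHN, SimpleGraph.map_adj] at h
    exact h
  have hBd : Bd N HN := by
    intro x y h
    obtain ⟨a, b, -, rfl, -⟩ := hadjN' x y h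
    exact a.2
  have hcomap : HN.comap (Fin.val : Fin N → ℕ) = H := by
    ext x y
    exact hadjN x y
  have hcl : ∀ Q : Finset ℕ, HN.IsClique (Q : Set ℕ) → Q.card ≤ 2 * d + 1 := by
    intro Q hQ
    rcases Nat.lt_or_ge Q.card 2 with h | h
    · omega
    have h1 : ∀ x ∈ Q, x < N := by
      intro x hx
      obtain ⟨y, hy, hxy⟩ := Finset.exists_mem_ne (by omega : 1 < Q.card) x
      exact hBd x y (hQ hx hy hxy.symm)
    have h2 : (Q.attachFin h1).card = Q.card := Finset.card_attachFin _ _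
    rw [← h2]
    refine Pool.Agent.TH652.Dual.no_big hS ?_
    intro x hx y hy hxy
    rw [Finset.mem_coe, Finset.mem_attachFin] at hx hy
    exact (hadjN x y).1 (hQ hx hy fun h => hxy (Fin.ext h))
  obtain ⟨n1, G1, κ1, hn1, hsub1, hB1, hκ1, hκ1le, hprop1, hadj1⟩ := hC2 d N HN κ hd hBd hcl
    (by
      intro x
      by_cases h : κ x = 0
      · omega
      · obtain ⟨v, b, rfl⟩ := hκ0 x h
        rw [hκj]
        exact hcode_le _)
    (by
      intro x y hxy he
      by_contra h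
      obtain ⟨v, b, rfl⟩ := hκ0 x h
      obtain ⟨w, b', rfl⟩ := hκ0 y (by rwa [← he])
      rw [hκj, hκj] at he
      exact hc v w b b' ((hadjN _ _).1 hxy) (hcode_inj he))
  obtain ⟨n2, G2, hn2, hsub2, hB2, hadj2, hmid⟩ := hC3 n1 G1 (fun x => κ1 x / 2) hB1 (by
    intro x y z hxy hyz hxz e1 e2
    have h1 := hprop1 x y hxy
    have h2 := hprop1 y z hyz
    have h3 := hprop1 x z hxz
    omega)
  have hsub : Sub H (G2.comap (Fin.val : Fin n2 → ℕ)) := by
    have := (hsub1.trans hsub2).sub hBd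
    rwa [hcomap] at this
  have hsub1' : Sub H (G1.comap (Fin.val : Fin n1 → ℕ)) := by
    have := hsub1.sub hBd
    rwa [hcomap] at this
  obtain ⟨g, hg1, hg2, hg3⟩ := hsub1'.real hE2 f hf hfi
  obtain ⟨S, hSd⟩ : ∃ S : SimpleGraph (Fin n2), S = G2.comap (Fin.val : Fin n2 → ℕ) := ⟨_, rfl⟩
  have hSadj : ∀ x y : Fin n2, S.Adj x y ↔ G2.Adj x y := by
    intro x y
    rw [hSd]
    rfl
  rw [← hSd] at hsub
  obtain ⟨A, hA⟩ : ∃ A : Set (Fin n2), A = {x : Fin n2 | (x : ℕ) < n1} := ⟨_, rfl⟩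
  have hmemA : ∀ x : Fin n2, x ∈ A ↔ (x : ℕ) < n1 := by
    intro x
    rw [hA]
    rfl
  have hSS := hsub.hsph hE1 hS
  have hM : MidP S A := by
    intro m hm
    rw [hmemA, not_lt] at hm
    obtain ⟨s, t, hs, ht, hst, h1, h2, h3, h4⟩ := hmid m hm m.2
    refine ⟨⟨s, by omega⟩, (hmemA _).2 hs, ⟨t, by omega⟩, (hmemA _).2 ht, fun h => hst (congrArg Fin.val h), ?_, ?_, ?_, ?_⟩
    · rw [hSadj]; exact h1
    · rw [hSadj]; exact h2
    · rw [hSadj]; exact h3
    · intro u hu hus hut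
      rw [hSadj] at hu
      rw [hSadj, hSadj]
      exact h4 u hu (fun h => hus (Fin.ext h)) fun h => hut (Fin.ext h)
  obtain ⟨κ', hκ'⟩ : ∃ κ' : Fin n2 → Fin (d + 1), ∀ x, (κ' x : ℕ) = κ1 x / 2 :=
    ⟨fun x => ⟨κ1 x / 2, by have := hκ1le x; omega⟩, fun x => rfl⟩
  have hprop : ∀ u ∈ A, ∀ v ∈ A, S.Adj u v → κ' u ≠ κ' v := by
    intro u hu v hv huv h
    rw [hmemA] at hu hv
    rw [hSadj, hadj2 u v hu hv] at huv
    apply huv.2
    have := congrArg Fin.val h
    rw [hκ', hκ'] at this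
    exact this
  have hEmb : Emb d (S.induce A) := by
    obtain ⟨φ, hφ⟩ : ∃ φ : Fin n1 → ↥A, ∀ i, ((φ i).1 : ℕ) = i :=
      ⟨fun i => ⟨⟨i, by omega⟩, (hmemA _).2 i.2⟩, fun i => rfl⟩
    have hφs : Function.Surjective φ := by
      intro a
      refine ⟨⟨a.1, (hmemA _).1 a.2⟩, ?_⟩
      apply Subtype.ext
      apply Fin.ext
      rw [hφ]
    have hφi : Function.Injective φ := by
      intro i j hij
      apply Fin.ext
      rw [← hφ i, ← hφ j, hij]
    have hmem : ∀ x ∈ Rea (S.induce A), (fun i => x (φ i)) ∈ Rea (G1.comap (Fin.val : Fin n1 → ℕ)) := by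
      rintro x ⟨h1, h2, h3⟩
      refine ⟨fun i => h1 _, ?_, ?_⟩
      · rw [← h2]
        exact finsum_comp_equiv (Equiv.ofBijective φ ⟨hφi, hφs⟩) (f := x)
      · intro i hi j hj hij
        have h4 := h3 (x := φ i) hi (y := φ j) hj (fun h => hij (hφi h))
        have h5 : S.Adj (φ i).1 (φ j).1 := h4
        rw [hSadj, hφ, hφ, hadj2 i j i.2 j.2] at h5
        exact h5.1
    refine Emb.unit (fun x => g fun i => x (φ i)) inferInstance ?_ ?_ ?_
    · refine hg1.comp (Continuous.continuousOn ?_) fun x hx => hmem x hx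
      exact continuous_pi fun i => continuous_apply _
    · intro x hx
      obtain ⟨y, hy, e⟩ := hg3 _ (hmem x hx)
      show ‖g _‖ = 1
      rw [e]
      exact hf1 y hy
    · intro x hx y hy hxy h
      have h1 := hg2 (hmem x hx) (hmem y hy) h
      have h2 : x = y := by
        funext a
        obtain ⟨i, rfl⟩ := hφs a
        exact congrFun h1 i
      subst h2
      have h3 : ∀ v, x v = 0 := fun v => by rcases hxy v with h | h <;> exact h
      have h4 := hx.2.1
      rw [finsum_eq_zero_of_forall_eq_zero h3] at h4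
      exact zero_ne_one h4
  have hL : ∀ i, L2Van S i := by
    intro i
    refine singer_SQ hSS ?_ i (by omega)
    rw [show (2 * d + 1) / 2 + 1 = d + 1 by omega]
    exact sq_mid S A hM κ' hprop hEmb
  -- the doubled cycle
  obtain ⟨ι, hι⟩ : ∃ ι : Fin N → Fin n2, ∀ x, (ι x : ℕ) = x := ⟨fun x => ⟨x, by omega⟩, fun x => rfl⟩
  have hιi : ∀ x y, ι x = ι y → x = y := by
    intro x y h
    apply Fin.ext
    rw [← hι x, ← hι y, h]
  have hιadj : ∀ x y, S.Adj (ι x) (ι y) → H.Adj x y := by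
    intro x y h
    rw [hSadj, hι, hι, hadj2 x y (by omega) (by omega), hadj1 x y x.2 y.2, hadjN] at h
    exact h.1.1
  have hkey : ∀ v w a b, H.Adj (Z.j v a) (Z.j w b) → S.Adj (ι (Z.j v a)) (ι (Z.j w b)) := by
    intro v w a b h
    have h1 := hc v w a b h
    have h2 : (Z.j v a : ℕ) < n1 := by omega
    have h3 : (Z.j w b : ℕ) < n1 := by omega
    rw [hSadj, hι, hι, hadj2 _ _ h2 h3, hadj1 _ _ (Z.j v a).2 (Z.j w b).2, hadjN, hκj, hκj,
      hκ1 _ (Z.j v a).2, hκ1 _ (Z.j w b).2, hκj, hκj, hcode_div, hcode_div]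
    exact ⟨⟨h, fun h4 => h1 (hcode_inj h4)⟩, fun h4 => h1 (Fin.ext h4)⟩
  refine ⟨n2, S, A, κ', ⟨Z.n, Z.z, fun v b => ι (Z.j v b), Z.U, Z.z_ne, Z.z_card, Z.z_cyc, ?_, ?_, ?_, ?_, ?_⟩,
    hsub, hSS, hM, hprop, hL, ?_, rfl⟩
  · intro v w hvw a b h
    exact Z.j_ne v w hvw a b (hιi _ _ h)
  · intro v hv
    rw [Z.j_U v hv]
  · intro v hv
    obtain ⟨h1, h2⟩ := Z.j_adj v hv
    exact ⟨fun h => h1 (hιi _ _ h), fun h => h2 (hιadj _ _ h)⟩
  · intro σ hσ v hv w hw hvw a b
    exact hkey v w a b (Z.clique σ hσ v hv w hw hvw a b)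
  · intro v hv w hw hvw
    exact hkey v w _ _ (Z.cliqueU v hv w hw hvw)
  · intro v b
    rw [hmemA, hι]
    omega

end Pool.Agent.N496.LT
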