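import Pool.Agent.N496.LT.Stm2

/-!
# Project LT: definitions for the statements of the results
-/

set_option autoImplicit false

open scoped Matrix

noncomputable section

namespace Pool.Agent.N496.LT.Lt

open Pool.Agent.W907.SG Pool.Agent.TH630.Tor
open Pool.Agent.TH652.Above (HSph)

/-- The geometric realization of the flag complex of `G`: the vectors with nonnegative coordinates and sum `1`
whose support is a clique. -/
def Rea {V : Type} (G : SimpleGraph V) : Set (V → ℝ) :=
  {x | (∀ v, 0 ≤ x v) ∧ ∑ᶠ v, x v = 1 ∧ G.IsClique {v | x v ≠ 0}}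

/-- The flag complex of the graph `H` is a triangulation of the sphere of dimension `2 d`: it is a real homology
manifold with the real homology of the sphere (`HSph`), and its realization is mapped homeomorphically to (a subset
of, hence onto) the unit sphere of the euclidean space of dimension `2 d + 1`. -/
structure Sph (d : ℕ) {n : ℕ} (H : SimpleGraph (Fin n)) : Prop where
  /-- the homology of the links -/
  hom : HSph (2 * d + 1) H
  /-- the homeomorphism -/
  emb : ∃ f : (Fin n → ℝ) → EuclideanSpace ℝ (Fin (2 * d + 1)), ContinuousOn f (Rea H) ∧ (∀ x ∈ Rea H, ‖f x‖ = 1) ∧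
    Set.InjOn f (Rea H)

/-- A doubled `d`-cycle with coefficients in `F` in the flag complex of the graph `G`: `z` is a nonzero simplicial
`d`-cycle on the vertex set `Fin n`; every vertex `v` has two lifts `j v false`, `j v true` in `G`, which are
different and not adjacent, except that the vertices in `U` have only one lift; lifts of different vertices are
different; all the lifts of the simplices with nonzero coefficient are simplices (cliques) of `G`, and so is `U`. -/
structure Dbl (F : Type) [Field F] {V : Type} (G : SimpleGraph V) (d : ℕ) where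
  n : ℕ
  z : Finset (Fin n) → F
  j : Fin n → Bool → V
  U : Finset (Fin n)
  z_ne : z ≠ 0
  z_card : ∀ σ, z σ ≠ 0 → σ.card = d + 1
  z_cyc : ∀ τ : Finset (Fin n), ∑ v ∈ τᶜ, (sg v τ) • z (insert v τ) = 0
  j_ne : ∀ v w, v ≠ w → ∀ a b, j v a ≠ j w b
  j_U : ∀ v ∈ U, j v true = j v false
  j_adj : ∀ v, v ∉ U → j v true ≠ j v false ∧ ¬ G.Adj (j v true) (j v false)
  clique : ∀ σ, z σ ≠ 0 → ∀ v ∈ σ, ∀ w ∈ σ, v ≠ w → ∀ a b, G.Adj (j v a) (j w b)
  cliqueU : ∀ v ∈ U, ∀ w ∈ U, v ≠ w → G.Adj (j v true) (j w true)

/-- adjacency in the subdivision -/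
def sdA {n : ℕ} (G : SimpleGraph (Fin n)) (s t : Fin n) (x y : Fin (n + 1)) : Prop :=
  (∃ a b, x = Fin.castSucc a ∧ y = Fin.castSucc b ∧ G.Adj a b ∧ s(a, b) ≠ s(s, t)) ∨
    (x = Fin.last n ∧ ∃ b, y = Fin.castSucc b ∧ (b = s ∨ b = t ∨ (G.Adj s b ∧ G.Adj t b))) ∨
    (y = Fin.last n ∧ ∃ a, x = Fin.castSucc a ∧ (a = s ∨ a = t ∨ (G.Adj s a ∧ G.Adj t a)))

theorem sd_symm {n : ℕ} (G : SimpleGraph (Fin n)) (s t : Fin n) : Std.Symm (sdA G s t) := (LT.sd G s t).symm

theorem sd_loop {n : ℕ} (G : SimpleGraph (Fin n)) (s t : Fin n) : Std.Irrefl (sdA G s t) := (LT.sd G s t).loopless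

/-- The subdivision of the edge `s t` of the graph `G` (of the flag complex of `G`): the new vertex `Fin.last n` is
adjacent to `s`, `t` and the common neighbours of `s` and `t`, and the edge `s t` is deleted. -/
def sd {n : ℕ} (G : SimpleGraph (Fin n)) (s t : Fin n) : SimpleGraph (Fin (n + 1)) where
  Adj := sdA G s t
  symm := sd_symm G s t
  loopless := sd_loop G s t

/-- `Sub G H`: the graph `H` is obtained from `G` by finitely many edge subdivisions. -/
inductive Sub {m : ℕ} (G : SimpleGraph (Fin m)) : ∀ {n : ℕ}, SimpleGraph (Fin n) → Prop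
  | refl : Sub G G
  | step {n : ℕ} (H : SimpleGraph (Fin n)) (s t : Fin n) : H.Adj s t → Sub G H → Sub G (sd H s t)

/-- A finite based free chain complex of left modules over the integral group ring of `G` (chains are row vectors):
`ι` is the set of (orbits of) cells of all dimensions, `D i j` is the coefficient of the cell `j` in the boundary of
the cell `i`. -/
structure BCx (G : Type) [Group G] where
  /-- the cells -/
  ι : Type
  [fin : Fintype ι]
  [dec : DecidableEq ι]
  /-- the dimension of a cell -/
  deg : ι → ℕ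
  /-- the boundary -/
  D : Matrix ι ι (MonoidAlgebra ℤ G)
  D_deg : ∀ i j, D i j ≠ 0 → deg i = deg j + 1
  D_sq : D * D = 0

attribute [instance] BCx.fin BCx.dec

namespace BCx

variable {G H : Type} [Group G] [Group H]

/-- the complex in the other notation, for the proofs -/
def toG (C : BCx G) : GCx G := ⟨C.ι, C.deg, C.D, C.D_deg, C.D_sq⟩

/-- the number of the cells of dimension `n` -/
def cnt (C : BCx G) (n : ℕ) : ℕ := Fintype.card {i : C.ι // C.deg i = n}

/-- the cells of dimension `n`, enumerated -/
def cel (C : BCx G) (n : ℕ) (a : Fin (C.cnt n)) : C.ι := ((Fintype.equivFin {i : C.ι // C.deg i = n}).symm a).1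

/-- the matrix of the boundary of the `(n+1)`-chains -/
def mD (C : BCx G) (n : ℕ) : Matrix (Fin (C.cnt (n + 1))) (Fin (C.cnt n)) (MonoidAlgebra ℤ G) :=
  Matrix.of fun a b => C.D (C.cel (n + 1) a) (C.cel n b)

theorem cnt_zero (C : BCx G) : ∀ n, Finset.univ.sup C.deg < n → C.cnt n = 0 := C.toG.toFree.rank_eq_zero

theorem mD_mD (C : BCx G) : ∀ n, C.mD (n + 1) * C.mD n = 0 := C.toG.toFree.d_comp_d

/-- The complex, one degree at a time. -/
def toFree (C : BCx G) : FreeCx G where
  rank := C.cnt
  dim := Finset.univ.sup C.deg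
  rank_eq_zero := C.cnt_zero
  d := C.mD
  d_comp_d := C.mD_mD

/-- `v` is an `n`-chain -/
def IsCh (C : BCx G) (n : ℕ) (v : C.ι → MonoidAlgebra ℤ G) : Prop := ∀ i, C.deg i ≠ n → v i = 0

/-- the boundary of a chain -/
def bd (C : BCx G) (v : C.ι → MonoidAlgebra ℤ G) : C.ι → MonoidAlgebra ℤ G := v ᵥ* C.D

/-- the `n`-cycles, a positive multiple of which is a boundary -/
def TCy (C : BCx G) (n : ℕ) : Type :=
  {v : C.ι → MonoidAlgebra ℤ G // C.IsCh n v ∧ C.bd v = 0 ∧ ∃ m : ℕ, 0 < m ∧ ∃ u, C.IsCh (n + 1) u ∧ C.bd u = m • v}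

/-- The order of the torsion subgroup of the `n`-th homology group (of the complex of abelian groups): the number of
the classes of the cycles `TCy C n` modulo the boundaries. -/
def tors (C : BCx G) (n : ℕ) : ℕ :=
  Nat.card (Quot fun v w : C.TCy n => ∃ u, C.IsCh (n + 1) u ∧ C.bd u = v.1 - w.1)

/-- the image of the matrix of the boundary over `G ⧸ N` -/
def qD (C : BCx G) (N : Subgroup G) [N.Normal] : Matrix C.ι C.ι (MonoidAlgebra ℤ (G ⧸ N)) :=
  C.D.map (MonoidAlgebra.mapDomainRingHom ℤ (QuotientGroup.mk' N))

theorem qD_deg (C : BCx G) (N : Subgroup G) [N.Normal] : ∀ i j, C.qD N i j ≠ 0 → C.deg i = C.deg j + 1 :=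
  (C.toG.quot N).D_deg

theorem qD_sq (C : BCx G) (N : Subgroup G) [N.Normal] : C.qD N * C.qD N = 0 := (C.toG.quot N).D_sq

/-- The quotient complex over `G ⧸ N`: the chain complex of the quotient space by `N`. -/
def quot (C : BCx G) (N : Subgroup G) [N.Normal] : BCx (G ⧸ N) where
  ι := C.ι
  deg := C.deg
  D := C.qD N
  D_deg := C.qD_deg N
  D_sq := C.qD_sq N

/-- the coefficients of the boundary in a product -/
def pE (C : BCx G) (E : BCx H) (x y : C.ι × E.ι) : MonoidAlgebra ℤ (G × H) :=
  (if x.2 = y.2 then MonoidAlgebra.mapDomainRingHom ℤ (MonoidHom.inl G H) (C.D x.1 y.1) else 0) +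
    (if x.1 = y.1 then (-1) ^ C.deg x.1 * MonoidAlgebra.mapDomainRingHom ℤ (MonoidHom.inr G H) (E.D x.2 y.2) else 0)

theorem pE_deg (C : BCx G) (E : BCx H) :
    ∀ x y, C.pE E x y ≠ 0 → C.deg x.1 + E.deg x.2 = C.deg y.1 + E.deg y.2 + 1 := (C.toG.prod E.toG).D_deg

/-- the matrix of the boundary in a product -/
def pD (C : BCx G) (E : BCx H) : Matrix (C.ι × E.ι) (C.ι × E.ι) (MonoidAlgebra ℤ (G × H)) := Matrix.of (C.pE E)

theorem pD_sq (C : BCx G) (E : BCx H) : C.pD E * C.pD E = 0 := (C.toG.prod E.toG).D_sq

/-- The chain complex of the product of two spaces. -/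
def prod (C : BCx G) (E : BCx H) : BCx (G × H) where
  ι := C.ι × E.ι
  deg x := C.deg x.1 + E.deg x.2
  D := C.pD E
  D_deg := C.pE_deg E
  D_sq := C.pD_sq E

/-- the chain complex of the cube of a space -/
def cube (C : BCx G) : BCx (G × G × G) := C.prod (C.prod C)

/-- the chain complex of the square of a space -/
def square (C : BCx G) : BCx (G × G) := C.prod C

/-- the normalized logarithm of the order of the torsion subgroup of the `n`-th integral homology group of the
covering of the cube of a space with the group `K × K × K` -/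
def rate3 (C : BCx G) (K : Subgroup G) [K.Normal] (n : ℕ) : ℝ :=
  Real.log ((C.cube.quot (K.prod (K.prod K))).tors n) / (K.prod (K.prod K)).index

/-- the normalized logarithm of the order of the torsion subgroup of the `n`-th integral homology group of the
covering of the square of a space with the group `K × K` -/
def rate2 (C : BCx G) (K : Subgroup G) [K.Normal] (n : ℕ) : ℝ :=
  Real.log ((C.square.quot (K.prod K)).tors n) / (K.prod K).index

end BCx

/-- There is a sequence of normal subgroups of finite index with trivial intersection. -/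
def ResFin (G : Type) [Group G] : Prop :=
  ∃ (N : ℕ → Subgroup G) (_ : ∀ i, (N i).Normal), (∀ i, (N i).FiniteIndex) ∧ Antitone N ∧ ⨅ i, N i = ⊥

section davis

variable {V : Type} (G : SimpleGraph V)

open Classical in
theorem th_lift : (cox G).IsLiftable (fun (v u : V) => (if u = v then -1 else 1 : ℤˣ)) :=
  Pool.Agent.W461.SGN.liftable G _ (by intro v; funext u; by_cases h : u = v <;> simp [h])
    (by intro u v _; exact mul_comm _ _)

open Classical in
/-- the homomorphism of the right-angled Coxeter group of `G` to `{1, -1}^V` which maps the generator `v` to the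
vector with only one entry `-1`, at `v` -/
def th : W G →* (V → ℤˣ) := (cox G).toCoxeterSystem.lift ⟨fun v u => if u = v then -1 else 1, th_lift G⟩

theorem th_eq : th G = Pool.Agent.W461.SGN.th G := rfl

/-- The group `Γ`: the kernel of `th G` (it is the commutator subgroup of `W G`). -/
def Gam : Type := (th G).ker

instance instGroupGam : Group (Gam G) := (th G).ker.toGroup

variable [Fintype V]

/-- The set of the vertices whose parity in `w` is odd. -/
def par (w : W G) : Finset V := Finset.univ.filter fun v => th G w v = -1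

/-- The cells: the `Γ`-orbits of the cubes of the Davis complex. -/
def Cel : Type := {c : Finset V × Finset V // G.IsClique (c.1 : Set V) ∧ Disjoint c.1 c.2}

variable [LinearOrder V]

/-- The product of the generators in `A` in increasing order. -/
def rep (A : Finset V) : W G := ((A.sort (· ≤ ·)).map (cox G).simple).prod

theorem rep_mem (w : W G) : w * (rep G (par G w))⁻¹ ∈ (th G).ker := LT.mul_rep_mem G w

/-- `w = gm w * rep (par w)` -/
def gm (w : W G) : Gam G := ⟨w * (rep G (par G w))⁻¹, rep_mem G w⟩

open Classical in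
instance instFinCel : Fintype (Cel G) :=
  inferInstanceAs (Fintype {c : Finset V × Finset V // G.IsClique (c.1 : Set V) ∧ Disjoint c.1 c.2})

instance instDecCel : DecidableEq (Cel G) :=
  inferInstanceAs (DecidableEq {c : Finset V × Finset V // G.IsClique (c.1 : Set V) ∧ Disjoint c.1 c.2})

/-- the coefficients of the two faces of the cube in the direction `t` -/
def fE (A A' : Finset V) (t : V) : MonoidAlgebra ℤ (Gam G) :=
  (if A' = A then 1 else 0) -
    (if A' = insert t A then MonoidAlgebra.single (gm G (rep G A * (cox G).simple t)) 1 else 0)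

/-- the coefficients of the boundary -/
def dE (c c' : Cel G) : MonoidAlgebra ℤ (Gam G) := ∑ t ∈ c.1.1, if c'.1.1 = c.1.1.erase t then
    ((sg t (c.1.1.erase t) : ℤ) : MonoidAlgebra ℤ (Gam G)) * fE G c.1.2 c'.1.2 t else 0

theorem dE_deg : ∀ c c' : Cel G, dE G c c' ≠ 0 → c.1.1.card = c'.1.1.card + 1 := (LT.davis G).D_deg

/-- the matrix of the boundary -/
def dM : Matrix (Cel G) (Cel G) (MonoidAlgebra ℤ (Gam G)) := Matrix.of (dE G)

theorem dM_sq : dM G * dM G = 0 := (LT.davis G).D_sq

/-- The cellular chain complex of the Davis complex of the right-angled Coxeter group `W G` over the kernel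
`Γ = Gam G` of `W G → (ℤ/2)^V`. The cells are the cubes `w W_T`, `T` a clique; the orbits of `Γ` are represented by
the cells `(T, A)`, that is `rep A W_T` with `A` disjoint from `T`. The boundary of a cube `w W_T` is the alternating
sum of `w W_{T - t}` and `- w t W_{T - t}`. -/
def davis : BCx (Gam G) where
  ι := Cel G
  deg c := c.1.1.card
  D := dM G
  D_deg := dE_deg G
  D_sq := dM_sq G

end davis

end Pool.Agent.N496.LT.Lt
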