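import Pool.Agent.N496.LT.L1
import Pool.Agent.N496.LT.AllS

/-!
# Project LT: comparison of the definitions
-/

set_option autoImplicit false

open scoped Matrix

noncomputable section

namespace Pool.Agent.N496.LT.Lt

open Module Filter Topology Pool.Agent.W907.SG Pool.Agent.TH630.Tor
open Pool.Agent.TH652.Above (HSph)

/-- the conversion -/
def Dbl.to {F : Type} [Field F] {V : Type} {G : SimpleGraph V} {d : ℕ} (Z : Dbl F G d) : LT.Dbl F G d :=
  ⟨Z.n, Z.z, Z.j, Z.U, Z.z_ne, Z.z_card, Z.z_cyc, Z.j_ne, Z.j_U, Z.j_adj, Z.clique, Z.cliqueU⟩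

theorem sub_of {m : ℕ} {G : SimpleGraph (Fin m)} {n : ℕ} {H : SimpleGraph (Fin n)} (h : LT.Sub G H) : Sub G H := by
  induction h with
  | refl => exact Sub.refl
  | step H s t h1 _ ih => exact Sub.step H s t h1 ih

theorem rea_eq {V : Type} (G : SimpleGraph V) : Rea G = Pool.Agent.R782.Bal.Rea G := rfl

namespace BCx

variable {G H : Type} [Group G] [Group H]

theorem toFree_eq (C : BCx G) : C.toFree = C.toG.toFree := rfl

theorem quot_toG (C : BCx G) (N : Subgroup G) [N.Normal] : (C.quot N).toG = C.toG.quot N := rfl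

theorem prod_toG (C : BCx G) (E : BCx H) : (C.prod E).toG = C.toG.prod E.toG := rfl

end BCx

section tors

variable {G : Type} [Group G] (C : GCx G) (n : ℕ)

/-- the cycles, a multiple of which is a boundary -/
def TC : Type :=
  {v : C.ι → MonoidAlgebra ℤ G // (∀ i, C.deg i ≠ n → v i = 0) ∧ v ᵥ* C.D = 0 ∧ ∃ m : ℕ, 0 < m ∧
    ∃ u : C.ι → MonoidAlgebra ℤ G, (∀ i, C.deg i ≠ n + 1 → u i = 0) ∧ u ᵥ* C.D = m • v}

theorem mem_bdy (v : C.ι → MonoidAlgebra ℤ G) :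
    v ∈ C.bdy n ↔ ∃ u : C.ι → MonoidAlgebra ℤ G, (∀ i, C.deg i ≠ n + 1 → u i = 0) ∧ u ᵥ* C.D = v := Iff.rfl

/-- the homology class -/
def cls : ↥(C.cyc n) →ₗ[ℤ] (↥(C.cyc n) ⧸ (C.bdy n).submoduleOf (C.cyc n)) :=
  ((C.bdy n).submoduleOf (C.cyc n)).mkQ

theorem cls_eq_zero (z : C.cyc n) : cls C n z = 0 ↔ z.1 ∈ C.bdy n := by
  unfold cls
  rw [Submodule.mkQ_apply, Submodule.Quotient.mk_eq_zero]
  exact Iff.rfl

/-- the cycle -/
def cy (c : TC C n) : C.cyc n := ⟨c.1, c.2.1, c.2.2.1⟩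

theorem cy_val (c : TC C n) : (cy C n c).1 = c.1 := rfl

/-- the torsion class of a cycle -/
def tcl (c : TC C n) : Submodule.torsion ℤ (↥(C.cyc n) ⧸ (C.bdy n).submoduleOf (C.cyc n)) :=
  ⟨cls C n (cy C n c), by
    obtain ⟨m, hm, b, hb, h⟩ := c.2.2.2
    rw [Submodule.mem_torsion_iff]
    refine ⟨⟨(m : ℤ), mem_nonZeroDivisors_of_ne_zero (by exact_mod_cast hm.ne')⟩, ?_⟩
    show (m : ℤ) • cls C n (cy C n c) = 0
    rw [← map_smul, cls_eq_zero, mem_bdy]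
    refine ⟨b, hb, ?_⟩
    rw [h]
    exact (natCast_zsmul _ _).symm⟩

theorem tcl_eq_iff (c d : TC C n) :
    tcl C n c = tcl C n d ↔ ∃ u : C.ι → MonoidAlgebra ℤ G, (∀ i, C.deg i ≠ n + 1 → u i = 0) ∧
      u ᵥ* C.D = c.1 - d.1 := by
  have h1 : tcl C n c = tcl C n d ↔ cls C n (cy C n c) = cls C n (cy C n d) :=
    ⟨fun h => congrArg Subtype.val h, fun h => Subtype.ext h⟩
  rw [h1, ← sub_eq_zero, ← map_sub, cls_eq_zero, mem_bdy]
  exact Iff.rfl

theorem torsOrder_eq : Nat.card (Quot fun v w : TC C n => ∃ u : C.ι → MonoidAlgebra ℤ G,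
    (∀ i, C.deg i ≠ n + 1 → u i = 0) ∧ u ᵥ* C.D = v.1 - w.1) = C.torsOrder n := by
  unfold GCx.torsOrder Pool.Agent.Helper993.Delta.torsionCard
  refine Nat.card_congr (Equiv.ofBijective (Quot.lift (tcl C n) fun c d h => (tcl_eq_iff C n c d).2 h) ⟨?_, ?_⟩)
  · rintro ⟨c⟩ ⟨d⟩ h
    exact Quot.sound ((tcl_eq_iff C n c d).1 h)
  · rintro ⟨x, hx⟩
    obtain ⟨z, rfl⟩ := Submodule.mkQ_surjective ((C.bdy n).submoduleOf (C.cyc n)) x
    have hx' := hx
    rw [Submodule.mem_torsion_iff] at hx'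
    obtain ⟨⟨a, ha⟩, h1⟩ := hx'
    have ha0 : a ≠ 0 := nonZeroDivisors.ne_zero ha
    have h2 : cls C n (a • z) = 0 := by
      rw [map_smul]
      exact h1
    have h3 : cls C n (((a.natAbs : ℕ) : ℤ) • z) = 0 := by
      rw [map_smul] at h2 ⊢
      rcases Int.natAbs_eq a with h | h
      · rw [← h, h2]
      · rw [h, neg_smul, neg_eq_zero] at h2
        exact h2
    rw [cls_eq_zero, mem_bdy] at h3
    obtain ⟨b, hb, h3⟩ := h3
    refine ⟨Quot.mk _ ⟨z.1, z.2.1, z.2.2, a.natAbs, Int.natAbs_pos.2 ha0, b, hb, ?_⟩, ?_⟩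
    · rw [h3]
      exact (natCast_zsmul _ _)
    · rfl

end tors

theorem BCx.tors_eq {G : Type} [Group G] (C : BCx G) (n : ℕ) : C.tors n = C.toG.torsOrder n :=
  torsOrder_eq C.toG n


section davis

variable {V : Type} [Fintype V] [LinearOrder V] (G : SimpleGraph V)

theorem davis_toG : (davis G).toG = LT.davis G := rfl

end davis

end Pool.Agent.N496.LT.Lt
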