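import Pool.Agent.N496.LT.Stm

/-!
# Project LT: the main theorem from the statements
-/

set_option autoImplicit false

open scoped Matrix

noncomputable section

namespace Pool.Agent.N496.LT

open Module Filter Topology Pool.Agent.W907.SG Pool.Agent.TH630.Tor Pool.Agent.W461.SGN Pool.Agent.R782.Bal
open Pool.Agent.TH652.Above (HSph)
open Pool.Agent.Y132.SI (aa ev ev_one ev_mul ev_free aa_inv aa_comm)

/-- first half of `P5` -/
def P5A : Prop := ∀ (G H : Type) [Group G] [Group H] (C : GCx G) (E : GCx H), ResFin G → ResFin H →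
    C.toFree.DetL2Acyclic → (C.prod E).toFree.DetL2Acyclic

/-- second half of `P5` -/
def P5B : Prop := ∀ (G H : Type) [Group G] [Group H] (C : GCx G) (E : GCx H),
    C.toFree.DetL2Acyclic → E.toFree.DetL2Acyclic → (C.prod E).toFree.DetL2Acyclic →
    (C.prod E).toFree.l2torsion = 0

theorem resFin_prod {G H : Type} [Group G] [Group H] (hG : ResFin G) (hH : ResFin H) : ResFin (G × H) := by
  obtain ⟨N, hN, hf, ha, hi⟩ := hG
  obtain ⟨N', hN', hf', ha', hi'⟩ := hH
  refine ⟨fun i => (N i).prod (N' i), fun i => inferInstance, fun i => ?_, ?_, ?_⟩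
  · constructor
    rw [Subgroup.index_prod]
    exact mul_ne_zero (hf i).index_ne_zero (hf' i).index_ne_zero
  · intro i j hij x hx
    rw [Subgroup.mem_prod] at hx ⊢
    exact ⟨ha hij hx.1, ha' hij hx.2⟩
  · rw [eq_bot_iff]
    intro x hx
    rw [Subgroup.mem_iInf] at hx
    rw [Subgroup.mem_bot]
    have h1 : x.1 ∈ ⨅ i, N i := by
      rw [Subgroup.mem_iInf]
      exact fun i => (Subgroup.mem_prod.1 (hx i)).1
    have h2 : x.2 ∈ ⨅ i, N' i := by
      rw [Subgroup.mem_iInf]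
      exact fun i => (Subgroup.mem_prod.1 (hx i)).2
    rw [hi, Subgroup.mem_bot] at h1
    rw [hi', Subgroup.mem_bot] at h2
    exact Prod.ext h1 h2

section index

variable {V : Type} [Fintype V] [LinearOrder V] (G : SimpleGraph V)

theorem th_surj : Function.Surjective (th G) := by
  intro χ
  refine ⟨rep G (Finset.univ.filter fun v => χ v = -1), ?_⟩
  funext v
  rw [th_rep]
  rcases Int.units_eq_one_or (χ v) with h | h
  · rw [if_neg (by simp [h]), h]
  · rw [if_pos (by simp [h]), h]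

theorem index_th : (th G).ker.index = 2 ^ Fintype.card V := by
  rw [Subgroup.index_ker, MonoidHom.range_eq_top.2 (th_surj G)]
  rw [Nat.card_congr (Subgroup.topEquiv (G := V → ℤˣ)).toEquiv, Nat.card_eq_fintype_card, Fintype.card_fun]
  rfl

/-- eventually the conjugates of a nontrivial element are not in the subgroups -/
theorem ev_avoid (K : ℕ → Subgroup (th G).ker) [∀ i, (K i).Normal] (ha : Antitone K) (hi : ⨅ i, K i = ⊥)
    (g : W G) (hg : g ≠ 1) : ∀ᶠ i in atTop, ∀ x : W G, x * g * x⁻¹ ∉ (K i).map (th G).ker.subtype := by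
  have h1 : ∀ A : Finset V, ∀ᶠ i in atTop, rep G A * g * (rep G A)⁻¹ ∉ (K i).map (th G).ker.subtype := by
    intro A
    have h2 : ∃ i, rep G A * g * (rep G A)⁻¹ ∉ (K i).map (th G).ker.subtype := by
      by_contra h3
      push Not at h3
      obtain ⟨y, -, hy⟩ := h3 0
      have h4 : y ∈ ⨅ i, K i := by
        rw [Subgroup.mem_iInf]
        intro i
        obtain ⟨z, hz, hz'⟩ := h3 i
        have : y = z := Subtype.ext (hy.trans hz'.symm)
        rw [this]
        exact hz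
      rw [hi, Subgroup.mem_bot] at h4
      rw [h4, map_one] at hy
      apply hg
      have := congrArg (fun t => (rep G A)⁻¹ * t * rep G A) hy
      simpa [mul_assoc] using this.symm
    obtain ⟨i, hi⟩ := h2
    filter_upwards [eventually_ge_atTop i] with j hj h5
    apply hi
    obtain ⟨z, hz, hz'⟩ := h5
    exact ⟨z, ha hj hz, hz'⟩
  have h2 : ∀ᶠ i in atTop, ∀ A : Finset V, rep G A * g * (rep G A)⁻¹ ∉ (K i).map (th G).ker.subtype :=
    Filter.eventually_all.2 h1
  filter_upwards [h2] with i hi2 x hx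
  apply hi2 (par G x)
  obtain ⟨z, hz, hz'⟩ := hx
  have h3 : x = (gm G x : W G) * rep G (par G x) := by
    show x = x * (rep G (par G x))⁻¹ * rep G (par G x)
    group
  refine ⟨(gm G x)⁻¹ * z * gm G x, ?_, ?_⟩
  · have := (inferInstance : (K i).Normal).conj_mem z hz (gm G x)⁻¹
    rwa [inv_inv] at this
  · rw [map_mul, map_mul, hz', map_inv]
    show (gm G x : W G)⁻¹ * (x * g * x⁻¹) * (gm G x : W G) = _
    obtain ⟨γ, hγ⟩ : ∃ γ : W G, γ = (gm G x : W G) := ⟨_, rfl⟩
    obtain ⟨r, hr⟩ : ∃ r : W G, r = rep G (par G x) := ⟨_, rfl⟩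
    rw [← hγ, ← hr] at h3 ⊢
    rw [h3]
    group

end index

section growth

variable {d N : ℕ} {X : Finset (Finset (Fin N))} {col : Fin N → Fin (d + 1)}

theorem l2van_all (hX : ∀ σ ∈ X, ∀ τ : Finset (Fin N), τ ⊆ σ → τ ∈ X)
    (hm : ∀ σ ∈ X, (∀ v ∈ σ, ∀ w ∈ σ, col v = col w) → σ.card ≤ 2) (hE : EmbX d X col)
    [Fintype (MF X col)] [LinearOrder (MF X col)] (hS : HSph (2 * d + 1) (cs X col)) (i : ℕ) :
    L2Van (cs X col) i := by
  refine singer_cs (Or.inr rfl) hX ⟨fun _ => 1, by simp, fun σ hσ c hc => ?_⟩ hE hS i (by omega)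
  exact hm σ hσ fun v hv w hw => (hc v hv).trans (hc w hw).symm

/-- the cliques consisting of original vertices have at most `d + 1` elements -/
theorem clique_card [Fintype (MF X col)] [LinearOrder (MF X col)] (T : Finset (MF X col))
    (hT : (cs X col).IsClique (T : Set (MF X col))) (hA : (T : Set (MF X col)) ⊆ {σ | σ.1.card = 1}) :
    T.card ≤ d + 1 := by
  classical
  have h1 : ∀ σ ∈ T, ∃ v : Fin N, σ.1 = {v} := fun σ hσ => Finset.card_eq_one.1 (hA hσ)
  have hne : ∀ σ : MF X col, ∃ v : Fin N, v ∈ σ.1 := fun σ => σ.2.2.1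
  choose f hf using hne
  have h2 : Set.InjOn (fun σ => col (f σ)) (T : Set (MF X col)) := by
    intro σ hσ τ hτ h
    by_contra hst
    have h3 := hT hσ hτ hst
    obtain ⟨v, hv⟩ := h1 σ hσ
    obtain ⟨w, hw⟩ := h1 τ hτ
    have h4 : f σ = v := by have := hf σ; rw [hv, Finset.mem_singleton] at this; exact this
    have h5 : f τ = w := by have := hf τ; rw [hw, Finset.mem_singleton] at this; exact this
    have h6 := h3.2.2 (by
      intro a ha b hb
      rw [hv, Finset.mem_singleton] at ha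
      rw [hw, Finset.mem_singleton] at hb
      rw [ha, hb, ← h4, ← h5]
      exact h)
    have h7 : σ.1 = τ.1 := by
      rw [hv, hw] at h6 ⊢
      rcases h6 with h6 | h6
      · rw [Finset.singleton_subset_singleton] at h6; rw [h6]
      · rw [Finset.singleton_subset_singleton] at h6; rw [h6]
    exact hst (Subtype.ext h7)
  have h3 : (T.image fun σ => col (f σ)).card = T.card := Finset.card_image_of_injOn h2
  rw [← h3]
  exact (Finset.card_le_univ _).trans (by simp)

theorem KK_eq_bot {F M : Type} [Field F] [AddCommGroup M] [Module F M] [Fintype (MF X col)]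
    [LinearOrder (MF X col)] (ρ : MF X col → M →ₗ[F] M) (i : ℕ) (hi : d + 1 < i) :
    KK (cs X col) ρ {σ | σ.1.card = 1} ∅ i = ⊥ := by
  rw [eq_bot_iff]
  intro c hc
  rw [Submodule.mem_bot]
  funext T
  refine hc.1 T ?_
  rintro ⟨h1, h2, h3⟩
  have := clique_card T h1 h2
  omega

/-- the `W`-set `H \ W` -/
def fset {V : Type} (G : SimpleGraph V) (H : Subgroup (W G)) (E : Finset (W G))
    (h : ∀ g ∈ E, ∀ x : W G, x * g * x⁻¹ ∉ H) : FSet G E (Quotient (QuotientGroup.rightRel H)) where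
  a := aa G H
  ev := ev G H
  inv := aa_inv G H
  comm u v h x := aa_comm G H u v h x
  ev_one := ev_one G H
  ev_mul := ev_mul G H
  ev_simple _ _ := rfl
  free g hg x := ev_free G H (h g hg) x

theorem growth_tp (hP1 : P1) (hP2 : P2) (hP3 : P3A) (hP4 : P4B)
    (hX : ∀ σ ∈ X, ∀ τ : Finset (Fin N), τ ⊆ σ → τ ∈ X)
    (hm : ∀ σ ∈ X, (∀ v ∈ σ, ∀ w ∈ σ, col v = col w) → σ.card ≤ 2) (hE : EmbX d X col)
    [Fintype (MF X col)] [LinearOrder (MF X col)] (hS : HSph (2 * d + 1) (cs X col))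
    (p : ℕ) [Fact p.Prime] (hp : p ≠ 2) (Z : Dbl (ZMod p) (cs X col) d) (hZ : ∀ v b, (Z.j v b).1.card = 1)
    (K : ℕ → Subgroup (th (cs X col)).ker) [∀ i, (K i).Normal] (hf : ∀ i, (K i).FiniteIndex) (ha : Antitone K)
    (hi : ⨅ i, K i = ⊥) (c : ℝ) (hc : c < 2 ^ Fintype.card (MF X col) / 2 ^ Z.U.card) :
    ∀ᶠ i in atTop, ∀ [Fintype ((th (cs X col)).ker ⧸ K i)],
      c * (K i).index ≤ ((davis (cs X col)).quot (K i)).tp p d := by
  classical
  have h2 : (2 : ZMod p) ≠ 0 := by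
    intro h
    have h3 : ((2 : ℕ) : ZMod p) = 0 := by exact_mod_cast h
    rw [ZMod.natCast_eq_zero_iff] at h3
    exact hp ((Nat.prime_dvd_prime_iff_eq (Fact.out) Nat.prime_two).1 h3)
  obtain ⟨δ, hδ⟩ : ∃ δ : ℝ, δ = (1 / 2) ^ Z.U.card - c / 2 ^ Fintype.card (MF X col) := ⟨_, rfl⟩
  have h2V : (0 : ℝ) < 2 ^ Fintype.card (MF X col) := by positivity
  have hδ0 : 0 < δ := by
    rw [hδ, sub_pos, div_lt_iff₀ h2V]
    calc c < 2 ^ Fintype.card (MF X col) / 2 ^ Z.U.card := hc
      _ = (1 / 2) ^ Z.U.card * 2 ^ Fintype.card (MF X col) := by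
          rw [one_div, inv_pow]; ring
  obtain ⟨m, hmm⟩ := exists_nat_gt (4 / δ)
  have hm0 : (0 : ℝ) < m := lt_trans (by positivity) hmm
  obtain ⟨E1, hE1, g1⟩ := hP1 (MF X col) (ZMod p) (cs X col) d Z (δ / 4) h2 (by positivity)
  obtain ⟨E2, hE2, g2⟩ := hP2 N (d + 1) (ZMod p) X col hX hm (δ / 4) h2 (by positivity)
  obtain ⟨E3, hE3, g3⟩ := small (MF X col) (cs X col) (d + 1) (l2van_all hX hm hE hS _) m
  have hev : ∀ᶠ i in atTop, ∀ g ∈ E1 ∪ E2 ∪ E3, ∀ x : W (cs X col),
      x * g * x⁻¹ ∉ (K i).map (th (cs X col)).ker.subtype := by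
    rw [Filter.eventually_all_finset]
    intro g hg
    refine ev_avoid (cs X col) K ha hi g ?_
    rintro rfl
    simp only [Finset.mem_union] at hg
    tauto
  filter_upwards [hev] with i hav
  intro inst
  obtain ⟨H, hH⟩ : ∃ H, H = (K i).map (th (cs X col)).ker.subtype := ⟨_, rfl⟩
  rw [← hH] at hav
  have hidx : H.index = (K i).index * 2 ^ Fintype.card (MF X col) := by
    rw [hH, Subgroup.index_map_subtype, index_th]
  have : H.FiniteIndex := ⟨by rw [hidx]; exact mul_ne_zero (hf i).index_ne_zero (by positivity)⟩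
  have : Finite (Quotient (QuotientGroup.rightRel H)) :=
    Finite.of_equiv _ (QuotientGroup.quotientRightRelEquivQuotientLeftRel H).symm
  letI : Fintype (Quotient (QuotientGroup.rightRel H)) := Fintype.ofFinite _
  have hcard : (Fintype.card (Quotient (QuotientGroup.rightRel H)) : ℝ) =
      (K i).index * 2 ^ Fintype.card (MF X col) := by
    rw [← Nat.card_eq_fintype_card, Nat.card_congr (QuotientGroup.quotientRightRelEquivQuotientLeftRel H)]
    show ((H.index : ℕ) : ℝ) = _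
    rw [hidx]
    push_cast
    rfl
  obtain ⟨Yc, hYc⟩ : ∃ y : ℝ, y = (Fintype.card (Quotient (QuotientGroup.rightRel H)) : ℝ) := ⟨_, rfl⟩
  have hYc0 : 0 ≤ Yc := by rw [hYc]; positivity
  -- the three estimates
  have e1 := g1 _ (fset (cs X col) H E1 fun g hg => hav g (by simp [hg])) {σ | σ.1.card = 1} hZ
  have e2 := g2 _ (fset (cs X col) H E2 fun g hg => hav g (by simp [hg]))
  have e3 := g3 _ (aa (cs X col) H) (ev (cs X col) H) (aa_inv (cs X col) H) (fun u v h x => aa_comm (cs X col) H u v h x)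
    (ev_one (cs X col) H) (ev_mul (cs X col) H) (fun _ _ => rfl)
    (fun g hg x => ev_free (cs X col) H (hav g (by simp [hg])) x)
  have e1' : beta (cs X col) (pull (ZMod p) (aa (cs X col) H)) {σ | σ.1.card = 1} ∅ (d + 1) =
      finrank (ZMod p) (Pool.Agent.W907.SG.ZZ (cs X col) (pull (ZMod p) (aa (cs X col) H)) {σ | σ.1.card = 1} ∅ (d + 1)) := by
    unfold beta BB
    rw [KK_eq_bot _ (d + 1 + 1) (by omega), Submodule.map_bot, finrank_bot, Nat.sub_zero]
  have e1'' : beta (cs X col) (pull (ZMod p) (aa (cs X col) H)) {σ | σ.1.card = 1} ∅ (d + 2) = 0 := by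
    unfold beta Pool.Agent.W907.SG.ZZ
    rw [KK_eq_bot _ (d + 2) (by omega), bot_inf_eq, finrank_bot, Nat.zero_sub]
  have f1 := (abs_le.1 (e2 (d + 1))).1
  have f2 := (abs_le.1 (e2 (d + 2))).2
  change -(δ / 4 * _) ≤ (beta (cs X col) (pull (ZMod p) (aa (cs X col) H)) Set.univ ∅ (d + 1) : ℝ) -
    (beta (cs X col) (pull (ZMod p) (aa (cs X col) H)) {σ | σ.1.card = 1} ∅ (d + 1) : ℝ) at f1
  change (beta (cs X col) (pull (ZMod p) (aa (cs X col) H)) Set.univ ∅ (d + 2) : ℝ) -
    (beta (cs X col) (pull (ZMod p) (aa (cs X col) H)) {σ | σ.1.card = 1} ∅ (d + 2) : ℝ) ≤ δ / 4 * _ at f2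
  change _ ≤ (finrank (ZMod p) (Pool.Agent.W907.SG.ZZ (cs X col) (pull (ZMod p) (aa (cs X col) H)) {σ | σ.1.card = 1} ∅ (d + 1)) : ℝ)
    at e1
  rw [← e1', ← hYc] at e1
  rw [e1'', Nat.cast_zero, sub_zero, ← hYc] at f2
  rw [← hYc] at f1
  have f3 : (beta (cs X col) (pull ℝ (aa (cs X col) H)) Set.univ ∅ (d + 1) : ℝ) ≤ δ / 4 * Yc := by
    have h5 : (m : ℝ) * beta (cs X col) (pull ℝ (aa (cs X col) H)) Set.univ ∅ (d + 1) ≤ Yc := by
      rw [hYc]; exact_mod_cast e3
    have h6 : 1 ≤ m * (δ / 4) := by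
      rw [div_lt_iff₀ hδ0] at hmm
      linarith
    have h7 : (beta (cs X col) (pull ℝ (aa (cs X col) H)) Set.univ ∅ (d + 1) : ℝ) ≤ Yc / m := by
      rw [le_div_iff₀ hm0]; linarith
    refine h7.trans ?_
    rw [div_le_iff₀ hm0]
    nlinarith
  -- ranks
  subst hH
  obtain ⟨-, -, h8⟩ := hP3 _ ((davis (cs X col)).quot (K i)) p d
  rw [hP4 (MF X col) (ZMod p) (cs X col) (K i) (d + 1) h2, hP4 (MF X col) (ZMod p) (cs X col) (K i) (d + 2) h2,
    hP4 (MF X col) ℝ (cs X col) (K i) (d + 1) two_ne_zero] at h8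
  have h9 := (Int.cast_le (R := ℝ)).2 h8
  push_cast at h9
  rw [hcard] at hYc
  have h10 : c * (K i).index = ((1 / 2) ^ Z.U.card - δ) * Yc := by
    rw [hδ, hYc]
    field_simp
    ring
  rw [h10]
  linarith

end growth

theorem index3 {G : Type} [Group G] (N : Subgroup G) : (N.prod (N.prod N)).index = N.index ^ 3 := by
  rw [Subgroup.index_prod, Subgroup.index_prod]
  ring

theorem main3 (hP1 : P1) (hP2 : P2) (hP3 : P3A) (hP3T : P3T) (hP4 : P4B) (hR : P4R) (hA : P4A) (hP5A : P5A)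
    (hP5B : P5B) : Main3 := by
  intro d N X col hX hm hE _ _ hS p _ hp Z hZ
  have hres : ResFin (th (cs X col)).ker := hR (MF X col) (cs X col)
  have hac : (davis (cs X col)).toFree.DetL2Acyclic :=
    hA (MF X col) (cs X col) fun i => l2van_all hX hm hE hS i
  have hac2 := hP5A _ _ (davis (cs X col)) (davis (cs X col)) hres hres hac
  have hac3 := hP5A _ _ (davis (cs X col)) ((davis (cs X col)).prod (davis (cs X col))) hres (resFin_prod hres hres) hac
  refine ⟨hres, hac, hac3, hP5B _ _ _ _ hac hac2 hac3, ?_⟩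
  intro K _ hf ha hi c hc0 hc
  filter_upwards [growth_tp hP1 hP2 hP3 hP4 hX hm hE hS p hp Z hZ K hf ha hi c hc] with i h1
  have : Finite ((th (cs X col)).ker ⧸ K i) := @Subgroup.finite_quotient_of_finiteIndex _ _ _ (hf i)
  let _ : Fintype ((th (cs X col)).ker ⧸ K i) := Fintype.ofFinite _
  have h2 := h1
  have h3 := hP3T _ (davis (cs X col)) (K i) p d
  obtain ⟨t, ht⟩ : ∃ t, t = ((davis (cs X col)).quot (K i)).tp p d := ⟨_, rfl⟩
  obtain ⟨T, hT⟩ : ∃ T, T = (((davis (cs X col)).prod ((davis (cs X col)).prod (davis (cs X col)))).quot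
          ((K i).prod ((K i).prod (K i)))).torsOrder (3 * d + 1) := ⟨_, rfl⟩
  rw [← ht] at h2 h3
  rw [← hT] at h3 ⊢
  have hp1 : (1 : ℝ) < p := by exact_mod_cast (Fact.out : p.Prime).one_lt
  have hlog : 0 ≤ Real.log p := Real.log_nonneg hp1.le
  have hidx : (0 : ℝ) < (K i).index := by
    exact_mod_cast Nat.pos_of_ne_zero (hf i).index_ne_zero
  rw [index3, Nat.cast_pow, le_div_iff₀ (by positivity)]
  calc c ^ 3 * Real.log p * ((K i).index : ℝ) ^ 3 = (c * (K i).index) ^ 3 * Real.log p := by ring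
    _ ≤ (t : ℝ) ^ 3 * Real.log p := by
        refine mul_le_mul_of_nonneg_right (pow_le_pow_left₀ (by positivity) h2 3) hlog
    _ = Real.log ((p : ℝ) ^ (t ^ 3)) := by rw [Real.log_pow]; push_cast; ring
    _ ≤ Real.log T := by
        refine Real.log_le_log (by positivity) ?_
        exact_mod_cast h3

theorem main2 (hP1 : P1) (hP2 : P2) (hP3 : P3A) (hP3S : P3S) (hP4 : P4B) (hR : P4R) : Main2 := by
  intro d N X col hX hm hE _ _ hS p _ hp Z hZ
  have hres : ResFin (th (cs X col)).ker := hR (MF X col) (cs X col)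
  refine ⟨hres, ?_⟩
  intro K _ hf ha hi c hc0 hc
  filter_upwards [growth_tp hP1 hP2 hP3 hP4 hX hm hE hS p hp Z hZ K hf ha hi c hc] with i h1
  intro n hn
  have : Finite ((th (cs X col)).ker ⧸ K i) := @Subgroup.finite_quotient_of_finiteIndex _ _ _ (hf i)
  let _ : Fintype ((th (cs X col)).ker ⧸ K i) := Fintype.ofFinite _
  have h2 := h1
  have h3 : p ^ ((davis (cs X col)).quot (K i)).tp p d ^ 2 ≤ (((davis (cs X col)).prod (davis (cs X col))).quot
      ((K i).prod (K i))).torsOrder n := by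
    rcases hn with rfl | rfl
    · exact (hP3S _ (davis (cs X col)) (K i) p d).1
    · exact (hP3S _ (davis (cs X col)) (K i) p d).2
  obtain ⟨t, ht⟩ : ∃ t, t = ((davis (cs X col)).quot (K i)).tp p d := ⟨_, rfl⟩
  obtain ⟨T, hT⟩ : ∃ T, T = (((davis (cs X col)).prod (davis (cs X col))).quot
      ((K i).prod (K i))).torsOrder n := ⟨_, rfl⟩
  rw [← ht] at h2 h3
  rw [← hT] at h3 ⊢
  have hp1 : (1 : ℝ) < p := by exact_mod_cast (Fact.out : p.Prime).one_lt
  have hlog : 0 ≤ Real.log p := Real.log_nonneg hp1.le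
  have hidx : (0 : ℝ) < (K i).index := by
    exact_mod_cast Nat.pos_of_ne_zero (hf i).index_ne_zero
  rw [Subgroup.index_prod, Nat.cast_mul, le_div_iff₀ (by positivity)]
  calc c ^ 2 * Real.log p * ((K i).index * (K i).index : ℝ) = (c * (K i).index) ^ 2 * Real.log p := by ring
    _ ≤ (t : ℝ) ^ 2 * Real.log p := by
        refine mul_le_mul_of_nonneg_right (pow_le_pow_left₀ (by positivity) h2 2) hlog
    _ = Real.log ((p : ℝ) ^ (t ^ 2)) := by rw [Real.log_pow]; push_cast; ring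
    _ ≤ Real.log T := by
        refine Real.log_le_log (by positivity) ?_
        exact_mod_cast h3

end Pool.Agent.N496.LT
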