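import Pool.Agent.N496.LT.Stm

/-!
# Project LT, second part: statements

Edge subdivisions of flag complexes, and extension of colourings.
-/

set_option autoImplicit false

noncomputable section

namespace Pool.Agent.N496.LT

open Module Filter Topology Pool.Agent.W907.SG Pool.Agent.TH630.Tor Pool.Agent.W461.SGN Pool.Agent.R782.Bal
open Pool.Agent.TH652.Above (HSph)
open Pool.Agent.Y132.SI (aa)

/-- The subdivision of the edge `s t` of the graph `G` (of the flag complex of `G`): the new vertex `Fin.last n` is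
adjacent to `s`, `t` and the common neighbours of `s` and `t`, and the edge `s t` is deleted. -/
def sd {n : ℕ} (G : SimpleGraph (Fin n)) (s t : Fin n) : SimpleGraph (Fin (n + 1)) where
  Adj x y := (∃ a b, x = Fin.castSucc a ∧ y = Fin.castSucc b ∧ G.Adj a b ∧ s(a, b) ≠ s(s, t)) ∨
    (x = Fin.last n ∧ ∃ b, y = Fin.castSucc b ∧ (b = s ∨ b = t ∨ (G.Adj s b ∧ G.Adj t b))) ∨
    (y = Fin.last n ∧ ∃ a, x = Fin.castSucc a ∧ (a = s ∨ a = t ∨ (G.Adj s a ∧ G.Adj t a)))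
  symm := ⟨by
    rintro x y (⟨a, b, h1, h2, h3, h4⟩ | h | h)
    · exact Or.inl ⟨b, a, h2, h1, h3.symm, by rwa [Sym2.eq_swap]⟩
    · exact Or.inr (Or.inr h)
    · exact Or.inr (Or.inl h)⟩
  loopless := ⟨by
    rintro x (⟨a, b, h1, h2, h3, -⟩ | ⟨h, b, h2, -⟩ | ⟨h, b, h2, -⟩)
    · rw [h1] at h2
      rw [Fin.castSucc_injective _ h2] at h3
      exact G.loopless.irrefl _ h3
    · rw [h] at h2
      exact (Fin.castSucc_lt_last b).ne h2.symm
    · rw [h] at h2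
      exact (Fin.castSucc_lt_last b).ne h2.symm⟩

/-- `Sub G H`: the graph `H` is obtained from `G` by finitely many edge subdivisions. -/
inductive Sub {m : ℕ} (G : SimpleGraph (Fin m)) : ∀ {n : ℕ}, SimpleGraph (Fin n) → Prop
  | refl : Sub G G
  | step {n : ℕ} (H : SimpleGraph (Fin n)) (s t : Fin n) : H.Adj s t → Sub G H → Sub G (sd H s t)

/-- The same operation for graphs on the natural numbers, all the edges of which have ends `< n`, with new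
vertex `n`. -/
def sdN (G : SimpleGraph ℕ) (n s t : ℕ) : SimpleGraph ℕ where
  Adj x y := (x ≠ n ∧ y ≠ n ∧ G.Adj x y ∧ s(x, y) ≠ s(s, t)) ∨
    (x = n ∧ y ≠ n ∧ (y = s ∨ y = t ∨ (G.Adj s y ∧ G.Adj t y))) ∨
    (y = n ∧ x ≠ n ∧ (x = s ∨ x = t ∨ (G.Adj s x ∧ G.Adj t x)))
  symm := ⟨by
    rintro x y (⟨h1, h2, h3, h4⟩ | h | h)
    · exact Or.inl ⟨h2, h1, h3.symm, by rwa [Sym2.eq_swap]⟩
    · exact Or.inr (Or.inr h)
    · exact Or.inr (Or.inl h)⟩
  loopless := ⟨by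
    rintro x (⟨h1, h2, h3, -⟩ | ⟨h, h1, -⟩ | ⟨h, h1, -⟩)
    · exact G.loopless.irrefl _ h3
    · exact h1 h
    · exact h1 h⟩

/-- iterated subdivisions of graphs on the natural numbers -/
inductive SubN (m : ℕ) (G : SimpleGraph ℕ) : ℕ → SimpleGraph ℕ → Prop
  | refl : SubN m G m G
  | step (n : ℕ) (H : SimpleGraph ℕ) (s t : ℕ) : H.Adj s t → SubN m G n H → SubN m G (n + 1) (sdN H n s t)

/-- all the edges have ends `< n` -/
def Bd (n : ℕ) (G : SimpleGraph ℕ) : Prop := ∀ x y, G.Adj x y → x < n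

/-- C1: removing one monochromatic edge `a b` by edge subdivisions, without creating new monochromatic edges -/
def C1 : Prop := ∀ (m r n : ℕ) (G : SimpleGraph ℕ) (κ : ℕ → ℕ) (a b : ℕ), Bd n G → G.Adj a b → κ a < r → κ b < r →
    (∀ Q : Finset ℕ, G.IsClique (Q : Set ℕ) → (∀ x ∈ Q, G.Adj a x ∧ G.Adj b x ∧ r ≤ κ x) → Q.card ≤ m) →
    (∀ x y, G.Adj a x → G.Adj b x → G.Adj a y → G.Adj b y → r ≤ κ x → κ x = κ y → ¬ G.Adj x y) →
    ∃ (n' : ℕ) (G' : SimpleGraph ℕ) (κ' : ℕ → ℕ), n < n' ∧ SubN n G n' G' ∧ Bd n' G' ∧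
      (∀ x, x < n → κ' x = κ x) ∧ (∀ x, n ≤ x → x < n' → r ≤ κ' x ∧ κ' x ≤ r + m) ∧
      (∀ x y, x < n → y < n → (G'.Adj x y ↔ G.Adj x y ∧ s(x, y) ≠ s(a, b))) ∧
      (∀ x y, x < n → n ≤ y → G'.Adj x y → x = a ∨ x = b ∨ (G.Adj a x ∧ G.Adj b x)) ∧
      (∀ x y, n ≤ y → G'.Adj x y → κ' x ≠ κ' y)

/-- C2: all the monochromatic edges (of colour `0`) -/
def C2 : Prop := ∀ (d N : ℕ) (H : SimpleGraph ℕ) (κ : ℕ → ℕ), 1 ≤ d → Bd N H →
    (∀ Q : Finset ℕ, H.IsClique (Q : Set ℕ) → Q.card ≤ 2 * d + 1) → (∀ x, κ x ≤ 2 * d) →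
    (∀ x y, H.Adj x y → κ x = κ y → κ x = 0) →
    ∃ (n : ℕ) (G : SimpleGraph ℕ) (κ' : ℕ → ℕ), N ≤ n ∧ SubN N H n G ∧ Bd n G ∧ (∀ x, x < N → κ' x = κ x) ∧
      (∀ x, κ' x ≤ 2 * d) ∧ (∀ x y, G.Adj x y → κ' x ≠ κ' y) ∧
      (∀ x y, x < N → y < N → (G.Adj x y ↔ H.Adj x y ∧ κ x ≠ κ y))

/-- every vertex `m` outside of `A` is the midpoint of a subdivided edge `s t` with ends in `A` -/
def MidP {V : Type} (G : SimpleGraph V) (A : Set V) : Prop := ∀ m, m ∉ A → ∃ s ∈ A, ∃ t ∈ A, s ≠ t ∧ ¬ G.Adj s t ∧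
    G.Adj m s ∧ G.Adj m t ∧ ∀ u, G.Adj m u → u ≠ s → u ≠ t → G.Adj u s ∧ G.Adj u t

/-- C3: subdividing the monochromatic edges if there are no monochromatic triangles -/
def C3 : Prop := ∀ (n : ℕ) (G : SimpleGraph ℕ) (col : ℕ → ℕ), Bd n G →
    (∀ x y z, G.Adj x y → G.Adj y z → G.Adj x z → col x = col y → col y ≠ col z) →
    ∃ (n' : ℕ) (G' : SimpleGraph ℕ), n ≤ n' ∧ SubN n G n' G' ∧ Bd n' G' ∧
      (∀ x y, x < n → y < n → (G'.Adj x y ↔ G.Adj x y ∧ col x ≠ col y)) ∧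
      (∀ m, n ≤ m → m < n' → ∃ s t, s < n ∧ t < n ∧ s ≠ t ∧ ¬ G'.Adj s t ∧ G'.Adj m s ∧ G'.Adj m t ∧
        ∀ u, G'.Adj m u → u ≠ s → u ≠ t → G'.Adj u s ∧ G'.Adj u t)

/-- E1: an edge subdivision of a homology sphere is a homology sphere -/
def E1 : Prop := ∀ (k n : ℕ) (G : SimpleGraph (Fin n)) (s t : Fin n), G.Adj s t → HSph k G → HSph k (sd G s t)

/-- E2: the realization of the subdivided complex -/
def E2 : Prop := ∀ (n : ℕ) (G : SimpleGraph (Fin n)) (s t : Fin n) (E : Type) [TopologicalSpace E]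
    (f : (Fin n → ℝ) → E), G.Adj s t → ContinuousOn f (Rea G) → Set.InjOn f (Rea G) →
    ∃ g : (Fin (n + 1) → ℝ) → E, ContinuousOn g (Rea (sd G s t)) ∧ Set.InjOn g (Rea (sd G s t)) ∧
      ∀ x ∈ Rea (sd G s t), ∃ y ∈ Rea G, g x = f y

/-- P2G: the midpoints of the subdivided edges do not contribute -/
def P2G : Prop := ∀ (V F : Type) [Fintype V] [LinearOrder V] [Field F] (G : SimpleGraph V) (A : Set V), MidP G A →
    ∀ ε : ℝ, (2 : F) ≠ 0 → 0 < ε →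
    ∃ E : Finset (W G), (1 : W G) ∉ E ∧ ∀ (Y : Type) [Fintype Y] (P : FSet G E Y) (i : ℕ),
      |(beta G (pull F P.a) Set.univ ∅ i : ℝ) - beta G (pull F P.a) A ∅ i| ≤ ε * Fintype.card Y

/-- The main theorem, for MP_98dedd_gt. `H` is a flag triangulation of the sphere of dimension `2 d` (a real homology
sphere, all of whose links are real homology spheres, and which is embedded in the unit sphere of the euclidean
space of dimension `2 d + 1`), `Z` is a doubled mod `p` cycle of dimension `d` in `H`, and the full subcomplex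
spanned by its vertices is properly coloured by `d + 1` colours. -/
def Main3S : Prop := ∀ (d N : ℕ) (H : SimpleGraph (Fin N)), 1 ≤ d → HSph (2 * d + 1) H →
    ∀ f : (Fin N → ℝ) → EuclideanSpace ℝ (Fin (2 * d + 1)), ContinuousOn f (Rea H) → (∀ x ∈ Rea H, ‖f x‖ = 1) →
    Set.InjOn f (Rea H) → ∀ (p : ℕ) [Fact p.Prime], p ≠ 2 → ∀ (Z : Dbl (ZMod p) H d) (c : Fin Z.n → Fin (d + 1)),
    (∀ v w a b, H.Adj (Z.j v a) (Z.j w b) → c v ≠ c w) →
    ∃ (n : ℕ) (S : SimpleGraph (Fin n)), Sub H S ∧ HSph (2 * d + 1) S ∧ ResFin (th S).ker ∧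
    (davis S).toFree.DetL2Acyclic ∧
    ((davis S).prod ((davis S).prod (davis S))).toFree.DetL2Acyclic ∧
    ((davis S).prod ((davis S).prod (davis S))).toFree.l2torsion = 0 ∧
    ∀ (K : ℕ → Subgroup (th S).ker) [∀ i, (K i).Normal], (∀ i, (K i).FiniteIndex) → Antitone K →
      ⨅ i, K i = ⊥ → ∀ c : ℝ, 0 < c → c < 2 ^ n / 2 ^ Z.U.card → ∀ᶠ i in atTop, c ^ 3 * Real.log p ≤
        Real.log ((((davis S).prod ((davis S).prod (davis S))).quot
          ((K i).prod ((K i).prod (K i)))).torsOrder (3 * d + 1)) / ((K i).prod ((K i).prod (K i))).index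

/-- the main theorem, for MP_228c3b_gt -/
def Main2S : Prop := ∀ (d N : ℕ) (H : SimpleGraph (Fin N)), 1 ≤ d → HSph (2 * d + 1) H →
    ∀ f : (Fin N → ℝ) → EuclideanSpace ℝ (Fin (2 * d + 1)), ContinuousOn f (Rea H) → (∀ x ∈ Rea H, ‖f x‖ = 1) →
    Set.InjOn f (Rea H) → ∀ (p : ℕ) [Fact p.Prime], p ≠ 2 → ∀ (Z : Dbl (ZMod p) H d) (c : Fin Z.n → Fin (d + 1)),
    (∀ v w a b, H.Adj (Z.j v a) (Z.j w b) → c v ≠ c w) →
    ∃ (n : ℕ) (S : SimpleGraph (Fin n)), Sub H S ∧ HSph (2 * d + 1) S ∧ ResFin (th S).ker ∧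
    ∀ (K : ℕ → Subgroup (th S).ker) [∀ i, (K i).Normal], (∀ i, (K i).FiniteIndex) → Antitone K →
      ⨅ i, K i = ⊥ → ∀ c : ℝ, 0 < c → c < 2 ^ n / 2 ^ Z.U.card → ∀ᶠ i in atTop, ∀ m, m = 2 * d ∨ m = 2 * d + 1 →
        c ^ 2 * Real.log p ≤ Real.log ((((davis S).prod (davis S)).quot
          ((K i).prod (K i))).torsOrder m) / ((K i).prod (K i)).index

end Pool.Agent.N496.LT
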