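import Pool.Agent.N496.LT.FinS
import Pool.Agent.N496.LT.All

/-!
# Project LT: the main theorems for flag spheres
-/

set_option autoImplicit false

namespace Pool.Agent.N496.LT

open Module Filter Topology Pool.Agent.W907.SG Pool.Agent.TH630.Tor Pool.Agent.W461.SGN Pool.Agent.R782.Bal
open Pool.Agent.TH652.Above (HSph)

theorem main3S (hC2 : C2) (hC3 : C3) (hE1 : E1) (hE2 : E2) (hP2 : P2G) : Main3S := by
  intro d N H hd hS f hf hf1 hfi p _ hp Z c hc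
  obtain ⟨n, S, A, κ, Z', h1, h2, h3, h4, h5, h6, h7⟩ := build hC2 hC3 hE1 hE2 H hd hS f hf hf1 hfi Z c hc
  obtain ⟨g1, g2, g3, g4, g5⟩ := mainG3 p1 hP2 p3A p3T p4B p4R (p4A p4R) p5A p5B h3 κ h4 h5 p hp Z' h6
  rw [h7, Fintype.card_fin] at g5
  exact ⟨n, S, h1, h2, g1, g2, g3, g4, fun K _ => g5 K⟩

theorem main2S (hC2 : C2) (hC3 : C3) (hE1 : E1) (hE2 : E2) (hP2 : P2G) : Main2S := by
  intro d N H hd hS f hf hf1 hfi p _ hp Z c hc
  obtain ⟨n, S, A, κ, Z', h1, h2, h3, h4, h5, h6, h7⟩ := build hC2 hC3 hE1 hE2 H hd hS f hf hf1 hfi Z c hc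
  obtain ⟨g1, g5⟩ := mainG2 p1 hP2 p3A p3S p4B p4R h3 κ h4 h5 p hp Z' h6
  rw [h7, Fintype.card_fin] at g5
  exact ⟨n, S, h1, h2, g1, fun K _ => g5 K⟩

end Pool.Agent.N496.LT
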