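import Pool.Agent.N496.LT.Defs

/-!
# Project LT: statements
-/

set_option autoImplicit false

open scoped Matrix

noncomputable section

namespace Pool.Agent.N496.LT

open Module Filter Topology Pool.Agent.W907.SG Pool.Agent.TH630.Tor Pool.Agent.W461.SGN Pool.Agent.R782.Bal
open Pool.Agent.TH652.Above (HSph)
open Pool.Agent.Y132.SI (aa)

/-- A doubled `d`-cycle with coefficients in `F` in the flag complex of the graph `G`: `z` is a nonzero simplicial
`d`-cycle on the vertex set `Fin n`; every vertex `v` has two lifts `j v false`, `j v true` in `G`, which are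
different and not adjacent, except that the vertices in `U` have only one lift; lifts of different vertices are
different; all the lifts of the simplices with nonzero coefficient are simplices (cliques) of `G`, and so is `U`. -/
structure Dbl (F : Type) [Field F] {V : Type} (G : SimpleGraph V) (d : ℕ) where
  n : ℕ
  z : Finset (Fin n) → F
  j : Fin n → Bool → V
  U : Finset (Fin n)
  z_ne : z ≠ 0
  z_card : ∀ σ, z σ ≠ 0 → σ.card = d + 1
  z_cyc : ∀ τ : Finset (Fin n), ∑ v ∈ τᶜ, (sg v τ) • z (insert v τ) = 0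
  j_ne : ∀ v w, v ≠ w → ∀ a b, j v a ≠ j w b
  j_U : ∀ v ∈ U, j v true = j v false
  j_adj : ∀ v, v ∉ U → j v true ≠ j v false ∧ ¬ G.Adj (j v true) (j v false)
  clique : ∀ σ, z σ ≠ 0 → ∀ v ∈ σ, ∀ w ∈ σ, v ≠ w → ∀ a b, G.Adj (j v a) (j w b)
  cliqueU : ∀ v ∈ U, ∀ w ∈ U, v ≠ w → G.Adj (j v true) (j w true)

/-- finite `W G`-sets on which the elements of `E` act without fixed points -/
structure FSet {V : Type} (G : SimpleGraph V) (E : Finset (W G)) (Y : Type) where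
  a : V → Y → Y
  ev : Y → W G → Y
  inv : ∀ v x, a v (a v x) = x
  comm : ∀ u v, G.Adj u v → ∀ x, a u (a v x) = a v (a u x)
  ev_one : ∀ x, ev x 1 = x
  ev_mul : ∀ x g h, ev x (g * h) = ev (ev x g) h
  ev_simple : ∀ x v, ev x ((cox G).simple v) = a v x
  free : ∀ g ∈ E, ∀ x, ev x g ≠ x

/-- P1: growth of the number of top-dimensional cycles -/
def P1 : Prop := ∀ (V F : Type) [Fintype V] [LinearOrder V] [Field F] (G : SimpleGraph V) (d : ℕ) (X : Dbl F G d)
    (ε : ℝ), (2 : F) ≠ 0 → 0 < ε → ∃ E : Finset (W G), (1 : W G) ∉ E ∧ ∀ (Y : Type) [Fintype Y] (P : FSet G E Y)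
    (A : Set V), (∀ v b, X.j v b ∈ A) →
      ((1 / 2) ^ X.U.card - ε) * Fintype.card Y ≤ finrank F (ZZ G (pull F P.a) A ∅ (d + 1))

/-- P2: the midpoints of the subdivided edges do not contribute -/
def P2 : Prop := ∀ (N k : ℕ) (F : Type) [Field F] (X : Finset (Finset (Fin N))) (col : Fin N → Fin k),
    (∀ σ ∈ X, ∀ τ : Finset (Fin N), τ ⊆ σ → τ ∈ X) →
    (∀ σ ∈ X, (∀ v ∈ σ, ∀ w ∈ σ, col v = col w) → σ.card ≤ 2) →
    ∀ [Fintype (MF X col)] [LinearOrder (MF X col)] (ε : ℝ), (2 : F) ≠ 0 → 0 < ε →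
    ∃ E : Finset (W (cs X col)), (1 : W (cs X col)) ∉ E ∧ ∀ (Y : Type) [Fintype Y] (P : FSet (cs X col) E Y) (i : ℕ),
      |(beta (cs X col) (pull F P.a) Set.univ ∅ i : ℝ) -
        beta (cs X col) (pull F P.a) {σ | σ.1.card = 1} ∅ i| ≤ ε * Fintype.card Y

/-- P3A: the torsion of a complex over a finite group from the ranks -/
def P3A : Prop := ∀ (Q : Type) [Group Q] [Fintype Q] (C : GCx Q) (p : ℕ) [Fact p.Prime] (n : ℕ),
    C.rk (ZMod p) n ≤ C.rk ℝ n ∧ (0 ≤ C.betti ℝ n) ∧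
    (C.betti (ZMod p) (n + 1) - C.betti ℝ (n + 1) - C.betti (ZMod p) (n + 2) ≤ C.tp p n)

/-- P3T: torsion of a triple product -/
def P3T : Prop := ∀ (G : Type) [Group G] (C : GCx G) (N : Subgroup G) [N.Normal] [Fintype (G ⧸ N)] (p : ℕ)
    [Fact p.Prime] (d : ℕ),
    p ^ ((C.quot N).tp p d) ^ 3 ≤ ((C.prod (C.prod C)).quot (N.prod (N.prod N))).torsOrder (3 * d + 1)

/-- P3S: torsion of a square -/
def P3S : Prop := ∀ (G : Type) [Group G] (C : GCx G) (N : Subgroup G) [N.Normal] [Fintype (G ⧸ N)] (p : ℕ)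
    [Fact p.Prime] (d : ℕ),
    p ^ ((C.quot N).tp p d) ^ 2 ≤ ((C.prod C).quot (N.prod N)).torsOrder (2 * d) ∧
    p ^ ((C.quot N).tp p d) ^ 2 ≤ ((C.prod C).quot (N.prod N)).torsOrder (2 * d + 1)

/-- P4B: Betti numbers of the quotients of the Davis complex -/
def P4B : Prop := ∀ (V F : Type) [Fintype V] [LinearOrder V] [Field F] (G : SimpleGraph V)
    (N : Subgroup (th G).ker) [N.Normal] [Fintype ((th G).ker ⧸ N)]
    [Fintype (Quotient (QuotientGroup.rightRel (N.map (th G).ker.subtype)))] (n : ℕ), (2 : F) ≠ 0 →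
    ((davis G).quot N).betti F n =
      beta G (pull F (aa G (N.map (th G).ker.subtype))) Set.univ ∅ n

/-- P4R: residual finiteness -/
def P4R : Prop := ∀ (V : Type) [Finite V] (G : SimpleGraph V), ResFin (th G).ker

/-- P4A: acyclicity -/
def P4A : Prop := ∀ (V : Type) [Fintype V] [LinearOrder V] (G : SimpleGraph V), (∀ i, L2Van G i) →
    (davis G).toFree.DetL2Acyclic

/-- P5: products -/
def P5 : Prop := ∀ (G H : Type) [Group G] [Group H] (C : GCx G) (E : GCx H), ResFin G → ResFin H →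
    C.toFree.DetL2Acyclic → E.toFree.DetL2Acyclic →
    (C.prod E).toFree.DetL2Acyclic ∧ (C.prod E).toFree.l2torsion = 0

/-- the main theorem, for MP_98dedd_gt -/
def Main3 : Prop := ∀ (d N : ℕ) (X : Finset (Finset (Fin N))) (col : Fin N → Fin (d + 1)),
    (∀ σ ∈ X, ∀ τ : Finset (Fin N), τ ⊆ σ → τ ∈ X) →
    (∀ σ ∈ X, (∀ v ∈ σ, ∀ w ∈ σ, col v = col w) → σ.card ≤ 2) → EmbX d X col →
    ∀ [Fintype (MF X col)] [LinearOrder (MF X col)], HSph (2 * d + 1) (cs X col) →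
    ∀ (p : ℕ) [Fact p.Prime], p ≠ 2 → ∀ Z : Dbl (ZMod p) (cs X col) d, (∀ v b, (Z.j v b).1.card = 1) →
    ResFin (th (cs X col)).ker ∧
    (davis (cs X col)).toFree.DetL2Acyclic ∧
    ((davis (cs X col)).prod ((davis (cs X col)).prod (davis (cs X col)))).toFree.DetL2Acyclic ∧
    ((davis (cs X col)).prod ((davis (cs X col)).prod (davis (cs X col)))).toFree.l2torsion = 0 ∧
    ∀ (K : ℕ → Subgroup (th (cs X col)).ker) [∀ i, (K i).Normal], (∀ i, (K i).FiniteIndex) → Antitone K →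
      ⨅ i, K i = ⊥ → ∀ c : ℝ, 0 < c → c < 2 ^ Fintype.card (MF X col) / 2 ^ Z.U.card → ∀ᶠ i in atTop, c ^ 3 * Real.log p ≤
        Real.log ((((davis (cs X col)).prod ((davis (cs X col)).prod (davis (cs X col)))).quot
          ((K i).prod ((K i).prod (K i)))).torsOrder (3 * d + 1)) / ((K i).prod ((K i).prod (K i))).index

/-- the main theorem, for MP_228c3b_gt -/
def Main2 : Prop := ∀ (d N : ℕ) (X : Finset (Finset (Fin N))) (col : Fin N → Fin (d + 1)),
    (∀ σ ∈ X, ∀ τ : Finset (Fin N), τ ⊆ σ → τ ∈ X) →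
    (∀ σ ∈ X, (∀ v ∈ σ, ∀ w ∈ σ, col v = col w) → σ.card ≤ 2) → EmbX d X col →
    ∀ [Fintype (MF X col)] [LinearOrder (MF X col)], HSph (2 * d + 1) (cs X col) →
    ∀ (p : ℕ) [Fact p.Prime], p ≠ 2 → ∀ Z : Dbl (ZMod p) (cs X col) d, (∀ v b, (Z.j v b).1.card = 1) →
    ResFin (th (cs X col)).ker ∧
    ∀ (K : ℕ → Subgroup (th (cs X col)).ker) [∀ i, (K i).Normal], (∀ i, (K i).FiniteIndex) → Antitone K →
      ⨅ i, K i = ⊥ → ∀ c : ℝ, 0 < c → c < 2 ^ Fintype.card (MF X col) / 2 ^ Z.U.card → ∀ᶠ i in atTop, ∀ n, n = 2 * d ∨ n = 2 * d + 1 →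
        c ^ 2 * Real.log p ≤ Real.log ((((davis (cs X col)).prod (davis (cs X col))).quot
          ((K i).prod (K i))).torsOrder n) / ((K i).prod (K i)).index

end Pool.Agent.N496.LT
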